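import Mathlib

/-!
# Closeness of characteristic functions and of distribution functions (owner helper786)
-/

set_option autoImplicit false

open MeasureTheory ProbabilityTheory Complex Filter Topology Set

namespace Pool.Agent.N786.E

/-- the distribution function of the standard normal law -/
noncomputable def Phi (x : ℝ) : ℝ := (√(2 * Real.pi))⁻¹ * ∫ y in Iic x, Real.exp (-(y ^ 2) / 2)

lemma Phi_eq (x : ℝ) : Phi x = (gaussianReal 0 1).real (Iic x) := by
  unfold Phi Measure.real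
  rw [gaussianReal_apply _ (by norm_num)]
  have e0 : ∀ y, gaussianPDF 0 1 y = ENNReal.ofReal (gaussianPDFReal 0 1 y) := fun y => rfl
  simp_rw [e0]
  rw [← ofReal_integral_eq_lintegral_ofReal
    (integrable_gaussianPDFReal 0 1).integrableOn
    (Eventually.of_forall fun y => gaussianPDFReal_nonneg 0 1 y), ENNReal.toReal_ofReal
    (integral_nonneg fun y => gaussianPDFReal_nonneg 0 1 y), ← integral_const_mul]
  refine setIntegral_congr_fun measurableSet_Iic fun y _ => ?_
  simp only [gaussianPDFReal]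
  simp

/-- **closeness of the characteristic functions implies closeness of the distribution functions** -/
theorem cdf_close (x ε : ℝ) (hε : 0 < ε) : ∃ Ξ δ : ℝ, 1 ≤ Ξ ∧ 0 < δ ∧
    ∀ ν : Measure ℝ, IsProbabilityMeasure ν →
      (∀ ξ : ℝ, |ξ| ≤ Ξ → ‖charFun ν ξ - cexp (-((ξ : ℂ) ^ 2 / 2))‖ ≤ δ) →
      |ν.real (Iic x) - Phi x| ≤ ε := by
  by_contra hcon
  push Not at hcon
  have h1 : ∀ n : ℕ, ∃ ν : Measure ℝ, IsProbabilityMeasure ν ∧
      (∀ ξ : ℝ, |ξ| ≤ (n : ℝ) + 1 → ‖charFun ν ξ - cexp (-((ξ : ℂ) ^ 2 / 2))‖ ≤ 1 / ((n : ℝ) + 1)) ∧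
      ε < |ν.real (Iic x) - Phi x| := fun n => by
    obtain ⟨ν, a1, a2, a3⟩ := hcon ((n : ℝ) + 1) (1 / ((n : ℝ) + 1)) (by
      have : (0 : ℝ) ≤ n := Nat.cast_nonneg n
      linarith) (by positivity)
    exact ⟨ν, a1, a2, a3⟩
  choose ν hν1 hν2 hν3 using h1
  set μ : ℕ → ProbabilityMeasure ℝ := fun n => ⟨ν n, hν1 n⟩ with hμ
  set μ₀ : ProbabilityMeasure ℝ := ⟨gaussianReal 0 1, inferInstance⟩ with hμ₀
  have hchar : ∀ ξ : ℝ, charFun (gaussianReal 0 1) ξ = cexp (-((ξ : ℂ) ^ 2 / 2)) := by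
    intro ξ
    rw [charFun_gaussianReal]
    congr 1
    push_cast
    ring
  have hconv : Tendsto μ atTop (𝓝 μ₀) := by
    refine ProbabilityMeasure.tendsto_of_tendsto_charFun fun ξ => ?_
    have e1 : ((μ₀ : Measure ℝ)) = gaussianReal 0 1 := rfl
    rw [e1, hchar ξ, tendsto_iff_norm_sub_tendsto_zero]
    refine squeeze_zero' (Eventually.of_forall fun n => norm_nonneg _) ?_
      (tendsto_one_div_add_atTop_nhds_zero_nat (𝕜 := ℝ))
    obtain ⟨N, hN⟩ := exists_nat_ge |ξ|
    filter_upwards [eventually_ge_atTop N] with n hn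
    refine hν2 n ξ ?_
    have : (N : ℝ) ≤ n := by exact_mod_cast hn
    linarith
  have hfr : (μ₀ : Measure ℝ) (frontier (Iic x)) = 0 := by
    have e1 : ((μ₀ : Measure ℝ)) = gaussianReal 0 1 := rfl
    rw [frontier_Iic, e1]
    have : NullSingletonClass (gaussianReal 0 1) := nullSingletonClass_gaussianReal (by norm_num)
    exact measure_singleton x
  have hlim := ProbabilityMeasure.tendsto_measure_of_null_frontier_of_tendsto' hconv hfr
  have hlim2 : Tendsto (fun n => (ν n).real (Iic x)) atTop (𝓝 (Phi x)) := by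
    rw [Phi_eq]
    exact (ENNReal.tendsto_toReal (measure_ne_top _ _)).comp hlim
  rw [tendsto_iff_norm_sub_tendsto_zero] at hlim2
  obtain ⟨n, hn⟩ := (hlim2.eventually (Iio_mem_nhds hε)).exists
  have h3 := hν3 n
  rw [Real.norm_eq_abs] at hn
  linarith

end Pool.Agent.N786.E
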