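import Pool.Agent.N786.D.Asm3

/-!
# The mean square of `L M - 1` to the right of the critical line (owner helper786)
-/

set_option autoImplicit false
set_option linter.unusedSectionVars false

open NumberField NumberField.Units MeasureTheory Complex Filter Topology Set

namespace Pool.Agent.N786.E

open Pool.Agent.N786
open Pool.Agent.N786.D
open Pool.Agent.Y773 (LI)
open Pool.Agent.Y767
open Pool.Agent.R399.TW (pt pt_re pt_im pt_cont)

/-- **the mean square of `L M - 1`** -/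
theorem lm_right (K : Type) [Field K] [NumberField K] {α' α₁ α₂ β' β₁ β₂ A : ℝ} {φ θ : ℝ → ℝ}
    (hφ : Cutf α₁ α₂ φ) (hθ : Cutf β₁ β₂ θ) (hα' : 1 / 2 < α') (hα : α' < α₁) (hα₂ : 0 < α₂)
    (hβ' : 0 < β') (hβ'1 : β' < β₁)
    (hβ : 0 < β₂) (hβ1 : β₂ ≤ 1) (hA : 1 ≤ A) (n : ℕ) (hn : 1 ≤ n) :
    ∃ (κ Q R₀ : ℝ), 1 ≤ κ ∧ 0 ≤ Q ∧ 1 ≤ R₀ ∧
    ∀ (R T H P : ℝ) (S : Finset (Ideal (𝓞 K) →*₀ ℂ)) (ψ₀ : Ideal (𝓞 K) →*₀ ℂ)
      (F : (Ideal (𝓞 K) →*₀ ℂ) → ℂ → ℂ), R₀ ≤ R → 1 ≤ H → H ≤ T → S.card * H ≤ P →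
      LSP S ψ₀ H P (⌊Real.exp (α₂ * R)⌋₊ * ⌊Real.exp (β₂ * R)⌋₊) →
      (∀ lam, Differentiable ℂ (F lam)) → (∀ lam ∈ S, GLf A T R n (pr ψ₀ lam) (F lam)) →
      ∀ t₁ : ℝ, |t₁| ≤ T → ∀ r : ℝ, 0 < r → r ≤ 3 →
      QQ S (fun lam s => F lam s * Mp θ R ⌊Real.exp (β₂ * R)⌋₊ ψ₀ lam s - 1) (1 / 2 + κ / R + r) H t₁ ≤
        ENNReal.ofReal (Q * P * Real.exp (-(2 * (β' * R * r)))) := by
  obtain ⟨κ, a, R₀, k, E, hκ, ha, hR₀, hmain⟩ :=
    mean_near K hφ hθ hα' hα hα₂ hβ hβ1 hA n hn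
  obtain ⟨B, hB⟩ : ∃ B : ℕ, B = n + E + 3 := ⟨_, rfl⟩
  have hZ := ZK_nonneg (K := K)
  obtain ⟨C₀, hC₀⟩ : ∃ C₀ : ℝ, C₀ = cB B 0 * (3 ^ E * cB B E) := ⟨_, rfl⟩
  have hC₀0 : 0 ≤ C₀ := by
    rw [hC₀]
    have := cB_nn B 0
    have := cB_nn B E
    positivity
  have hβ₁ : 0 < β₁ := by linarith
  refine ⟨κ, C₀ * (2 * a + 2) * 2 ^ E, R₀, hκ, by positivity, hR₀, ?_⟩
  intro R T H P S ψ₀ F hR1 hH hHT hP hls hFd hF t₁ ht₁ r hr hr3
  have hRone : 1 ≤ R := hR₀.trans hR1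
  have hR0 : 0 < R := by linarith
  have hT : 1 ≤ T := hH.trans hHT
  have hT0 : 0 < T := by linarith
  have hP0 : 0 ≤ P := le_trans (by positivity) hP
  obtain ⟨a₀, ha₀⟩ : ∃ a₀ : ℝ, a₀ = 1 / 2 + κ / R := ⟨_, rfl⟩
  have hκR : 0 < κ / R := by positivity
  set M : (Ideal (𝓞 K) →*₀ ℂ) → ℂ → ℂ := fun lam => Mp θ R ⌊Real.exp (β₂ * R)⌋₊ ψ₀ lam with hM
  have hMd : ∀ lam, Differentiable ℂ (M lam) := fun lam => dpo_diff _ _ _
  set f : (Ideal (𝓞 K) →*₀ ℂ) → ℂ → ℂ := fun lam s => F lam s * M lam s - 1 with hf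
  have hfd : ∀ lam, Differentiable ℂ (f lam) := fun lam =>
    ((hFd lam).mul (hMd lam)).sub (differentiable_const _)
  -- the mean square on the line `a₀`
  have hms : ∀ t₀ : ℝ, QQ S f a₀ H t₀ ≤
      ENNReal.ofReal (P * (2 * a + 2) * (1 + |t₀| / T) ^ E) := by
    intro t₀
    have hJ := hmain R T H P S ψ₀ F hR1 hT (by linarith) hHT hP hls
      (fun lam => (hFd lam).continuous) hF t₀ 0
    rw [← ha₀] at hJ
    have e0 : wt T R k E t₀ 0 = (1 + |t₀| / T) ^ E := by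
      unfold wt
      rw [abs_zero, mul_zero, add_zero, one_pow, one_mul]
    rw [e0] at hJ
    have hΘ : 1 ≤ (1 + |t₀| / T) ^ E := one_le_pow₀ (by
      have : 0 ≤ |t₀| / T := by positivity
      linarith)
    have hpt : ∀ lam t, ENNReal.ofReal (‖f lam (pt a₀ t)‖ ^ 2) ≤
        ENNReal.ofReal 2 * ENNReal.ofReal (‖F lam (pt a₀ t)‖ ^ 2 * ‖M lam (pt a₀ (t - 0))‖ ^ 2) +
        ENNReal.ofReal 2 := by
      intro lam t
      rw [← ENNReal.ofReal_mul (by norm_num), ← ENNReal.ofReal_add (by positivity) (by norm_num),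
        sub_zero]
      refine ENNReal.ofReal_le_ofReal ?_
      simp only [hf]
      have h1 := norm_sub_le (F lam (pt a₀ t) * M lam (pt a₀ t)) 1
      rw [norm_mul, norm_one] at h1
      have h2 := pow_le_pow_left₀ (norm_nonneg _) h1 2
      have h3 : (‖F lam (pt a₀ t)‖ * ‖M lam (pt a₀ t)‖ + 1) ^ 2 ≤
          2 * (‖F lam (pt a₀ t)‖ ^ 2 * ‖M lam (pt a₀ t)‖ ^ 2) + 2 := by
        nlinarith [sq_nonneg (‖F lam (pt a₀ t)‖ * ‖M lam (pt a₀ t)‖ - 1)]
      linarith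
    unfold QQ
    calc ∑ lam ∈ S, ∫⁻ t in Icc t₀ (t₀ + H), ENNReal.ofReal (‖f lam (pt a₀ t)‖ ^ 2) ≤
        ∑ lam ∈ S, (ENNReal.ofReal 2 * (∫⁻ t in Icc t₀ (t₀ + H),
          ENNReal.ofReal (‖F lam (pt a₀ t)‖ ^ 2 * ‖M lam (pt a₀ (t - 0))‖ ^ 2)) +
          ENNReal.ofReal (2 * H)) := by
          refine Finset.sum_le_sum fun lam _ => (lintegral_mono (hpt lam)).trans ?_
          have hmeas : Measurable fun t : ℝ =>
              ENNReal.ofReal (‖F lam (pt a₀ t)‖ ^ 2 * ‖M lam (pt a₀ (t - 0))‖ ^ 2) := by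
            refine Measurable.ennreal_ofReal (Continuous.measurable ?_)
            have c1 : Continuous fun t : ℝ => ‖F lam (pt a₀ t)‖ :=
              ((hFd lam).continuous.comp (pt_cont _)).norm
            have c2 : Continuous fun t : ℝ => ‖M lam (pt a₀ (t - 0))‖ := by
              simp only [sub_zero]
              exact ((hMd lam).continuous.comp (pt_cont _)).norm
            exact (c1.pow 2).mul (c2.pow 2)
          rw [lintegral_add_left (hmeas.const_mul _), lintegral_const_mul _ hmeas,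
            setLIntegral_const, Real.volume_Icc, ← ENNReal.ofReal_mul (by norm_num)]
          refine add_le_add le_rfl (ENNReal.ofReal_le_ofReal (le_of_eq ?_))
          ring
      _ = ENNReal.ofReal 2 * JJ S F M a₀ a₀ H t₀ 0 + ENNReal.ofReal (S.card * (2 * H)) := by
          rw [Finset.sum_add_distrib, ← Finset.mul_sum, Finset.sum_const, nsmul_eq_mul,
            ENNReal.ofReal_mul (Nat.cast_nonneg _), ENNReal.ofReal_natCast]
          rfl
      _ ≤ ENNReal.ofReal 2 * ENNReal.ofReal (P * a * (1 + |t₀| / T) ^ E) +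
          ENNReal.ofReal (2 * P * (1 + |t₀| / T) ^ E) := by
          refine add_le_add (mul_le_mul_right hJ _) (ENNReal.ofReal_le_ofReal ?_)
          calc (S.card : ℝ) * (2 * H) = 2 * (S.card * H) * 1 := by ring
            _ ≤ 2 * P * (1 + |t₀| / T) ^ E := by gcongr
      _ = _ := by
          rw [← ENNReal.ofReal_mul (by norm_num), ← ENNReal.ofReal_add (by positivity)
            (by positivity)]
          congr 1
          ring
  have h1 := QQ_right (I := S) (f := f) hfd (a := a₀) (μ := β' * R) (lam := β₁ * R) (T := T)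
      (H := H) (Q := P * (2 * a + 2)) (m := n) (B := B) (E := E) hT (by positivity) (by omega)
      (by omega) (by nlinarith) (fun lam hl => by
        obtain ⟨G, hG⟩ := grow_f (β₂ := β₂) hθ hβ₁ hR0 hT hA (hF lam hl)
        exact ⟨G, fun z hz => hG z (by rw [ha₀] at hz; linarith)⟩) hms hr hr3 t₁
  rw [← hC₀] at h1
  rw [← ha₀]
  refine h1.trans (ENNReal.ofReal_le_ofReal ?_)
  have h2 : (1 + |t₁| / T) ^ E ≤ 2 ^ E := by
    refine pow_le_pow_left₀ (by positivity) ?_ E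
    have : |t₁| / T ≤ 1 := by rw [div_le_one hT0]; exact ht₁
    linarith
  calc C₀ * (P * (2 * a + 2)) * Real.exp (-(2 * (β' * R * r))) * (1 + |t₁| / T) ^ E ≤
      C₀ * (P * (2 * a + 2)) * Real.exp (-(2 * (β' * R * r))) * 2 ^ E := by gcongr
    _ = _ := by ring

end Pool.Agent.N786.E
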