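import Pool.Agent.N786.E.Lst
import Pool.Agent.N786.D.Asm3

/-!
# The mean square of `L TK(-P)` near the critical line (owner helper786)
-/

set_option autoImplicit false
set_option linter.unusedSectionVars false

open NumberField NumberField.Units MeasureTheory Complex Filter Topology Set

namespace Pool.Agent.N786.E

open Pool.Agent.N786
open Pool.Agent.N786.D
open Pool.Agent.Y773 (LI)
open Pool.Agent.Y767
open Pool.Agent.Y772.DK (nr nr_nonneg nr_summable LA term_summable LA_le absNorm_pos')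
open Pool.Agent.R399.TW (pt pt_re pt_im pt_cont)

lemma TK_le (N : ℕ) (w : ℂ) : ‖TK N w‖ ≤ (1 + ‖w‖) ^ N := by
  unfold TK
  refine (norm_sum_le _ _).trans ?_
  have e1 : (1 + ‖w‖) ^ N = ∑ n ∈ Finset.range (N + 1), ‖w‖ ^ n * (Nat.choose N n : ℝ) := by
    rw [add_comm, add_pow]
    refine Finset.sum_congr rfl fun n _ => ?_
    rw [one_pow, mul_one]
  rw [e1]
  refine Finset.sum_le_sum fun n hn => ?_
  rw [norm_div, norm_pow, Complex.norm_natCast]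
  rw [div_eq_mul_inv]
  refine mul_le_mul_of_nonneg_left ?_ (by positivity)
  have h1 : 1 ≤ Nat.choose N n := Nat.choose_pos (by
    have := Finset.mem_range.mp hn
    omega)
  have h2 : (1 : ℝ) ≤ Nat.choose N n := by exact_mod_cast h1
  refine le_trans ?_ h2
  refine inv_le_one_of_one_le₀ ?_
  exact_mod_cast Nat.one_le_iff_ne_zero.mpr (Nat.factorial_ne_zero n)

section

variable {K : Type} [Field K] [NumberField K]

open Classical in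
lemma Pr_le {Y : ℝ} {χ : Ideal (𝓞 K) →*₀ ℂ} (h1 : ∀ 𝔞, ‖χ 𝔞‖ ≤ 1) {s : ℂ} (hs : 1 / 2 ≤ s.re) :
    ‖Pr 0 Y χ s‖ ≤ Real.exp Y * ZK K := by
  unfold Pr
  refine (norm_sum_le _ _).trans ?_
  have hE : 0 ≤ Real.exp Y := (Real.exp_pos _).le
  have h2 : ∀ 𝔞 ∈ (SI K ⌊Real.exp Y⌋₊).filter Prime, ‖(Real.exp (-(0 * lN 𝔞)) : ℂ) * χ 𝔞 *
      cexp (-(s * (lN 𝔞 : ℂ)))‖ ≤ Real.exp Y * nr K (3 / 2) 𝔞 := by
    intro 𝔞 h𝔞'
    have h𝔞 := (Finset.mem_filter.mp h𝔞').1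
    have ha := SI_ne h𝔞
    have hN : 0 < (Ideal.absNorm 𝔞 : ℝ) := by exact_mod_cast absNorm_pos' ha
    rw [zero_mul, neg_zero, Real.exp_zero, Complex.ofReal_one, one_mul, norm_mul, Complex.norm_exp]
    have h4 : (-(s * (lN 𝔞 : ℂ))).re = -(s.re * lN 𝔞) := by simp
    rw [h4]
    have h5 : Real.exp (-(s.re * lN 𝔞)) ≤ Real.exp Y * nr K (3 / 2) 𝔞 := by
      unfold nr
      rw [Real.rpow_def_of_pos hN, ← Real.exp_add]
      refine Real.exp_le_exp.mpr ?_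
      have h6 : lN 𝔞 ≤ Y := (lN_le_iff ha Y).mpr (mem_SI.mp h𝔞).2
      have h9 := lN_nonneg 𝔞
      have h10 : Real.log (Ideal.absNorm 𝔞 : ℝ) = lN 𝔞 := rfl
      rw [h10]
      nlinarith
    calc _ ≤ 1 * Real.exp (-(s.re * lN 𝔞)) :=
          mul_le_mul_of_nonneg_right (h1 _) (Real.exp_pos _).le
      _ ≤ _ := by rw [one_mul]; exact h5
  refine (Finset.sum_le_sum h2).trans ?_
  rw [← Finset.mul_sum]
  refine mul_le_mul_of_nonneg_left ?_ hE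
  exact (nr_summable K (by norm_num)).sum_le_tsum _ fun 𝔞 _ => nr_nonneg K _ 𝔞

lemma TK_Pr_le {Y R : ℝ} {N : ℕ} (hY : 0 ≤ Y) (hNY : N * Y ≤ R / 2)
    (hNZ : N * Real.log (1 + ZK K) ≤ R / 2) {s : ℝ} (hs : s = 1 ∨ s = -1)
    {χ : Ideal (𝓞 K) →*₀ ℂ} (h1 : ∀ 𝔞, ‖χ 𝔞‖ ≤ 1) {z : ℂ} (hz : 1 / 2 ≤ z.re) :
    ‖TK N ((s : ℂ) * Pr 0 Y χ z)‖ ≤ Real.exp R := by
  have hZ := ZK_nonneg (K := K)
  refine (TK_le _ _).trans ?_
  have h2 : ‖(s : ℂ) * Pr 0 Y χ z‖ ≤ Real.exp Y * ZK K := by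
    rw [norm_mul]
    have : ‖(s : ℂ)‖ = 1 := by
      rcases hs with rfl | rfl <;> simp
    rw [this, one_mul]
    exact Pr_le h1 hz
  have h3 : 1 + ‖(s : ℂ) * Pr 0 Y χ z‖ ≤ Real.exp Y * (1 + ZK K) := by
    have : 1 ≤ Real.exp Y := Real.one_le_exp hY
    linarith
  refine (pow_le_pow_left₀ (by positivity) h3 N).trans ?_
  have h4 : (Real.exp Y * (1 + ZK K)) ^ N = Real.exp (N * Y + N * Real.log (1 + ZK K)) := by
    rw [mul_pow, Real.exp_add, Real.exp_nat_mul, Real.exp_nat_mul, Real.exp_log (by linarith)]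
  rw [h4]
  exact Real.exp_le_exp.mpr (by linarith)

/-- the trivial bound -/
lemma JJ_triv2 {A T R H P : ℝ} {n : ℕ}
    (hT : 1 ≤ T) (hA : 1 ≤ A) (hHT : H ≤ T)
    {E : Finset (Ideal (𝓞 K) →*₀ ℂ)} {ψ₀ : Ideal (𝓞 K) →*₀ ℂ} (hP : E.card * H ≤ P)
    {F Mo : (Ideal (𝓞 K) →*₀ ℂ) → ℂ → ℂ} (h : ∀ lam ∈ E, GLf A T R n (pr ψ₀ lam) (F lam)) {δ : ℝ}
    (hδ : 0 < δ) (hMo : ∀ lam ∈ E, ∀ t : ℝ, ‖Mo lam (pt (1 / 2 + δ) t)‖ ≤ Real.exp R) (t₀ v₀ : ℝ) :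
    JJ E F Mo (1 / 2 + δ) (1 / 2 + δ) H t₀ v₀ ≤
      ENNReal.ofReal (P * (A ^ 2 * 4 ^ n) * Real.exp (4 * R) *
        (1 + |t₀| / T) ^ (2 * n)) := by
  have hT0 : 0 < T := by linarith
  obtain ⟨B, hB⟩ : ∃ B : ℝ, B = (A ^ 2 * 4 ^ n) * Real.exp (4 * R) *
    (1 + |t₀| / T) ^ (2 * n) := ⟨_, rfl⟩
  have hB0 : 0 ≤ B := by rw [hB]; positivity
  have hpt : ∀ lam ∈ E, ∀ t ∈ Icc t₀ (t₀ + H), ‖F lam (pt (1 / 2 + δ) t)‖ ^ 2 *
      ‖Mo lam (pt (1 / 2 + δ) (t - v₀))‖ ^ 2 ≤ B := by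
    intro lam hl t ht
    have h1 := (h lam hl).gr (pt (1 / 2 + δ) t) (by rw [pt_re]; linarith)
    rw [pt_im] at h1
    have h2 := hMo lam hl (t - v₀)
    have h3 : 1 + |t| / T ≤ 2 * (1 + |t₀| / T) := by
      have h4 : |t| ≤ |t₀| + T := by
        have : |t - t₀| ≤ T := by
          rw [abs_of_nonneg (by linarith [ht.1])]
          linarith [ht.2]
        have h5 := abs_add_le (t - t₀) t₀
        rw [sub_add_cancel] at h5
        linarith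
      have h6 : |t| / T ≤ |t₀| / T + 1 := by
        rw [div_le_iff₀ hT0, add_mul, div_mul_cancel₀ _ hT0.ne']
        linarith
      have h7 : 0 ≤ |t₀| / T := by positivity
      linarith
    have h8 : ‖F lam (pt (1 / 2 + δ) t)‖ ^ 2 ≤ A ^ 2 * Real.exp (2 * R) * (4 ^ n *
        (1 + |t₀| / T) ^ (2 * n)) := by
      have h9 : ‖F lam (pt (1 / 2 + δ) t)‖ ≤ A * Real.exp R * (2 * (1 + |t₀| / T)) ^ n := by
        refine h1.trans ?_
        gcongr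
      refine (pow_le_pow_left₀ (norm_nonneg _) h9 2).trans (le_of_eq ?_)
      rw [mul_pow, mul_pow, ← Real.exp_nat_mul, ← pow_mul, mul_pow, mul_comm n 2, pow_mul 2]
      norm_num
    have h10 : ‖Mo lam (pt (1 / 2 + δ) (t - v₀))‖ ^ 2 ≤ Real.exp (2 * R) := by
      refine (pow_le_pow_left₀ (norm_nonneg _) h2 2).trans (le_of_eq ?_)
      rw [← Real.exp_nat_mul]
      norm_num
    refine (mul_le_mul h8 h10 (by positivity) (by positivity)).trans (le_of_eq ?_)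
    rw [hB]
    have e1 : Real.exp (4 * R) = Real.exp (2 * R) * Real.exp (2 * R) := by
      rw [← Real.exp_add]; congr 1; ring
    rw [e1]
    ring
  unfold JJ
  calc _ ≤ ∑ _lam ∈ E, ENNReal.ofReal (B * H) := by
        refine Finset.sum_le_sum fun lam hl => ?_
        refine (setLIntegral_mono' measurableSet_Icc fun t ht =>
          ENNReal.ofReal_le_ofReal (hpt lam hl t ht)).trans ?_
        rw [setLIntegral_const, Real.volume_Icc, ← ENNReal.ofReal_mul hB0]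
        refine ENNReal.ofReal_le_ofReal (le_of_eq ?_)
        ring
    _ = ENNReal.ofReal (E.card * (B * H)) := by
        rw [Finset.sum_const, nsmul_eq_mul, ENNReal.ofReal_mul (Nat.cast_nonneg _),
          ENNReal.ofReal_natCast]
    _ ≤ _ := by
        refine ENNReal.ofReal_le_ofReal ?_
        calc (E.card : ℝ) * (B * H) = (E.card * H) * B := by ring
          _ ≤ P * B := mul_le_mul_of_nonneg_right hP hB0
          _ = _ := by rw [hB]; ring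

end

/-- existence of the constant `κ` -/
lemma kappa_all (c₁ g : ℝ) (k : ℕ) (hg : 0 < g) :
    ∃ κ₀ : ℝ, 1 ≤ κ₀ ∧ ∀ κ : ℝ, κ₀ ≤ κ → c₁ * ((1 + 2 * κ) ^ k * Real.exp (-(g * κ))) ≤ 1 / 2 := by
  have h1 : Tendsto (fun κ : ℝ => c₁ * ((1 + 2 * κ) ^ k * Real.exp (-(g * κ)))) atTop (𝓝 0) := by
    have h2 : Tendsto (fun κ : ℝ => (1 + 2 * κ) ^ k * Real.exp (-(g / 2 * (1 + 2 * κ)))) atTop
        (𝓝 0) := by
      have h3 : Tendsto (fun x : ℝ => x ^ k * Real.exp (-(g / 2 * x))) atTop (𝓝 0) := by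
        have h4 := tendsto_rpow_mul_exp_neg_mul_atTop_nhds_zero (k : ℝ) (g / 2) (by positivity)
        refine h4.congr fun x => ?_
        rw [Real.rpow_natCast]
        congr 2
        ring
      refine h3.comp ?_
      exact tendsto_atTop_add_const_left _ _ (tendsto_id.const_mul_atTop two_pos)
    have h5 := (h2.mul_const (Real.exp (g / 2))).const_mul c₁
    rw [zero_mul, mul_zero] at h5
    refine h5.congr fun κ => ?_
    rw [mul_assoc, ← Real.exp_add]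
    congr 3
    ring
  obtain ⟨κ₀, h6⟩ := (h1.eventually (Iio_mem_nhds (show (0 : ℝ) < 1 / 2 by norm_num))).exists_forall_of_atTop
  exact ⟨max κ₀ 1, le_max_right _ _, fun κ hκ => (mem_Iio.mp (h6 κ ((le_max_left _ _).trans hκ))).le⟩

/-- **The mean square of `L TK(-P)`** -/
theorem mean_TK (K : Type) [Field K] [NumberField K] {α' α₁ α₂ A : ℝ} {φ : ℝ → ℝ}
    (hφ : Cutf α₁ α₂ φ) (hα' : 1 / 2 < α') (hα : α' < α₁)
    (hA : 1 ≤ A) (n : ℕ) (hn : 1 ≤ n) :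
    ∃ (κ₀ : ℝ) (k E : ℕ), 1 ≤ κ₀ ∧ ∀ κ : ℝ, κ₀ ≤ κ → ∃ a : ℝ, 0 ≤ a ∧
    ∀ (R T H P Y w₁ : ℝ) (N : ℕ) (S : Finset (Ideal (𝓞 K) →*₀ ℂ)) (ψ₀ : Ideal (𝓞 K) →*₀ ℂ)
      (F : (Ideal (𝓞 K) →*₀ ℂ) → ℂ → ℂ), 4 * κ ≤ R → 1 ≤ T → 0 ≤ H → H ≤ T → S.card * H ≤ P →
      0 < Y → 1 / Y ≤ w₁ →
      w₁ ≤ 1 / 2 → 3200 * (24 * (Module.finrank ℚ K : ℝ)) * Real.log (1 + R) ≤ 2 * N → 1 ≤ N →
      N * Y ≤ R / 2 → N * Real.log (1 + ZK K) ≤ R / 2 →
      LSP S ψ₀ H P (⌊Real.exp (α₂ * R)⌋₊ * ⌊Real.exp (N * Y)⌋₊) →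
      (∀ lam, Continuous (F lam)) → (∀ lam ∈ S, GLf A T R n (pr ψ₀ lam) (F lam)) →
      ∀ t₀ v₀ : ℝ, JJ S F (fun lam z => TK N (((-1 : ℝ) : ℂ) * Pr 0 Y (pr ψ₀ lam) z)) (1 / 2 + κ / R)
        (1 / 2 + κ / R) H t₀ v₀ ≤ ENNReal.ofReal (P * (a *
          (1 + R * w₁) ^ (2 * (24 * (Module.finrank ℚ K : ℝ)))) * wt T R k E t₀ v₀) := by
  obtain ⟨k, hk⟩ : ∃ k : ℕ, 32 * (24 * (Module.finrank ℚ K : ℝ)) ≤ k :=
    ⟨32 * (24 * Module.finrank ℚ K), by push_cast; exact le_rfl⟩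
  obtain ⟨ε, hε⟩ : ∃ ε : ℝ, ε = 2 * α' - 1 := ⟨_, rfl⟩
  have hε0 : 0 < ε := by rw [hε]; linarith
  obtain ⟨E₁, hE₁⟩ : ∃ E₁ : ℕ, 8 * (n : ℝ) / ε ≤ E₁ := ⟨_, Nat.le_ceil _⟩
  obtain ⟨E, hE⟩ : ∃ E : ℕ, E = 2 * n + E₁ := ⟨_, rfl⟩
  obtain ⟨B, hB⟩ : ∃ B : ℕ, B = k + (n + E) + 2 := ⟨_, rfl⟩
  obtain ⟨κ₀, hκ1, hκ₀⟩ := kappa_all (4 * cB B 0 * cB B (k + (n + E)) * A ^ 2) ε k hε0
  refine ⟨κ₀, k, E, hκ1, fun κ hκκ => ?_⟩
  have hκ := hκ₀ κ hκκ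
  obtain ⟨a₁, ha₁, hls1⟩ := ls_TK K hφ hk 0
  obtain ⟨a₂, ha₂, hls2⟩ := ls_TK K hφ hk (2 * κ)
  obtain ⟨a, ha⟩ : ∃ a : ℝ, a = a₁ + a₂ := ⟨_, rfl⟩
  obtain ⟨G, hG⟩ : ∃ G : ℝ, G = A ^ 2 * 4 ^ n := ⟨_, rfl⟩
  have hG0 : 0 ≤ G := by rw [hG]; positivity
  refine ⟨5 * a + 2 * G + 1, by rw [ha]; positivity, ?_⟩
  intro R T H P Y w₁ N S ψ₀ F hR hT hH hHT hP hY hYw hw hN hN1 hNY hNZ hls hFc hF
  have hκ1' : 1 ≤ κ := hκ1.trans hκκ
  have hR0 : 0 < R := by linarith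
  have hT0 : 0 < T := by linarith
  obtain ⟨δ, hδ⟩ : ∃ δ : ℝ, δ = κ / R := ⟨_, rfl⟩
  have hδ0 : 0 < δ := by rw [hδ]; positivity
  have hRδ : R * δ = κ := by rw [hδ]; field_simp
  have hδ1 : δ ≤ 1 / 4 := by
    rw [hδ, div_le_iff₀ hR0]
    linarith
  have hP0 : 0 ≤ P := le_trans (by positivity) hP
  rw [← hδ]
  have hα₁ : 0 < α₁ := by linarith
  have hw0 : 0 ≤ w₁ := le_trans (by positivity) hYw
  obtain ⟨W, hW⟩ : ∃ W : ℝ, W = (1 + R * w₁) ^ (2 * (24 * (Module.finrank ℚ K : ℝ))) := ⟨_, rfl⟩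
  have hW1 : 1 ≤ W := by
    rw [hW]
    refine Real.one_le_rpow ?_ (by positivity)
    have : 0 ≤ R * w₁ := by positivity
    linarith
  rw [← hW]
  -- the structure
  obtain ⟨s₀, hs₀⟩ : ∃ s₀ : ℝ, s₀ = Real.exp (-(α' * R * (2 * δ))) := ⟨_, rfl⟩
  have hs2 : s₀ ^ 2 = Real.exp (-(4 * (α' * κ))) := by
    rw [hs₀, ← Real.exp_nat_mul, ← hRδ]; congr 1; push_cast; ring
  have hSH : SH S F (fun lam => Gd (fun _ => 1) φ R ⌊Real.exp (α₂ * R)⌋₊ ψ₀ lam)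
      (fun lam z => TK N (((-1 : ℝ) : ℂ) * Pr 0 Y (pr ψ₀ lam) z)) T H R δ P (a * W) A s₀ n k B := by
    refine ⟨hT, hH, hHT, hR0, hδ0, by linarith, hP0, by rw [ha]; positivity, by linarith,
      by rw [hs₀]; exact (Real.exp_pos _).le, hFc, fun lam => ?_, fun lam => ?_, ?_, ?_, ?_, ?_⟩
    · exact (dpo_diff _ _ _).continuous
    · exact (TK_diff N).continuous.comp (continuous_const.mul (Pr_diff 0 Y _).continuous)
    · intro lam hl τ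
      exact (hF lam hl).fe δ hδ0 hδ1 τ
    · intro t₀ v₁
      have h1 := hls1 _ _ _ GS_one R δ Y w₁ N hR0 (by linarith) hδ1 hY hYw hw hN hN1 S ψ₀ H P hH hP0
        hls t₀ v₁
      rw [zero_div, sub_zero, ← hW] at h1
      refine h1.trans (ENNReal.ofReal_le_ofReal ?_)
      have : a₁ ≤ a := by rw [ha]; linarith
      gcongr
    · intro t₀ v₁
      have h1 := hls2 _ _ _ GS_one R δ Y w₁ N hR0 (by linarith) hδ1 hY hYw hw hN hN1 S ψ₀ H P hH hP0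
        hls t₀ v₁
      have e1 : 1 / 2 + δ - 2 * κ / R = 1 / 2 - δ := by rw [hδ]; ring
      rw [e1, ← hW] at h1
      refine h1.trans (ENNReal.ofReal_le_ofReal ?_)
      have : a₂ ≤ a := by rw [ha]; linarith
      gcongr
    · intro lam hl t
      simp only [Gd_one]
      obtain ⟨G', hG'⟩ := grow_diff (α₂ := α₂) hφ hα₁ hR0 hT hA (hF lam hl)
      have hg : Differentiable ℂ fun z => Dp φ R ⌊Real.exp (α₂ * R)⌋₊ ψ₀ lam z - F lam z :=
        (dpo_diff _ _ _).sub (hF lam hl).diff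
      obtain ⟨i1, i2⟩ := cauchy_le (a := 1 / 2 - δ) (μ := α' * R) (lam := α₁ * R) (m := n) (B := B)
        hg (by omega) (by nlinarith) (fun z hz => hG' z (by linarith))
        (s := pt (1 / 2 + δ) t) (by rw [pt_re]; linarith)
      have e0 : (pt (1 / 2 + δ) t).re - (1 / 2 - δ) = 2 * δ := by rw [pt_re]; ring
      rw [e0, pt_im] at i1 i2
      refine ⟨i1, ?_⟩
      rw [← hs₀] at i2
      have h4 : ‖F lam (pt (1 / 2 + δ) t)‖ ≤
          ‖Dp φ R ⌊Real.exp (α₂ * R)⌋₊ ψ₀ lam (pt (1 / 2 + δ) t)‖ +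
          ‖Dp φ R ⌊Real.exp (α₂ * R)⌋₊ ψ₀ lam (pt (1 / 2 + δ) t) -
            F lam (pt (1 / 2 + δ) t)‖ := by
        have := norm_sub_norm_le (F lam (pt (1 / 2 + δ) t))
          (Dp φ R ⌊Real.exp (α₂ * R)⌋₊ ψ₀ lam (pt (1 / 2 + δ) t))
        rw [norm_sub_rev] at this
        linarith
      linarith
  have hMo : ∀ lam ∈ S, ∀ t : ℝ, ‖TK N (((-1 : ℝ) : ℂ) * Pr 0 Y (pr ψ₀ lam) (pt (1 / 2 + δ) t))‖ ≤
      Real.exp R := fun lam hl t =>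
    TK_Pr_le hY.le hNY hNZ (Or.inr rfl) (hF lam hl).le1 (by rw [pt_re]; linarith)
  have hJ := JJ_triv2 hT hA hHT hP hF (Mo := fun lam z =>
    TK N (((-1 : ℝ) : ℂ) * Pr 0 Y (pr ψ₀ lam) z)) hδ0 hMo
  rw [← hG] at hJ
  have hBk : k + (n + E) + 2 ≤ 2 * B := by omega
  have hfin := hSH.bound hBk (S₀ := G * Real.exp (4 * R)) (G := G) (X := Real.exp (ε * κ)) (E := E)
    (by positivity) hG0 hA (Real.one_le_exp (by positivity)) ?_ ?_ ?_
  · intro t₀ v₀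
    refine (hfin t₀ v₀).trans (ENNReal.ofReal_le_ofReal ?_)
    have h1 := wt_one hT hR0.le k E t₀ v₀
    have h2 : 5 * (a * W) + 2 * G + 1 ≤ (5 * a + 2 * G + 1) * W := by nlinarith
    refine mul_le_mul_of_nonneg_right (mul_le_mul_of_nonneg_left h2 hP0) (by linarith)
  · intro t₀ v₀
    refine (hJ t₀ v₀).trans (ENNReal.ofReal_le_ofReal ?_)
    have h1 : (1 + |t₀| / T) ^ (2 * n) ≤ wt T R k E t₀ v₀ := by
      unfold wt
      have h2 : 1 ≤ 1 + |t₀| / T := by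
        have : 0 ≤ |t₀| / T := by positivity
        linarith
      have h3 : (1 + |t₀| / T) ^ (2 * n) ≤ (1 + |t₀| / T) ^ E :=
        pow_le_pow_right₀ h2 (by omega)
      have h4 : 1 ≤ (1 + R * |v₀|) ^ k := by
        refine one_le_pow₀ ?_
        have : 0 ≤ R * |v₀| := by positivity
        linarith
      refine h3.trans (le_mul_of_one_le_left (by positivity) h4)
    calc P * G * Real.exp (4 * R) * (1 + |t₀| / T) ^ (2 * n) ≤
        P * G * Real.exp (4 * R) * wt T R k E t₀ v₀ := by gcongr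
      _ = _ := by ring
  · intro t₀ v₀ hX
    refine (hJ t₀ v₀).trans (ENNReal.ofReal_le_ofReal ?_)
    obtain ⟨Θ, hΘ⟩ : ∃ Θ : ℝ, Θ = 1 + |t₀| / T := ⟨_, rfl⟩
    have hΘ1 : 1 ≤ Θ := by
      rw [hΘ]
      have : 0 ≤ |t₀| / T := by positivity
      linarith
    rw [← hΘ] at hX ⊢
    have hn0 : (0 : ℝ) < n := by exact_mod_cast hn
    -- `Θ` is large
    have h1 : ε * κ < 2 * (n * δ) * Real.log Θ := by
      have h2 := Real.log_lt_log (Real.exp_pos _) hX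
      rw [Real.log_exp, Real.log_rpow (by linarith)] at h2
      exact h2
    have h3 : Real.exp (4 * R) ≤ Θ ^ E₁ := by
      rw [← Real.log_le_log_iff (Real.exp_pos _) (by positivity), Real.log_exp, Real.log_pow]
      have hl0 : 0 ≤ Real.log Θ := Real.log_nonneg hΘ1
      have h4 : ε * R ≤ 2 * n * Real.log Θ := by
        have h5 : ε * κ * R ≤ 2 * (n * δ) * Real.log Θ * R :=
          mul_le_mul_of_nonneg_right h1.le hR0.le
        have e1 : 2 * (n * δ) * Real.log Θ * R = 2 * n * Real.log Θ * (R * δ) := by ring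
        rw [e1, hRδ] at h5
        have hκ0 : 0 < κ := by linarith
        have h6 : (ε * R) * κ ≤ (2 * n * Real.log Θ) * κ := by linarith
        exact le_of_mul_le_mul_right h6 hκ0
      have h7 : 8 * (n : ℝ) / ε * Real.log Θ ≤ E₁ * Real.log Θ :=
        mul_le_mul_of_nonneg_right hE₁ hl0
      have h8 : 4 * R ≤ 8 * (n : ℝ) / ε * Real.log Θ := by
        rw [div_mul_eq_mul_div, le_div_iff₀ hε0]
        linarith
      linarith
    have h9 : 1 ≤ (1 + R * |v₀|) ^ k := by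
      refine one_le_pow₀ ?_
      have : 0 ≤ R * |v₀| := by positivity
      linarith
    unfold wt
    rw [← hΘ]
    calc P * G * Real.exp (4 * R) * Θ ^ (2 * n) ≤ P * G * Θ ^ E₁ * Θ ^ (2 * n) := by gcongr
      _ = P * G * (1 * Θ ^ E) := by rw [hE, pow_add]; ring
      _ ≤ P * G * ((1 + R * |v₀|) ^ k * Θ ^ E) := by gcongr
  · rw [hs2, hRδ]
    have e1 : 4 * Real.exp (-(4 * (α' * κ))) * cB B 0 * ((1 + 2 * κ) ^ k * cB B (k + (n + E))) *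
        (A ^ 2 * Real.exp (2 * κ) * Real.exp (ε * κ)) =
        4 * cB B 0 * cB B (k + (n + E)) * A ^ 2 * ((1 + 2 * κ) ^ k *
          (Real.exp (-(4 * (α' * κ))) * (Real.exp (2 * κ) * Real.exp (ε * κ)))) := by ring
    rw [e1, ← Real.exp_add, ← Real.exp_add]
    have e2 : -(4 * (α' * κ)) + (2 * κ + ε * κ) = -(ε * κ) := by rw [hε]; ring
    rw [e2]
    exact hκ

end Pool.Agent.N786.E
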