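import Pool.Agent.N786.D.Asm1
import Pool.Agent.H370R2.Local

/-!
# From the line `1/2 + κ/R` to the critical line (owner helper786)
-/

set_option autoImplicit false
set_option linter.unusedSectionVars false

open MeasureTheory Complex Filter Topology Set

namespace Pool.Agent.N786.E

open Pool.Agent.N786
open Pool.Agent.N786.D
open Pool.Agent.R399.TW (pt pt_re pt_im pt_cont)
open H370.Loc (Pf Pf_zero Pf_cons Pf_ne_zero Pf_norm_ge Pf_norm_le extract logDeriv_zero_free)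

/-- the Poisson kernel -/
lemma poisson_le (y γ : ℝ) : ∫⁻ t : ℝ, ENNReal.ofReal (|y| / (y ^ 2 + (t - γ) ^ 2)) ≤
    ENNReal.ofReal Real.pi := by
  by_cases hy : y = 0
  · rw [hy]
    simp
  have hy0 : 0 < |y| := abs_pos.mpr hy
  have h1 : ∀ t : ℝ, |y| / (y ^ 2 + (t - γ) ^ 2) = |y|⁻¹ * (1 + (|y|⁻¹ * (t - γ)) ^ 2)⁻¹ := by
    intro t
    rw [← sq_abs y]
    have h2 : |y| ^ 2 + (t - γ) ^ 2 ≠ 0 := by positivity
    have h3 : 1 + (|y|⁻¹ * (t - γ)) ^ 2 ≠ 0 := by positivity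
    field_simp
  have hint : Integrable fun t : ℝ => |y|⁻¹ * (1 + (|y|⁻¹ * (t - γ)) ^ 2)⁻¹ := by
    refine Integrable.const_mul ?_ _
    have h2 : Integrable fun t : ℝ => (1 + (|y|⁻¹ * t) ^ 2)⁻¹ :=
      integrable_inv_one_add_sq.comp_mul_left' (inv_ne_zero hy0.ne')
    exact h2.comp_sub_right γ
  simp_rw [h1]
  rw [← ofReal_integral_eq_lintegral_ofReal hint (Eventually.of_forall fun t => by positivity),
    integral_const_mul, integral_sub_right_eq_self (fun t : ℝ => (1 + (|y|⁻¹ * t) ^ 2)⁻¹) γ,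
    Measure.integral_comp_mul_left (fun t : ℝ => (1 + t ^ 2)⁻¹) |y|⁻¹, inv_inv, abs_abs,
    smul_eq_mul, integral_univ_inv_one_add_sq, ← mul_assoc, inv_mul_cancel₀ hy0.ne', one_mul]

lemma log_dist (x t : ℝ) (ρ : ℂ) : Real.log ‖pt x t - ρ‖ =
    1 / 2 * Real.log ((x - ρ.re) ^ 2 + (t - ρ.im) ^ 2) := by
  have h1 : ‖pt x t - ρ‖ ^ 2 = (x - ρ.re) ^ 2 + (t - ρ.im) ^ 2 := by
    rw [Complex.sq_norm, Complex.normSq_apply, Complex.sub_re, Complex.sub_im, pt_re, pt_im]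
    ring
  rw [← h1, Real.log_pow]
  push_cast
  ring

/-- the contribution of one zero -/
lemma one_zero (ρ : ℂ) {a b : ℝ} (hab : a ≤ b) :
    ∫⁻ t : ℝ, ENNReal.ofReal |Real.log ‖pt a t - ρ‖ - Real.log ‖pt b t - ρ‖| ≤
      ENNReal.ofReal (Real.pi * (b - a)) := by
  have hpt : ∀ t : ℝ, t ≠ ρ.im →
      ENNReal.ofReal |Real.log ‖pt a t - ρ‖ - Real.log ‖pt b t - ρ‖| ≤
      ∫⁻ x in Icc a b, ENNReal.ofReal (|x - ρ.re| / ((x - ρ.re) ^ 2 + (t - ρ.im) ^ 2)) := by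
    intro t ht
    have ht0 : t - ρ.im ≠ 0 := sub_ne_zero.mpr ht
    have hpos : ∀ x : ℝ, 0 < (x - ρ.re) ^ 2 + (t - ρ.im) ^ 2 := fun x => by positivity
    have hcont : Continuous fun x : ℝ => (x - ρ.re) / ((x - ρ.re) ^ 2 + (t - ρ.im) ^ 2) :=
      Continuous.div (by fun_prop) (by fun_prop) fun x => (hpos x).ne'
    have hd : ∀ x ∈ uIcc a b, HasDerivAt (fun x : ℝ => 1 / 2 *
        Real.log ((x - ρ.re) ^ 2 + (t - ρ.im) ^ 2))
        ((x - ρ.re) / ((x - ρ.re) ^ 2 + (t - ρ.im) ^ 2)) x := by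
      intro x _
      have h1 : HasDerivAt (fun x : ℝ => (x - ρ.re) ^ 2 + (t - ρ.im) ^ 2) (2 * (x - ρ.re)) x := by
        have := (((hasDerivAt_id x).sub_const ρ.re).pow 2).add_const ((t - ρ.im) ^ 2)
        simpa using this
      have h2 := (h1.log (hpos x).ne').const_mul (1 / 2 : ℝ)
      refine h2.congr_deriv ?_
      have := (hpos x).ne'
      field_simp
    have h1 := intervalIntegral.integral_eq_sub_of_hasDerivAt hd (hcont.intervalIntegrable _ _)
    rw [log_dist, log_dist, abs_sub_comm, ← h1]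
    have h2 : |∫ x in a..b, (x - ρ.re) / ((x - ρ.re) ^ 2 + (t - ρ.im) ^ 2)| ≤
        ∫ x in a..b, |x - ρ.re| / ((x - ρ.re) ^ 2 + (t - ρ.im) ^ 2) := by
      refine (intervalIntegral.abs_integral_le_integral_abs hab).trans (le_of_eq ?_)
      refine intervalIntegral.integral_congr fun x _ => ?_
      rw [abs_div, abs_of_pos (hpos x)]
    refine (ENNReal.ofReal_le_ofReal h2).trans (le_of_eq ?_)
    have hcont2 : Continuous fun x : ℝ => |x - ρ.re| / ((x - ρ.re) ^ 2 + (t - ρ.im) ^ 2) :=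
      Continuous.div (by fun_prop) (by fun_prop) fun x => (hpos x).ne'
    rw [intervalIntegral.integral_of_le hab, ← integral_Icc_eq_integral_Ioc,
      ofReal_integral_eq_lintegral_ofReal hcont2.integrableOn_Icc
        (Eventually.of_forall fun x => by positivity)]
  have hae : ∀ᵐ t : ℝ, t ≠ ρ.im := by
    rw [ae_iff]
    simp only [ne_eq, not_not]
    have : {a : ℝ | a = ρ.im} = {ρ.im} := rfl
    rw [this, measure_singleton]
  calc ∫⁻ t : ℝ, ENNReal.ofReal |Real.log ‖pt a t - ρ‖ - Real.log ‖pt b t - ρ‖| ≤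
      ∫⁻ t : ℝ, ∫⁻ x in Icc a b,
        ENNReal.ofReal (|x - ρ.re| / ((x - ρ.re) ^ 2 + (t - ρ.im) ^ 2)) := by
        refine lintegral_mono_ae ?_
        filter_upwards [hae] with t ht
        exact hpt t ht
    _ = ∫⁻ x in Icc a b, ∫⁻ t : ℝ,
        ENNReal.ofReal (|x - ρ.re| / ((x - ρ.re) ^ 2 + (t - ρ.im) ^ 2)) := by
        rw [lintegral_lintegral_swap]
        refine Measurable.aemeasurable ?_
        refine Measurable.ennreal_ofReal ?_
        exact Measurable.div (by fun_prop) (by fun_prop)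
    _ ≤ ∫⁻ _x in Icc a b, ENNReal.ofReal Real.pi :=
        lintegral_mono fun x => poisson_le _ _
    _ = _ := by
        rw [setLIntegral_const, Real.volume_Icc, ← ENNReal.ofReal_mul Real.pi_pos.le]

lemma pf_log {s : Multiset ℂ} {z z₀ : ℂ} (h : ∀ ρ ∈ s, z ≠ ρ) (h0 : ∀ ρ ∈ s, z₀ ≠ ρ) :
    ENNReal.ofReal |Real.log ‖Pf s z‖ - Real.log ‖Pf s z₀‖| ≤
      (s.map fun ρ => ENNReal.ofReal |Real.log ‖z - ρ‖ - Real.log ‖z₀ - ρ‖|).sum := by
  induction s using Multiset.induction_on with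
  | empty => simp [Pf_zero]
  | cons ρ s ih =>
    have i1 := ih (fun ρ' h' => h ρ' (Multiset.mem_cons_of_mem h'))
      (fun ρ' h' => h0 ρ' (Multiset.mem_cons_of_mem h'))
    rw [Multiset.map_cons, Multiset.sum_cons]
    refine le_trans ?_ (add_le_add le_rfl i1)
    rw [← ENNReal.ofReal_add (abs_nonneg _) (abs_nonneg _)]
    refine ENNReal.ofReal_le_ofReal ?_
    have n1 : ‖z - ρ‖ ≠ 0 := norm_ne_zero_iff.mpr (sub_ne_zero.mpr (h ρ (Multiset.mem_cons_self _ _)))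
    have n2 : ‖z₀ - ρ‖ ≠ 0 := norm_ne_zero_iff.mpr (sub_ne_zero.mpr (h0 ρ (Multiset.mem_cons_self _ _)))
    have n3 : ‖Pf s z‖ ≠ 0 := norm_ne_zero_iff.mpr
      (Pf_ne_zero fun ρ' h' => h ρ' (Multiset.mem_cons_of_mem h'))
    have n4 : ‖Pf s z₀‖ ≠ 0 := norm_ne_zero_iff.mpr
      (Pf_ne_zero fun ρ' h' => h0 ρ' (Multiset.mem_cons_of_mem h'))
    rw [Pf_cons, Pf_cons, norm_mul, norm_mul, Real.log_mul n1 n3, Real.log_mul n2 n4]
    have : Real.log ‖z - ρ‖ + Real.log ‖Pf s z‖ - (Real.log ‖z₀ - ρ‖ + Real.log ‖Pf s z₀‖) =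
      (Real.log ‖z - ρ‖ - Real.log ‖z₀ - ρ‖) + (Real.log ‖Pf s z‖ - Real.log ‖Pf s z₀‖) := by ring
    rw [this]
    exact abs_add_le _ _

lemma pf_int (s : Multiset ℂ) {a b : ℝ} (hab : a ≤ b) :
    ∫⁻ t : ℝ, ENNReal.ofReal |Real.log ‖Pf s (pt a t)‖ - Real.log ‖Pf s (pt b t)‖| ≤
      ENNReal.ofReal ((Multiset.card s : ℝ) * (Real.pi * (b - a))) := by
  have hπ : 0 ≤ Real.pi * (b - a) := mul_nonneg Real.pi_pos.le (by linarith)
  have hae : ∀ᵐ t : ℝ, ∀ ρ ∈ s, t ≠ ρ.im := by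
    have hfin : ((s.toFinset.image Complex.im : Finset ℝ) : Set ℝ).Finite := Finset.finite_toSet _
    have h1 := hfin.measure_zero (volume : Measure ℝ)
    rw [ae_iff]
    refine measure_mono_null ?_ h1
    intro t ht
    rw [Set.mem_ofPred_eq] at ht
    push Not at ht
    obtain ⟨ρ, hρ, hh⟩ := ht
    rw [Finset.mem_coe, Finset.mem_image]
    exact ⟨ρ, Multiset.mem_toFinset.mpr hρ, hh.symm⟩
  have h2 : ∫⁻ t : ℝ, ENNReal.ofReal |Real.log ‖Pf s (pt a t)‖ - Real.log ‖Pf s (pt b t)‖| ≤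
      ∫⁻ t : ℝ, (s.map fun ρ => ENNReal.ofReal |Real.log ‖pt a t - ρ‖ - Real.log ‖pt b t - ρ‖|).sum := by
    refine lintegral_mono_ae ?_
    filter_upwards [hae] with t ht
    refine pf_log (fun ρ hρ he => ht ρ hρ ?_) (fun ρ hρ he => ht ρ hρ ?_)
    · rw [← he, pt_im]
    · rw [← he, pt_im]
  refine h2.trans ?_
  clear h2 hae
  induction s using Multiset.induction_on with
  | empty => simp
  | cons ρ s ih =>
    simp only [Multiset.map_cons, Multiset.sum_cons, Multiset.card_cons]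
    rw [lintegral_add_left]
    · refine (add_le_add (one_zero ρ hab) ih).trans ?_
      rw [← ENNReal.ofReal_add hπ (by positivity)]
      refine ENNReal.ofReal_le_ofReal (le_of_eq ?_)
      push_cast
      ring
    · refine Measurable.ennreal_ofReal ?_
      have c1 : ∀ x : ℝ, Measurable fun t : ℝ => Real.log ‖pt x t - ρ‖ := fun x =>
        Real.measurable_log.comp ((pt_cont x).sub continuous_const).norm.measurable
      exact ((c1 a).sub (c1 b)).abs

/-- Gronwall -/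
lemma gron {φ φ' : ℝ → ℂ} {a b L : ℝ} (hab : a ≤ b)
    (hd : ∀ x ∈ Icc a b, HasDerivAt φ (φ' x) x) (hb : ∀ x ∈ Icc a b, ‖φ' x‖ ≤ L * ‖φ x‖)
    (h0 : ∀ x ∈ Icc a b, φ x ≠ 0) :
    |Real.log ‖φ a‖ - Real.log ‖φ b‖| ≤ L * (b - a) := by
  have ha := h0 a (left_mem_Icc.mpr hab)
  have hb0 := h0 b (right_mem_Icc.mpr hab)
  have h1 : ‖φ b‖ ≤ ‖φ a‖ * Real.exp (L * (b - a)) := by
    have h2 := norm_le_gronwallBound_of_norm_deriv_right_le (f := φ) (f' := φ') (δ := ‖φ a‖)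
      (K := L) (ε := 0) (a := a) (b := b) (fun x hx => (hd x hx).continuousAt.continuousWithinAt)
      (fun x hx => (hd x ⟨hx.1, hx.2.le⟩).hasDerivWithinAt) le_rfl
      (fun x hx => by rw [add_zero]; exact hb x ⟨hx.1, hx.2.le⟩) b (right_mem_Icc.mpr hab)
    rwa [gronwallBound_ε0] at h2
  have h3 : ‖φ a‖ ≤ ‖φ b‖ * Real.exp (L * (b - a)) := by
    have hmem : ∀ x ∈ Icc a b, a + b - x ∈ Icc a b := fun x hx =>
      ⟨by linarith [hx.2], by linarith [hx.1]⟩
    have hd2 : ∀ x ∈ Icc a b, HasDerivAt (fun y => φ (a + b - y)) (-(φ' (a + b - x))) x := by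
      intro x hx
      have e1 := hd _ (hmem x hx)
      have e2 : HasDerivAt (fun y : ℝ => a + b - y) (-1) x := by
        simpa using (hasDerivAt_id x).const_sub (a + b)
      have e3 := e1.scomp x e2
      exact (e3.congr_deriv (by simp) :
        HasDerivAt (φ ∘ fun y : ℝ => a + b - y) (-(φ' (a + b - x))) x)
    have h2 := norm_le_gronwallBound_of_norm_deriv_right_le (f := fun y => φ (a + b - y))
      (f' := fun x => -(φ' (a + b - x))) (δ := ‖φ b‖)
      (K := L) (ε := 0) (a := a) (b := b) (fun x hx => (hd2 x hx).continuousAt.continuousWithinAt)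
      (fun x hx => (hd2 x ⟨hx.1, hx.2.le⟩).hasDerivWithinAt) (by simp)
      (fun x hx => by rw [add_zero, norm_neg]; exact hb _ (hmem x ⟨hx.1, hx.2.le⟩)) b
      (right_mem_Icc.mpr hab)
    rw [gronwallBound_ε0] at h2
    simpa using h2
  have pa : 0 < ‖φ a‖ := norm_pos_iff.mpr ha
  have pb : 0 < ‖φ b‖ := norm_pos_iff.mpr hb0
  have l1 := Real.log_le_log pb h1
  have l3 := Real.log_le_log pa h3
  rw [Real.log_mul pa.ne' (Real.exp_pos _).ne', Real.log_exp] at l1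
  rw [Real.log_mul pb.ne' (Real.exp_pos _).ne', Real.log_exp] at l3
  rw [abs_le]
  constructor <;> linarith

open NumberField in
/-- **From the line `1/2 + d` to the critical line** -/
theorem zero_step (A : ℝ) (n : ℕ) (hA : 1 ≤ A) : ∃ C : ℝ, 0 ≤ C ∧
    ∀ (K : Type) [Field K] [NumberField K] (T R : ℝ) (χ : Ideal (𝓞 K) →*₀ ℂ) (F : ℂ → ℂ),
    1 ≤ T → 1 ≤ R → GLf A T R n χ F → ∀ t' : ℝ, |t'| ≤ 3 * T → ∀ d : ℝ, 0 ≤ d → d ≤ 1 / 4 →
    ∫⁻ t in Icc (t' - 1 / 4) (t' + 1 / 4),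
      ENNReal.ofReal |Real.log ‖F (pt (1 / 2) t)‖ - Real.log ‖F (pt (1 / 2 + d) t)‖| ≤
      ENNReal.ofReal (C * (R * d)) := by
  obtain ⟨q, hq⟩ : ∃ q : ℝ, q = Real.log ((7 / 4) / (17 / 10)) := ⟨_, rfl⟩
  have hq0 : 0 < q := by rw [hq]; exact Real.log_pos (by norm_num)
  obtain ⟨p, hp⟩ : ∃ p : ℝ, p = Real.log ((17 / 10) / (7 / 4 - 17 / 10)) := ⟨_, rfl⟩
  have hp0 : 0 ≤ p := by rw [hp]; exact Real.log_nonneg (by norm_num)
  obtain ⟨A', hA'⟩ : ∃ A' : ℝ, A' = 2 * Real.log A + 1 + n * Real.log 6 := ⟨_, rfl⟩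
  have hlA : 0 ≤ Real.log A := Real.log_nonneg hA
  have hl6 : 0 ≤ Real.log 6 := Real.log_nonneg (by norm_num)
  have hA'0 : 1 ≤ A' := by
    rw [hA']
    have : 0 ≤ (n : ℝ) * Real.log 6 := by positivity
    linarith
  obtain ⟨Lc, hLc⟩ : ∃ Lc : ℝ, Lc = 2 * (A' + A' / q * p + 1) * (33 / 20) /
    (17 / 10 - 33 / 20) / (33 / 20 - 8 / 5) := ⟨_, rfl⟩
  have hLc0 : 0 ≤ Lc := by
    rw [hLc]
    have : 0 ≤ A' / q * p := by positivity
    have h2 : (0 : ℝ) < 17 / 10 - 33 / 20 := by norm_num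
    have h3 : (0 : ℝ) < 33 / 20 - 8 / 5 := by norm_num
    positivity
  refine ⟨A' / q * Real.pi + Lc, by positivity, ?_⟩
  intro K _ _ T R χ F hT hR hF t' ht' d hd hd1
  have hT0 : 0 < T := by linarith
  have hA0 : 0 < A := by linarith
  obtain ⟨c, hc⟩ : ∃ c : ℂ, c = pt 2 t' := ⟨_, rfl⟩
  have hcre : c.re = 2 := by rw [hc, pt_re]
  have hcim : c.im = t' := by rw [hc, pt_im]
  obtain ⟨M, hM⟩ : ∃ M : ℝ, M = A * Real.exp R * 6 ^ n := ⟨_, rfl⟩
  have hexp : 1 ≤ Real.exp R := Real.one_le_exp (by linarith)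
  have h6 : (1 : ℝ) ≤ 6 ^ n := one_le_pow₀ (by norm_num)
  have hM1 : 1 ≤ M := by
    rw [hM]
    exact one_le_mul_of_one_le_of_one_le (one_le_mul_of_one_le_of_one_le hA hexp) h6
  have hM0 : 0 < M := by linarith
  have hlow := hF.low c (by rw [hcre])
  have hFc0 : 0 < ‖F c‖ := lt_of_lt_of_le (inv_pos.mpr hA0) hlow
  have hFc : F c ≠ 0 := norm_pos_iff.mp hFc0
  have hbd : ∀ z ∈ Metric.closedBall c (7 / 4), ‖F z‖ ≤ M := by
    intro z hz
    rw [Metric.mem_closedBall, dist_eq_norm] at hz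
    have h1 : |(z - c).re| ≤ 7 / 4 := (Complex.abs_re_le_norm _).trans hz
    have h2 : |(z - c).im| ≤ 7 / 4 := (Complex.abs_im_le_norm _).trans hz
    rw [Complex.sub_re, hcre, abs_le] at h1
    rw [Complex.sub_im, hcim] at h2
    have h3 : |z.im| ≤ 5 * T := by
      have h4 := abs_add_le (z.im - t') t'
      rw [sub_add_cancel] at h4
      linarith
    refine (hF.gr z (by linarith [h1.1])).trans ?_
    rw [hM]
    refine mul_le_mul_of_nonneg_left (pow_le_pow_left₀ (by positivity) ?_ n) (by positivity)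
    have : |z.im| / T ≤ 5 := by rw [div_le_iff₀ hT0]; exact h3
    linarith
  have hAn : AnalyticOnNhd ℂ F (Metric.closedBall c (7 / 4)) := fun z _ => hF.diff.analyticAt z
  obtain ⟨s, g, hs, hg, hfg, hg0, hcard⟩ := extract (r := 17 / 10) (R := 7 / 4) (by norm_num)
    (by norm_num) hM1 hAn hFc hbd
  rw [← hq] at hcard
  obtain ⟨Λ, hΛ⟩ : ∃ Λ : ℝ, Λ = Real.log (M / ‖F c‖) := ⟨_, rfl⟩
  rw [← hΛ] at hcard
  have hFcM : ‖F c‖ ≤ M := hbd c (Metric.mem_closedBall_self (by norm_num))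
  have hΛ0 : 0 ≤ Λ := by
    rw [hΛ]
    exact Real.log_nonneg (by rw [le_div_iff₀ hFc0]; linarith)
  have hΛR : Λ ≤ A' * R := by
    have h1 : M / ‖F c‖ ≤ A ^ 2 * Real.exp R * 6 ^ n := by
      rw [div_le_iff₀ hFc0, hM]
      have h2 : 1 ≤ A * ‖F c‖ := by
        have := mul_le_mul_of_nonneg_left hlow hA0.le
        rwa [mul_inv_cancel₀ hA0.ne'] at this
      calc A * Real.exp R * 6 ^ n = A * Real.exp R * 6 ^ n * 1 := (mul_one _).symm
        _ ≤ A * Real.exp R * 6 ^ n * (A * ‖F c‖) := by gcongr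
        _ = _ := by ring
    have h3 : Λ ≤ Real.log (A ^ 2 * Real.exp R * 6 ^ n) := by
      rw [hΛ]; exact Real.log_le_log (by positivity) h1
    rw [Real.log_mul (by positivity) (by positivity), Real.log_mul (by positivity) (by positivity),
      Real.log_exp, Real.log_pow, Real.log_pow] at h3
    push_cast at h3
    rw [hA']
    have h5 : 0 ≤ (2 * Real.log A + n * Real.log 6) * (R - 1) := by
      have : 0 ≤ R - 1 := by linarith
      positivity
    nlinarith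
  set m := Multiset.card s with hm
  have hmR : (m : ℝ) ≤ A' / q * R := by
    refine hcard.trans ?_
    rw [div_mul_eq_mul_div]
    gcongr
  -- bounds for g
  have hRr0 : (0 : ℝ) < 7 / 4 - 17 / 10 := by norm_num
  have hgsphere : ∀ w ∈ Metric.sphere c (7 / 4), ‖g w‖ ≤ M / (7 / 4 - 17 / 10) ^ m := by
    intro w hw
    have hwR := Metric.sphere_subset_closedBall hw
    have h1 : (7 / 4 - 17 / 10 : ℝ) ^ m ≤ ‖Pf s w‖ := Pf_norm_ge hRr0.le fun ρ hρ => by
      have h2 := (hs ρ hρ).1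
      rw [Metric.mem_closedBall, dist_eq_norm] at h2
      rw [Metric.mem_sphere, dist_eq_norm] at hw
      have h3 : ‖w - c‖ ≤ ‖w - ρ‖ + ‖ρ - c‖ := by
        calc ‖w - c‖ = ‖(w - ρ) + (ρ - c)‖ := by congr 1; ring
          _ ≤ _ := norm_add_le _ _
      linarith
    rw [le_div_iff₀ (by positivity)]
    calc ‖g w‖ * (7 / 4 - 17 / 10) ^ m ≤ ‖g w‖ * ‖Pf s w‖ :=
          mul_le_mul_of_nonneg_left h1 (norm_nonneg _)
      _ = ‖F w‖ := by rw [hfg w, norm_mul, mul_comm]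
      _ ≤ M := hbd w hwR
  have hgball : ∀ w ∈ Metric.closedBall c (7 / 4), ‖g w‖ ≤ M / (7 / 4 - 17 / 10) ^ m := by
    intro w hw
    refine Complex.norm_le_of_forall_mem_frontier_norm_le (U := Metric.ball c (7 / 4))
      Metric.isBounded_ball ?_ ?_ ?_
    · apply DifferentiableOn.diffContOnCl
      rw [closure_ball c (by norm_num)]
      exact fun x hx => (hg x hx).differentiableAt.differentiableWithinAt
    · intro x hx
      rw [frontier_ball c (by norm_num)] at hx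
      exact hgsphere x hx
    · rwa [closure_ball c (by norm_num)]
  have hgc : ‖F c‖ / (17 / 10) ^ m ≤ ‖g c‖ := by
    rw [div_le_iff₀ (by positivity)]
    have h1 : ‖Pf s c‖ ≤ (17 / 10) ^ m := Pf_norm_le fun ρ hρ => by
      have h2 := (hs ρ hρ).1
      rw [Metric.mem_closedBall, dist_eq_norm, norm_sub_rev] at h2
      exact h2
    calc ‖F c‖ = ‖g c‖ * ‖Pf s c‖ := by rw [hfg c, norm_mul, mul_comm]
      _ ≤ ‖g c‖ * (17 / 10) ^ m := mul_le_mul_of_nonneg_left h1 (norm_nonneg _)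
  obtain ⟨B, hB⟩ : ∃ B : ℝ, B = Λ + m * p := ⟨_, rfl⟩
  have hB0 : 0 ≤ B := by rw [hB]; positivity
  have hexpB : Real.exp B = M / ‖F c‖ * ((17 / 10) / (7 / 4 - 17 / 10)) ^ m := by
    rw [hB, hΛ, Real.exp_add, Real.exp_log (by positivity), Real.exp_nat_mul, hp,
      Real.exp_log (by norm_num)]
  have hgb : ∀ w ∈ Metric.closedBall c (17 / 10), ‖g w‖ ≤ Real.exp B * ‖g c‖ := by
    intro w hw
    refine (hgball w (Metric.closedBall_subset_closedBall (by norm_num) hw)).trans ?_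
    rw [hexpB]
    calc M / (7 / 4 - 17 / 10) ^ m = M / ‖F c‖ * ((17 / 10) / (7 / 4 - 17 / 10)) ^ m *
        (‖F c‖ / (17 / 10) ^ m) := by
          rw [div_pow]; field_simp
      _ ≤ _ := mul_le_mul_of_nonneg_left hgc (by positivity)
  have hBR : B ≤ (A' + A' / q * p) * R := by
    rw [hB]
    calc Λ + m * p ≤ A' * R + (A' / q * R) * p := by gcongr
      _ = _ := by ring
  have hlog : ∀ z ∈ Metric.closedBall c (8 / 5), ‖logDeriv g z‖ ≤ Lc * R := by
    intro z hz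
    have h1 := logDeriv_zero_free (r := 17 / 10) (r1 := 33 / 20) (r2 := 8 / 5) (by norm_num)
      (by norm_num) (by norm_num) hB0
      (hg.mono (Metric.closedBall_subset_closedBall (by norm_num))) hg0 hgb hz
    refine h1.trans ?_
    have h2 : B + 1 ≤ (A' + A' / q * p + 1) * R := by
      have : 1 ≤ R := hR
      linarith
    have e2 : (0 : ℝ) < 17 / 10 - 33 / 20 := by norm_num
    have e3 : (0 : ℝ) < 33 / 20 - 8 / 5 := by norm_num
    calc 2 * (B + 1) * (33 / 20) / (17 / 10 - 33 / 20) / (33 / 20 - 8 / 5) ≤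
        2 * ((A' + A' / q * p + 1) * R) * (33 / 20) / (17 / 10 - 33 / 20) / (33 / 20 - 8 / 5) := by
          gcongr
      _ = Lc * R := by rw [hLc]; ring
  have hball : ∀ t ∈ Icc (t' - 1 / 4) (t' + 1 / 4), ∀ x ∈ Icc (1 / 2 : ℝ) (1 / 2 + d),
      pt x t ∈ Metric.closedBall c (8 / 5) := by
    intro t ht x hx
    rw [Metric.mem_closedBall, dist_eq_norm]
    have h1 : ‖pt x t - c‖ ^ 2 ≤ (8 / 5) ^ 2 := by
      rw [Complex.sq_norm, Complex.normSq_apply, Complex.sub_re, Complex.sub_im, pt_re, pt_im,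
        hcre, hcim]
      have h2 : |t - t'| ≤ 1 / 4 := by rw [abs_le]; constructor <;> linarith [ht.1, ht.2]
      have h3 : (t - t') * (t - t') ≤ 1 / 16 := by
        have := abs_le.mp h2
        nlinarith [this.1, this.2]
      have h4 : (x - 2) * (x - 2) ≤ 9 / 4 := by nlinarith [hx.1, hx.2]
      linarith
    exact (pow_le_pow_iff_left₀ (norm_nonneg _) (by norm_num) two_ne_zero).mp h1
  have hgd : ∀ t ∈ Icc (t' - 1 / 4) (t' + 1 / 4),
      |Real.log ‖g (pt (1 / 2) t)‖ - Real.log ‖g (pt (1 / 2 + d) t)‖| ≤ Lc * R * d := by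
    intro t ht
    have hsub : ∀ x ∈ Icc (1 / 2 : ℝ) (1 / 2 + d), pt x t ∈ Metric.closedBall c (17 / 10) :=
      fun x hx => Metric.closedBall_subset_closedBall (by norm_num) (hball t ht x hx)
    have h1 := gron (φ := fun x => g (pt x t)) (φ' := fun x => deriv g (pt x t)) (a := 1 / 2)
      (b := 1 / 2 + d) (L := Lc * R) (by linarith) (by
        intro x hx
        have e1 := (hg _ (Metric.closedBall_subset_closedBall (by norm_num)
          (hsub x hx))).differentiableAt.hasDerivAt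
        have e2 : HasDerivAt (fun x : ℝ => pt x t) 1 x := by
          unfold pt
          exact (Complex.ofRealCLM.hasDerivAt (x := x)).add_const _
        have e3 := e1.comp x e2
        rw [mul_one] at e3
        exact e3) (by
        intro x hx
        have e1 := hlog _ (hball t ht x hx)
        have e2 := hg0 _ (hsub x hx)
        rw [logDeriv_apply, norm_div, div_le_iff₀ (norm_pos_iff.mpr e2)] at e1
        exact e1) (fun x hx => hg0 _ (hsub x hx))
    refine h1.trans (le_of_eq ?_)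
    ring
  have hae : ∀ᵐ t : ℝ, ∀ ρ ∈ s, t ≠ ρ.im := by
    have hfin : ((s.toFinset.image Complex.im : Finset ℝ) : Set ℝ).Finite := Finset.finite_toSet _
    have h1 := hfin.measure_zero (volume : Measure ℝ)
    rw [ae_iff]
    refine measure_mono_null ?_ h1
    intro t ht
    rw [Set.mem_ofPred_eq] at ht
    push Not at ht
    obtain ⟨ρ, hρ, hh⟩ := ht
    rw [Finset.mem_coe, Finset.mem_image]
    exact ⟨ρ, Multiset.mem_toFinset.mpr hρ, hh.symm⟩
  have hpt : ∀ᵐ t : ℝ, t ∈ Icc (t' - 1 / 4) (t' + 1 / 4) →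
      ENNReal.ofReal |Real.log ‖F (pt (1 / 2) t)‖ - Real.log ‖F (pt (1 / 2 + d) t)‖| ≤
      ENNReal.ofReal |Real.log ‖Pf s (pt (1 / 2) t)‖ - Real.log ‖Pf s (pt (1 / 2 + d) t)‖| +
      ENNReal.ofReal (Lc * R * d) := by
    filter_upwards [hae] with t ht htm
    have h1 := hgd t htm
    have hP : ∀ x : ℝ, ‖Pf s (pt x t)‖ ≠ 0 := fun x => norm_ne_zero_iff.mpr
      (Pf_ne_zero fun ρ hρ he => ht ρ hρ (by rw [← he, pt_im]))
    have hG : ∀ x ∈ Icc (1 / 2 : ℝ) (1 / 2 + d), ‖g (pt x t)‖ ≠ 0 := fun x hx =>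
      norm_ne_zero_iff.mpr (hg0 _ (Metric.closedBall_subset_closedBall (by norm_num)
        (hball t htm x hx)))
    rw [hfg, hfg, norm_mul, norm_mul, Real.log_mul (hP _) (hG _ ⟨le_rfl, by linarith⟩),
      Real.log_mul (hP _) (hG _ ⟨by linarith, le_rfl⟩), ← ENNReal.ofReal_add (abs_nonneg _)
        (by positivity)]
    refine ENNReal.ofReal_le_ofReal ?_
    have e1 : Real.log ‖Pf s (pt (1 / 2) t)‖ + Real.log ‖g (pt (1 / 2) t)‖ -
        (Real.log ‖Pf s (pt (1 / 2 + d) t)‖ + Real.log ‖g (pt (1 / 2 + d) t)‖) =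
        (Real.log ‖Pf s (pt (1 / 2) t)‖ - Real.log ‖Pf s (pt (1 / 2 + d) t)‖) +
        (Real.log ‖g (pt (1 / 2) t)‖ - Real.log ‖g (pt (1 / 2 + d) t)‖) := by ring
    rw [e1]
    exact (abs_add_le _ _).trans (by linarith)
  have h1 : ∫⁻ t in Icc (t' - 1 / 4) (t' + 1 / 4),
      ENNReal.ofReal |Real.log ‖F (pt (1 / 2) t)‖ - Real.log ‖F (pt (1 / 2 + d) t)‖| ≤
      (∫⁻ t in Icc (t' - 1 / 4) (t' + 1 / 4),
        ENNReal.ofReal |Real.log ‖Pf s (pt (1 / 2) t)‖ - Real.log ‖Pf s (pt (1 / 2 + d) t)‖|) +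
      ∫⁻ _t in Icc (t' - 1 / 4) (t' + 1 / 4), ENNReal.ofReal (Lc * R * d) := by
    rw [← lintegral_add_right _ measurable_const]
    exact setLIntegral_mono_ae' measurableSet_Icc hpt
  refine h1.trans ?_
  have h2 : ∫⁻ t in Icc (t' - 1 / 4) (t' + 1 / 4),
      ENNReal.ofReal |Real.log ‖Pf s (pt (1 / 2) t)‖ - Real.log ‖Pf s (pt (1 / 2 + d) t)‖| ≤
      ENNReal.ofReal ((m : ℝ) * (Real.pi * (1 / 2 + d - 1 / 2))) :=
    (setLIntegral_le_lintegral _ _).trans (pf_int s (by linarith))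
  have h3 : ∫⁻ _t in Icc (t' - 1 / 4) (t' + 1 / 4), ENNReal.ofReal (Lc * R * d) ≤
      ENNReal.ofReal (Lc * R * d) := by
    rw [setLIntegral_const, Real.volume_Icc, ← ENNReal.ofReal_mul (by positivity)]
    refine ENNReal.ofReal_le_ofReal ?_
    have : 0 ≤ Lc * R * d := by positivity
    nlinarith
  refine (add_le_add h2 h3).trans ?_
  have e4 : (1 : ℝ) / 2 + d - 1 / 2 = d := by ring
  rw [e4, ← ENNReal.ofReal_add (by positivity) (by positivity)]
  refine ENNReal.ofReal_le_ofReal ?_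
  calc (m : ℝ) * (Real.pi * d) + Lc * R * d ≤ (A' / q * R) * (Real.pi * d) + Lc * R * d := by
        gcongr
    _ = _ := by ring

end Pool.Agent.N786.E
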