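import Pool.Agent.N786.E.Prm2
import Pool.Agent.N786.E.Mtk
import Pool.Agent.N786.E.Lmr
import Pool.Agent.N786.E.Zst

/-!
# The exceptional sets (owner helper786)
-/

set_option autoImplicit false
set_option linter.unusedSectionVars false

open NumberField NumberField.Units MeasureTheory Complex Filter Topology Set

namespace Pool.Agent.N786.E

open Pool.Agent.N786
open Pool.Agent.N786.D
open Pool.Agent.Y767
open Pool.Agent.R399.TW (pt pt_re pt_im pt_cont)

/-- the truncated exponential is not much smaller than the exponential -/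
lemma tk_low {N : ℕ} (hN : 1 ≤ N) {w : ℂ} (h : ‖w‖ ≤ N / 10) :
    1 / 2 * Real.exp w.re ≤ ‖TK N w‖ := by
  obtain ⟨n, hn⟩ : ∃ n : ℕ, n = N + 1 := ⟨_, rfl⟩
  have hn2 : 2 ≤ n := by omega
  have hwn : ‖w‖ ≤ n / 10 := by
    refine h.trans ?_
    rw [hn]
    push_cast
    linarith
  have h1 : ‖w‖ / (n.succ : ℝ) ≤ 1 / 2 := by
    rw [div_le_iff₀ (by positivity)]
    push_cast
    have : (0 : ℝ) ≤ n := Nat.cast_nonneg n
    linarith
  have h2 := Complex.exp_bound' h1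
  have e1 : ∑ m ∈ Finset.range n, w ^ m / (m.factorial : ℂ) = TK N w := by
    rw [hn]; rfl
  rw [e1] at h2
  have h3 : ‖w‖ ^ n / (n.factorial : ℝ) * 2 ≤ 1 / 2 * Real.exp w.re := by
    have h4 : ‖w‖ ^ n / (n.factorial : ℝ) ≤ (1 / 10) ^ n * Real.exp n := by
      have h5 := Real.pow_div_factorial_le_exp (x := (n : ℝ)) (Nat.cast_nonneg n) n
      calc ‖w‖ ^ n / (n.factorial : ℝ) ≤ (n / 10 : ℝ) ^ n / (n.factorial : ℝ) := by
            gcongr
        _ = (1 / 10) ^ n * ((n : ℝ) ^ n / (n.factorial : ℝ)) := by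
            rw [div_pow, div_pow, one_pow]; ring
        _ ≤ _ := mul_le_mul_of_nonneg_left h5 (by positivity)
    have h6 : Real.exp (-(n / 10 : ℝ)) ≤ Real.exp w.re := by
      refine Real.exp_le_exp.mpr ?_
      have h7 := (abs_le.mp (Complex.abs_re_le_norm w)).1
      linarith
    have h8 : (1 / 10 : ℝ) ^ n * Real.exp n * 2 ≤ 1 / 2 * Real.exp (-(n / 10 : ℝ)) := by
      have h9 : Real.exp (11 / 10) ≤ 32 / 10 := by
        have h10 : Real.exp (11 / 10) = Real.exp 1 * Real.exp (1 / 10) := by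
          rw [← Real.exp_add]; norm_num
        have h11 : Real.exp (1 / 10) ≤ 10 / 9 := by
          have h12 := Real.add_one_le_exp (-(1 / 10 : ℝ))
          have h13 : Real.exp (1 / 10) = (Real.exp (-(1 / 10)))⁻¹ := by
            rw [← Real.exp_neg, neg_neg]
          rw [h13]
          have h14 : (10 / 9 : ℝ) = (9 / 10)⁻¹ := by norm_num
          rw [h14]
          exact inv_anti₀ (by norm_num) (by linarith)
        rw [h10]
        have h15 := Real.exp_one_lt_d9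
        have h16 := Real.exp_pos (1 / 10 : ℝ)
        nlinarith
      have h10 : Real.exp (n : ℝ) = Real.exp (11 / 10) ^ n * Real.exp (-(n / 10 : ℝ)) := by
        rw [← Real.exp_nat_mul, ← Real.exp_add]
        congr 1
        ring
      rw [h10]
      have h11 : (1 / 10 : ℝ) ^ n * Real.exp (11 / 10) ^ n ≤ (32 / 100) ^ n := by
        rw [← mul_pow]
        refine pow_le_pow_left₀ (by positivity) ?_ n
        linarith
      have h12 : (32 / 100 : ℝ) ^ n ≤ (32 / 100) ^ 2 :=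
        pow_le_pow_of_le_one (by norm_num) (by norm_num) hn2
      have h13 := Real.exp_pos (-(n / 10 : ℝ))
      calc (1 / 10 : ℝ) ^ n * (Real.exp (11 / 10) ^ n * Real.exp (-(n / 10 : ℝ))) * 2 =
          ((1 / 10 : ℝ) ^ n * Real.exp (11 / 10) ^ n) * (2 * Real.exp (-(n / 10 : ℝ))) := by ring
        _ ≤ (32 / 100) ^ 2 * (2 * Real.exp (-(n / 10 : ℝ))) :=
            mul_le_mul_of_nonneg_right (h11.trans h12) (by positivity)
        _ ≤ _ := by nlinarith
    calc ‖w‖ ^ n / (n.factorial : ℝ) * 2 ≤ (1 / 10 : ℝ) ^ n * Real.exp n * 2 :=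
          mul_le_mul_of_nonneg_right h4 (by norm_num)
      _ ≤ 1 / 2 * Real.exp (-(n / 10 : ℝ)) := h8
      _ ≤ _ := mul_le_mul_of_nonneg_left h6 (by norm_num)
  have h4 : ‖cexp w‖ = Real.exp w.re := Complex.norm_exp w
  have h5 := norm_sub_norm_le (cexp w) (TK N w)
  rw [h4] at h5
  linarith

/-- a point outside of the exceptional sets -/
lemma good_point {N : ℕ} (hN : 1 ≤ N) {P F M : ℂ} {l₀ U W : ℝ} (hU : 1 ≤ U)
    (h1 : ‖P‖ ≤ N / 10) (h2 : ‖F‖ * ‖TK N (-P)‖ ≤ U) (h3 : ‖M‖ * ‖TK N P‖ ≤ U)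
    (h4 : ‖F * M - 1‖ ≤ 1 / 2) (h5 : |l₀ - Real.log ‖F‖| ≤ W) :
    |l₀ - P.re| ≤ W + Real.log U + 2 := by
  have hU0 : 0 < U := by linarith
  have hFM : 1 / 2 ≤ ‖F‖ * ‖M‖ := by
    have h6 := norm_sub_norm_le (1 : ℂ) (1 - F * M)
    rw [norm_one, sub_sub_cancel, norm_sub_rev, norm_mul] at h6
    linarith
  have hF : 0 < ‖F‖ := by
    rcases (norm_nonneg F).eq_or_lt with h | h
    · rw [← h] at hFM; linarith
    · exact h
  have hM : 0 < ‖M‖ := by
    rcases (norm_nonneg M).eq_or_lt with h | h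
    · rw [← h] at hFM; linarith
    · exact h
  have a1 := tk_low hN (w := -P) (by rw [norm_neg]; exact h1)
  have a2 := tk_low hN h1
  rw [Complex.neg_re] at a1
  have e1 := Real.exp_pos P.re
  have e2 : Real.exp (-P.re) = (Real.exp P.re)⁻¹ := Real.exp_neg _
  rw [e2] at a1
  have b1 : ‖F‖ ≤ 2 * U * Real.exp P.re := by
    have h6 : ‖F‖ * (1 / 2 * (Real.exp P.re)⁻¹) ≤ U :=
      (mul_le_mul_of_nonneg_left a1 hF.le).trans h2
    have h7 : ‖F‖ * (1 / 2 * (Real.exp P.re)⁻¹) * (2 * Real.exp P.re) ≤ U * (2 * Real.exp P.re) :=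
      mul_le_mul_of_nonneg_right h6 (by positivity)
    have h8 : ‖F‖ * (1 / 2 * (Real.exp P.re)⁻¹) * (2 * Real.exp P.re) = ‖F‖ := by
      field_simp
    rw [h8] at h7
    linarith
  have b2 : ‖M‖ * Real.exp P.re ≤ 2 * U := by
    have h6 : ‖M‖ * (1 / 2 * Real.exp P.re) ≤ U :=
      (mul_le_mul_of_nonneg_left a2 hM.le).trans h3
    linarith
  have b3 : Real.exp P.re ≤ 4 * U * ‖F‖ := by
    have h6 : ‖F‖ * (‖M‖ * Real.exp P.re) ≤ ‖F‖ * (2 * U) := mul_le_mul_of_nonneg_left b2 hF.le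
    have h7 : 1 / 2 * Real.exp P.re ≤ (‖F‖ * ‖M‖) * Real.exp P.re :=
      mul_le_mul_of_nonneg_right hFM e1.le
    nlinarith
  have c1 : Real.log ‖F‖ ≤ Real.log 2 + Real.log U + P.re := by
    have := Real.log_le_log hF b1
    rwa [Real.log_mul (by positivity) (by positivity), Real.log_mul (by norm_num) hU0.ne',
      Real.log_exp] at this
  have c2 : P.re ≤ Real.log 4 + Real.log U + Real.log ‖F‖ := by
    have := Real.log_le_log e1 b3
    rwa [Real.log_exp, Real.log_mul (by positivity) hF.ne', Real.log_mul (by norm_num) hU0.ne']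
      at this
  have l2 : Real.log 2 ≤ 1 := by linarith [Real.log_two_lt_d9]
  have l4 : Real.log 4 ≤ 2 := by
    have : (4 : ℝ) = 2 ^ 2 := by norm_num
    rw [this, Real.log_pow]
    push_cast
    linarith
  have d := abs_le.mp h5
  rw [abs_le]
  constructor <;> linarith [d.1, d.2]

/-- Chebyshev's inequality -/
lemma cheb {ι : Type} (S : Finset ι) (f : ι → ℝ → ENNReal) (hf : ∀ i ∈ S, Measurable (f i))
    {t₁ V Q u : ℝ} (hu : 0 < u)
    (h : ∑ i ∈ S, ∫⁻ t in Icc t₁ (t₁ + V), f i t ≤ ENNReal.ofReal Q) :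
    ∑ i ∈ S, volume {t ∈ Icc t₁ (t₁ + V) | ENNReal.ofReal u ≤ f i t} ≤ ENNReal.ofReal (Q / u) := by
  have h1 : ∀ i ∈ S, ENNReal.ofReal u * volume {t ∈ Icc t₁ (t₁ + V) | ENNReal.ofReal u ≤ f i t} ≤
      ∫⁻ t in Icc t₁ (t₁ + V), f i t := by
    intro i hi
    have h2 := mul_meas_ge_le_lintegral (μ := volume.restrict (Icc t₁ (t₁ + V))) (hf i hi)
      (ENNReal.ofReal u)
    rw [Measure.restrict_apply (measurableSet_le measurable_const (hf i hi))] at h2
    refine le_trans (le_of_eq ?_) h2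
    congr 2
    ext t
    simp only [mem_sep_iff, mem_inter_iff, Set.mem_ofPred_eq]
    exact and_comm
  have h2 : ENNReal.ofReal u * ∑ i ∈ S, volume {t ∈ Icc t₁ (t₁ + V) | ENNReal.ofReal u ≤ f i t} ≤
      ENNReal.ofReal Q := by
    rw [Finset.mul_sum]
    exact (Finset.sum_le_sum h1).trans h
  rw [ENNReal.ofReal_div_of_pos hu, ENNReal.le_div_iff_mul_le (Or.inl (by
    rw [Ne, ENNReal.ofReal_eq_zero, not_le]; exact hu)) (Or.inl ENNReal.ofReal_ne_top), mul_comm]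
  exact h2

section

variable {K : Type} [Field K] [NumberField K]

open Classical in
/-- the mean square of the sum over the primes -/
lemma P_sq {S : Finset (Ideal (𝓞 K) →*₀ ℂ)} {ψ₀ : Ideal (𝓞 K) →*₀ ℂ} {V P Y : ℝ} {M : ℕ}
    (hV : 0 ≤ V) (h : LSP S ψ₀ V P M) (hM : ⌊Real.exp Y⌋₊ ≤ M) (σ t₁ : ℝ) :
    ∑ lam ∈ S, ∫⁻ t in Icc t₁ (t₁ + V), ENNReal.ofReal (‖Pr 0 Y (pr ψ₀ lam) (pt σ t)‖ ^ 2) ≤
      ENNReal.ofReal (P * ∑ 𝔭 ∈ (SI K ⌊Real.exp Y⌋₊).filter Prime,
        Real.exp (-((2 * σ) * lN 𝔭))) := by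
  have h1 := (LSP.mono h hM) (fun 𝔞 => if Prime 𝔞 then (Real.exp (-(σ * lN 𝔞)) : ℂ) else 0) t₁
  have e1 : ∑ 𝔞 ∈ SI K ⌊Real.exp Y⌋₊, ‖(if Prime 𝔞 then (Real.exp (-(σ * lN 𝔞)) : ℂ) else 0)‖ ^ 2 =
      ∑ 𝔭 ∈ (SI K ⌊Real.exp Y⌋₊).filter Prime, Real.exp (-((2 * σ) * lN 𝔭)) := by
    rw [Finset.sum_filter]
    refine Finset.sum_congr rfl fun 𝔞 _ => ?_
    split_ifs
    · rw [Complex.norm_real, Real.norm_of_nonneg (Real.exp_pos _).le, ← Real.exp_nat_mul]
      congr 1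
      push_cast
      ring
    · simp
  have e2 : ∀ (lam : Ideal (𝓞 K) →*₀ ℂ) (t : ℝ), ∑ 𝔞 ∈ SI K ⌊Real.exp Y⌋₊,
      (if Prime 𝔞 then (Real.exp (-(σ * lN 𝔞)) : ℂ) else 0) * pr ψ₀ lam 𝔞 * ph 𝔞 t =
      Pr 0 Y (pr ψ₀ lam) (pt σ t) := by
    intro lam t
    unfold Pr
    rw [Finset.sum_filter]
    refine Finset.sum_congr rfl fun 𝔞 _ => ?_
    split_ifs
    · rw [exp_pt]
      simp only [zero_mul, neg_zero, Real.exp_zero, Complex.ofReal_one, one_mul]
      ring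
    · simp
  rw [e1] at h1
  simp only [e2] at h1
  refine le_trans (le_of_eq ?_) (ENNReal.ofReal_le_ofReal h1)
  rw [ENNReal.ofReal_sum_of_nonneg fun lam _ => intervalIntegral.integral_nonneg (by linarith)
    fun t _ => by positivity]
  refine Finset.sum_congr rfl fun lam _ => ?_
  have hc : Continuous fun t : ℝ => ‖Pr 0 Y (pr ψ₀ lam) (pt σ t)‖ ^ 2 :=
    (((Pr_diff 0 Y (pr ψ₀ lam)).continuous.comp (pt_cont σ)).norm).pow 2
  rw [intervalIntegral.integral_of_le (by linarith), ← integral_Icc_eq_integral_Ioc,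
    ofReal_integral_eq_lintegral_ofReal (hc.integrableOn_Icc)
      (Eventually.of_forall fun t => by positivity)]

end

end Pool.Agent.N786.E
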