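import Pool.Agent.N786.E.Eul

/-!
# Coefficients of the products with a truncated exponential (owner helper786)
-/

set_option autoImplicit false
set_option linter.unusedSectionVars false

open UniqueFactorizationMonoid

namespace Pool.Agent.N786.E

open Pool.Agent.N786.D

/-- local coefficient -/
noncomputable def lc (c : ℂ) (γ : ℕ → ℂ) (y : ℂ) (e j : ℕ) : ℂ :=
  c ^ j / (j.factorial : ℂ) * (γ (e - j) * y ^ (e - j))

/-- the local square -/
noncomputable def lam (c : ℂ) (γ : ℕ → ℂ) (y : ℂ) (e : ℕ) : ℝ :=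
  ‖∑ j ∈ Finset.range (e + 1), lc c γ y e j‖ ^ 2

/-- the local square, for the tails -/
noncomputable def lamh (c : ℂ) (γ : ℕ → ℂ) (y : ℂ) (e : ℕ) : ℝ :=
  (∑ j ∈ Finset.range (e + 1), Real.exp j * ‖lc c γ y e j‖) ^ 2

section

variable {γ : ℕ → ℂ} {c y : ℂ}

lemma lc_norm (hγ : ∀ e, ‖γ e‖ ≤ 1) (hy : ‖y‖ = 1) (hc : ‖c‖ ≤ 1) (e j : ℕ) :
    ‖lc c γ y e j‖ ≤ ((j.factorial : ℝ))⁻¹ := by
  unfold lc
  rw [norm_mul, norm_div, norm_mul, norm_pow, norm_pow, hy, one_pow, mul_one, Complex.norm_natCast]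
  have h1 : ‖c‖ ^ j ≤ 1 := pow_le_one₀ (norm_nonneg _) hc
  have h2 : (0 : ℝ) < j.factorial := by exact_mod_cast Nat.factorial_pos j
  calc ‖c‖ ^ j / (j.factorial : ℝ) * ‖γ (e - j)‖ ≤ 1 / (j.factorial : ℝ) * 1 := by
        gcongr
        exact hγ _
    _ = _ := by rw [mul_one, one_div]

lemma sum_fact_le (x : ℝ) (hx : 0 ≤ x) (n : ℕ) :
    ∑ j ∈ Finset.range n, x ^ j * ((j.factorial : ℝ))⁻¹ ≤ Real.exp x := by
  have := Real.sum_le_exp_of_nonneg hx n
  simpa [div_eq_mul_inv] using this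

lemma lam_le (hγ : ∀ e, ‖γ e‖ ≤ 1) (hy : ‖y‖ = 1) (hc : ‖c‖ ≤ 1) (e : ℕ) :
    lam c γ y e ≤ 9 := by
  unfold lam
  have h1 : ‖∑ j ∈ Finset.range (e + 1), lc c γ y e j‖ ≤ 3 := by
    refine (norm_sum_le _ _).trans ?_
    refine (Finset.sum_le_sum fun j _ => lc_norm hγ hy hc e j).trans ?_
    have h2 := sum_fact_le 1 zero_le_one (e + 1)
    simp only [one_pow, one_mul] at h2
    refine h2.trans ?_
    have := Real.exp_one_lt_d9
    linarith
  calc _ ≤ (3 : ℝ) ^ 2 := pow_le_pow_left₀ (norm_nonneg _) h1 2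
    _ = 9 := by norm_num

lemma lamh_le (hγ : ∀ e, ‖γ e‖ ≤ 1) (hy : ‖y‖ = 1) (hc : ‖c‖ ≤ 1) (e : ℕ) :
    lamh c γ y e ≤ 400 := by
  unfold lamh
  have h0 : 0 ≤ ∑ j ∈ Finset.range (e + 1), Real.exp j * ‖lc c γ y e j‖ :=
    Finset.sum_nonneg fun j _ => by positivity
  have h1 : ∑ j ∈ Finset.range (e + 1), Real.exp j * ‖lc c γ y e j‖ ≤ 20 := by
    have h3 : ∀ j ∈ Finset.range (e + 1), Real.exp j * ‖lc c γ y e j‖ ≤
        (Real.exp 1) ^ j * ((j.factorial : ℝ))⁻¹ := by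
      intro j _
      rw [← Real.exp_nat_mul, mul_one]
      exact mul_le_mul_of_nonneg_left (lc_norm hγ hy hc e j) (Real.exp_pos _).le
    refine (Finset.sum_le_sum h3).trans ?_
    refine (sum_fact_le _ (Real.exp_pos 1).le (e + 1)).trans ?_
    have h4 := Real.exp_one_lt_d9
    have h5 : Real.exp (Real.exp 1) ≤ Real.exp (2.75) := Real.exp_le_exp.mpr (by linarith)
    have h6 : Real.exp (2.75) = Real.exp 1 ^ 3 * Real.exp (-0.25) := by
      rw [← Real.exp_nat_mul, ← Real.exp_add]; congr 1; norm_num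
    have h7 : Real.exp (-0.25) ≤ 0.8 := by
      have h8 : (1.25 : ℝ) ≤ Real.exp 0.25 := by
        have := Real.add_one_le_exp (0.25 : ℝ)
        linarith
      rw [Real.exp_neg]
      rw [inv_le_comm₀ (Real.exp_pos _) (by norm_num)]
      refine le_trans ?_ h8
      norm_num
    have h8 : Real.exp 1 ^ 3 ≤ 2.72 ^ 3 :=
      pow_le_pow_left₀ (Real.exp_pos _).le (by linarith) 3
    have h9 : Real.exp 1 ^ 3 * Real.exp (-0.25) ≤ 2.72 ^ 3 * 0.8 :=
      mul_le_mul h8 h7 (Real.exp_pos _).le (by norm_num)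
    rw [← h6] at h9
    norm_num at h9 ⊢
    linarith
  calc _ ≤ (20 : ℝ) ^ 2 := pow_le_pow_left₀ h0 h1 2
    _ = 400 := by norm_num

lemma lam_zero (hγ0 : γ 0 = 1) : lam c γ y 0 = 1 := by
  unfold lam lc
  simp [hγ0]

lemma lamh_zero (hγ0 : γ 0 = 1) : lamh c γ y 0 = 1 := by
  unfold lamh lc
  simp [hγ0]

lemma lam_one (hγ0 : γ 0 = 1) : lam c γ y 1 = ‖γ 1 * y + c‖ ^ 2 := by
  unfold lam lc
  rw [Finset.sum_range_succ, Finset.sum_range_one]
  simp [hγ0]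

lemma lam_nn (e : ℕ) : 0 ≤ lam c γ y e := by unfold lam; positivity

lemma lamh_nn (e : ℕ) : 0 ≤ lamh c γ y e := by unfold lamh; positivity

lemma geom_tail {x : ℝ} (hx0 : 0 ≤ x) (hx : x ≤ 1 / 2) (n : ℕ) :
    ∑ k ∈ Finset.range n, x ^ k ≤ 2 := by
  have h5 := (summable_geometric_of_lt_one hx0 (by linarith)).sum_le_tsum
    (Finset.range n) fun k _ => pow_nonneg hx0 k
  rw [tsum_geometric_of_lt_one hx0 (by linarith)] at h5
  refine h5.trans ?_
  rw [inv_le_comm₀ (by linarith) (by norm_num)]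
  linarith

lemma lam_sum (hγ0 : γ 0 = 1) (hγ : ∀ e, ‖γ e‖ ≤ 1) (hy : ‖y‖ = 1) (hc : ‖c‖ ≤ 1) {x : ℝ}
    (hx0 : 0 ≤ x) (hx : x ≤ 1 / 2) (N : ℕ) :
    ∑ e ∈ Finset.range N, lam c γ y e * x ^ e ≤
      Real.exp (‖γ 1 * y + c‖ ^ 2 * x + 18 * x ^ 2) := by
  have h1 : ∑ e ∈ Finset.range N, lam c γ y e * x ^ e ≤
      ∑ e ∈ Finset.range (N + 2), lam c γ y e * x ^ e :=
    Finset.sum_le_sum_of_subset_of_nonneg (Finset.range_mono (by omega))
      fun e _ _ => mul_nonneg (lam_nn e) (pow_nonneg hx0 e)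
  refine h1.trans ?_
  rw [Finset.sum_range_succ', Finset.sum_range_succ', lam_zero hγ0, lam_one hγ0]
  have h2 : ∑ k ∈ Finset.range N, lam c γ y (k + 1 + 1) * x ^ (k + 1 + 1) ≤ 18 * x ^ 2 := by
    calc _ ≤ ∑ k ∈ Finset.range N, 9 * x ^ 2 * x ^ k := by
          refine Finset.sum_le_sum fun k _ => ?_
          have := lam_le hγ hy hc (k + 1 + 1)
          have e1 : x ^ (k + 1 + 1) = x ^ 2 * x ^ k := by ring
          rw [e1, mul_assoc]
          exact mul_le_mul_of_nonneg_right this (by positivity)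
      _ = 9 * x ^ 2 * ∑ k ∈ Finset.range N, x ^ k := by rw [Finset.mul_sum]
      _ ≤ 9 * x ^ 2 * 2 := mul_le_mul_of_nonneg_left (geom_tail hx0 hx N) (by positivity)
      _ = _ := by ring
  have h3 := Real.add_one_le_exp (‖γ 1 * y + c‖ ^ 2 * x + 18 * x ^ 2)
  norm_num at h3 ⊢
  linarith

lemma lamh_sum (hγ0 : γ 0 = 1) (hγ : ∀ e, ‖γ e‖ ≤ 1) (hy : ‖y‖ = 1) (hc : ‖c‖ ≤ 1) {x : ℝ}
    (hx0 : 0 ≤ x) (hx : x ≤ 1 / 2) (N : ℕ) :
    ∑ e ∈ Finset.range N, lamh c γ y e * x ^ e ≤ Real.exp (800 * x) := by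
  have h1 : ∑ e ∈ Finset.range N, lamh c γ y e * x ^ e ≤
      ∑ e ∈ Finset.range (N + 1), lamh c γ y e * x ^ e :=
    Finset.sum_le_sum_of_subset_of_nonneg (Finset.range_mono (by omega))
      fun e _ _ => mul_nonneg (lamh_nn e) (pow_nonneg hx0 e)
  refine h1.trans ?_
  rw [Finset.sum_range_succ', lamh_zero hγ0]
  have h2 : ∑ k ∈ Finset.range N, lamh c γ y (k + 1) * x ^ (k + 1) ≤ 800 * x := by
    calc _ ≤ ∑ k ∈ Finset.range N, 400 * x * x ^ k := by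
          refine Finset.sum_le_sum fun k _ => ?_
          have := lamh_le hγ hy hc (k + 1)
          have e1 : x ^ (k + 1) = x * x ^ k := by ring
          rw [e1, mul_assoc]
          exact mul_le_mul_of_nonneg_right this (by positivity)
      _ = 400 * x * ∑ k ∈ Finset.range N, x ^ k := by rw [Finset.mul_sum]
      _ ≤ 400 * x * 2 := mul_le_mul_of_nonneg_left (geom_tail hx0 hx N) (by positivity)
      _ = _ := by ring
  have h3 := Real.add_one_le_exp (800 * x)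
  norm_num at h3 ⊢
  linarith

end

section

variable {ι : Type} [Fintype ι]

open Classical in
/-- the box of the exponents -/
noncomputable def bx (K : ℕ) (e : ι → ℕ) : Finset (ι → ℕ) :=
  (Fintype.piFinset fun i => Finset.range (e i + 1)).filter fun k => ∑ i, k i ≤ K

/-- the truncated coefficient -/
noncomputable def UU (K : ℕ) (c : ι → ℂ) (γ : ℕ → ℂ) (y : ι → ℂ) (e : ι → ℕ) : ℂ :=
  ∑ k ∈ bx K e, ∏ i, lc (c i) γ (y i) (e i) (k i)

lemma UU_sq (K : ℕ) (c : ι → ℂ) (γ : ℕ → ℂ) (y : ι → ℂ) (e : ι → ℕ) :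
    ‖UU K c γ y e‖ ^ 2 ≤ 2 * ∏ i, lam (c i) γ (y i) (e i) +
      2 * (Real.exp (-(2 * K)) * ∏ i, lamh (c i) γ (y i) (e i)) := by
  classical
  set X := Fintype.piFinset fun i => Finset.range (e i + 1) with hX
  set f : (ι → ℕ) → ℂ := fun k => ∏ i, lc (c i) γ (y i) (e i) (k i) with hf
  have h1 : ∑ k ∈ X, f k = ∏ i, ∑ j ∈ Finset.range (e i + 1), lc (c i) γ (y i) (e i) j := by
    rw [Finset.prod_univ_sum]
  have h2 : UU K c γ y e = ∑ k ∈ X, f k - ∑ k ∈ X with ¬ ∑ i, k i ≤ K, f k := by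
    rw [eq_sub_iff_add_eq]
    unfold UU bx
    rw [← Finset.sum_filter_add_sum_filter_not X (fun k => ∑ i, k i ≤ K) f]
  have h3 : ‖∑ k ∈ X with ¬ ∑ i, k i ≤ K, f k‖ ≤
      Real.exp (-K) * ∏ i, ∑ j ∈ Finset.range (e i + 1), Real.exp j * ‖lc (c i) γ (y i) (e i) j‖ := by
    rw [Finset.prod_univ_sum, Finset.mul_sum]
    refine (norm_sum_le _ _).trans ?_
    refine (Finset.sum_le_sum (g := fun k => Real.exp (-K) * ∏ i, (Real.exp (k i) *
      ‖lc (c i) γ (y i) (e i) (k i)‖)) fun k hk => ?_).trans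
      (Finset.sum_le_sum_of_subset_of_nonneg (Finset.filter_subset _ _) fun k _ _ => by positivity)
    rw [Finset.prod_mul_distrib, hf]
    simp only
    rw [norm_prod, ← mul_assoc]
    refine le_mul_of_one_le_left (Finset.prod_nonneg fun i _ => norm_nonneg _) ?_
    rw [← Real.exp_sum, ← Real.exp_add]
    refine Real.one_le_exp ?_
    have h4 := (Finset.mem_filter.mp hk).2
    have h5 : (K : ℝ) ≤ ∑ i, (k i : ℝ) := by
      have h6 : K ≤ ∑ i, k i := by omega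
      exact_mod_cast h6
    linarith
  have h4 : ‖UU K c γ y e‖ ≤ ‖∏ i, ∑ j ∈ Finset.range (e i + 1), lc (c i) γ (y i) (e i) j‖ +
      Real.exp (-K) * ∏ i, ∑ j ∈ Finset.range (e i + 1), Real.exp j *
        ‖lc (c i) γ (y i) (e i) j‖ := by
    rw [h2, h1]
    exact (norm_sub_le _ _).trans (add_le_add le_rfl h3)
  have h5 : ∀ u v w : ℝ, 0 ≤ u → u ≤ v + w → u ^ 2 ≤ 2 * v ^ 2 + 2 * w ^ 2 := by
    intro u v w hu huv
    have := pow_le_pow_left₀ hu huv 2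
    nlinarith [sq_nonneg (v - w)]
  refine (h5 _ _ _ (norm_nonneg _) h4).trans (le_of_eq ?_)
  unfold lam lamh
  rw [norm_prod, ← Finset.prod_pow, mul_pow, ← Finset.prod_pow, ← Real.exp_nat_mul]
  congr 3
  congr 1
  push_cast
  ring

variable {M : Type} [CommMonoidWithZero M] [NormalizationMonoid M] [UniqueFactorizationMonoid M]
  [Subsingleton Mˣ] [Nontrivial M]

/-- **the mean square of the coefficients** -/
theorem coef_sum {L : M → ℝ} {B₀ : ℝ} (hL : LNorm L B₀) {p : ι → M} (hp : ∀ i, Prime (p i))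
    (hinj : Function.Injective p) {γ : ℕ → ℂ} (hγ0 : γ 0 = 1) (hγ : ∀ e, ‖γ e‖ ≤ 1)
    {y c : ι → ℂ} (hy : ∀ i, ‖y i‖ = 1) (hc : ∀ i, ‖c i‖ ≤ 1) (K : ℕ) {σ : ℝ} (hσ : 1 ≤ σ)
    (A : Finset M) (hA : ∀ a ∈ A, Sp p a) :
    ∑ a ∈ A, ‖UU K c γ y (fun i => ex (p i) a)‖ ^ 2 * Real.exp (-(σ * L a)) ≤
      2 * Real.exp (∑ i, (‖γ 1 * y i + c i‖ ^ 2 * Real.exp (-(σ * L (p i))) +
        18 * Real.exp (-(σ * L (p i))) ^ 2)) +
      2 * (Real.exp (-(2 * K)) * Real.exp (∑ i, 800 * Real.exp (-(σ * L (p i))))) := by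
  set x : ι → ℝ := fun i => Real.exp (-(σ * L (p i))) with hx
  have hx0 : ∀ i, 0 ≤ x i := fun i => (Real.exp_pos _).le
  have hx2 : ∀ i, x i ≤ 1 / 2 := fun i => by
    have h3 := hL.prime (p i) (hp i)
    have hl2 : 0 < Real.log 2 := Real.log_pos (by norm_num)
    have h4 : Real.exp (-(σ * L (p i))) ≤ Real.exp (-Real.log 2) :=
      Real.exp_le_exp.mpr (by nlinarith)
    rw [Real.exp_neg (Real.log 2), Real.exp_log (by norm_num)] at h4
    simp only [hx]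
    linarith
  have hxa : ∀ a ∈ A, Real.exp (-(σ * L a)) = ∏ i, x i ^ ex (p i) a := by
    intro a ha
    rw [(hA a ha).L_eq hL hp hinj, Finset.mul_sum, ← Finset.sum_neg_distrib, Real.exp_sum]
    refine Finset.prod_congr rfl fun i _ => ?_
    simp only [hx]
    rw [← Real.exp_nat_mul]
    congr 1
    ring
  have h1 := euler2 hp hinj (fun i e => lam (c i) γ (y i) e * x i ^ e)
    (fun i e => mul_nonneg (lam_nn e) (pow_nonneg (hx0 i) e))
    (fun i => Real.exp (‖γ 1 * y i + c i‖ ^ 2 * x i + 18 * x i ^ 2))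
    (fun i N => lam_sum hγ0 hγ (hy i) (hc i) (hx0 i) (hx2 i) N) A hA
  have h2 := euler2 hp hinj (fun i e => lamh (c i) γ (y i) e * x i ^ e)
    (fun i e => mul_nonneg (lamh_nn e) (pow_nonneg (hx0 i) e))
    (fun i => Real.exp (800 * x i))
    (fun i N => lamh_sum hγ0 hγ (hy i) (hc i) (hx0 i) (hx2 i) N) A hA
  rw [← Real.exp_sum] at h1 h2
  calc ∑ a ∈ A, ‖UU K c γ y (fun i => ex (p i) a)‖ ^ 2 * Real.exp (-(σ * L a)) ≤
      ∑ a ∈ A, (2 * ∏ i, (lam (c i) γ (y i) (ex (p i) a) * x i ^ ex (p i) a) +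
        2 * (Real.exp (-(2 * K)) * ∏ i, (lamh (c i) γ (y i) (ex (p i) a) *
          x i ^ ex (p i) a))) := by
        refine Finset.sum_le_sum fun a ha => ?_
        rw [hxa a ha, Finset.prod_mul_distrib, Finset.prod_mul_distrib]
        have h3 := UU_sq K c γ y (fun i => ex (p i) a)
        have h4 : 0 ≤ ∏ i, x i ^ ex (p i) a := Finset.prod_nonneg fun i _ => pow_nonneg (hx0 i) _
        refine (mul_le_mul_of_nonneg_right h3 h4).trans (le_of_eq ?_)
        ring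
    _ = 2 * ∑ a ∈ A, ∏ i, (lam (c i) γ (y i) (ex (p i) a) * x i ^ ex (p i) a) +
        2 * (Real.exp (-(2 * K)) * ∑ a ∈ A, ∏ i, (lamh (c i) γ (y i) (ex (p i) a) *
          x i ^ ex (p i) a)) := by
        rw [Finset.sum_add_distrib, ← Finset.mul_sum, ← Finset.mul_sum, ← Finset.mul_sum]
    _ ≤ _ := by
        have h5 := (Real.exp_pos (-(2 * (K : ℝ)))).le
        gcongr

end

end Pool.Agent.N786.E
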