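import Pool.Agent.N786.E.Tor

/-!
# Characteristic functions of trigonometric sums (owner helper786)
-/

set_option autoImplicit false
set_option linter.unusedSectionVars false

open MeasureTheory Complex Filter Topology Set

namespace Pool.Agent.N786.E

/-! ### the exponential series at imaginary arguments -/

lemma exp_taylor_aux (J : ℕ) : ∀ (s : ℝ), |s| = 1 → ∀ x : ℝ, 0 ≤ x →
    ‖cexp ((s * x : ℝ) * I) - ∑ n ∈ Finset.range J, ((s * x : ℝ) * I) ^ n / (n.factorial : ℂ)‖ ≤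
      x ^ J / (J.factorial : ℝ) := by
  induction J with
  | zero =>
    intro s _ x _
    rw [Finset.range_zero, Finset.sum_empty, sub_zero, Complex.norm_exp_ofReal_mul_I]
    simp
  | succ J ih =>
    intro s hs x hx
    have hd : ∀ y : ℝ, HasDerivAt (fun y : ℝ => cexp ((s * y : ℝ) * I) -
        ∑ n ∈ Finset.range (J + 1), ((s * y : ℝ) * I) ^ n / (n.factorial : ℂ))
        ((s * I) * (cexp ((s * y : ℝ) * I) -
          ∑ n ∈ Finset.range J, ((s * y : ℝ) * I) ^ n / (n.factorial : ℂ))) y := by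
      intro y
      have h0 : HasDerivAt (fun y : ℝ => ((s * y : ℝ) : ℂ) * I) (s * I) y := by
        have h1 : HasDerivAt (fun y : ℝ => ((s * y : ℝ) : ℂ)) (s : ℂ) y := by
          have h2 := ((hasDerivAt_id y).const_mul s).ofReal_comp
          simpa using h2
        exact h1.mul_const I
      have h1 := h0.cexp
      have h2 : HasDerivAt (fun y : ℝ => ∑ n ∈ Finset.range (J + 1),
          ((s * y : ℝ) * I) ^ n / (n.factorial : ℂ))
          ((s * I) * ∑ n ∈ Finset.range J, ((s * y : ℝ) * I) ^ n / (n.factorial : ℂ)) y := by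
        have h3 : ∀ z : ℝ, ∑ n ∈ Finset.range (J + 1), ((s * z : ℝ) * I) ^ n / (n.factorial : ℂ) =
            ∑ n ∈ Finset.range J, ((s * z : ℝ) * I) ^ (n + 1) / ((n + 1).factorial : ℂ) + 1 := by
          intro z
          rw [Finset.sum_range_succ']
          simp
        simp_rw [h3]
        rw [Finset.mul_sum]
        refine HasDerivAt.add_const _ (HasDerivAt.fun_sum fun n _ => ?_)
        have h4 := (h0.pow (n + 1)).div_const ((n + 1).factorial : ℂ)
        refine h4.congr_deriv ?_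
        rw [Nat.factorial_succ]
        have n1 : ((n.factorial : ℕ) : ℂ) ≠ 0 := by exact_mod_cast Nat.factorial_ne_zero n
        have n2 : ((n : ℂ) + 1) ≠ 0 := by exact_mod_cast Nat.succ_ne_zero n
        push_cast
        field_simp
      refine (h1.sub h2).congr_deriv ?_
      ring
    have hB : ∀ y : ℝ, HasDerivAt (fun y : ℝ => y ^ (J + 1) / ((J + 1).factorial : ℝ))
        (y ^ J / (J.factorial : ℝ)) y := by
      intro y
      refine ((hasDerivAt_pow (J + 1) y).div_const _).congr_deriv ?_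
      rw [Nat.factorial_succ]
      have n1 : ((J.factorial : ℕ) : ℝ) ≠ 0 := by exact_mod_cast Nat.factorial_ne_zero J
      have n2 : ((J : ℝ) + 1) ≠ 0 := by exact_mod_cast Nat.succ_ne_zero J
      push_cast
      field_simp
    refine image_norm_le_of_norm_deriv_right_le_deriv_boundary (a := 0) (b := x)
      (fun y _ => (hd y).continuousAt.continuousWithinAt)
      (fun y _ => (hd y).hasDerivWithinAt) ?_ hB ?_ (right_mem_Icc.mpr hx)
    · rw [Finset.sum_range_succ']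
      simp
    · intro y hy
      rw [norm_mul, norm_mul, Complex.norm_I, mul_one, Complex.norm_real, Real.norm_eq_abs, hs,
        one_mul]
      exact ih s hs y hy.1

lemma exp_taylor (J : ℕ) (x : ℝ) :
    ‖cexp ((x : ℂ) * I) - ∑ n ∈ Finset.range J, ((x : ℂ) * I) ^ n / (n.factorial : ℂ)‖ ≤
      |x| ^ J / (J.factorial : ℝ) := by
  rcases le_total 0 x with hx | hx
  · have h := exp_taylor_aux J 1 (by simp) x hx
    rw [one_mul] at h
    rwa [abs_of_nonneg hx]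
  · have h := exp_taylor_aux J (-1) (by simp) (-x) (by linarith)
    have e : (-1 : ℝ) * -x = x := by ring
    rw [e] at h
    rwa [abs_of_nonpos hx]

/-! ### one factor -/

lemma int_cos : ∫ θ in Ioc (0 : ℝ) 1, Real.cos (2 * Real.pi * θ) = 0 := by
  rw [← intervalIntegral.integral_of_le zero_le_one]
  have h := intervalIntegral.integral_comp_mul_left (a := 0) (b := 1) (fun x => Real.cos x)
    (c := 2 * Real.pi) (by positivity)
  rw [h]
  simp

lemma int_cos_sq : ∫ θ in Ioc (0 : ℝ) 1, Real.cos (2 * Real.pi * θ) ^ 2 = 1 / 2 := by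
  rw [← intervalIntegral.integral_of_le zero_le_one]
  have h := intervalIntegral.integral_comp_mul_left (a := 0) (b := 1) (fun x => Real.cos x ^ 2)
    (c := 2 * Real.pi) (by positivity)
  rw [h, integral_cos_sq]
  simp
  field_simp

lemma mgf_one (y : ℝ) : ∫ θ in Ioc (0 : ℝ) 1, Real.exp (y * Real.cos (2 * Real.pi * θ)) ≤
    Real.exp (y ^ 2 / 2) := by
  have h1 : ∀ θ : ℝ, Real.exp (y * Real.cos (2 * Real.pi * θ)) ≤
      Real.cosh y + Real.sinh y * Real.cos (2 * Real.pi * θ) := by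
    intro θ
    obtain ⟨u, hu⟩ : ∃ u : ℝ, u = Real.cos (2 * Real.pi * θ) := ⟨_, rfl⟩
    rw [← hu]
    have hu1 : u ≤ 1 := by rw [hu]; exact Real.cos_le_one _
    have hu2 : -1 ≤ u := by rw [hu]; exact Real.neg_one_le_cos _
    have h2 := convexOn_exp.2 (mem_univ y) (mem_univ (-y)) (show 0 ≤ (1 + u) / 2 by linarith)
      (show 0 ≤ (1 - u) / 2 by linarith) (by ring)
    simp only [smul_eq_mul] at h2
    have e1 : (1 + u) / 2 * y + (1 - u) / 2 * -y = y * u := by ring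
    rw [e1] at h2
    refine h2.trans (le_of_eq ?_)
    rw [Real.cosh_eq, Real.sinh_eq]
    ring
  have hc1 : Continuous fun θ : ℝ => Real.exp (y * Real.cos (2 * Real.pi * θ)) := by fun_prop
  have hc2 : Continuous fun θ : ℝ => Real.cosh y + Real.sinh y * Real.cos (2 * Real.pi * θ) := by
    fun_prop
  have i1 : ∀ f : ℝ → ℝ, Continuous f → Integrable f (volume.restrict (Ioc (0 : ℝ) 1)) :=
    fun f hf => (hf.integrableOn_Icc (a := 0) (b := 1)).mono_set Ioc_subset_Icc_self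
  refine (integral_mono (i1 _ hc1) (i1 _ hc2) h1).trans ?_
  rw [integral_add (i1 _ continuous_const) (i1 _ (by fun_prop)), integral_const_mul, int_cos,
    mul_zero, add_zero]
  simp only [integral_const, measureReal_restrict_apply_univ, Real.volume_real_Ioc_of_le zero_le_one,
    sub_zero, smul_eq_mul, one_mul]
  exact Real.cosh_le_exp_half_sq y

lemma char_one {y : ℝ} (hy : |y| ≤ 1) :
    ‖(∫ θ in Ioc (0 : ℝ) 1, cexp (((y * Real.cos (2 * Real.pi * θ) : ℝ) : ℂ) * I)) -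
      ((Real.exp (-(y ^ 2 / 4)) : ℝ) : ℂ)‖ ≤ |y| ^ 3 := by
  have i1 : ∀ f : ℝ → ℂ, Continuous f → Integrable f (volume.restrict (Ioc (0 : ℝ) 1)) :=
    fun f hf => (hf.integrableOn_Icc (a := 0) (b := 1)).mono_set Ioc_subset_Icc_self
  set W : ℝ → ℝ := fun θ => y * Real.cos (2 * Real.pi * θ) with hW
  have hWc : Continuous W := by rw [hW]; fun_prop
  have hmain : ∫ θ in Ioc (0 : ℝ) 1, (1 + ((W θ : ℝ) : ℂ) * I - ((W θ ^ 2 / 2 : ℝ) : ℂ)) =
      ((1 - y ^ 2 / 4 : ℝ) : ℂ) := by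
    have e1 : ∫ θ in Ioc (0 : ℝ) 1, ((W θ : ℝ) : ℂ) = 0 := by
      rw [integral_complex_ofReal]
      simp only [hW]
      rw [integral_const_mul, int_cos]
      simp
    have e2 : ∫ θ in Ioc (0 : ℝ) 1, ((W θ ^ 2 / 2 : ℝ) : ℂ) = ((y ^ 2 / 4 : ℝ) : ℂ) := by
      rw [integral_complex_ofReal]
      congr 1
      simp only [hW, mul_pow]
      rw [integral_div, integral_const_mul, int_cos_sq]
      ring
    rw [integral_sub (i1 _ (by fun_prop)) (i1 _ (by fun_prop)), integral_add (i1 _ (by fun_prop))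
      (i1 _ (by fun_prop)), integral_mul_const, e1, e2]
    simp
  have h1 : ‖(∫ θ in Ioc (0 : ℝ) 1, cexp (((W θ : ℝ) : ℂ) * I)) - ((1 - y ^ 2 / 4 : ℝ) : ℂ)‖ ≤
      |y| ^ 3 / 6 := by
    rw [← hmain, ← integral_sub (i1 _ (by fun_prop)) (i1 _ (by fun_prop))]
    have h2 : ∀ θ : ℝ, ‖cexp (((W θ : ℝ) : ℂ) * I) - (1 + ((W θ : ℝ) : ℂ) * I -
        ((W θ ^ 2 / 2 : ℝ) : ℂ))‖ ≤ |y| ^ 3 / 6 := by
      intro θ
      have h3 := exp_taylor 3 (W θ)
      have e3 : ∑ n ∈ Finset.range 3, (((W θ : ℝ) : ℂ) * I) ^ n / (n.factorial : ℂ) =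
          1 + ((W θ : ℝ) : ℂ) * I - ((W θ ^ 2 / 2 : ℝ) : ℂ) := by
        rw [Finset.sum_range_succ, Finset.sum_range_succ, Finset.sum_range_one]
        simp only [pow_zero, Nat.factorial, pow_one, mul_pow, Complex.I_sq]
        push_cast
        ring
      rw [e3] at h3
      refine h3.trans ?_
      have h4 : |W θ| ≤ |y| := by
        simp only [hW, abs_mul]
        exact mul_le_of_le_one_right (abs_nonneg y) (Real.abs_cos_le_one _)
      have h5 : ((3 : ℕ).factorial : ℝ) = 6 := by norm_num [Nat.factorial]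
      rw [h5]
      gcongr
    refine (norm_integral_le_of_norm_le_const (Eventually.of_forall h2)).trans ?_
    simp
  have h2 : ‖((1 - y ^ 2 / 4 : ℝ) : ℂ) - ((Real.exp (-(y ^ 2 / 4)) : ℝ) : ℂ)‖ ≤ y ^ 4 / 16 := by
    rw [← Complex.ofReal_sub, Complex.norm_real, Real.norm_eq_abs, abs_sub_comm]
    have hy2 : y ^ 2 ≤ 1 := by rw [← sq_abs]; exact pow_le_one₀ (abs_nonneg y) hy
    have h3 := Real.abs_exp_sub_one_sub_id_le (x := -(y ^ 2 / 4)) (by
      rw [abs_neg, abs_of_nonneg (by positivity)]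
      linarith)
    have e4 : Real.exp (-(y ^ 2 / 4)) - (1 - y ^ 2 / 4) =
        Real.exp (-(y ^ 2 / 4)) - 1 - -(y ^ 2 / 4) := by ring
    rw [e4]
    refine h3.trans (le_of_eq ?_)
    ring
  have h3 : y ^ 4 ≤ |y| ^ 3 := by
    have e5 : y ^ 4 = |y| ^ 3 * |y| := by
      rw [← pow_succ, ← Even.pow_abs (by decide : Even 4)]
    rw [e5]
    exact mul_le_of_le_one_right (by positivity) hy
  have h4 := norm_sub_le_norm_sub_add_norm_sub
    (∫ θ in Ioc (0 : ℝ) 1, cexp (((W θ : ℝ) : ℂ) * I)) ((1 - y ^ 2 / 4 : ℝ) : ℂ)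
    ((Real.exp (-(y ^ 2 / 4)) : ℝ) : ℂ)
  refine h4.trans ?_
  have h5 : 0 ≤ |y| ^ 3 := by positivity
  linarith

lemma prod_close {ι : Type} (s : Finset ι) (a b : ι → ℂ) (ha : ∀ i ∈ s, ‖a i‖ ≤ 1)
    (hb : ∀ i ∈ s, ‖b i‖ ≤ 1) : ‖∏ i ∈ s, a i - ∏ i ∈ s, b i‖ ≤ ∑ i ∈ s, ‖a i - b i‖ := by
  classical
  induction s using Finset.induction_on with
  | empty => simp
  | insert j s hj ih =>
    rw [Finset.prod_insert hj, Finset.prod_insert hj, Finset.sum_insert hj]
    have i1 := ih (fun i hi => ha i (Finset.mem_insert_of_mem hi))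
      (fun i hi => hb i (Finset.mem_insert_of_mem hi))
    have e1 : a j * ∏ i ∈ s, a i - b j * ∏ i ∈ s, b i =
        (a j - b j) * ∏ i ∈ s, a i + b j * (∏ i ∈ s, a i - ∏ i ∈ s, b i) := by ring
    rw [e1]
    refine (norm_add_le _ _).trans ?_
    rw [norm_mul, norm_mul]
    have h1 : ‖∏ i ∈ s, a i‖ ≤ 1 := by
      rw [norm_prod]
      exact Finset.prod_le_one (fun i _ => norm_nonneg _)
        fun i hi => ha i (Finset.mem_insert_of_mem hi)
    have h2 := hb j (Finset.mem_insert_self _ _)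
    have h3 : ‖a j - b j‖ * ‖∏ i ∈ s, a i‖ ≤ ‖a j - b j‖ :=
      mul_le_of_le_one_right (norm_nonneg _) h1
    have h4 : ‖b j‖ * ‖∏ i ∈ s, a i - ∏ i ∈ s, b i‖ ≤ ‖∏ i ∈ s, a i - ∏ i ∈ s, b i‖ :=
      mul_le_of_le_one_left (norm_nonneg _) h2
    linarith

section torus

variable {ι : Type} [Fintype ι]

/-- the real part on the torus -/
noncomputable def WT (c : ι → ℝ) (θ : ι → ℝ) : ℝ := ∑ i, c i * Real.cos (2 * Real.pi * θ i)

lemma WT_cont (c : ι → ℝ) : Continuous (WT c) := by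
  unfold WT
  fun_prop

lemma et_re (θ : ι → ℝ) (i : ι) : ((et θ i : ℂˣ) : ℂ).re = Real.cos (2 * Real.pi * θ i) := by
  rw [et_coe]
  have : 2 * Real.pi * I * (θ i : ℂ) = ((2 * Real.pi * θ i : ℝ) : ℂ) * I := by
    push_cast; ring
  rw [this, Complex.exp_ofReal_mul_I_re]

lemma tt_et (c : ι → ℝ) (θ : ι → ℝ) : tt c (et θ) = ((WT c θ : ℝ) : ℂ) := by
  rw [tt_real (norm_et θ)]
  unfold WT
  simp only [et_re]

lemma WT_le (c : ι → ℝ) (θ : ι → ℝ) : |WT c θ| ≤ ∑ i, |c i| := by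
  unfold WT
  refine (Finset.abs_sum_le_sum_abs _ _).trans (Finset.sum_le_sum fun i _ => ?_)
  rw [abs_mul]
  exact mul_le_of_le_one_right (abs_nonneg _) (Real.abs_cos_le_one _)

lemma cub_int {f : (ι → ℝ) → ℝ} (hf : Continuous f) {C : ℝ} (hC : ∀ θ, |f θ| ≤ C) :
    Integrable f (cub ι) :=
  Integrable.of_bound (C := C) hf.aestronglyMeasurable (Eventually.of_forall fun θ => hC θ)

lemma mgf_tor (c : ι → ℝ) (lam : ℝ) :
    ∫ θ, Real.exp (lam * WT c θ) ∂(cub ι) ≤ Real.exp (lam ^ 2 * (∑ i, c i ^ 2) / 2) := by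
  have h1 : ∀ θ : ι → ℝ, Real.exp (lam * WT c θ) =
      ∏ i, Real.exp ((lam * c i) * Real.cos (2 * Real.pi * θ i)) := by
    intro θ
    unfold WT
    rw [← Real.exp_sum, Finset.mul_sum]
    congr 1
    exact Finset.sum_congr rfl fun i _ => by ring
  simp_rw [h1]
  unfold cub
  rw [integral_fintype_prod_eq_prod (𝕜 := ℝ) (E := fun _ : ι => ℝ)
    (fun i (y : ℝ) => Real.exp ((lam * c i) * Real.cos (2 * Real.pi * y)))]
  have h2 : Real.exp (lam ^ 2 * (∑ i, c i ^ 2) / 2) = ∏ i, Real.exp ((lam * c i) ^ 2 / 2) := by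
    rw [← Real.exp_sum, Finset.mul_sum, Finset.sum_div]
    congr 1
    exact Finset.sum_congr rfl fun i _ => by ring
  rw [h2]
  exact Finset.prod_le_prod (fun i _ => integral_nonneg fun y => (Real.exp_pos _).le)
    fun i _ => mgf_one _

lemma pow_le_cosh (x : ℝ) (J : ℕ) : x ^ (2 * J) ≤ ((2 * J).factorial : ℝ) * Real.cosh x := by
  have h1 := Real.hasSum_cosh x
  have h2 := le_hasSum h1 J fun j _ => by
    have : 0 ≤ x ^ (2 * j) := by rw [pow_mul]; positivity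
    positivity
  have h3 : (0 : ℝ) < ((2 * J).factorial : ℝ) := by exact_mod_cast Nat.factorial_pos _
  rw [div_le_iff₀ h3] at h2
  linarith

/-- the moments on the torus -/
lemma mom_tor (c : ι → ℝ) (J : ℕ) {Ξ ξ σ2 : ℝ} (hΞ : 1 ≤ Ξ) (hξ : |ξ| ≤ Ξ)
    (hσ : ∑ i, c i ^ 2 ≤ σ2) :
    ∫ θ, (ξ * WT c θ) ^ (2 * J) / (J.factorial : ℝ) ^ 2 ∂(cub ι) ≤
      (1 / 4) ^ J * Real.exp (8 * Ξ ^ 2 * σ2) := by
  have hΞ0 : 0 < Ξ := by linarith
  have hJ0 : (0 : ℝ) < (J.factorial : ℝ) := by exact_mod_cast Nat.factorial_pos _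
  have h2J : (0 : ℝ) < ((2 * J).factorial : ℝ) := by exact_mod_cast Nat.factorial_pos _
  have hcb : ((2 * J).factorial : ℝ) ≤ 4 ^ J * (J.factorial : ℝ) ^ 2 := by
    have h1 : Nat.centralBinom J * J.factorial * J.factorial = (2 * J).factorial := by
      rw [Nat.centralBinom_eq_two_mul_choose]
      have := Nat.choose_mul_factorial_mul_factorial (show J ≤ 2 * J by omega)
      rw [show 2 * J - J = J by omega] at this
      exact this
    have h2 : Nat.centralBinom J ≤ 4 ^ J := by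
      rw [Nat.centralBinom_eq_two_mul_choose]
      calc Nat.choose (2 * J) J ≤ 2 ^ (2 * J) := Nat.choose_le_two_pow _ _
        _ = 4 ^ J := by rw [pow_mul]; norm_num
    have h3 : (2 * J).factorial ≤ 4 ^ J * J.factorial ^ 2 := by
      rw [← h1]
      calc Nat.centralBinom J * J.factorial * J.factorial ≤ 4 ^ J * J.factorial * J.factorial := by
            gcongr
        _ = _ := by ring
    exact_mod_cast h3
  have hpt : ∀ θ : ι → ℝ, (ξ * WT c θ) ^ (2 * J) / (J.factorial : ℝ) ^ 2 ≤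
      (1 / 4) ^ J * ((Real.exp ((4 * Ξ) * WT c θ) + Real.exp (-(4 * Ξ) * WT c θ)) / 2) := by
    intro θ
    have h1 : (ξ * WT c θ) ^ (2 * J) ≤ (Ξ * WT c θ) ^ (2 * J) := by
      rw [pow_mul, pow_mul]
      refine pow_le_pow_left₀ (sq_nonneg _) ?_ J
      rw [mul_pow, mul_pow]
      refine mul_le_mul_of_nonneg_right ?_ (sq_nonneg _)
      rw [← sq_abs ξ]
      exact pow_le_pow_left₀ (abs_nonneg _) hξ 2
    have h2 := pow_le_cosh (4 * Ξ * WT c θ) J
    have h3 : (4 * Ξ * WT c θ) ^ (2 * J) = 16 ^ J * (Ξ * WT c θ) ^ (2 * J) := by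
      rw [mul_assoc, mul_pow, pow_mul 4 2 J]
      norm_num
    rw [h3] at h2
    have h4 : (Ξ * WT c θ) ^ (2 * J) ≤
        (1 / 16) ^ J * (((2 * J).factorial : ℝ) * Real.cosh (4 * Ξ * WT c θ)) := by
      have h5 : (1 / 16 : ℝ) ^ J * (16 ^ J * (Ξ * WT c θ) ^ (2 * J)) = (Ξ * WT c θ) ^ (2 * J) := by
        rw [← mul_assoc, ← mul_pow]
        norm_num
      rw [← h5]
      exact mul_le_mul_of_nonneg_left h2 (by positivity)
    rw [div_le_iff₀ (by positivity)]
    have hcosh : Real.cosh (4 * Ξ * WT c θ) =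
        (Real.exp ((4 * Ξ) * WT c θ) + Real.exp (-(4 * Ξ) * WT c θ)) / 2 := by
      rw [Real.cosh_eq, neg_mul]
    rw [← hcosh]
    have hc0 : 0 ≤ Real.cosh (4 * Ξ * WT c θ) := (Real.cosh_pos _).le
    calc (ξ * WT c θ) ^ (2 * J) ≤
        (1 / 16) ^ J * (((2 * J).factorial : ℝ) * Real.cosh (4 * Ξ * WT c θ)) := h1.trans h4
      _ ≤ (1 / 16) ^ J * ((4 ^ J * (J.factorial : ℝ) ^ 2) * Real.cosh (4 * Ξ * WT c θ)) := by
          gcongr
      _ = ((1 / 16) ^ J * 4 ^ J) * Real.cosh (4 * Ξ * WT c θ) * (J.factorial : ℝ) ^ 2 := by ring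
      _ = _ := by
          rw [← mul_pow]
          norm_num
  have hb : ∀ θ, |WT c θ| ≤ ∑ i, |c i| := WT_le c
  have hc := WT_cont c
  have hexpb : ∀ (lam : ℝ) (θ : ι → ℝ), |Real.exp (lam * WT c θ)| ≤
      Real.exp (|lam| * ∑ i, |c i|) := by
    intro lam θ
    rw [abs_of_pos (Real.exp_pos _)]
    refine Real.exp_le_exp.mpr ((le_abs_self _).trans ?_)
    rw [abs_mul]
    exact mul_le_mul_of_nonneg_left (hb θ) (abs_nonneg _)
  have ie : ∀ lam : ℝ, Integrable (fun θ => Real.exp (lam * WT c θ)) (cub ι) := fun lam =>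
    cub_int (by fun_prop) (hexpb lam)
  have i1 : Integrable (fun θ => (ξ * WT c θ) ^ (2 * J) / (J.factorial : ℝ) ^ 2) (cub ι) := by
    refine cub_int (C := (|ξ| * ∑ i, |c i|) ^ (2 * J) / (J.factorial : ℝ) ^ 2) (by fun_prop)
      fun θ => ?_
    rw [abs_div, abs_pow, abs_mul, abs_of_pos (show (0 : ℝ) < (J.factorial : ℝ) ^ 2 by positivity)]
    have := hb θ
    gcongr
  refine (integral_mono i1 (((ie (4 * Ξ)).add (ie (-(4 * Ξ)))).div_const 2 |>.const_mul _) hpt).trans ?_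
  rw [integral_const_mul, integral_div, integral_add' (ie _) (ie _)]
  have m1 := mgf_tor c (4 * Ξ)
  have m2 := mgf_tor c (-(4 * Ξ))
  have e3 : (4 * Ξ) ^ 2 * (∑ i, c i ^ 2) / 2 ≤ 8 * Ξ ^ 2 * σ2 := by
    have : 8 * Ξ ^ 2 * (∑ i, c i ^ 2) ≤ 8 * Ξ ^ 2 * σ2 := by gcongr
    linarith
  have e4 : (-(4 * Ξ)) ^ 2 * (∑ i, c i ^ 2) / 2 ≤ 8 * Ξ ^ 2 * σ2 := by
    rw [neg_sq]; exact e3
  have m3 := m1.trans (Real.exp_le_exp.mpr e3)
  have m4 := m2.trans (Real.exp_le_exp.mpr e4)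
  refine mul_le_mul_of_nonneg_left ?_ (by positivity)
  linarith

/-- the characteristic function on the torus -/
lemma char_tor (c : ι → ℝ) {Ξ ξ : ℝ} (hξ : |ξ| ≤ Ξ) (hc : ∀ i, Ξ * |c i| ≤ 1) :
    ‖(∫ θ, cexp (((ξ * WT c θ : ℝ) : ℂ) * I) ∂(cub ι)) -
      ((Real.exp (-(ξ ^ 2 * (∑ i, c i ^ 2) / 4)) : ℝ) : ℂ)‖ ≤ Ξ ^ 3 * ∑ i, |c i| ^ 3 := by
  have h1 : ∀ θ : ι → ℝ, cexp (((ξ * WT c θ : ℝ) : ℂ) * I) =
      ∏ i, cexp ((((ξ * c i) * Real.cos (2 * Real.pi * θ i) : ℝ) : ℂ) * I) := by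
    intro θ
    unfold WT
    rw [← Complex.exp_sum, ← Finset.sum_mul, ← Complex.ofReal_sum]
    congr 3
    rw [Finset.mul_sum]
    exact Finset.sum_congr rfl fun i _ => by ring
  simp_rw [h1]
  unfold cub
  rw [integral_fintype_prod_eq_prod (𝕜 := ℂ) (E := fun _ : ι => ℝ)
    (fun i (y : ℝ) => cexp ((((ξ * c i) * Real.cos (2 * Real.pi * y) : ℝ) : ℂ) * I))]
  have h2 : ((Real.exp (-(ξ ^ 2 * (∑ i, c i ^ 2) / 4)) : ℝ) : ℂ) =
      ∏ i, ((Real.exp (-((ξ * c i) ^ 2 / 4)) : ℝ) : ℂ) := by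
    rw [← Complex.ofReal_prod, ← Real.exp_sum]
    congr 2
    rw [Finset.mul_sum, Finset.sum_div, ← Finset.sum_neg_distrib]
    exact Finset.sum_congr rfl fun i _ => by ring
  rw [h2]
  have hy : ∀ i, |ξ * c i| ≤ 1 := fun i => by
    rw [abs_mul]
    exact (mul_le_mul_of_nonneg_right hξ (abs_nonneg _)).trans (hc i)
  refine (prod_close _ _ _ (fun i _ => ?_) (fun i _ => ?_)).trans ?_
  · refine (norm_integral_le_of_norm_le_const (C := 1) (Eventually.of_forall fun y => ?_)).trans ?_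
    · rw [Complex.norm_exp_ofReal_mul_I]
    · simp
  · rw [Complex.norm_real, Real.norm_of_nonneg (Real.exp_pos _).le, Real.exp_le_one_iff]
    have : 0 ≤ (ξ * c i) ^ 2 := sq_nonneg _
    linarith
  · rw [Finset.mul_sum]
    refine Finset.sum_le_sum fun i _ => (char_one (hy i)).trans ?_
    rw [abs_mul, mul_pow]
    gcongr

end torus

end Pool.Agent.N786.E
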