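import Pool.Agent.N786.E.Chf

/-!
# Comparison with the torus (owner helper786)
-/

set_option autoImplicit false
set_option linter.unusedSectionVars false

open MeasureTheory Complex Filter Topology Set

namespace Pool.Agent.N786.E

lemma sq_tri {s : ℝ} (hs : 0 < s) (x y : ℂ) :
    ‖x + y‖ ^ 2 ≤ (1 + s) * ‖x‖ ^ 2 + (1 + 1 / s) * ‖y‖ ^ 2 := by
  have h1 := pow_le_pow_left₀ (norm_nonneg _) (norm_add_le x y) 2
  have h2 : 2 * (‖x‖ * ‖y‖) ≤ s * ‖x‖ ^ 2 + 1 / s * ‖y‖ ^ 2 := by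
    have h3 : 0 ≤ (s * ‖x‖ - ‖y‖) ^ 2 / s := by positivity
    have h4 : (s * ‖x‖ - ‖y‖) ^ 2 / s = s * ‖x‖ ^ 2 - 2 * (‖x‖ * ‖y‖) + 1 / s * ‖y‖ ^ 2 := by
      field_simp
      ring
    linarith
  nlinarith

variable {ι : Type} [Fintype ι]

/-- the Taylor polynomial -/
noncomputable def Ap (J : ℕ) (ξ : ℝ) (w : ℂ) : ℂ :=
  ∑ n ∈ Finset.range J, ((ξ : ℂ) * w * I) ^ n / (n.factorial : ℂ)

lemma Ap_isL (J : ℕ) (ξ : ℝ) (c : ι → ℝ) (z : ℂ) : IsL J fun x => Ap J ξ (tt c x) + z := by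
  refine IsL.add ?_ ((IsL.const z).mono (Nat.zero_le J))
  unfold Ap
  refine IsL.sum _ fun n hn => ?_
  have h1 : (fun x : ι → ℂˣ => ((ξ : ℂ) * tt c x * I) ^ n / (n.factorial : ℂ)) =
      fun x => (((ξ : ℂ) * I) ^ n / (n.factorial : ℂ)) * tt c x ^ n := by
    funext x
    rw [← mul_pow_eq_aux ξ n (tt c x)]
  rw [h1]
  exact (IsL.cmul _ ((tt_isL c).pow n)).mono (Finset.mem_range.mp hn).le
where
  mul_pow_eq_aux (ξ : ℝ) (n : ℕ) (w : ℂ) :
      (((ξ : ℂ) * I) ^ n / (n.factorial : ℂ)) * w ^ n =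
      ((ξ : ℂ) * w * I) ^ n / (n.factorial : ℂ) := by
    rw [div_mul_eq_mul_div, ← mul_pow]
    congr 2
    ring

section

variable {Ω : Type} [MeasurableSpace Ω] (μ : Measure Ω) [IsProbabilityMeasure μ]
  {X : Ω → ι → ℂˣ}

lemma meas_zpow {g : Ω → ℂ} (hg : Measurable g) (k : ℤ) : Measurable fun ω => g ω ^ k := by
  cases k with
  | ofNat n =>
    simp only [Int.ofNat_eq_natCast, zpow_natCast]
    exact hg.pow_const n
  | negSucc n =>
    simp only [zpow_negSucc]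
    exact (hg.pow_const (n + 1)).inv

lemma mn_meas (hXm : ∀ i, Measurable fun ω => ((X ω i : ℂˣ) : ℂ)) (k : ι → ℤ) :
    Measurable fun ω => mn k (X ω) := by
  unfold mn
  simp only [Units.coe_prod, Units.val_zpow_eq_zpow_val]
  refine Finset.measurable_prod _ fun i _ => ?_
  exact meas_zpow (hXm i) (k i)

lemma mn_norm {x : ι → ℂˣ} (hx : ∀ i, ‖(x i : ℂ)‖ = 1) (k : ι → ℤ) : ‖mn k x‖ = 1 := by
  unfold mn
  rw [Units.coe_prod, norm_prod]
  refine Finset.prod_eq_one fun i _ => ?_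
  rw [Units.val_zpow_eq_zpow_val, norm_zpow, hx, one_zpow]

lemma isL_bdd {J : ℕ} {f : (ι → ℂˣ) → ℂ} (hf : IsL J f) :
    ∃ C : ℝ, 0 ≤ C ∧ ∀ x : ι → ℂˣ, (∀ i, ‖(x i : ℂ)‖ = 1) → ‖f x‖ ≤ C := by
  obtain ⟨s, u, -, h2⟩ := hf
  refine ⟨∑ k ∈ s, ‖u k‖, Finset.sum_nonneg fun _ _ => norm_nonneg _, fun x hx => ?_⟩
  rw [h2 x]
  refine (norm_sum_le _ _).trans (Finset.sum_le_sum fun k _ => ?_)
  rw [norm_mul, mn_norm hx, mul_one]

lemma isL_meas {J : ℕ} {f : (ι → ℂˣ) → ℂ} (hf : IsL J f)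
    (hXm : ∀ i, Measurable fun ω => ((X ω i : ℂˣ) : ℂ)) : Measurable fun ω => f (X ω) := by
  obtain ⟨s, u, -, h2⟩ := hf
  simp only [h2]
  exact Finset.measurable_sum _ fun k _ => (mn_meas hXm k).const_mul _

/-- the comparison of the mean squares -/
lemma star_isL {J : ℕ} {η : ℝ}
    (hstar : ∀ (s : Finset (ι → ℤ)) (u : (ι → ℤ) → ℂ), (∀ k ∈ s, ∑ i, (k i).natAbs ≤ J) →
      ∫ ω, ‖∑ k ∈ s, u k * mn k (X ω)‖ ^ 2 ∂μ ≤ (1 + η) * ∑ k ∈ s, ‖u k‖ ^ 2)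
    {f : (ι → ℂˣ) → ℂ} (hf : IsL J f) :
    ∫ ω, ‖f (X ω)‖ ^ 2 ∂μ ≤ (1 + η) * ∫ θ, ‖f (et θ)‖ ^ 2 ∂(cub ι) := by
  obtain ⟨s, u, h1, h2⟩ := hf
  simp only [h2]
  rw [parseval]
  exact hstar s u h1

lemma int_sq_add {f : Ω → ℂ} (hf : Measurable f) (hf1 : ∀ ω, ‖f ω‖ = 1) {z : ℂ} (hz : ‖z‖ = 1) :
    ∫ ω, ‖f ω + z‖ ^ 2 ∂μ = 2 + 2 * ((starRingEnd ℂ) z * ∫ ω, f ω ∂μ).re := by
  have h1 : ∀ ω, ‖f ω + z‖ ^ 2 = 2 + 2 * ((starRingEnd ℂ) z * f ω).re := by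
    intro ω
    rw [Complex.sq_norm, Complex.normSq_add, ← Complex.sq_norm, ← Complex.sq_norm, hf1, hz,
      mul_comm ((starRingEnd ℂ) z)]
    norm_num
  have hi : Integrable f μ := Integrable.of_bound (C := 1) hf.aestronglyMeasurable
    (Eventually.of_forall fun ω => (hf1 ω).le)
  have hi2 : Integrable (fun ω => (starRingEnd ℂ) z * f ω) μ := hi.const_mul _
  simp_rw [h1]
  have h3 : ∫ ω, ((starRingEnd ℂ) z * f ω).re ∂μ = ((starRingEnd ℂ) z * ∫ ω, f ω ∂μ).re := by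
    rw [← integral_const_mul]
    exact integral_re hi2
  have hi3 : Integrable (fun ω => ((starRingEnd ℂ) z * f ω).re) μ := hi2.re
  rw [integral_add (integrable_const _) (hi3.const_mul 2), integral_const_mul, h3]
  simp

/-- **Comparison of the characteristic functions** -/
theorem char_close (hX1 : ∀ ω i, ‖((X ω i : ℂˣ) : ℂ)‖ = 1)
    (hXm : ∀ i, Measurable fun ω => ((X ω i : ℂˣ) : ℂ)) (c : ι → ℝ) {J : ℕ} {η : ℝ} (hη : 0 ≤ η)
    (hstar : ∀ (s : Finset (ι → ℤ)) (u : (ι → ℤ) → ℂ), (∀ k ∈ s, ∑ i, (k i).natAbs ≤ J) →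
      ∫ ω, ‖∑ k ∈ s, u k * mn k (X ω)‖ ^ 2 ∂μ ≤ (1 + η) * ∑ k ∈ s, ‖u k‖ ^ 2)
    {Ξ ξ σ2 s : ℝ} (hΞ : 1 ≤ Ξ) (hξ : |ξ| ≤ Ξ) (hs : 0 < s) (hs1 : s ≤ 1)
    (hσ : ∑ i, c i ^ 2 ≤ σ2) (hc : ∀ i, Ξ * |c i| ≤ 1) :
    ‖(∫ ω, cexp (((ξ * ∑ i, c i * ((X ω i : ℂˣ) : ℂ).re : ℝ) : ℂ) * I) ∂μ) -
      ((Real.exp (-(ξ ^ 2 * (∑ i, c i ^ 2) / 4)) : ℝ) : ℂ)‖ ≤
      2 * (η + 3 * s * (1 + η)) + 3 * (1 + η) / s * ((1 / 4) ^ J * Real.exp (8 * Ξ ^ 2 * σ2)) +
        Ξ ^ 3 * ∑ i, |c i| ^ 3 := by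
  obtain ⟨τ2, hτ2⟩ : ∃ τ2 : ℝ, τ2 = (1 / 4) ^ J * Real.exp (8 * Ξ ^ 2 * σ2) := ⟨_, rfl⟩
  have hτ0 : 0 ≤ τ2 := by rw [hτ2]; positivity
  rw [← hτ2]
  set W : Ω → ℝ := fun ω => ∑ i, c i * ((X ω i : ℂˣ) : ℂ).re with hW
  have hWm : Measurable W := Finset.measurable_sum _ fun i _ =>
    (Complex.measurable_re.comp (hXm i)).const_mul _
  have hWt : ∀ ω, tt c (X ω) = ((W ω : ℝ) : ℂ) := fun ω => tt_real (hX1 ω)
  set f : Ω → ℂ := fun ω => cexp (((ξ * W ω : ℝ) : ℂ) * I) with hf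
  have hf1 : ∀ ω, ‖f ω‖ = 1 := fun ω => Complex.norm_exp_ofReal_mul_I _
  have hfm : Measurable f := by
    rw [hf]
    exact Complex.measurable_exp.comp
      ((Complex.measurable_ofReal.comp (hWm.const_mul ξ)).mul_const I)
  set fT : (ι → ℝ) → ℂ := fun θ => cexp (((ξ * WT c θ : ℝ) : ℂ) * I) with hfT
  have hfT1 : ∀ θ, ‖fT θ‖ = 1 := fun θ => Complex.norm_exp_ofReal_mul_I _
  have hfTc : Continuous fT := by
    have := WT_cont c
    rw [hfT]
    fun_prop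
  obtain ⟨m, hm⟩ : ∃ m : ℂ, m = ∫ ω, f ω ∂μ := ⟨_, rfl⟩
  obtain ⟨mT, hmT⟩ : ∃ mT : ℂ, mT = ∫ θ, fT θ ∂(cub ι) := ⟨_, rfl⟩
  have hTor := char_tor c hξ hc
  change ‖(∫ θ, fT θ ∂(cub ι)) - _‖ ≤ _ at hTor
  rw [← hmT] at hTor
  change ‖(∫ ω, f ω ∂μ) - _‖ ≤ _
  rw [← hm]
  -- the error polynomial
  set b : ℂ := ((ξ ^ J / (J.factorial : ℝ) : ℝ) : ℂ) with hb
  have hBL : IsL J fun x : ι → ℂˣ => b * tt c x ^ J := IsL.cmul _ ((tt_isL c).pow J)
  have hBT : ∫ θ, ‖b * tt c (et θ) ^ J‖ ^ 2 ∂(cub ι) ≤ τ2 := by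
    have h1 := mom_tor c J hΞ hξ hσ
    rw [← hτ2] at h1
    refine le_trans (le_of_eq ?_) h1
    refine integral_congr_ae (Eventually.of_forall fun θ => ?_)
    simp only
    rw [tt_et, hb, ← Complex.ofReal_pow, ← Complex.ofReal_mul, Complex.norm_real, Real.norm_eq_abs,
      sq_abs, pow_mul, mul_pow, mul_pow, div_pow, mul_pow]
    rw [← pow_mul, ← pow_mul, ← pow_mul, ← pow_mul, mul_comm J 2]
    ring
  have hpoly : ∀ w : ℝ, ‖cexp (((ξ * w : ℝ) : ℂ) * I) - Ap J ξ ((w : ℝ) : ℂ)‖ ≤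
      ‖b * ((w : ℝ) : ℂ) ^ J‖ := by
    intro w
    have h1 := exp_taylor J (ξ * w)
    have h2 : Ap J ξ ((w : ℝ) : ℂ) = ∑ n ∈ Finset.range J, (((ξ * w : ℝ) : ℂ) * I) ^ n /
        (n.factorial : ℂ) := by
      unfold Ap
      refine Finset.sum_congr rfl fun n _ => ?_
      push_cast
      rfl
    rw [h2]
    refine h1.trans (le_of_eq ?_)
    rw [hb, norm_mul, norm_pow, Complex.norm_real, Complex.norm_real, Real.norm_eq_abs,
      Real.norm_eq_abs, abs_div, abs_pow, abs_mul, mul_pow, Nat.abs_cast]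
    ring
  have key : ∀ z : ℂ, ‖z‖ = 1 → 2 * ((starRingEnd ℂ) z * (m - mT)).re ≤
      4 * (η + 3 * s * (1 + η)) + 6 * (1 + η) / s * τ2 := by
    intro z hz
    have hAL := Ap_isL J ξ c z
    obtain ⟨CA, hCA0, hCA⟩ := isL_bdd hAL
    obtain ⟨CB, hCB0, hCB⟩ := isL_bdd hBL
    -- the first comparison
    have hA1 := star_isL μ hstar hAL
    have hB1 := star_isL μ hstar hBL
    have iA : Integrable (fun ω => ‖Ap J ξ (tt c (X ω)) + z‖ ^ 2) μ :=
      Integrable.of_bound (C := CA ^ 2) ((isL_meas hAL hXm).norm.pow_const 2).aestronglyMeasurable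
        (Eventually.of_forall fun ω => by
          rw [Real.norm_of_nonneg (sq_nonneg _)]
          exact pow_le_pow_left₀ (norm_nonneg _) (hCA _ (hX1 ω)) 2)
    have iB : Integrable (fun ω => ‖b * tt c (X ω) ^ J‖ ^ 2) μ :=
      Integrable.of_bound (C := CB ^ 2) ((isL_meas hBL hXm).norm.pow_const 2).aestronglyMeasurable
        (Eventually.of_forall fun ω => by
          rw [Real.norm_of_nonneg (sq_nonneg _)]
          exact pow_le_pow_left₀ (norm_nonneg _) (hCB _ (hX1 ω)) 2)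
    have ifz : Integrable (fun ω => ‖f ω + z‖ ^ 2) μ :=
      Integrable.of_bound (C := 4) ((hfm.add_const z).norm.pow_const 2).aestronglyMeasurable
        (Eventually.of_forall fun ω => by
          rw [Real.norm_of_nonneg (sq_nonneg _)]
          have h1 : ‖f ω + z‖ ≤ 2 := by
            refine (norm_add_le _ _).trans ?_
            rw [hf1, hz]; norm_num
          calc ‖f ω + z‖ ^ 2 ≤ 2 ^ 2 := pow_le_pow_left₀ (norm_nonneg _) h1 2
            _ = 4 := by norm_num)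
    have hpt1 : ∀ ω, ‖f ω + z‖ ^ 2 ≤ (1 + s) * ‖Ap J ξ (tt c (X ω)) + z‖ ^ 2 +
        (1 + 1 / s) * ‖b * tt c (X ω) ^ J‖ ^ 2 := by
      intro ω
      have h1 := sq_tri hs (Ap J ξ (tt c (X ω)) + z) (f ω - Ap J ξ (tt c (X ω)))
      have e1 : Ap J ξ (tt c (X ω)) + z + (f ω - Ap J ξ (tt c (X ω))) = f ω + z := by ring
      rw [e1] at h1
      refine h1.trans ?_
      have h2 : ‖f ω - Ap J ξ (tt c (X ω))‖ ≤ ‖b * tt c (X ω) ^ J‖ := by
        rw [hWt ω]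
        exact hpoly (W ω)
      have h3 : 0 < 1 + 1 / s := by positivity
      gcongr
    have hI1 : ∫ ω, ‖f ω + z‖ ^ 2 ∂μ ≤ (1 + s) * ((1 + η) *
        ∫ θ, ‖Ap J ξ (tt c (et θ)) + z‖ ^ 2 ∂(cub ι)) + (1 + 1 / s) * ((1 + η) * τ2) := by
      refine (integral_mono ifz ((iA.const_mul _).add (iB.const_mul _)) hpt1).trans ?_
      rw [integral_add' (iA.const_mul _) (iB.const_mul _), integral_const_mul, integral_const_mul]
      have h3 : 0 < 1 + 1 / s := by positivity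
      have h4 : ∫ ω, ‖b * tt c (X ω) ^ J‖ ^ 2 ∂μ ≤ (1 + η) * τ2 :=
        hB1.trans (mul_le_mul_of_nonneg_left hBT (by linarith))
      gcongr
    -- on the torus
    have jA : Integrable (fun θ => ‖Ap J ξ (tt c (et θ)) + z‖ ^ 2) (cub ι) := by
      refine Integrable.of_bound (C := CA ^ 2) ?_ (Eventually.of_forall fun θ => by
          rw [Real.norm_of_nonneg (sq_nonneg _)]
          exact pow_le_pow_left₀ (norm_nonneg _) (hCA _ (norm_et θ)) 2)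
      refine Continuous.aestronglyMeasurable ?_
      simp only [tt_et]
      unfold Ap
      have := WT_cont c
      fun_prop
    have jB : Integrable (fun θ => ‖b * tt c (et θ) ^ J‖ ^ 2) (cub ι) := by
      refine Integrable.of_bound (C := CB ^ 2) ?_ (Eventually.of_forall fun θ => by
          rw [Real.norm_of_nonneg (sq_nonneg _)]
          exact pow_le_pow_left₀ (norm_nonneg _) (hCB _ (norm_et θ)) 2)
      refine Continuous.aestronglyMeasurable ?_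
      simp only [tt_et]
      have := WT_cont c
      fun_prop
    have jf : Integrable (fun θ => ‖fT θ + z‖ ^ 2) (cub ι) := by
      refine Integrable.of_bound (C := 4) ?_ (Eventually.of_forall fun θ => by
          rw [Real.norm_of_nonneg (sq_nonneg _)]
          have h1 : ‖fT θ + z‖ ≤ 2 := by
            refine (norm_add_le _ _).trans ?_
            rw [hfT1, hz]; norm_num
          calc ‖fT θ + z‖ ^ 2 ≤ 2 ^ 2 := pow_le_pow_left₀ (norm_nonneg _) h1 2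
            _ = 4 := by norm_num)
      exact ((hfTc.add continuous_const).norm.pow 2).aestronglyMeasurable
    have hpt2 : ∀ θ, ‖Ap J ξ (tt c (et θ)) + z‖ ^ 2 ≤ (1 + s) * ‖fT θ + z‖ ^ 2 +
        (1 + 1 / s) * ‖b * tt c (et θ) ^ J‖ ^ 2 := by
      intro θ
      have h1 := sq_tri hs (fT θ + z) (Ap J ξ (tt c (et θ)) - fT θ)
      have e1 : fT θ + z + (Ap J ξ (tt c (et θ)) - fT θ) = Ap J ξ (tt c (et θ)) + z := by ring
      rw [e1] at h1
      refine h1.trans ?_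
      have h2 : ‖Ap J ξ (tt c (et θ)) - fT θ‖ ≤ ‖b * tt c (et θ) ^ J‖ := by
        rw [norm_sub_rev, tt_et]
        exact hpoly (WT c θ)
      have h3 : 0 < 1 + 1 / s := by positivity
      gcongr
    have hI2 : ∫ θ, ‖Ap J ξ (tt c (et θ)) + z‖ ^ 2 ∂(cub ι) ≤
        (1 + s) * ∫ θ, ‖fT θ + z‖ ^ 2 ∂(cub ι) + (1 + 1 / s) * τ2 := by
      refine (integral_mono jA ((jf.const_mul _).add (jB.const_mul _)) hpt2).trans ?_
      rw [integral_add' (jf.const_mul _) (jB.const_mul _), integral_const_mul, integral_const_mul]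
      have h3 : 0 < 1 + 1 / s := by positivity
      gcongr
    rw [int_sq_add μ hfm hf1 hz, ← hm] at hI1
    rw [int_sq_add (cub ι) hfTc.measurable hfT1 hz, ← hmT] at hI2
    obtain ⟨r, hr⟩ : ∃ r : ℝ, r = ((starRingEnd ℂ) z * m).re := ⟨_, rfl⟩
    obtain ⟨rT, hrT⟩ : ∃ rT : ℝ, rT = ((starRingEnd ℂ) z * mT).re := ⟨_, rfl⟩
    rw [← hr] at hI1
    rw [← hrT] at hI2
    have hrT1 : rT ≤ 1 := by
      rw [hrT]
      refine (Complex.re_le_norm _).trans ?_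
      rw [norm_mul, Complex.norm_conj, hz, one_mul, hmT]
      refine (norm_integral_le_of_norm_le_const (C := 1) (Eventually.of_forall fun θ =>
        (hfT1 θ).le)).trans ?_
      simp
    have hrT0 : -1 ≤ rT := by
      rw [hrT]
      have h1 := (Complex.abs_re_le_norm ((starRingEnd ℂ) z * mT))
      rw [norm_mul, Complex.norm_conj, hz, one_mul] at h1
      have h2 : ‖mT‖ ≤ 1 := by
        rw [hmT]
        refine (norm_integral_le_of_norm_le_const (C := 1) (Eventually.of_forall fun θ =>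
          (hfT1 θ).le)).trans ?_
        simp
      exact (abs_le.mp (h1.trans h2)).1
    have hgoal : ((starRingEnd ℂ) z * (m - mT)).re = r - rT := by
      rw [mul_sub, Complex.sub_re, ← hr, ← hrT]
    rw [hgoal]
    have h3 : 0 < 1 + 1 / s := by positivity
    have h4 : 1 + 1 / s ≤ 2 / s := by
      rw [show (2 : ℝ) / s = 1 / s + 1 / s by ring]
      have : 1 ≤ 1 / s := by rw [le_div_iff₀ hs]; linarith
      linarith
    have hη1 : 0 < 1 + η := by linarith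
    have h5 : 2 + 2 * r ≤ (1 + s) * ((1 + η) * ((1 + s) * (2 + 2 * rT) + (1 + 1 / s) * τ2)) +
        (1 + 1 / s) * ((1 + η) * τ2) := by
      refine hI1.trans ?_
      gcongr
    have h6 : (1 + s) * ((1 + η) * ((1 + s) * (2 + 2 * rT) + (1 + 1 / s) * τ2)) +
        (1 + 1 / s) * ((1 + η) * τ2) = ((1 + s) ^ 2 * (1 + η)) * (2 + 2 * rT) +
        (1 + η) * ((2 + s) * (1 + 1 / s)) * τ2 := by ring
    rw [h6] at h5
    have h7 : (2 + s) * (1 + 1 / s) ≤ 6 / s := by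
      calc (2 + s) * (1 + 1 / s) ≤ 3 * (2 / s) := by
            refine mul_le_mul (by linarith) h4 h3.le (by norm_num)
        _ = 6 / s := by ring
    have h8 : (1 + η) * ((2 + s) * (1 + 1 / s)) * τ2 ≤ 6 * (1 + η) / s * τ2 := by
      calc (1 + η) * ((2 + s) * (1 + 1 / s)) * τ2 ≤ (1 + η) * (6 / s) * τ2 := by gcongr
        _ = _ := by ring
    have hss : 0 ≤ (s - s ^ 2) * (1 + η) := by
      have : 0 ≤ s - s ^ 2 := by nlinarith
      positivity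
    have h9 : (1 + s) ^ 2 * (1 + η) - 1 ≤ η + 3 * s * (1 + η) := by
      have e1 : η + 3 * s * (1 + η) - ((1 + s) ^ 2 * (1 + η) - 1) = (s - s ^ 2) * (1 + η) := by ring
      linarith
    have h10 : ((1 + s) ^ 2 * (1 + η) - 1) * (2 + 2 * rT) ≤ (η + 3 * s * (1 + η)) * 4 := by
      refine mul_le_mul h9 (by linarith) (by linarith) (by positivity)
    nlinarith
  -- the choice of z
  have hclose : ‖m - mT‖ ≤ 2 * (η + 3 * s * (1 + η)) + 3 * (1 + η) / s * τ2 := by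
    by_cases h0 : m - mT = 0
    · rw [h0, norm_zero]
      have : 0 ≤ 3 * (1 + η) / s * τ2 := by positivity
      positivity
    · have hn : 0 < ‖m - mT‖ := norm_pos_iff.mpr h0
      have h1 := key ((m - mT) / (‖m - mT‖ : ℂ)) (by
        rw [norm_div, Complex.norm_real, norm_norm, div_self hn.ne'])
      have h2 : ((starRingEnd ℂ) ((m - mT) / (‖m - mT‖ : ℂ)) * (m - mT)).re = ‖m - mT‖ := by
        rw [map_div₀, Complex.conj_ofReal, div_mul_eq_mul_div, mul_comm, Complex.mul_conj',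
          ← Complex.ofReal_pow, ← Complex.ofReal_div, Complex.ofReal_re]
        field_simp
      rw [h2] at h1
      have e1 : 4 * (η + 3 * s * (1 + η)) + 6 * (1 + η) / s * τ2 =
        2 * (2 * (η + 3 * s * (1 + η)) + 3 * (1 + η) / s * τ2) := by ring
      rw [e1] at h1
      linarith
  have h := norm_sub_le_norm_sub_add_norm_sub m mT
    ((Real.exp (-(ξ ^ 2 * (∑ i, c i ^ 2) / 4)) : ℝ) : ℂ)
  linarith

end

end Pool.Agent.N786.E
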