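import Pool.Agent.N786.E.Law3
import Pool.Agent.N786.Pro

/-!
# The central limit theorem for the families (owner helper786)
-/

set_option autoImplicit false
set_option linter.unusedSectionVars false

open NumberField NumberField.Units MeasureTheory Complex Filter Topology Set

namespace Pool.Agent.N786.E

open Pool.Agent.N786
open Pool.Agent.N786.D
open Pool.Agent.Y773 (LI)
open Pool.Agent.Y767
open Pool.Agent.Y772.HC
open Pool.Agent.R399.TW (pt pt_re pt_im pt_cont)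

lemma gauss_int (a : ℝ) : IntegrableOn (fun y : ℝ => Real.exp (-(y ^ 2) / 2)) (Iic a) := by
  have h := (integrable_exp_neg_mul_sq (show (0 : ℝ) < 1 / 2 by norm_num)).integrableOn (s := Iic a)
  refine h.congr_fun (fun y _ => ?_) measurableSet_Iic
  simp only
  congr 1
  ring

lemma Phi_lip {x y : ℝ} (h : x ≤ y) : Phi x ≤ Phi y ∧ Phi y - Phi x ≤ y - x := by
  have hpi := Real.pi_gt_three
  have hs : 1 ≤ √(2 * Real.pi) := by
    rw [Real.one_le_sqrt]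
    linarith
  have hs0 : 0 < √(2 * Real.pi) := by linarith
  have hi : (√(2 * Real.pi))⁻¹ ≤ 1 := inv_le_one_of_one_le₀ hs
  have hi0 : 0 < (√(2 * Real.pi))⁻¹ := by positivity
  have h1 := intervalIntegral.integral_Iic_sub_Iic (gauss_int x) (gauss_int y)
  have h2 : 0 ≤ ∫ z in x..y, Real.exp (-(z ^ 2) / 2) :=
    intervalIntegral.integral_nonneg h fun z _ => (Real.exp_pos _).le
  have h3 : ∫ z in x..y, Real.exp (-(z ^ 2) / 2) ≤ y - x := by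
    have h4 : ∫ z in x..y, Real.exp (-(z ^ 2) / 2) ≤ ∫ _z in x..y, (1 : ℝ) := by
      refine intervalIntegral.integral_mono_on h ?_ (by simp) fun z _ => ?_
      · exact (by fun_prop : Continuous fun z : ℝ => Real.exp (-(z ^ 2) / 2)).intervalIntegrable _ _
      · rw [Real.exp_le_one_iff]
        nlinarith [sq_nonneg z]
    rw [intervalIntegral.integral_const, smul_eq_mul, mul_one] at h4
    exact h4
  unfold Phi
  have e : (√(2 * Real.pi))⁻¹ * (∫ z in Iic y, Real.exp (-(z ^ 2) / 2)) -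
      (√(2 * Real.pi))⁻¹ * (∫ z in Iic x, Real.exp (-(z ^ 2) / 2)) =
      (√(2 * Real.pi))⁻¹ * ∫ z in x..y, Real.exp (-(z ^ 2) / 2) := by rw [← h1]; ring
  constructor
  · have := mul_nonneg hi0.le h2
    linarith
  · rw [e]
    calc (√(2 * Real.pi))⁻¹ * ∫ z in x..y, Real.exp (-(z ^ 2) / 2) ≤
        1 * ∫ z in x..y, Real.exp (-(z ^ 2) / 2) := mul_le_mul_of_nonneg_right hi h2
      _ ≤ _ := by linarith

/-- **The central limit theorem for the families** -/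
theorem clt_fam (K : Type) [Field K] [NumberField K] [IsTotallyReal K] (h : ℝ) (hh : 1 / 2 < h)
    (hh1 : h ≤ 1) (x ε : ℝ) (hε : 0 < ε) :
    ∃ V₀ δ₀ R₀ : ℝ, 1 ≤ V₀ ∧ 0 < δ₀ ∧
    ∀ (𝔣 𝔮 : Ideal (𝓞 K)) (ν₀ : InfinitePlace K → ℝ) (ψ₀ : Ideal (𝓞 K) →*₀ ℂ) (V T : ℝ),
    IsHecke K 𝔣 ν₀ ψ₀ → ∑ w, ν₀ w = 0 → IsCoprime 𝔣 𝔮 → 𝔮 ≠ ⊥ → 𝔣 * 𝔮 ≠ ⊤ →
    ∑ᶠ 𝔭 ∈ PD 𝔮, (1 / (Ideal.absNorm 𝔭 : ℝ)) ≤ δ₀ → V₀ ≤ V → V ≤ T → (∀ w, |ν₀ w| ≤ T) →
    ((Ideal.absNorm (𝔣 * 𝔮) : ℝ) * T ^ Module.finrank ℚ K) ^ h ≤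
      (Ideal.absNorm 𝔮 : ℝ) * V ^ Module.finrank ℚ K →
    R₀ ≤ Real.log ((Ideal.absNorm (𝔣 * 𝔮) : ℝ) * T ^ Module.finrank ℚ K) →
    ∀ (Lf : (Ideal (𝓞 K) →*₀ ℂ) → ℂ → ℂ),
      (∀ lam ∈ HFam K 𝔮 V, Differentiable ℂ (Lf lam) ∧
        ∀ s : ℂ, 1 < s.re → Lf lam s = LI (pr ψ₀ lam) s) →
      (HFam K 𝔮 V).Finite ∧ 0 < (HFam K 𝔮 V).ncard ∧ ∀ t₁ : ℝ, |t₁| ≤ T →
      |∑ᶠ lam ∈ HFam K 𝔮 V, volume.real {t ∈ Icc t₁ (t₁ + V) | Real.log ‖Lf lam (pt (1 / 2) t)‖ ≤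
        x * √(Real.log (Real.log ((Ideal.absNorm (𝔣 * 𝔮) : ℝ) * T ^ Module.finrank ℚ K)) / 2)} -
        Phi x * ((HFam K 𝔮 V).ncard * V)| ≤ ε * ((HFam K 𝔮 V).ncard * V) := by
  classical
  obtain ⟨n, hn⟩ : ∃ n : ℕ, n = Module.finrank ℚ K := ⟨_, rfl⟩
  have hn0 : 1 ≤ n := by rw [hn]; exact Module.finrank_pos
  obtain ⟨g, hg⟩ : ∃ g : ℝ, g = (2 * h - 1) / 12 := ⟨_, rfl⟩
  have hg0 : 0 < g := by rw [hg]; linarith
  have hg1 : g ≤ 1 / 12 := by rw [hg]; linarith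
  obtain ⟨A₀, hA₀, hgrow⟩ := grow_all K
  obtain ⟨A₁, hA₁, hD⟩ := Pool.Agent.Y772.DK.t_dirK K
  have h4 : (1 : ℝ) ≤ 4 ^ n := one_le_pow₀ (by norm_num)
  obtain ⟨V₁, A₂, C, hV₁, hA₂, hC, hls⟩ := ls_fam K
  obtain ⟨R₂, hR₂⟩ := thr_exists C g n (by linarith) hg0
  obtain ⟨c₂, V₂, hc₂, hV₂, hsize⟩ := fam_size K
  obtain ⟨ω, hω⟩ : ∃ ω : ℝ, ω = ε / 4 := ⟨_, rfl⟩
  have hω0 : 0 < ω := by rw [hω]; positivity
  obtain ⟨ε', hε'⟩ : ∃ ε' : ℝ, ε' = ε / 4 * c₂ / (A₂ + 1) := ⟨_, rfl⟩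
  have hA₂0 : 0 ≤ A₂ := by linarith
  have hε'0 : 0 < ε' := by rw [hε']; positivity
  obtain ⟨κ, R₃, hκ, hR₃, hnear⟩ := near_core K (A := A₀ * 4 ^ n)
    (one_le_mul_of_one_le_of_one_le hA₀ h4) n hn0 hg0 hg1 ω ε' hω0 hε'0
  obtain ⟨V₄, δ₄, R₄, hV₄, hδ₄, -, hlaw₁⟩ := law_fam K hh hh1 hκ (x + ω) (ε / 4) (by positivity)
  obtain ⟨V₅, δ₅, R₅, hV₅, hδ₅, hδ₅4, hlaw₂⟩ := law_fam K hh hh1 hκ (x - ω) (ε / 4) (by positivity)
  refine ⟨max (max V₁ V₂) (max V₄ V₅), min δ₄ δ₅, max (max R₂ R₃) (max R₄ R₅),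
    le_max_of_le_left (le_max_of_le_left hV₁), lt_min hδ₄ hδ₅, ?_⟩
  intro 𝔣 𝔮 ν₀ ψ₀ V T hψ hs₀ hcop h𝔮 htop hδ𝔮 hV hVT hνT hX hRlog Lf hLf
  have hX' := hX
  rw [← hn] at hX ⊢
  rw [← hn] at hRlog
  have hbot : 𝔣 * 𝔮 ≠ ⊥ := mul_ne_zero hψ.ne_bot h𝔮
  have hV1 : V₁ ≤ V := (le_max_left _ _).trans ((le_max_left _ _).trans hV)
  have hV2 : V₂ ≤ V := (le_max_right _ _).trans ((le_max_left _ _).trans hV)
  have hV4 : V₄ ≤ V := (le_max_left _ _).trans ((le_max_right _ _).trans hV)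
  have hV5 : V₅ ≤ V := (le_max_right _ _).trans ((le_max_right _ _).trans hV)
  have hVge : 1 ≤ V := hV₄.trans hV4
  have hV0 : 0 < V := by linarith
  have hT : 1 ≤ T := hVge.trans hVT
  have hT0 : 0 < T := by linarith
  obtain ⟨N, hN⟩ : ∃ N : ℝ, N = (Ideal.absNorm (𝔣 * 𝔮) : ℝ) := ⟨_, rfl⟩
  have hN1 : 1 ≤ N := by rw [hN]; exact one_le_norm hbot
  obtain ⟨R, hR⟩ : ∃ R : ℝ, R = Real.log (N * T ^ n) := ⟨_, rfl⟩
  rw [← hN] at hX hRlog ⊢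
  rw [← hR] at hRlog ⊢
  have hRR2 : R₂ ≤ R := (le_max_left _ _).trans ((le_max_left _ _).trans hRlog)
  have hRR3 : R₃ ≤ R := (le_max_right _ _).trans ((le_max_left _ _).trans hRlog)
  have hRR4 : R₄ ≤ R := (le_max_left _ _).trans ((le_max_right _ _).trans hRlog)
  have hRR5 : R₅ ≤ R := (le_max_right _ _).trans ((le_max_right _ _).trans hRlog)
  have hC0 : 0 < N * T ^ n := by positivity
  have hexpR : Real.exp R = N * T ^ n := by rw [hR, Real.exp_log hC0]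
  have hR1 : 1 ≤ R := hR₃.trans hRR3
  have hR0 : 0 < R := by linarith
  have hpi := Real.pi_pos
  -- the family
  obtain ⟨hfin, hcardlow⟩ := hsize 𝔣 𝔮 hcop htop hbot V hV2
    ((hδ𝔮.trans (min_le_right _ _)).trans hδ₅4)
  obtain ⟨S, hSd⟩ : ∃ S : Finset (Ideal (𝓞 K) →*₀ ℂ), S = hfin.toFinset := ⟨_, rfl⟩
  have hSmem : ∀ lam, lam ∈ S ↔ lam ∈ HFam K 𝔮 V := fun lam => by
    rw [hSd, Set.Finite.mem_toFinset]
  have hncard : ((HFam K 𝔮 V).ncard : ℝ) = S.card := by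
    rw [hSd, Set.ncard_eq_toFinset_card _ hfin]
  rw [hncard, ← hn] at hcardlow
  have hNq1 : (1 : ℝ) ≤ (Ideal.absNorm 𝔮 : ℝ) := one_le_norm h𝔮
  have hNV0 : 0 < (Ideal.absNorm 𝔮 : ℝ) * V ^ n := by positivity
  have hSV0 : 0 < (S.card : ℝ) * V := lt_of_lt_of_le (by positivity) hcardlow
  have hS0 : 0 < (S.card : ℝ) := by
    by_contra h5
    have : (S.card : ℝ) ≤ 0 := not_lt.mp h5
    nlinarith
  obtain ⟨P, hP⟩ : ∃ P : ℝ, P = A₂ * ((Ideal.absNorm 𝔮 : ℝ) * V ^ n) := ⟨_, rfl⟩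
  -- the large sieve
  obtain ⟨M₁, hM₁⟩ : ∃ M₁ : ℕ, M₁ = ⌊Real.exp ((1 / 2 + 3 * g) * R)⌋₊ := ⟨_, rfl⟩
  obtain ⟨M₂, hM₂⟩ : ∃ M₂ : ℕ, M₂ = ⌊Real.exp ((2 * g) * R)⌋₊ := ⟨_, rfl⟩
  have hMM : ((M₁ * M₂ : ℕ) : ℝ) ≤ Real.exp ((h - g) * R) := by
    have h1 : (M₁ : ℝ) ≤ Real.exp ((1 / 2 + 3 * g) * R) := by
      rw [hM₁]; exact Nat.floor_le (Real.exp_pos _).le
    have h2 : (M₂ : ℝ) ≤ Real.exp ((2 * g) * R) := by
      rw [hM₂]; exact Nat.floor_le (Real.exp_pos _).le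
    push_cast
    refine (mul_le_mul h1 h2 (Nat.cast_nonneg _) (Real.exp_pos _).le).trans (le_of_eq ?_)
    rw [← Real.exp_add]
    congr 1
    rw [hg]
    ring
  have hMpos : 1 ≤ M₁ * M₂ := by
    have h1 : 1 ≤ M₁ := by
      rw [hM₁]
      refine Nat.le_floor ?_
      rw [Nat.cast_one]
      exact Real.one_le_exp (by positivity)
    have h2 : 1 ≤ M₂ := by
      rw [hM₂]
      refine Nat.le_floor ?_
      rw [Nat.cast_one]
      exact Real.one_le_exp (by positivity)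
    exact Nat.mul_pos h1 h2
  have hlogM : Real.log ((M₁ * M₂ : ℕ) : ℝ) ≤ R := by
    have h1 : 0 < ((M₁ * M₂ : ℕ) : ℝ) := by exact_mod_cast hMpos
    refine (Real.log_le_log h1 hMM).trans ?_
    rw [Real.log_exp]
    nlinarith
  have hlen : (C * ((4 * R + 2 * Real.pi) / V)) ^ n * ((M₁ * M₂ : ℕ) : ℝ) < Ideal.absNorm 𝔮 := by
    have h1 : (C * (4 * R + 2 * Real.pi)) ^ n * ((M₁ * M₂ : ℕ) : ℝ) <
        (Ideal.absNorm 𝔮 : ℝ) * V ^ n := by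
      have h2 : Real.exp (h * R) ≤ (Ideal.absNorm 𝔮 : ℝ) * V ^ n := by
        refine le_trans (le_of_eq ?_) hX
        rw [← hexpR, ← Real.exp_mul, mul_comm]
      refine lt_of_lt_of_le ?_ h2
      have h3 := hR₂ R hRR2
      have h5 : 0 < Real.exp ((h - g) * R) := Real.exp_pos _
      calc (C * (4 * R + 2 * Real.pi)) ^ n * ((M₁ * M₂ : ℕ) : ℝ) ≤
          (C * (4 * R + 2 * Real.pi)) ^ n * Real.exp ((h - g) * R) :=
            mul_le_mul_of_nonneg_left hMM (by positivity)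
        _ < Real.exp (g * R) * Real.exp ((h - g) * R) := mul_lt_mul_of_pos_right h3 h5
        _ = Real.exp (h * R) := by rw [← Real.exp_add]; congr 1; ring
    have h6 : (C * ((4 * R + 2 * Real.pi) / V)) ^ n * V ^ n =
        (C * (4 * R + 2 * Real.pi)) ^ n := by
      rw [← mul_pow]
      congr 1
      field_simp
    have h7 : 0 < V ^ n := by positivity
    have h8 : (C * ((4 * R + 2 * Real.pi) / V)) ^ n * ((M₁ * M₂ : ℕ) : ℝ) * V ^ n <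
        (Ideal.absNorm 𝔮 : ℝ) * V ^ n := by
      calc _ = ((C * ((4 * R + 2 * Real.pi) / V)) ^ n * V ^ n) * ((M₁ * M₂ : ℕ) : ℝ) := by ring
        _ < _ := by rw [h6]; exact h1
    exact lt_of_mul_lt_mul_right h8 h7.le
  have hLSP : LSP S ψ₀ V P (M₁ * M₂) := by
    intro u t₁
    rw [hP]
    have := hls 𝔣 𝔮 hcop htop hbot V hV1 ν₀ ψ₀ hs₀ hψ.toIsHM S
      (fun lam hl => (hSmem lam).mp hl) (4 * R + 2 * Real.pi)
      (M₁ * M₂) (by linarith) (by linarith) (by rw [← hn]; exact hlen) u t₁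
    rw [← hn] at this
    exact this
  have hcardP : (S.card : ℝ) * V ≤ P := by
    have h1 := hLSP (fun 𝔞 => if 𝔞 = 1 then 1 else 0) 0
    have hmem : (1 : Ideal (𝓞 K)) ∈ SI K (M₁ * M₂) := by
      refine SI_of one_ne_zero ?_
      rw [map_one]
      exact hMpos
    have e1 : ∀ lam ∈ S, ∫ t in (0 : ℝ)..(0 + V), ‖∑ 𝔞 ∈ SI K (M₁ * M₂),
        (if 𝔞 = 1 then (1 : ℂ) else 0) * pr ψ₀ lam 𝔞 * ph 𝔞 t‖ ^ 2 = V := by
      intro lam _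
      have e2 : ∀ t : ℝ, ‖∑ 𝔞 ∈ SI K (M₁ * M₂),
          (if 𝔞 = 1 then (1 : ℂ) else 0) * pr ψ₀ lam 𝔞 * ph 𝔞 t‖ ^ 2 = 1 := by
        intro t
        rw [Finset.sum_eq_single (1 : Ideal (𝓞 K))]
        · rw [if_pos rfl, map_one]
          unfold ph
          rw [map_one]
          simp
        · intro 𝔟 _ hb
          rw [if_neg hb, zero_mul, zero_mul]
        · intro h'
          exact absurd hmem h'
      simp_rw [e2]
      rw [intervalIntegral.integral_const, smul_eq_mul]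
      ring
    rw [Finset.sum_congr rfl e1, Finset.sum_const, nsmul_eq_mul] at h1
    have e3 : ∑ 𝔞 ∈ SI K (M₁ * M₂), ‖(if 𝔞 = 1 then (1 : ℂ) else 0)‖ ^ 2 = 1 := by
      rw [Finset.sum_eq_single (1 : Ideal (𝓞 K))]
      · rw [if_pos rfl, norm_one, one_pow]
      · intro 𝔟 _ hb
        rw [if_neg hb, norm_zero]
        norm_num
      · intro h'
        exact absurd hmem h'
    rw [e3, mul_one] at h1
    exact h1
  have hP0 : 0 ≤ P := by rw [hP]; positivity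
  have hεP : ε' * P ≤ ε / 4 * (S.card * V) := by
    rw [hP, hε']
    have h1 : ε / 4 * c₂ / (A₂ + 1) * (A₂ * ((Ideal.absNorm 𝔮 : ℝ) * V ^ n)) =
        ε / 4 * (A₂ / (A₂ + 1)) * (c₂ * ((Ideal.absNorm 𝔮 : ℝ) * V ^ n)) := by
      field_simp
    rw [h1]
    have h2 : A₂ / (A₂ + 1) ≤ 1 := by rw [div_le_one (by linarith)]; linarith
    have h3 : 0 ≤ A₂ / (A₂ + 1) := by positivity
    calc ε / 4 * (A₂ / (A₂ + 1)) * (c₂ * ((Ideal.absNorm 𝔮 : ℝ) * V ^ n)) ≤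
        ε / 4 * 1 * (S.card * V) := by gcongr
      _ = _ := by ring
  -- the functions
  set F : (Ideal (𝓞 K) →*₀ ℂ) → ℂ → ℂ := fun lam => if lam ∈ S then Lf lam else fun _ => 0 with hF
  have hFS : ∀ lam ∈ S, F lam = Lf lam := fun lam hl => by simp only [hF]; rw [if_pos hl]
  have hFd : ∀ lam, Differentiable ℂ (F lam) := by
    intro lam
    by_cases hl : lam ∈ S
    · rw [hFS lam hl]
      exact (hLf lam ((hSmem lam).mp hl)).1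
    · simp only [hF]
      rw [if_neg hl]
      exact differentiable_const _
  have hinfo : ∀ lam ∈ S, ∃ ν : InfinitePlace K → ℝ, (∀ w, |ν w| ≤ 2 * T) ∧
      IsLf K (𝔣 * 𝔮) ν (pr ψ₀ lam) (F lam) := by
    intro lam hl
    obtain ⟨ν, a1, a2, a3⟩ := (hSmem lam).mp hl
    refine ⟨ν₀ + ν, fun w => ?_, htop, ?_, pr_isHecke hcop hψ a3, hFd lam, ?_⟩
    · rw [Pi.add_apply]
      refine (abs_add_le _ _).trans ?_
      linarith [hνT w, a1 w]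
    · simp only [Pi.add_apply]
      rw [Finset.sum_add_distrib, hs₀, a2, add_zero]
    · rw [hFS lam hl]
      exact (hLf lam ((hSmem lam).mp hl)).2
  have hGL : ∀ lam ∈ S, GLf (A₀ * 4 ^ n) T R n (pr ψ₀ lam) (F lam) := by
    intro lam hl
    obtain ⟨ν, b1, b2⟩ := hinfo lam hl
    have h1 := hgrow (𝔣 * 𝔮) ν (pr ψ₀ lam) (F lam) b2 (2 * T) (by linarith) b1
    have h2 := gl_of hA₀ b2 hT h1
    rw [← hn, ← hN, ← hR] at h2
    exact h2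
  refine ⟨hfin, ?_, fun t₁ ht₁ => ?_⟩
  · have h1 : (0 : ℝ) < (HFam K 𝔮 V).ncard := by rw [hncard]; exact hS0
    exact_mod_cast h1
  obtain ⟨q, hq⟩ : ∃ q : ℝ, q = √(Real.log R / 2) := ⟨_, rfl⟩
  obtain ⟨G, hG⟩ : ∃ G : (Ideal (𝓞 K) →*₀ ℂ) → ℝ → ℝ, G = fun lam t =>
    (Pr 0 (Yd (Module.finrank ℚ K) g R) (pr ψ₀ lam) (pt (1 / 2 + κ / R) t)).re := ⟨_, rfl⟩
  have hGc : ∀ lam, Continuous (G lam) := by
    intro lam
    rw [hG]
    exact Complex.continuous_re.comp ((Pr_diff _ _ _).continuous.comp (pt_cont _))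
  have hbad := hnear R T V P S ψ₀ F hRR3 hVge hVT hcardP (by rw [← hM₁, ← hM₂]; exact hLSP) hFd hGL
    t₁ ht₁
  have e1 : ∀ lam ∈ S, volume {t ∈ Icc t₁ (t₁ + V) | ω * √(Real.log R / 2) <
      |Real.log ‖F lam (pt (1 / 2) t)‖ -
        (Pr 0 (Yd (Module.finrank ℚ K) g R) (pr ψ₀ lam) (pt (1 / 2 + κ / R) t)).re|} =
      volume {t ∈ Icc t₁ (t₁ + V) | ω * q < |Real.log ‖Lf lam (pt (1 / 2) t)‖ - G lam t|} := by
    intro lam hl
    rw [hFS lam hl, hq, hG]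
  rw [Finset.sum_congr rfl e1] at hbad
  have hvf : ∀ (p : ℝ → Prop), volume {t ∈ Icc t₁ (t₁ + V) | p t} ≠ ⊤ := fun p =>
    ne_of_lt (lt_of_le_of_lt (measure_mono (sep_subset _ _)) measure_Icc_lt_top)
  have hbad2 : ∑ lam ∈ S, volume.real {t ∈ Icc t₁ (t₁ + V) |
      ω * q < |Real.log ‖Lf lam (pt (1 / 2) t)‖ - G lam t|} ≤ ε / 4 * (S.card * V) := by
    refine le_trans ?_ hεP
    unfold Measure.real
    rw [← ENNReal.toReal_sum fun lam _ =>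
      hvf fun t => ω * q < |Real.log ‖Lf lam (pt (1 / 2) t)‖ - G lam t|]
    exact ENNReal.toReal_le_of_le_ofReal (by positivity) hbad
  have hX2 : (N * T ^ Module.finrank ℚ K) ^ h ≤
      (Ideal.absNorm 𝔮 : ℝ) * V ^ Module.finrank ℚ K := by
    rw [← hn]; exact hX
  have hRd : R = Real.log ((Ideal.absNorm (𝔣 * 𝔮) : ℝ) * T ^ Module.finrank ℚ K) := by
    rw [hR, ← hn, ← hN]
  have hl1 := hlaw₁ 𝔣 𝔮 ν₀ ψ₀ V T hψ hs₀ hcop h𝔮 htop (hδ𝔮.trans (min_le_left _ _)) hV4 hVT hX'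
    R hRd hRR4 S hSmem t₁
  have hl2 := hlaw₂ 𝔣 𝔮 ν₀ ψ₀ V T hψ hs₀ hcop h𝔮 htop (hδ𝔮.trans (min_le_right _ _)) hV5 hVT hX'
    R hRd hRR5 S hSmem t₁
  rw [← hg, ← hq] at hl1 hl2
  have e2 : ∀ y : ℝ, ∑ lam ∈ S, volume.real {t ∈ Icc t₁ (t₁ + V) |
      (Pr 0 (Yd (Module.finrank ℚ K) g R) (pr ψ₀ lam) (pt (1 / 2 + κ / R) t)).re ≤ y} =
      ∑ lam ∈ S, volume.real {t ∈ Icc t₁ (t₁ + V) | G lam t ≤ y} := by
    intro y
    rw [hG]
  rw [e2] at hl1 hl2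
  obtain ⟨E₁, hE₁⟩ : ∃ E₁ : ℝ, E₁ = ∑ lam ∈ S, volume.real {t ∈ Icc t₁ (t₁ + V) |
    G lam t ≤ (x + ω) * q} := ⟨_, rfl⟩
  obtain ⟨E₂, hE₂⟩ : ∃ E₂ : ℝ, E₂ = ∑ lam ∈ S, volume.real {t ∈ Icc t₁ (t₁ + V) |
    G lam t ≤ (x - ω) * q} := ⟨_, rfl⟩
  rw [← hE₁] at hl1
  rw [← hE₂] at hl2
  have hE1up : E₁ ≤ (Phi (x + ω) + ε / 4) * (S.card * V) := by
    have h1 := (abs_le.mp hl1).2
    have h2 : (S.card * V)⁻¹ * E₁ ≤ Phi (x + ω) + ε / 4 := by linarith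
    rwa [inv_mul_le_iff₀ hSV0, mul_comm] at h2
  have hE2lo : (Phi (x - ω) - ε / 4) * (S.card * V) ≤ E₂ := by
    have h1 := (abs_le.mp hl2).1
    have h2 : Phi (x - ω) - ε / 4 ≤ (S.card * V)⁻¹ * E₂ := by linarith
    rwa [le_inv_mul_iff₀ hSV0, mul_comm] at h2
  rw [finsum_mem_eq_finite_toFinset_sum _ hfin, ← hSd, hncard, ← hq]
  -- comparison of the sets
  have hup : ∑ lam ∈ S, volume.real {t ∈ Icc t₁ (t₁ + V) |
      Real.log ‖Lf lam (pt (1 / 2) t)‖ ≤ x * q} ≤ E₁ + ε / 4 * (S.card * V) := by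
    refine le_trans ?_ (add_le_add (le_of_eq hE₁.symm) hbad2)
    rw [← Finset.sum_add_distrib]
    refine Finset.sum_le_sum fun lam _ => ?_
    refine (measureReal_mono ?_ ?_).trans (measureReal_union_le _ _)
    · rintro t ⟨ht1, ht2⟩
      by_cases hb : ω * q < |Real.log ‖Lf lam (pt (1 / 2) t)‖ - G lam t|
      · exact Or.inr ⟨ht1, hb⟩
      · refine Or.inl ⟨ht1, ?_⟩
        have h1 := (abs_le.mp (not_lt.mp hb)).1
        linarith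
    · exact (measure_union_lt_top (lt_top_iff_ne_top.mpr (hvf _))
        (lt_top_iff_ne_top.mpr (hvf _))).ne
  have hlo : E₂ ≤ ∑ lam ∈ S, volume.real {t ∈ Icc t₁ (t₁ + V) |
      Real.log ‖Lf lam (pt (1 / 2) t)‖ ≤ x * q} + ε / 4 * (S.card * V) := by
    refine le_trans ?_ (add_le_add_right hbad2 _)
    rw [hE₂, ← Finset.sum_add_distrib]
    refine Finset.sum_le_sum fun lam _ => ?_
    refine (measureReal_mono ?_ ?_).trans (measureReal_union_le _ _)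
    · rintro t ⟨ht1, ht2⟩
      by_cases hb : ω * q < |Real.log ‖Lf lam (pt (1 / 2) t)‖ - G lam t|
      · exact Or.inr ⟨ht1, hb⟩
      · refine Or.inl ⟨ht1, ?_⟩
        have h1 := (abs_le.mp (not_lt.mp hb)).2
        linarith
    · exact (measure_union_lt_top (lt_top_iff_ne_top.mpr (hvf _))
        (lt_top_iff_ne_top.mpr (hvf _))).ne
  have hPh1 := (Phi_lip (show x ≤ x + ω by linarith)).2
  have hPh2 := (Phi_lip (show x - ω ≤ x by linarith)).2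
  have k1 : Phi (x + ω) ≤ Phi x + ε / 4 := by rw [← hω]; linarith
  have k2 : Phi x - ε / 4 ≤ Phi (x - ω) := by rw [← hω]; linarith
  have k3 := mul_le_mul_of_nonneg_right k1 hSV0.le
  have k4 := mul_le_mul_of_nonneg_right k2 hSV0.le
  rw [abs_le]
  constructor <;> linarith

end Pool.Agent.N786.E
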