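import Pool.Agent.N786.D.Cnv

/-!
# Exponents and Euler products (owner helper786)
-/

set_option autoImplicit false
set_option linter.unusedSectionVars false

open UniqueFactorizationMonoid

namespace Pool.Agent.N786.E

open Pool.Agent.N786.D

section

variable {M : Type} [CommMonoidWithZero M] [NormalizationMonoid M] [UniqueFactorizationMonoid M]
  [Subsingleton Mˣ]

open Classical in
/-- the exponent of `p` in `a` -/
noncomputable def ex (p a : M) : ℕ := Multiset.count p (normalizedFactors a)

lemma ex_mul {a b : M} (ha : a ≠ 0) (hb : b ≠ 0) (p : M) : ex p (a * b) = ex p a + ex p b := by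
  classical
  unfold ex
  rw [normalizedFactors_mul ha hb, Multiset.count_add]

lemma ex_one (p : M) : ex p (1 : M) = 0 := by
  classical
  unfold ex
  rw [normalizedFactors_one, Multiset.count_zero]

lemma ex_pow {a : M} (p : M) (n : ℕ) : ex p (a ^ n) = n * ex p a := by
  classical
  unfold ex
  rw [normalizedFactors_pow, Multiset.count_nsmul]

lemma ex_pos {p a : M} : 0 < ex p a ↔ p ∈ primeFactors a := by
  classical
  unfold ex
  rw [Multiset.count_pos, mem_primeFactors]

lemma ex_zero {p a : M} (h : p ∉ primeFactors a) : ex p a = 0 := by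
  by_contra h1
  exact h (ex_pos.mp (Nat.pos_of_ne_zero h1))

open Classical in
lemma ex_self {p q : M} (hq : Prime q) : ex p q = if p = q then 1 else 0 := by
  unfold ex
  rw [normalizedFactors_irreducible hq.irreducible, associated_iff_eq.mp (normalize_associated q),
    Multiset.count_singleton]

lemma ex_inj {a b : M} (ha : a ≠ 0) (hb : b ≠ 0) (h : ∀ p, ex p a = ex p b) : a = b := by
  have h1 : normalizedFactors a = normalizedFactors b := by
    classical
    refine Multiset.ext.mpr fun p => ?_
    have := h p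
    unfold ex at this
    convert this
  have h2 := prod_normalizedFactors ha
  have h3 := prod_normalizedFactors hb
  rw [h1] at h2
  exact assoc_eq' (h2.symm.trans h3)

lemma ex_dvd {a b : M} (ha : a ≠ 0) (hb : b ≠ 0) : a ∣ b ↔ ∀ p, ex p a ≤ ex p b := by
  classical
  rw [dvd_iff_normalizedFactors_le_normalizedFactors ha hb, Multiset.le_iff_count]
  unfold ex
  constructor
  · intro h p
    convert h p
  · intro h p
    convert h p

variable {ι : Type} [Fintype ι] {p : ι → M}

/-- the element with the exponents `k` -/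
noncomputable def pe (p : ι → M) (k : ι → ℕ) : M := ∏ i, p i ^ k i

lemma pe_ne (hp : ∀ i, Prime (p i)) [Nontrivial M] (k : ι → ℕ) : pe p k ≠ 0 :=
  Finset.prod_ne_zero_iff.mpr fun i _ => pow_ne_zero _ (hp i).ne_zero

lemma ex_pe [Nontrivial M] (hp : ∀ i, Prime (p i)) (hinj : Function.Injective p) (k : ι → ℕ) (j : ι) :
    ex (p j) (pe p k) = k j := by
  classical
  have h1 : ∀ s : Finset ι, ex (p j) (∏ i ∈ s, p i ^ k i) = if j ∈ s then k j else 0 := by
    intro s
    induction s using Finset.induction_on with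
    | empty => simp [ex_one]
    | insert i s hi ih =>
      rw [Finset.prod_insert hi, ex_mul (pow_ne_zero _ (hp i).ne_zero)
        (Finset.prod_ne_zero_iff.mpr fun i _ => pow_ne_zero _ (hp i).ne_zero), ih, ex_pow,
        ex_self (hp i)]
      by_cases h : j = i
      · subst h
        rw [if_pos rfl, if_neg hi, if_pos (Finset.mem_insert_self _ _)]
        ring
      · rw [if_neg (fun h' => h (hinj h'))]
        by_cases h2 : j ∈ s
        · rw [if_pos h2, if_pos (Finset.mem_insert_of_mem h2)]
          ring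
        · rw [if_neg h2, if_neg (fun h3 => h2 ((Finset.mem_insert.mp h3).resolve_left h))]
          ring
  unfold pe
  rw [h1 Finset.univ, if_pos (Finset.mem_univ j)]

lemma ex_pe_out [Nontrivial M] (hp : ∀ i, Prime (p i)) (k : ι → ℕ) {q : M} (hq : ∀ i, p i ≠ q) :
    ex q (pe p k) = 0 := by
  classical
  have h1 : ∀ s : Finset ι, ex q (∏ i ∈ s, p i ^ k i) = 0 := by
    intro s
    induction s using Finset.induction_on with
    | empty => simp [ex_one]
    | insert i s hi ih =>
      rw [Finset.prod_insert hi, ex_mul (pow_ne_zero _ (hp i).ne_zero)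
        (Finset.prod_ne_zero_iff.mpr fun i _ => pow_ne_zero _ (hp i).ne_zero), ih, ex_pow,
        ex_self (hp i), if_neg (fun h => hq i h.symm)]
      ring
  exact h1 Finset.univ

/-- `a` has all its prime factors among the `p i` -/
def Sp (p : ι → M) (a : M) : Prop := a ≠ 0 ∧ ∀ q ∈ primeFactors a, ∃ i, p i = q

lemma Sp.eq_pe [Nontrivial M] {a : M} (h : Sp p a) (hp : ∀ i, Prime (p i))
    (hinj : Function.Injective p) : pe p (fun i => ex (p i) a) = a := by
  refine ex_inj (pe_ne hp _) h.1 fun q => ?_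
  by_cases hq : ∃ i, p i = q
  · obtain ⟨i, rfl⟩ := hq
    exact ex_pe hp hinj _ i
  · push Not at hq
    rw [ex_pe_out hp _ hq, ex_zero fun h1 => ?_]
    obtain ⟨i, hi⟩ := h.2 q h1
    exact hq i hi

/-- **Euler product bound** -/
theorem euler2 [Nontrivial M] (hp : ∀ i, Prime (p i)) (hinj : Function.Injective p)
    (h : ι → ℕ → ℝ) (h0 : ∀ i e, 0 ≤ h i e) (C : ι → ℝ)
    (hC : ∀ i, ∀ N : ℕ, ∑ e ∈ Finset.range N, h i e ≤ C i) (A : Finset M)
    (hA : ∀ a ∈ A, Sp p a) :
    ∑ a ∈ A, ∏ i, h i (ex (p i) a) ≤ ∏ i, C i := by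
  classical
  obtain ⟨N, hN⟩ : ∃ N : ℕ, ∀ a ∈ A, ∀ i, ex (p i) a < N := by
    refine ⟨(A.sup fun a => Finset.univ.sup fun i => ex (p i) a) + 1, fun a ha i => ?_⟩
    have h1 : ex (p i) a ≤ Finset.univ.sup fun i => ex (p i) a :=
      Finset.le_sup (f := fun i => ex (p i) a) (Finset.mem_univ i)
    have h2 : (Finset.univ.sup fun i => ex (p i) a) ≤ A.sup fun a => Finset.univ.sup fun i =>
      ex (p i) a := Finset.le_sup (f := fun a => Finset.univ.sup fun i => ex (p i) a) ha
    omega
  have h1 : ∏ i, ∑ e ∈ Finset.range N, h i e ≤ ∏ i, C i :=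
    Finset.prod_le_prod (fun i _ => Finset.sum_nonneg fun e _ => h0 i e) fun i _ => hC i N
  refine le_trans ?_ h1
  rw [Finset.prod_univ_sum]
  have h2 : ∑ a ∈ A, ∏ i, h i (ex (p i) a) =
      ∑ x ∈ A.image (fun a => fun i => ex (p i) a), ∏ i, h i (x i) := by
    rw [Finset.sum_image]
    intro a ha b hb hab
    rw [← (hA a ha).eq_pe hp hinj, ← (hA b hb).eq_pe hp hinj]
    exact congrArg (pe p) hab
  rw [h2]
  refine Finset.sum_le_sum_of_subset_of_nonneg ?_ fun x _ _ =>
    Finset.prod_nonneg fun i _ => h0 i _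
  intro x hx
  obtain ⟨a, ha, rfl⟩ := Finset.mem_image.mp hx
  rw [Fintype.mem_piFinset]
  exact fun i => Finset.mem_range.mpr (hN a ha i)

/-- additivity -/
lemma L_pe [Nontrivial M] {L : M → ℝ} {B₀ : ℝ} (hL : LNorm L B₀) (hp : ∀ i, Prime (p i))
    (k : ι → ℕ) : L (pe p k) = ∑ i, k i * L (p i) := by
  classical
  have hpow : ∀ (i : ι) (n : ℕ), L (p i ^ n) = n * L (p i) := by
    intro i n
    induction n with
    | zero => rw [pow_zero, hL.one]; simp
    | succ n ih =>
      rw [pow_succ, hL.mul _ _ (pow_ne_zero _ (hp i).ne_zero) (hp i).ne_zero, ih]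
      push_cast
      ring
  have h1 : ∀ s : Finset ι, L (∏ i ∈ s, p i ^ k i) = ∑ i ∈ s, k i * L (p i) := by
    intro s
    induction s using Finset.induction_on with
    | empty => simp [hL.one]
    | insert i s hi ih =>
      rw [Finset.prod_insert hi, hL.mul _ _ (pow_ne_zero _ (hp i).ne_zero)
        (Finset.prod_ne_zero_iff.mpr fun i _ => pow_ne_zero _ (hp i).ne_zero), ih,
        Finset.sum_insert hi, hpow]
  exact h1 Finset.univ

lemma Sp.L_eq [Nontrivial M] {L : M → ℝ} {B₀ : ℝ} (hL : LNorm L B₀) {a : M} (h : Sp p a)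
    (hp : ∀ i, Prime (p i)) (hinj : Function.Injective p) :
    L a = ∑ i, ex (p i) a * L (p i) := by
  conv_lhs => rw [← h.eq_pe hp hinj]
  exact L_pe hL hp _

end

end Pool.Agent.N786.E
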