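import Pool.Agent.N786.E.Tex

/-!
# The coefficients with a smooth cut-off (owner helper786)
-/

set_option autoImplicit false
set_option linter.unusedSectionVars false

open UniqueFactorizationMonoid MeasureTheory

namespace Pool.Agent.N786.E

open Pool.Agent.N786.D

section

variable {M : Type} [CommMonoidWithZero M] [NormalizationMonoid M] [UniqueFactorizationMonoid M]
  [Subsingleton Mˣ] [Nontrivial M]

/-- the coefficient of the product, as a Fourier integral -/
lemma uu_rep {L : M → ℝ} {B₀ : ℝ} (hL : LNorm L B₀) {f gh : ℝ → ℂ} (h : Fr f gh)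
    {ι : Type} [Fintype ι] {p : ι → M} (hp : ∀ i, Prime (p i)) (hinj : Function.Injective p)
    {γ : ℕ → ℂ} {g : M → ℂ} (hg : ∀ b, Sp p b → g b = ∏ i, γ (ex (p i) b)) (K : ℕ) {R : ℝ}
    (x : ℝ) (c : ι → ℂ) {a : M} (ha : Sp p a) :
    uu K p (fun i => (Real.exp (-(x * L (p i))) : ℂ) * c i)
      (fun b => g b * (f (L b / R) * (Real.exp (-(x * L b)) : ℂ))) a =
      (Real.exp (-(x * L a)) : ℂ) * ∫ u, gh u * UU K c γ
        (fun i => Complex.exp (((2 * Real.pi * u / R * L (p i) : ℝ) : ℂ) * Complex.I))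
        (fun i => ex (p i) a) := by
  obtain ⟨hc, hi, hf⟩ := h
  have hi0 : Integrable fun u => ‖gh u‖ := by
    refine (hi 0).congr (Filter.Eventually.of_forall fun u => ?_)
    simp
  have e0 : ∀ u : ℝ, gh u * UU K c γ
        (fun i => Complex.exp (((2 * Real.pi * u / R * L (p i) : ℝ) : ℂ) * Complex.I))
        (fun i => ex (p i) a) = ∑ k ∈ bx K (fun i => ex (p i) a),
        ((∏ i, (c i ^ k i / ((k i).factorial : ℂ))) * ∏ i, γ (ex (p i) a - k i)) *
        (gh u * Complex.exp (((2 * Real.pi * u * (L (pe p (fun i => ex (p i) a - k i)) / R) : ℝ) :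
          ℂ) * Complex.I)) := by
    intro u
    unfold UU
    rw [Finset.mul_sum]
    refine Finset.sum_congr rfl fun k hk => ?_
    unfold lc
    rw [Finset.prod_mul_distrib, Finset.prod_mul_distrib]
    have e1 : ∏ i, Complex.exp (((2 * Real.pi * u / R * L (p i) : ℝ) : ℂ) * Complex.I) ^
        (ex (p i) a - k i) = Complex.exp (((2 * Real.pi * u *
          (L (pe p (fun i => ex (p i) a - k i)) / R) : ℝ) : ℂ) * Complex.I) := by
      rw [L_pe hL hp]
      simp only [← Complex.exp_nat_mul]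
      rw [← Complex.exp_sum]
      congr 1
      push_cast
      rw [Finset.sum_div, Finset.mul_sum, Finset.sum_mul]
      refine Finset.sum_congr rfl fun i _ => ?_
      ring
    rw [e1]
    ring
  simp_rw [e0]
  rw [integral_finsetSum]
  · unfold uu
    rw [Finset.mul_sum]
    refine Finset.sum_congr rfl fun k hk => ?_
    rw [integral_const_mul, ← hf]
    dsimp only
    rw [hg _ (Sp_pe hp _)]
    have e2 : ∏ i, γ (ex (p i) (pe p fun i => ex (p i) a - k i)) = ∏ i, γ (ex (p i) a - k i) := by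
      refine Finset.prod_congr rfl fun i _ => ?_
      rw [ex_pe hp hinj]
    have e3 : ∏ i, (((Real.exp (-(x * L (p i))) : ℂ) * c i) ^ k i / ((k i).factorial : ℂ)) =
        (Real.exp (-(x * ∑ i, k i * L (p i))) : ℂ) * ∏ i, (c i ^ k i / ((k i).factorial : ℂ)) := by
      rw [Finset.mul_sum, ← Finset.sum_neg_distrib, Real.exp_sum, Complex.ofReal_prod,
        ← Finset.prod_mul_distrib]
      refine Finset.prod_congr rfl fun i _ => ?_
      rw [mul_pow, ← Complex.ofReal_pow, ← Real.exp_nat_mul]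
      have : (k i : ℝ) * -(x * L (p i)) = -(x * (k i * L (p i))) := by ring
      rw [this]
      ring
    have e4 : (Real.exp (-(x * L a)) : ℂ) = (Real.exp (-(x * ∑ i, k i * L (p i))) : ℂ) *
        (Real.exp (-(x * L (pe p fun i => ex (p i) a - k i))) : ℂ) := by
      rw [← Complex.ofReal_mul, ← Real.exp_add]
      congr 2
      rw [ha.L_eq hL hp hinj, L_pe hL hp]
      have : ∑ i, (ex (p i) a : ℝ) * L (p i) = ∑ i, (k i : ℝ) * L (p i) +
          ∑ i, ((ex (p i) a - k i : ℕ) : ℝ) * L (p i) := by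
        rw [← Finset.sum_add_distrib]
        refine Finset.sum_congr rfl fun i _ => ?_
        have := (mem_bx.mp hk).1 i
        rw [Nat.cast_sub this]
        ring
      rw [this]
      ring
    rw [e2, e3, e4]
    ring
  · intro k _
    refine Integrable.const_mul ?_ _
    refine (integrable_norm_iff ?_).mp ?_
    · exact (hc.mul (by fun_prop)).aestronglyMeasurable
    · refine hi0.congr (Filter.Eventually.of_forall fun u => ?_)
      simp only
      rw [norm_mul, Complex.norm_exp_ofReal_mul_I, mul_one]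

/-- **The mean square of the coefficients** -/
theorem uu_sq {L : M → ℝ} {B₀ : ℝ} (hL : LNorm L B₀) {f gh : ℝ → ℂ} (h : Fr f gh) {k : ℕ}
    (hk : 32 * B₀ ≤ k) : ∃ C : ℝ, 0 ≤ C ∧
    ∀ (ι : Type) [Fintype ι] (p : ι → M), (∀ i, Prime (p i)) → Function.Injective p →
    ∀ (γ : ℕ → ℂ) (s : ℝ), (s = 1 ∨ s = -1) → γ 0 = 1 → (∀ e, ‖γ e‖ ≤ 1) → γ 1 = -(s : ℂ) →
    ∀ g : M → ℂ, (∀ b, Sp p b → g b = ∏ i, γ (ex (p i) b)) →
    ∀ (K : ℕ) (x R η Y w₁ v : ℝ), 1 < 2 * x → 2 * x ≤ 3 / 2 → 0 < R → 1 / R ≤ 2 * x - 1 → 0 ≤ η →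
      0 < Y → η ≤ w₁ → 1 / Y ≤ w₁ → w₁ ≤ 1 / 2 → 3200 * B₀ * Real.log (1 + R) ≤ 2 * K →
    ∀ A : Finset M, (∀ a ∈ A, Sp p a) →
    ∑ a ∈ A, ‖uu K p (fun i => (Real.exp (-(x * L (p i))) : ℂ) * cf s η Y v (L (p i)))
      (fun b => g b * (f (L b / R) * (Real.exp (-(x * L b)) : ℂ))) a‖ ^ 2 ≤
      C * ((1 + R * w₁) ^ (2 * B₀) * (1 + R * |v|) ^ k) := by
  have h' := h
  obtain ⟨hc, hi, hf⟩ := h'
  have hi0 : Integrable fun u => ‖gh u‖ := by
    refine (hi 0).congr (Filter.Eventually.of_forall fun u => ?_)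
    simp
  obtain ⟨I0, hI0⟩ : ∃ I0 : ℝ, I0 = ∫ u, ‖gh u‖ := ⟨_, rfl⟩
  obtain ⟨Ik, hIk⟩ : ∃ Ik : ℝ, Ik = ∫ u, (1 + |u|) ^ k * ‖gh u‖ := ⟨_, rfl⟩
  have hI00 : 0 ≤ I0 := by rw [hI0]; exact integral_nonneg fun _ => norm_nonneg _
  have hIk0 : 0 ≤ Ik := by rw [hIk]; exact integral_nonneg fun _ => by positivity
  have hI0k : I0 ≤ Ik := by
    rw [hI0, hIk]
    refine integral_mono hi0 (hi k) fun u => ?_
    exact le_mul_of_one_le_left (norm_nonneg _) (one_le_pow₀ (by linarith [abs_nonneg u]))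
  refine ⟨I0 * ((2 * Real.exp (36 * B₀) * 7 ^ k + 2) * Ik), by positivity, ?_⟩
  intro ι _ p hp hinj γ s hs hγ0 hγ hγ1 g hg K x R η Y w₁ v h1 h2 hR hR2 hη hY hw1 hw2 hw3 hK A hA
  have hB := hL.B0
  have hw10 : 0 ≤ w₁ := hη.trans hw1
  set c : ι → ℂ := fun i => cf s η Y v (L (p i)) with hcdef
  set H : M → ℝ → ℂ := fun a u => UU K c γ
        (fun i => Complex.exp (((2 * Real.pi * u / R * L (p i) : ℝ) : ℂ) * Complex.I))
        (fun i => ex (p i) a) with hH
  have hHc : ∀ a, Continuous (H a) := by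
    intro a
    simp only [hH]
    unfold UU lc
    refine continuous_finsetSum _ fun k _ => continuous_finsetProd _ fun i _ => ?_
    fun_prop
  have hHb : ∀ a, ∃ B, ∀ u, ‖H a u‖ ≤ B := by
    intro a
    refine ⟨∑ _k ∈ bx K (fun i => ex (p i) a), 1, fun u => ?_⟩
    simp only [hH]
    unfold UU
    refine (norm_sum_le _ _).trans (Finset.sum_le_sum fun k _ => ?_)
    rw [norm_prod]
    refine Finset.prod_le_one (fun _ _ => norm_nonneg _) fun i _ => ?_
    refine (lc_norm hγ (Complex.norm_exp_ofReal_mul_I _)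
      (cf_le hs hη (lp_pos hL (hp i)).le) _ _).trans ?_
    refine inv_le_one_of_one_le₀ ?_
    exact_mod_cast Nat.one_le_iff_ne_zero.mpr (Nat.factorial_ne_zero _)
  choose Bd hBd using hHb
  have i2 : ∀ a, Integrable fun u => ‖gh u‖ * ‖H a u‖ ^ 2 := fun a =>
    hi0.mul_bdd (c := Bd a ^ 2) ((hHc a).norm.pow 2).aestronglyMeasurable
      (Filter.Eventually.of_forall fun u => by
        rw [Real.norm_of_nonneg (by positivity)]
        exact pow_le_pow_left₀ (norm_nonneg _) (hBd a u) 2)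
  have hcs : ∀ a ∈ A, ‖uu K p (fun i => (Real.exp (-(x * L (p i))) : ℂ) * cf s η Y v (L (p i)))
      (fun b => g b * (f (L b / R) * (Real.exp (-(x * L b)) : ℂ))) a‖ ^ 2 ≤
      I0 * ∫ u, ‖gh u‖ * (‖H a u‖ ^ 2 * Real.exp (-(2 * x * L a))) := by
    intro a ha
    rw [uu_rep hL h hp hinj hg K x c (hA a ha)]
    have e := cs_int hc hi0 (hHc a) (hBd a)
    rw [← hI0] at e
    have e2 : ∫ u, ‖gh u‖ * (‖H a u‖ ^ 2 * Real.exp (-(2 * x * L a))) =
        (∫ u, ‖gh u‖ * ‖H a u‖ ^ 2) * Real.exp (-(2 * x * L a)) := by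
      rw [← integral_mul_const]
      refine integral_congr_ae (Filter.Eventually.of_forall fun u => ?_)
      simp only
      ring
    rw [e2, ← mul_assoc, norm_mul, mul_pow, Complex.norm_real,
      Real.norm_of_nonneg (Real.exp_pos _).le, ← Real.exp_nat_mul, mul_comm]
    have e3 : ((2 : ℕ) : ℝ) * -(x * L a) = -(2 * x * L a) := by push_cast; ring
    rw [e3]
    exact mul_le_mul_of_nonneg_right e (Real.exp_pos _).le
  refine (Finset.sum_le_sum hcs).trans ?_
  rw [← Finset.mul_sum]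
  have i3 : ∀ a ∈ A, Integrable fun u => ‖gh u‖ * (‖H a u‖ ^ 2 * Real.exp (-(2 * x * L a))) := by
    intro a _
    refine ((i2 a).mul_const (Real.exp (-(2 * x * L a)))).congr
      (Filter.Eventually.of_forall fun u => ?_)
    simp only
    ring
  rw [← integral_finsetSum _ i3]
  have hW : 1 ≤ (1 + R * w₁) ^ (2 * B₀) :=
    Real.one_le_rpow (by have : 0 ≤ R * w₁ := by positivity
                         linarith) (by positivity)
  have hV : 1 ≤ (1 + R * |v|) ^ k := one_le_pow₀ (by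
    have : 0 ≤ R * |v| := by positivity
    linarith)
  have e4 : I0 * ((2 * Real.exp (36 * B₀) * 7 ^ k + 2) * Ik) * ((1 + R * w₁) ^ (2 * B₀) *
      (1 + R * |v|) ^ k) = I0 * ∫ u, ((1 + |u|) ^ k * ‖gh u‖) *
        ((2 * Real.exp (36 * B₀) * 7 ^ k + 2) * ((1 + R * w₁) ^ (2 * B₀) *
          (1 + R * |v|) ^ k)) := by
    rw [integral_mul_const, ← hIk]
    ring
  rw [e4]
  refine mul_le_mul_of_nonneg_left ?_ hI00
  refine integral_mono (integrable_finsetSum _ i3) ((hi k).mul_const _) fun u => ?_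
  simp only
  rw [← Finset.mul_sum]
  have e5 := coef_final hL hp hinj (γ := γ) hs hγ0 hγ hγ1 K (σ := 2 * x) (R := R) (η := η)
    (Y := Y) (w₁ := w₁) h1 h2 hR hR2 hη hY hw1 hw2 hw3 (2 * Real.pi * u / R) v A hA
  have e6 : (1 + R * |2 * Real.pi * u / R - v|) ^ (32 * B₀) ≤
      (7 : ℝ) ^ k * (1 + |u|) ^ k * (1 + R * |v|) ^ k := by
    have b1 : 1 ≤ 1 + R * |2 * Real.pi * u / R - v| := by
      have : 0 ≤ R * |2 * Real.pi * u / R - v| := by positivity
      linarith
    refine (Real.rpow_le_rpow_of_exponent_le b1 hk).trans ?_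
    rw [Real.rpow_natCast, ← mul_pow, ← mul_pow]
    refine pow_le_pow_left₀ (by linarith) ?_ k
    have b4 : R * |2 * Real.pi * u / R - v| ≤ R * |v| + 6.4 * |u| := by
      have b5 : |2 * Real.pi * u / R - v| ≤ |2 * Real.pi * u / R| + |v| := abs_sub _ _
      have b6 : |2 * Real.pi * u / R| = 2 * Real.pi * |u| / R := by
        rw [abs_div, abs_mul, abs_of_pos hR, abs_of_pos (by positivity : 0 < 2 * Real.pi)]
      rw [b6] at b5
      have b7 : R * (2 * Real.pi * |u| / R + |v|) = 2 * Real.pi * |u| + R * |v| := by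
        field_simp
      have b8 := mul_le_mul_of_nonneg_left b5 hR.le
      rw [b7] at b8
      have b9 : 2 * Real.pi * |u| ≤ 6.4 * |u| := by
        have := Real.pi_lt_d2
        have := abs_nonneg u
        nlinarith
      linarith
    have c1 := abs_nonneg u
    have c2 : 0 ≤ R * |v| := by positivity
    nlinarith [mul_nonneg c1 c2]
  have e7 : Real.exp (-(2 * (K : ℝ))) * (1 + R) ^ (3200 * B₀) ≤ 1 := by
    rw [Real.rpow_def_of_pos (by linarith), ← Real.exp_add, Real.exp_le_one_iff]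
    have : Real.log (1 + R) * (3200 * B₀) = 3200 * B₀ * Real.log (1 + R) := by ring
    rw [this]
    linarith
  have e8 : ∑ a ∈ A, ‖H a u‖ ^ 2 * Real.exp (-(2 * x * L a)) ≤
      (2 * Real.exp (36 * B₀) * 7 ^ k + 2) * ((1 + |u|) ^ k * ((1 + R * w₁) ^ (2 * B₀) *
        (1 + R * |v|) ^ k)) := by
    refine e5.trans ?_
    have hU : 1 ≤ (1 + |u|) ^ k := one_le_pow₀ (by linarith [abs_nonneg u])
    have hone : 1 ≤ (1 + |u|) ^ k * ((1 + R * w₁) ^ (2 * B₀) * (1 + R * |v|) ^ k) :=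
      one_le_mul_of_one_le_of_one_le hU (one_le_mul_of_one_le_of_one_le hW hV)
    have f1 : Real.exp (36 * B₀) * (1 + R * w₁) ^ (2 * B₀) *
        (1 + R * |2 * Real.pi * u / R - v|) ^ (32 * B₀) ≤
        Real.exp (36 * B₀) * (1 + R * w₁) ^ (2 * B₀) *
          ((7 : ℝ) ^ k * (1 + |u|) ^ k * (1 + R * |v|) ^ k) :=
      mul_le_mul_of_nonneg_left e6 (by positivity)
    calc _ ≤ 2 * (Real.exp (36 * B₀) * (1 + R * w₁) ^ (2 * B₀) *
          ((7 : ℝ) ^ k * (1 + |u|) ^ k * (1 + R * |v|) ^ k)) + 2 * 1 := by gcongr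
      _ ≤ 2 * (Real.exp (36 * B₀) * (1 + R * w₁) ^ (2 * B₀) *
          ((7 : ℝ) ^ k * (1 + |u|) ^ k * (1 + R * |v|) ^ k)) +
          2 * ((1 + |u|) ^ k * ((1 + R * w₁) ^ (2 * B₀) * (1 + R * |v|) ^ k)) := by gcongr
      _ = _ := by ring
  refine (mul_le_mul_of_nonneg_left e8 (norm_nonneg (gh u))).trans (le_of_eq ?_)
  ring

end

end Pool.Agent.N786.E
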