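import Pool.Agent.N786.E.Clo
import Pool.Agent.N786.E.Levy

/-!
# The law of the sum over the primes (owner helper786)
-/

set_option autoImplicit false
set_option linter.unusedSectionVars false

open MeasureTheory ProbabilityTheory Complex Filter Topology Set

namespace Pool.Agent.N786.E

section

variable {α : Type} [Fintype α] [MeasurableSpace α] [MeasurableSingletonClass α]

/-- the uniform probability measure on `α × [t₁, t₁ + V]` -/
noncomputable def pmu (α : Type) [Fintype α] [MeasurableSpace α] (t₁ V : ℝ) : Measure (α × ℝ) :=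
  (ENNReal.ofReal (Fintype.card α * V))⁻¹ •
    (Measure.count.prod (volume.restrict (Icc t₁ (t₁ + V))))

lemma pmu_apply (t₁ V : ℝ) {A : Set (α × ℝ)} (hA : MeasurableSet A) :
    pmu α t₁ V A = (ENNReal.ofReal (Fintype.card α * V))⁻¹ *
      ∑ a, volume {t ∈ Icc t₁ (t₁ + V) | (a, t) ∈ A} := by
  unfold pmu
  rw [Measure.smul_apply, smul_eq_mul, Measure.prod_apply hA, lintegral_count, tsum_fintype]
  congr 1
  refine Finset.sum_congr rfl fun a _ => ?_
  rw [Measure.restrict_apply (measurable_prodMk_left hA)]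
  congr 1
  ext t
  simp only [mem_inter_iff, mem_preimage, mem_sep_iff]
  exact and_comm

lemma pmu_prob [Nonempty α] {t₁ V : ℝ} (hV : 0 < V) : IsProbabilityMeasure (pmu α t₁ V) := by
  constructor
  rw [pmu_apply t₁ V MeasurableSet.univ]
  have h1 : ∀ a : α, volume {t ∈ Icc t₁ (t₁ + V) | (a, t) ∈ (univ : Set (α × ℝ))} =
      ENNReal.ofReal V := by
    intro a
    have : {t ∈ Icc t₁ (t₁ + V) | (a, t) ∈ (univ : Set (α × ℝ))} = Icc t₁ (t₁ + V) := by
      ext t; simp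
    rw [this, Real.volume_Icc]
    congr 1
    ring
  rw [Finset.sum_congr rfl fun a _ => h1 a, Finset.sum_const, Finset.card_univ, nsmul_eq_mul,
    ENNReal.ofReal_mul (Nat.cast_nonneg _), ENNReal.ofReal_natCast]
  have hc : 0 < Fintype.card α := Fintype.card_pos
  refine ENNReal.inv_mul_cancel ?_ ?_
  · refine mul_ne_zero (by exact_mod_cast hc.ne') ?_
    rw [Ne, ENNReal.ofReal_eq_zero, not_le]
    exact hV
  · exact ENNReal.mul_ne_top (ENNReal.natCast_ne_top _) ENNReal.ofReal_ne_top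

lemma pmu_real {t₁ V : ℝ} (hV : 0 ≤ V) {A : Set (α × ℝ)} (hA : MeasurableSet A) :
    (pmu α t₁ V).real A = (Fintype.card α * V)⁻¹ *
      ∑ a, volume.real {t ∈ Icc t₁ (t₁ + V) | (a, t) ∈ A} := by
  unfold Measure.real
  rw [pmu_apply t₁ V hA, ENNReal.toReal_mul, ENNReal.toReal_inv, ENNReal.toReal_ofReal
    (by positivity), ENNReal.toReal_sum]
  intro a _
  refine ne_of_lt (lt_of_le_of_lt (measure_mono (sep_subset _ _)) ?_)
  exact measure_Icc_lt_top

lemma pmu_int {t₁ V : ℝ} (hV : 0 ≤ V) {F : α × ℝ → ℝ} (hF : Measurable F)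
    (hb : ∃ B, ∀ ω, |F ω| ≤ B) :
    ∫ ω, F ω ∂(pmu α t₁ V) = (Fintype.card α * V)⁻¹ * ∑ a, ∫ t in t₁..(t₁ + V), F (a, t) := by
  unfold pmu
  rw [integral_smul_measure, ENNReal.toReal_inv, ENNReal.toReal_ofReal (by positivity),
    smul_eq_mul]
  congr 1
  obtain ⟨B, hB⟩ := hb
  have hfin : IsFiniteMeasure (volume.restrict (Icc t₁ (t₁ + V))) := by
    constructor
    rw [Measure.restrict_apply_univ]
    exact measure_Icc_lt_top
  have hint : Integrable F (Measure.count.prod (volume.restrict (Icc t₁ (t₁ + V)))) := by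
    refine Integrable.of_bound hF.aestronglyMeasurable B (Eventually.of_forall fun ω => ?_)
    rw [Real.norm_eq_abs]
    exact hB ω
  rw [integral_prod _ hint, integral_count]
  refine Finset.sum_congr rfl fun a _ => ?_
  rw [intervalIntegral.integral_of_le (by linarith), integral_Icc_eq_integral_Ioc]

end

/-- **the law of the sum over the primes** -/
theorem law_close (x ε : ℝ) (hε : 0 < ε) : ∃ (J : ℕ) (η b : ℝ), 0 < η ∧ 0 < b ∧
    ∀ (ι α : Type) [Fintype ι] [Fintype α] [Nonempty α] [MeasurableSpace α]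
      [MeasurableSingletonClass α] (c : ι → ℝ), |∑ i, c i ^ 2 - 2| ≤ b → (∀ i, |c i| ≤ b) →
      ∑ i, |c i| ^ 3 ≤ b → ∀ (t₁ V : ℝ), 0 < V → ∀ X : α → ℝ → ι → ℂˣ,
      (∀ a t i, ‖((X a t i : ℂˣ) : ℂ)‖ = 1) → (∀ a i, Continuous fun t => ((X a t i : ℂˣ) : ℂ)) →
      (∀ (s : Finset (ι → ℤ)) (u : (ι → ℤ) → ℂ), (∀ k ∈ s, ∑ i, (k i).natAbs ≤ J) →
        ∑ a, ∫ t in t₁..(t₁ + V), ‖∑ k ∈ s, u k * mn k (X a t)‖ ^ 2 ≤
          (Fintype.card α * V) * ((1 + η) * ∑ k ∈ s, ‖u k‖ ^ 2)) →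
      |(Fintype.card α * V)⁻¹ * ∑ a, volume.real {t ∈ Icc t₁ (t₁ + V) |
        ∑ i, c i * ((X a t i : ℂˣ) : ℂ).re ≤ x} - Phi x| ≤ ε := by
  obtain ⟨Ξ, δ, hΞ, hδ, hcdf⟩ := cdf_close x ε hε
  obtain ⟨s, hs⟩ : ∃ s : ℝ, s = min 1 (δ / 96) := ⟨_, rfl⟩
  have hs0 : 0 < s := by rw [hs]; exact lt_min one_pos (by positivity)
  have hs1 : s ≤ 1 := by rw [hs]; exact min_le_left _ _
  have hsδ : s ≤ δ / 96 := by rw [hs]; exact min_le_right _ _
  obtain ⟨η, hη⟩ : ∃ η : ℝ, η = min 1 (δ / 16) := ⟨_, rfl⟩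
  have hη0 : 0 < η := by rw [hη]; exact lt_min one_pos (by positivity)
  have hη1 : η ≤ 1 := by rw [hη]; exact min_le_left _ _
  have hηδ : η ≤ δ / 16 := by rw [hη]; exact min_le_right _ _
  obtain ⟨J, hJ⟩ : ∃ J : ℕ, (1 / 4 : ℝ) ^ J < δ * s / (24 * Real.exp (8 * Ξ ^ 2 * 3)) :=
    exists_pow_lt_of_lt_one (by positivity) (by norm_num)
  obtain ⟨b, hb⟩ : ∃ b : ℝ, b = min (1 / Ξ) (δ / (4 * Ξ ^ 3)) := ⟨_, rfl⟩
  have hb0 : 0 < b := by rw [hb]; exact lt_min (by positivity) (by positivity)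
  have hb1 : Ξ * b ≤ 1 := by
    have : b ≤ 1 / Ξ := by rw [hb]; exact min_le_left _ _
    rw [le_div_iff₀ (by linarith)] at this
    linarith
  have hb2 : Ξ ^ 3 * b ≤ δ / 4 := by
    have : b ≤ δ / (4 * Ξ ^ 3) := by rw [hb]; exact min_le_right _ _
    rw [le_div_iff₀ (by positivity)] at this
    linarith
  have hbb : b ≤ 1 := by
    have : b ≤ 1 / Ξ := by rw [hb]; exact min_le_left _ _
    refine this.trans ?_
    rw [div_le_one (by linarith)]
    exact hΞ
  refine ⟨J, η, b, hη0, hb0, ?_⟩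
  intro ι α _ _ _ _ _ c hc2 hc1 hc3 t₁ V hV X hX1 hXc hstar
  have hprob : IsProbabilityMeasure (pmu α t₁ V) := pmu_prob hV
  have hmX : ∀ i, Measurable fun ω : α × ℝ => ((X ω.1 ω.2 i : ℂˣ) : ℂ) := fun i =>
    measurable_from_prod_countable_right fun a => (hXc a i).measurable
  have hcardV : 0 < (Fintype.card α : ℝ) * V := by
    have : 0 < (Fintype.card α : ℝ) := by exact_mod_cast Fintype.card_pos
    positivity
  have hstar' : ∀ (s : Finset (ι → ℤ)) (u : (ι → ℤ) → ℂ), (∀ k ∈ s, ∑ i, (k i).natAbs ≤ J) →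
      ∫ ω, ‖∑ k ∈ s, u k * mn k (X ω.1 ω.2)‖ ^ 2 ∂(pmu α t₁ V) ≤ (1 + η) * ∑ k ∈ s, ‖u k‖ ^ 2 := by
    intro s u hk
    have hm1 : ∀ k : ι → ℤ, Measurable fun ω : α × ℝ => mn k (X ω.1 ω.2) := by
      intro k
      refine measurable_from_prod_countable_right fun a => ?_
      exact (mn_meas (X := fun t => X a t) (fun i => (hXc a i).measurable) k)
    have hn1 : ∀ (k : ι → ℤ) (ω : α × ℝ), ‖mn k (X ω.1 ω.2)‖ = 1 := fun k ω =>
      mn_norm (fun i => hX1 ω.1 ω.2 i) k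
    rw [pmu_int hV.le (F := fun ω : α × ℝ => ‖∑ k ∈ s, u k * mn k (X ω.1 ω.2)‖ ^ 2)]
    · rw [inv_mul_le_iff₀ hcardV]
      exact hstar s u hk
    · refine Measurable.pow_const (Measurable.norm ?_) 2
      exact Finset.measurable_fun_sum _ fun k _ => (hm1 k).const_mul (u k)
    · refine ⟨(∑ k ∈ s, ‖u k‖) ^ 2, fun ω => ?_⟩
      rw [abs_of_nonneg (by positivity)]
      refine pow_le_pow_left₀ (norm_nonneg _) ((norm_sum_le _ _).trans (le_of_eq ?_)) 2
      refine Finset.sum_congr rfl fun k _ => ?_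
      rw [norm_mul, hn1, mul_one]
  have hclose := fun (ξ : ℝ) (hξ : |ξ| ≤ Ξ) => char_close (pmu α t₁ V)
    (X := fun ω : α × ℝ => X ω.1 ω.2) (fun ω i => hX1 ω.1 ω.2 i) hmX c hη0.le hstar' (σ2 := 3) hΞ hξ
    hs0 hs1 (by have := (abs_le.mp hc2).2; linarith)
    (fun i => (mul_le_mul_of_nonneg_left (hc1 i) (by linarith)).trans hb1)
  -- the law
  set Yf : α × ℝ → ℝ := fun ω => ∑ i, c i * ((X ω.1 ω.2 i : ℂˣ) : ℂ).re with hYf
  have hYm : Measurable Yf := by
    rw [hYf]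
    exact Finset.measurable_fun_sum _ fun i _ => (Complex.measurable_re.comp (hmX i)).const_mul (c i)
  have hν : IsProbabilityMeasure ((pmu α t₁ V).map Yf) := Measure.isProbabilityMeasure_map hYm.aemeasurable
  have hfin := hcdf ((pmu α t₁ V).map Yf) hν (fun ξ hξ => by
    have h1 := hclose ξ hξ
    have e1 : charFun ((pmu α t₁ V).map Yf) ξ =
        ∫ ω, Complex.exp (((ξ * ∑ i, c i * ((X ω.1 ω.2 i : ℂˣ) : ℂ).re : ℝ) : ℂ) * Complex.I)
          ∂(pmu α t₁ V) := by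
      rw [charFun_apply_real, integral_map hYm.aemeasurable (by fun_prop)]
      refine integral_congr_ae (Eventually.of_forall fun ω => ?_)
      simp only [hYf]
      congr 1
      push_cast
      ring
    rw [e1]
    have h2 : ‖((Real.exp (-((ξ ^ 2 * ∑ i, c i ^ 2) / 4)) : ℝ) : ℂ) - cexp (-((ξ : ℂ) ^ 2 / 2))‖ ≤
        δ / 4 := by
      have e2 : cexp (-((ξ : ℂ) ^ 2 / 2)) = ((Real.exp (-(ξ ^ 2 / 2)) : ℝ) : ℂ) := by
        push_cast
        rfl
      rw [e2, ← Complex.ofReal_sub, Complex.norm_real, Real.norm_eq_abs]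
      have hlip : ∀ p q : ℝ, 0 ≤ p → 0 ≤ q → |Real.exp (-p) - Real.exp (-q)| ≤ |p - q| := by
        have key : ∀ p q : ℝ, 0 ≤ p → p ≤ q → |Real.exp (-p) - Real.exp (-q)| ≤ |p - q| := by
          intro p q hp hpq
          have h3 : Real.exp (-q) ≤ Real.exp (-p) := Real.exp_le_exp.mpr (by linarith)
          rw [abs_of_nonneg (by linarith), abs_of_nonpos (by linarith)]
          have h4 : Real.exp (-q) = Real.exp (-p) * Real.exp (-(q - p)) := by
            rw [← Real.exp_add]; congr 1; ring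
          have h5 := Real.add_one_le_exp (-(q - p))
          have h6 : Real.exp (-p) ≤ 1 := Real.exp_le_one_iff.mpr (by linarith)
          have h7 := Real.exp_pos (-p)
          rw [h4]
          nlinarith
        intro p q hp hq
        rcases le_total p q with h | h
        · exact key p q hp h
        · rw [abs_sub_comm, abs_sub_comm p q]
          exact key q p hq h
      have hsum0 : 0 ≤ ∑ i, c i ^ 2 := Finset.sum_nonneg fun i _ => sq_nonneg _
      refine (hlip _ _ (by positivity) (by positivity)).trans ?_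
      have e3 : ξ ^ 2 * ∑ i, c i ^ 2 = ξ ^ 2 * (∑ i, c i ^ 2) := rfl
      have e4 : ξ ^ 2 * (∑ i, c i ^ 2) / 4 - ξ ^ 2 / 2 = ξ ^ 2 / 4 * (∑ i, c i ^ 2 - 2) := by ring
      rw [e4, abs_mul, abs_of_nonneg (by positivity)]
      have h3 : ξ ^ 2 ≤ Ξ ^ 2 := by
        rw [← sq_abs ξ]
        exact pow_le_pow_left₀ (abs_nonneg _) hξ 2
      have h4 : Ξ ^ 2 ≤ Ξ ^ 3 := pow_le_pow_right₀ hΞ (by norm_num)
      calc ξ ^ 2 / 4 * |∑ i, c i ^ 2 - 2| ≤ Ξ ^ 3 / 4 * b := by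
            refine mul_le_mul (by linarith) hc2 (abs_nonneg _) (by positivity)
        _ = (Ξ ^ 3 * b) / 4 := by ring
        _ ≤ δ / 4 := by nlinarith
    have h3 : 2 * (η + 3 * s * (1 + η)) ≤ δ / 4 := by nlinarith
    have h4 : 3 * (1 + η) / s * ((1 / 4) ^ J * Real.exp (8 * Ξ ^ 2 * 3)) ≤ δ / 4 := by
      have h5 := hJ.le
      rw [le_div_iff₀ (by positivity)] at h5
      have h6 : 3 * (1 + η) / s ≤ 6 / s := by gcongr; linarith
      calc 3 * (1 + η) / s * ((1 / 4) ^ J * Real.exp (8 * Ξ ^ 2 * 3)) ≤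
          6 / s * ((1 / 4) ^ J * Real.exp (8 * Ξ ^ 2 * 3)) :=
            mul_le_mul_of_nonneg_right h6 (by positivity)
        _ = (6 * ((1 / 4) ^ J * Real.exp (8 * Ξ ^ 2 * 3))) / s := by ring
        _ ≤ δ / 4 := by
            rw [div_le_iff₀ hs0]
            nlinarith
    have h5 : Ξ ^ 3 * ∑ i, |c i| ^ 3 ≤ δ / 4 :=
      (mul_le_mul_of_nonneg_left hc3 (by positivity)).trans hb2
    refine (norm_sub_le_norm_sub_add_norm_sub _ ((Real.exp (-((ξ ^ 2 * ∑ i, c i ^ 2) / 4)) : ℝ) : ℂ)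
      _).trans ?_
    linarith)
  rw [map_measureReal_apply hYm measurableSet_Iic,
    pmu_real hV.le (hYm measurableSet_Iic)] at hfin
  exact hfin

end Pool.Agent.N786.E
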