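import Pool.Agent.N786.E.Win

/-!
# The logarithm of the L-function and the sum over the primes (owner helper786)
-/

set_option autoImplicit false
set_option linter.unusedSectionVars false

open NumberField NumberField.Units MeasureTheory Complex Filter Topology Set

namespace Pool.Agent.N786.E

open Pool.Agent.N786
open Pool.Agent.N786.D
open Pool.Agent.Y767
open Pool.Agent.R399.TW (pt pt_re pt_im pt_cont)

/-- the order of the truncation -/
noncomputable def Nd (d : ℕ) (R : ℝ) : ℕ := ⌈80000 * d * Real.log R⌉₊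

/-- the length of the sum over the primes -/
noncomputable def Yd (d : ℕ) (g R : ℝ) : ℝ := 2 * g * R / Nd d R

/-- the elementary inequalities which hold for large `R` -/
structure Lg (d : ℕ) (g Z κ κ' ω η C₁ C₂ C₃ : ℝ) (R : ℝ) : Prop where
  R1 : Real.exp 1 ≤ R
  hκ : 4 * κ ≤ R
  hκ' : κ' ≤ R
  hκ2 : κ ≤ 2 * Real.log R
  hsq : (80001 * d * (2 / g + 2 * Z + 2)) * Real.log R ^ 2 ≤ R
  b1 : 100 * (Real.log R + C₁) ≤ η * Real.log R ^ 2
  b2 : C₂ ≤ η * Real.log R ^ 2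
  b3 : C₃ ≤ η * (ω / 2 * √(Real.log R / 2))
  b4 : ω / 2 * √(Real.log R / 2) + (24 * d + 1) * Real.log (Real.log R) + 2 ≤
    ω * √(Real.log R / 2)

lemma sqrt_tendsto : Tendsto (fun y : ℝ => √(y / 2)) atTop atTop :=
  Real.tendsto_sqrt_atTop.comp (tendsto_id.atTop_div_const (by norm_num))

lemma log_sqrt (q ω : ℝ) (hq : 0 ≤ q) (hω : 0 < ω) :
    ∀ᶠ y : ℝ in atTop, q * Real.log y + 2 ≤ ω * √(y / 2) := by
  have h1 : ∀ᶠ y : ℝ in atTop, 1 ≤ √(y / 2) ∧ (2 * (5 * q + 2) / ω) ^ 2 ≤ √(y / 2) :=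
    (sqrt_tendsto.eventually_ge_atTop 1).and (sqrt_tendsto.eventually_ge_atTop _)
  filter_upwards [h1, eventually_gt_atTop 0] with y hy hy0
  obtain ⟨z, hz⟩ : ∃ z : ℝ, z = √(y / 2) := ⟨_, rfl⟩
  rw [← hz] at hy ⊢
  obtain ⟨hz1, hz2⟩ := hy
  have hz0 : 0 < z := by linarith
  have hyz : y = 2 * z ^ 2 := by
    rw [hz, Real.sq_sqrt (by positivity)]
    ring
  have hlog : Real.log y ≤ 1 + 4 * √z := by
    rw [hyz, Real.log_mul (by norm_num) (by positivity), Real.log_pow]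
    have h2 : Real.log 2 ≤ 1 := by linarith [Real.log_two_lt_d9]
    have h3 : Real.log z = 2 * Real.log (√z) := by
      conv_lhs => rw [← Real.sq_sqrt hz0.le]
      rw [Real.log_pow]
      norm_num
    have h4 : Real.log (√z) ≤ √z := (Real.log_le_sub_one_of_pos (by positivity)).trans (by linarith)
    push_cast
    linarith
  have hs1 : 1 ≤ √z := by
    rw [Real.one_le_sqrt]
    exact hz1
  have hs2 : 2 * (5 * q + 2) / ω ≤ √z := by
    have : 0 ≤ 2 * (5 * q + 2) / ω := by positivity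
    exact Real.le_sqrt_of_sq_le hz2
  rw [div_le_iff₀ hω] at hs2
  have hzz : √z * √z = z := Real.mul_self_sqrt hz0.le
  calc q * Real.log y + 2 ≤ q * (1 + 4 * √z) + 2 := by
        have := mul_le_mul_of_nonneg_left hlog hq
        linarith
    _ ≤ (5 * q + 2) * √z := by nlinarith
    _ ≤ (√z * ω) * √z := by
        refine mul_le_mul_of_nonneg_right ?_ (by positivity)
        have : 0 ≤ 5 * q + 2 := by linarith
        linarith
    _ = ω * z := by
        have e : √z * ω * √z = ω * (√z * √z) := by ring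
        rw [e, hzz]

lemma lg_ev (d : ℕ) (g Z κ κ' ω η C₁ C₂ C₃ : ℝ) (hω : 0 < ω) (hη : 0 < η) :
    ∀ᶠ R : ℝ in atTop, Lg d g Z κ κ' ω η C₁ C₂ C₃ R := by
  have hl := Real.tendsto_log_atTop
  have e1 := (Real.isLittleO_pow_log_id_atTop (n := 2)).bound
    (c := 1 / (|80001 * d * (2 / g + 2 * Z + 2)| + 1)) (by positivity)
  have e2 : ∀ᶠ y : ℝ in atTop, 100 * (y + C₁) ≤ η * y ^ 2 := by
    filter_upwards [eventually_ge_atTop 1, eventually_ge_atTop (100 * (1 + |C₁|) / η)] with y h1 h2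
    rw [div_le_iff₀ hη] at h2
    have h3 := le_abs_self C₁
    have h4 := abs_nonneg C₁
    nlinarith [mul_le_mul_of_nonneg_right h2 (by linarith : (0 : ℝ) ≤ y)]
  have e3 : ∀ᶠ y : ℝ in atTop, C₂ ≤ η * y ^ 2 := by
    filter_upwards [eventually_ge_atTop 1, eventually_ge_atTop (|C₂| / η)] with y h1 h2
    rw [div_le_iff₀ hη] at h2
    have h3 := le_abs_self C₂
    have h4 : y ≤ y ^ 2 := by nlinarith
    nlinarith
  have e4 : ∀ᶠ y : ℝ in atTop, C₃ ≤ η * (ω / 2 * √(y / 2)) := by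
    have h1 : Tendsto (fun y : ℝ => η * (ω / 2 * √(y / 2))) atTop atTop :=
      (sqrt_tendsto.const_mul_atTop (by positivity)).const_mul_atTop hη
    exact h1.eventually_ge_atTop C₃
  have e5 := log_sqrt (24 * d + 1) (ω / 2) (by positivity) (by positivity)
  filter_upwards [e1, eventually_ge_atTop (Real.exp 1), eventually_ge_atTop (4 * κ),
    eventually_ge_atTop κ', hl.eventually_ge_atTop (κ / 2), hl.eventually e2, hl.eventually e3,
    hl.eventually e4, hl.eventually e5] with R h1 h2 h3 h4 h5 h6 h7 h8 h9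
  have hR0 : 0 < R := lt_of_lt_of_le (Real.exp_pos 1) h2
  refine ⟨h2, h3, h4, by linarith, ?_, h6, h7, h8, by linarith⟩
  simp only [Real.norm_eq_abs, id] at h1
  rw [abs_of_nonneg (sq_nonneg _), abs_of_pos hR0, one_div_mul_eq_div,
    le_div_iff₀ (by positivity)] at h1
  have h10 := le_abs_self (80001 * d * (2 / g + 2 * Z + 2))
  have h11 := sq_nonneg (Real.log R)
  nlinarith

lemma Nd_bounds {d : ℕ} (hd : 1 ≤ d) {R : ℝ} (hR : Real.exp 1 ≤ R) :
    80000 * d * Real.log R ≤ Nd d R ∧ (Nd d R : ℝ) ≤ 80001 * d * Real.log R ∧ 1 ≤ Nd d R := by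
  have hR0 : 0 < R := lt_of_lt_of_le (Real.exp_pos 1) hR
  have hℓ : 1 ≤ Real.log R := by rw [Real.le_log_iff_exp_le hR0]; exact hR
  have hd' : (1 : ℝ) ≤ d := by exact_mod_cast hd
  have h1 : 80000 * d * Real.log R ≤ Nd d R := Nat.le_ceil _
  refine ⟨h1, ?_, ?_⟩
  · have h2 := (Nat.ceil_lt_add_one (a := 80000 * d * Real.log R) (by positivity)).le
    refine h2.trans ?_
    nlinarith
  · have h3 : (1 : ℝ) ≤ Nd d R := by nlinarith
    exact_mod_cast h3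

section

variable {K : Type} [Field K] [NumberField K]

lemma lsp_floor {g R : ℝ} {d : ℕ} (hd : 1 ≤ d) (hR : Real.exp 1 ≤ R) :
    (Nd d R : ℝ) * Yd d g R = 2 * g * R := by
  have h := (Nd_bounds hd hR).2.2
  have h1 : (Nd d R : ℝ) ≠ 0 := by
    have : 0 < Nd d R := h
    exact_mod_cast this.ne'
  unfold Yd
  field_simp

end

/-- **the logarithm of the L-function is close to the sum over the primes**, with the exception of a
small set -/
theorem near_core (K : Type) [Field K] [NumberField K] {A : ℝ} (hA : 1 ≤ A) (n : ℕ) (hn : 1 ≤ n)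
    {g : ℝ} (hg0 : 0 < g) (hg1 : g ≤ 1 / 12) (ω ε : ℝ) (hω : 0 < ω) (hε : 0 < ε) :
    ∃ κ R₀ : ℝ, 1 ≤ κ ∧ 1 ≤ R₀ ∧ ∀ (R T V P : ℝ) (S : Finset (Ideal (𝓞 K) →*₀ ℂ))
      (ψ₀ : Ideal (𝓞 K) →*₀ ℂ) (F : (Ideal (𝓞 K) →*₀ ℂ) → ℂ → ℂ), R₀ ≤ R → 1 ≤ V → V ≤ T →
      S.card * V ≤ P →
      LSP S ψ₀ V P (⌊Real.exp ((1 / 2 + 3 * g) * R)⌋₊ * ⌊Real.exp ((2 * g) * R)⌋₊) →
      (∀ lam, Differentiable ℂ (F lam)) → (∀ lam ∈ S, GLf A T R n (pr ψ₀ lam) (F lam)) →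
      ∀ t₁ : ℝ, |t₁| ≤ T → ∑ lam ∈ S, volume {t ∈ Icc t₁ (t₁ + V) | ω * √(Real.log R / 2) <
        |Real.log ‖F lam (pt (1 / 2) t)‖ -
          (Pr 0 (Yd (Module.finrank ℚ K) g R) (pr ψ₀ lam) (pt (1 / 2 + κ / R) t)).re|} ≤
        ENNReal.ofReal (ε * P) := by
  classical
  obtain ⟨d, hd⟩ : ∃ d : ℕ, d = Module.finrank ℚ K := ⟨_, rfl⟩
  have hd1 : 1 ≤ d := by rw [hd]; exact Module.finrank_pos
  obtain ⟨φ, hφ⟩ := cut_exists (a := 1 / 2 + 2 * g) (b := 1 / 2 + 3 * g) (by linarith) (by linarith)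
  obtain ⟨θ, hθ⟩ := cut_exists (a := g) (b := 2 * g) hg0 (by linarith)
  obtain ⟨κ₀, k, E, hκ₀, hmean⟩ := mean_TK K hφ (α' := 1 / 2 + g) (by linarith) (by linarith) hA n hn
  obtain ⟨κl, Ql, Rl, hκl, hQl, hRl, hlm⟩ := lm_right K hφ hθ (α' := 1 / 2 + g) (β' := g / 2)
    (by linarith) (by linarith) (by linarith) (by linarith) (by linarith) (by linarith)
    (by linarith) hA n hn
  obtain ⟨Cz, hCz, hzero⟩ := zero_win A n hA
  obtain ⟨C₁, hC₁, hup⟩ := psum_up K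
  obtain ⟨k₁, hk₁⟩ : ∃ k₁ : ℕ, 32 * (24 * (Module.finrank ℚ K : ℝ)) ≤ k₁ :=
    ⟨32 * (24 * Module.finrank ℚ K), by push_cast; exact le_rfl⟩
  obtain ⟨a₂, ha₂, hmob⟩ := ls_TK K hθ hk₁ 0
  -- the choice of `κ`
  obtain ⟨κ', hκ'⟩ : ∃ κ' : ℝ, κ' = max κ₀ (20 * Ql / (g * ε) + 1) := ⟨_, rfl⟩
  have hκ'0 : κ₀ ≤ κ' := by rw [hκ']; exact le_max_left _ _
  have hκ'1 : 20 * Ql / (g * ε) + 1 ≤ κ' := by rw [hκ']; exact le_max_right _ _
  have hκ'p : 1 ≤ κ' := hκ₀.trans hκ'0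
  have hQexp : Ql * Real.exp (-(g * κ')) ≤ ε / 20 := by
    have h1 := Real.add_one_le_exp (g * κ')
    have h2 : 20 * Ql / (g * ε) ≤ κ' := by linarith
    rw [div_le_iff₀ (by positivity)] at h2
    rw [Real.exp_neg, ← div_eq_mul_inv, div_le_iff₀ (Real.exp_pos _)]
    have h3 : Ql ≤ ε / 20 * (g * κ') := by
      have e : κ' * (g * ε) = 20 * (ε / 20 * (g * κ')) := by ring
      rw [e] at h2
      linarith
    refine h3.trans (mul_le_mul_of_nonneg_left (by linarith) (by positivity))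
  obtain ⟨κ, hκ⟩ : ∃ κ : ℝ, κ = κl + κ' := ⟨_, rfl⟩
  have hκ1 : 1 ≤ κ := by rw [hκ]; linarith
  obtain ⟨a₁, ha₁, hmain⟩ := hmean κ (by rw [hκ]; linarith)
  obtain ⟨B, hB⟩ : ∃ B : ℝ, B = 1 + 80001 * d / (2 * g) := ⟨_, rfl⟩
  have hB0 : 0 < B := by rw [hB]; positivity
  obtain ⟨C₂, hC₂⟩ : ∃ C₂ : ℝ, C₂ = a₁ * B ^ (48 * d) * 2 ^ E + a₂ * B ^ (48 * d) := ⟨_, rfl⟩
  obtain ⟨R₀, hR₀⟩ := (lg_ev d g (Real.log (1 + ZK K)) κ κ' ω (ε / 5) C₁ C₂ (Cz * κ) hω
    (by positivity)).exists_forall_of_atTop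
  refine ⟨κ, max (max R₀ Rl) 1, hκ1, le_max_right _ _, ?_⟩
  intro R T V P S ψ₀ F hR hV hVT hP hls hFd hF t₁ ht₁
  have hRR : R₀ ≤ R := (le_max_left _ _).trans ((le_max_left _ _).trans hR)
  have hRRl : Rl ≤ R := (le_max_right _ _).trans ((le_max_left _ _).trans hR)
  have hL := hR₀ R hRR
  obtain ⟨hN1, hN2, hN3⟩ := Nd_bounds hd1 hL.R1
  have hNY := lsp_floor (g := g) hd1 hL.R1
  rw [← hd]
  obtain ⟨N, hN⟩ : ∃ N : ℕ, N = Nd d R := ⟨_, rfl⟩
  obtain ⟨Y, hY⟩ : ∃ Y : ℝ, Y = Yd d g R := ⟨_, rfl⟩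
  rw [← hN] at hN1 hN2 hN3 hNY
  rw [← hY] at hNY ⊢
  obtain ⟨ℓ, hℓ⟩ : ∃ ℓ : ℝ, ℓ = Real.log R := ⟨_, rfl⟩
  have hR1 : Real.exp 1 ≤ R := hL.R1
  have he := Real.exp_one_gt_d9
  have hR0 : 0 < R := by linarith
  have hℓ1 : 1 ≤ ℓ := by rw [hℓ, Real.le_log_iff_exp_le hR0]; exact hR1
  have hsq := hL.hsq
  have hb1 := hL.b1
  have hb2 := hL.b2
  have hb3 := hL.b3
  have hb4 := hL.b4
  have hκ2 := hL.hκ2
  rw [← hℓ] at hN1 hN2 hsq hb1 hb2 hb3 hb4 hκ2 ⊢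
  have hℓ0 : 0 < ℓ := by linarith
  have hd1' : (1 : ℝ) ≤ d := by exact_mod_cast hd1
  have hT : 1 ≤ T := hV.trans hVT
  have hT0 : 0 < T := by linarith
  have hP0 : 0 ≤ P := le_trans (by positivity) hP
  have hZ := ZK_nonneg (K := K)
  have hZl : 0 ≤ Real.log (1 + ZK K) := Real.log_nonneg (by linarith)
  have hN0 : (0 : ℝ) < N := by
    have : 0 < N := hN3
    exact_mod_cast this
  have hYeq : Y = 2 * g * R / N := by rw [← hNY]; field_simp
  have hsq1 : 80001 * d * (2 / g) * ℓ ^ 2 ≤ R := by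
    refine le_trans ?_ hsq
    refine mul_le_mul_of_nonneg_right ?_ (sq_nonneg _)
    refine mul_le_mul_of_nonneg_left ?_ (by positivity)
    linarith
  have hsq2 : 80001 * d * (2 * Real.log (1 + ZK K)) * ℓ ^ 2 ≤ R := by
    refine le_trans ?_ hsq
    refine mul_le_mul_of_nonneg_right ?_ (sq_nonneg _)
    refine mul_le_mul_of_nonneg_left ?_ (by positivity)
    have : 0 < 2 / g := by positivity
    linarith
  have hY4 : 4 * ℓ ≤ Y := by
    rw [hYeq, le_div_iff₀ hN0]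
    calc 4 * ℓ * N ≤ 4 * ℓ * (80001 * d * ℓ) := mul_le_mul_of_nonneg_left hN2 (by positivity)
      _ = 2 * g * (80001 * d * (2 / g) * ℓ ^ 2) := by field_simp; ring
      _ ≤ 2 * g * R := mul_le_mul_of_nonneg_left hsq1 (by positivity)
  have hY0 : 0 < Y := by linarith
  have hNZ : N * Real.log (1 + ZK K) ≤ R / 2 := by
    have h1 : ℓ ≤ ℓ ^ 2 := le_self_pow₀ hℓ1 two_ne_zero
    have h2 : N * Real.log (1 + ZK K) ≤ 80001 * d * ℓ ^ 2 * Real.log (1 + ZK K) :=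
      mul_le_mul_of_nonneg_right (hN2.trans (mul_le_mul_of_nonneg_left h1 (by positivity))) hZl
    linarith
  have hgR : g * R ≤ 1 / 12 * R := mul_le_mul_of_nonneg_right hg1 hR0.le
  have hgR0 : 0 < g * R := mul_pos hg0 hR0
  have hNYR : N * Y ≤ R / 2 := by rw [hNY]; linarith
  have hNlog : 3200 * (24 * (Module.finrank ℚ K : ℝ)) * Real.log (1 + R) ≤ 2 * N := by
    have h1 : Real.log (1 + R) ≤ 2 * ℓ := by
      have h2 : Real.log (1 + R) ≤ Real.log (R ^ 2) :=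
        Real.log_le_log (by linarith) (by
          have h := mul_le_mul_of_nonneg_right (show (2 : ℝ) ≤ R by linarith) hR0.le
          rw [sq]
          linarith)
      rwa [Real.log_pow, ← hℓ] at h2
    rw [← hd]
    have m1 := mul_le_mul_of_nonneg_left h1 (show (0 : ℝ) ≤ 3200 * (24 * d) by positivity)
    have m2 : 0 ≤ (d : ℝ) * ℓ := mul_nonneg (by linarith) hℓ0.le
    linarith
  have hfloor : ⌊Real.exp (N * Y)⌋₊ = ⌊Real.exp ((2 * g) * R)⌋₊ := by rw [hNY]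
  have hYfl : ⌊Real.exp Y⌋₊ ≤ ⌊Real.exp ((1 / 2 + 3 * g) * R)⌋₊ * ⌊Real.exp ((2 * g) * R)⌋₊ := by
    have h1 : ⌊Real.exp Y⌋₊ ≤ ⌊Real.exp ((2 * g) * R)⌋₊ := by
      refine Nat.floor_le_floor (Real.exp_le_exp.mpr ?_)
      rw [← hNY]
      have : (1 : ℝ) ≤ N := by exact_mod_cast hN3
      exact le_mul_of_one_le_left hY0.le this
    have h2 : 1 ≤ ⌊Real.exp ((1 / 2 + 3 * g) * R)⌋₊ := by
      rw [Nat.one_le_floor_iff]
      exact Real.one_le_exp (by positivity)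
    exact h1.trans (Nat.le_mul_of_pos_left _ h2)
  have hw : 1 / Y ≤ 1 / 2 := one_div_le_one_div_of_le (by norm_num) (by linarith)
  have hRw : 1 + R * (1 / Y) ≤ B * ℓ := by
    have h1 : R * (1 / Y) = N / (2 * g) := by rw [hYeq]; field_simp
    have h2 : (N : ℝ) / (2 * g) ≤ 80001 * d * ℓ / (2 * g) := by gcongr
    rw [h1, hB]
    calc 1 + (N : ℝ) / (2 * g) ≤ ℓ + 80001 * d * ℓ / (2 * g) := by linarith
      _ = _ := by ring
  have hRw0 : 0 ≤ 1 + R * (1 / Y) := by positivity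
  have hpow : (1 + R * (1 / Y)) ^ (2 * (24 * (Module.finrank ℚ K : ℝ))) ≤ B ^ (48 * d) * ℓ ^ (48 * d) := by
    have h1 : 2 * (24 * (Module.finrank ℚ K : ℝ)) = ((48 * d : ℕ) : ℝ) := by
      rw [← hd]; push_cast; ring
    rw [h1, Real.rpow_natCast, ← mul_pow]
    exact pow_le_pow_left₀ hRw0 hRw _
  -- the exceptional sets
  obtain ⟨σ, hσ⟩ : ∃ σ : ℝ, σ = 1 / 2 + κ / R := ⟨_, rfl⟩
  rw [← hσ]
  obtain ⟨U, hU⟩ : ∃ U : ℝ, U = ℓ ^ (24 * d + 1) := ⟨_, rfl⟩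
  have hU1 : 1 ≤ U := by rw [hU]; exact one_le_pow₀ hℓ1
  have hU0 : 0 < U := by linarith
  obtain ⟨W, hW⟩ : ∃ W : ℝ, W = ω / 2 * √(ℓ / 2) := ⟨_, rfl⟩
  have hsqrt : 0 < √(ℓ / 2) := by positivity
  have hW0 : 0 < W := by rw [hW]; positivity
  set Pf : (Ideal (𝓞 K) →*₀ ℂ) → ℝ → ℂ := fun lam t => Pr 0 Y (pr ψ₀ lam) (pt σ t) with hPf
  set Mf : (Ideal (𝓞 K) →*₀ ℂ) → ℝ → ℂ := fun lam t =>
    Mp θ R ⌊Real.exp ((2 * g) * R)⌋₊ ψ₀ lam (pt σ t) with hMf
  have hPc : ∀ lam, Continuous (Pf lam) := fun lam =>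
    (Pr_diff 0 Y (pr ψ₀ lam)).continuous.comp (pt_cont σ)
  have hMc : ∀ lam, Continuous (Mf lam) := fun lam =>
    (dpo_diff _ _ _).continuous.comp (pt_cont σ)
  have hFc : ∀ lam (x : ℝ), Continuous fun t => F lam (pt x t) := fun lam x =>
    (hFd lam).continuous.comp (pt_cont x)
  have hTKc : ∀ N : ℕ, Continuous (TK N) := fun N => (TK_diff N).continuous
  -- first set
  have v1 : ∑ lam ∈ S, volume {t ∈ Icc t₁ (t₁ + V) | ENNReal.ofReal ((N / 10) ^ 2) ≤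
      ENNReal.ofReal (‖Pf lam t‖ ^ 2)} ≤ ENNReal.ofReal (ε / 5 * P) := by
    have h1 := P_sq (by linarith) hls hYfl σ t₁
    have h2 : ∑ 𝔭 ∈ (SI K ⌊Real.exp Y⌋₊).filter Prime, Real.exp (-((2 * σ) * lN 𝔭)) ≤ ℓ + C₁ := by
      have h3 := hup (2 * κ / R) (by positivity) (by rw [div_le_one hR0]; linarith [hL.hκ])
        ((SI K ⌊Real.exp Y⌋₊).filter Prime) fun 𝔭 hp => (Finset.mem_filter.mp hp).2
      have h4 : Real.log (1 / (2 * κ / R)) ≤ ℓ := by
        rw [hℓ]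
        refine Real.log_le_log (by positivity) ?_
        rw [one_div_div, div_le_iff₀ (by linarith)]
        have := mul_le_mul_of_nonneg_left (show (1 : ℝ) ≤ 2 * κ by linarith) hR0.le
        linarith
      have h5 : 2 * σ = 1 + 2 * κ / R := by rw [hσ]; ring
      rw [h5]
      linarith
    refine (cheb S (fun lam t => ENNReal.ofReal (‖Pf lam t‖ ^ 2)) (fun lam _ => by
      have := hPc lam
      exact (ENNReal.continuous_ofReal.comp (this.norm.pow 2)).measurable)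
      (show (0 : ℝ) < (N / 10) ^ 2 by positivity) h1).trans (ENNReal.ofReal_le_ofReal ?_)
    rw [div_le_iff₀ (by positivity)]
    have h6 : ℓ ≤ N := by
      have h := mul_le_mul_of_nonneg_right hd1' hℓ0.le
      linarith
    have h7 : ℓ ^ 2 ≤ (N : ℝ) ^ 2 := pow_le_pow_left₀ hℓ0.le h6 2
    calc P * ∑ 𝔭 ∈ (SI K ⌊Real.exp Y⌋₊).filter Prime, Real.exp (-((2 * σ) * lN 𝔭)) ≤
        P * (ℓ + C₁) := mul_le_mul_of_nonneg_left h2 hP0
      _ ≤ P * (ε / 5 * (ℓ ^ 2 / 100)) := mul_le_mul_of_nonneg_left (by linarith) hP0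
      _ ≤ P * (ε / 5 * (N ^ 2 / 100)) := by gcongr
      _ = _ := by ring
  -- second set
  have v2 : ∑ lam ∈ S, volume {t ∈ Icc t₁ (t₁ + V) | ENNReal.ofReal (U ^ 2) ≤
      ENNReal.ofReal (‖F lam (pt σ t)‖ ^ 2 * ‖TK N (-(Pf lam t))‖ ^ 2)} ≤
      ENNReal.ofReal (ε / 5 * P) := by
    have h1 := hmain R T V P Y (1 / Y) N S ψ₀ F hL.hκ hT (by linarith) hVT hP hY0 le_rfl hw hNlog
      hN3 hNYR hNZ (by rw [hfloor]; exact hls) (fun lam => (hFd lam).continuous) hF t₁ 0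
    rw [← hσ] at h1
    unfold JJ at h1
    simp only [sub_zero] at h1
    have e1 : ∀ (lam : Ideal (𝓞 K) →*₀ ℂ) (t : ℝ),
        TK N (((-1 : ℝ) : ℂ) * Pr 0 Y (pr ψ₀ lam) (pt σ t)) = TK N (-(Pf lam t)) := by
      intro lam t
      congr 1
      simp [hPf]
    simp only [e1] at h1
    refine (cheb S (fun lam t => ENNReal.ofReal (‖F lam (pt σ t)‖ ^ 2 * ‖TK N (-(Pf lam t))‖ ^ 2))
      (fun lam _ => by
        have h2 := hPc lam
        have h3 := hFc lam σ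
        have h4 := (hTKc N).comp h2.neg
        exact (ENNReal.continuous_ofReal.comp ((h3.norm.pow 2).mul (h4.norm.pow 2))).measurable)
      (show (0 : ℝ) < U ^ 2 by positivity) h1).trans (ENNReal.ofReal_le_ofReal ?_)
    have hwt : wt T R k E t₁ 0 ≤ 2 ^ E := by
      unfold wt
      rw [abs_zero, mul_zero, add_zero, one_pow, one_mul]
      refine pow_le_pow_left₀ (by positivity) ?_ _
      have : |t₁| / T ≤ 1 := by rw [div_le_one hT0]; exact ht₁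
      linarith
    have hwt0 : 0 ≤ wt T R k E t₁ 0 := by unfold wt; positivity
    rw [div_le_iff₀ (by positivity)]
    have hU2 : U ^ 2 = ℓ ^ (48 * d) * ℓ ^ 2 := by
      rw [hU, ← pow_mul, ← pow_add]
      congr 1
      ring
    have hC2' : a₁ * B ^ (48 * d) * 2 ^ E ≤ ε / 5 * ℓ ^ 2 := by
      refine le_trans ?_ hb2
      rw [hC₂]
      have : 0 ≤ a₂ * B ^ (48 * d) := by positivity
      linarith
    calc P * (a₁ * (1 + R * (1 / Y)) ^ (2 * (24 * (Module.finrank ℚ K : ℝ)))) * wt T R k E t₁ 0 ≤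
        P * (a₁ * (B ^ (48 * d) * ℓ ^ (48 * d))) * 2 ^ E := by gcongr
      _ = P * ℓ ^ (48 * d) * (a₁ * B ^ (48 * d) * 2 ^ E) := by ring
      _ ≤ P * ℓ ^ (48 * d) * (ε / 5 * ℓ ^ 2) := mul_le_mul_of_nonneg_left hC2' (by positivity)
      _ = _ := by rw [hU2]; ring
  -- third set
  have v3 : ∑ lam ∈ S, volume {t ∈ Icc t₁ (t₁ + V) | ENNReal.ofReal (U ^ 2) ≤
      ENNReal.ofReal (‖Mf lam t‖ ^ 2 * ‖TK N (Pf lam t)‖ ^ 2)} ≤ ENNReal.ofReal (ε / 5 * P) := by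
    have hRδ : 1 / 2 ≤ R * (κ / R) := by
      have : R * (κ / R) = κ := by field_simp
      rw [this]; linarith
    have hδ4 : κ / R ≤ 1 / 4 := by rw [div_le_iff₀ hR0]; linarith [hL.hκ]
    have h1 := hmob mob _ 1 GS_mob R (κ / R) Y (1 / Y) N hR0 hRδ hδ4 hY0 le_rfl hw hNlog hN3 S ψ₀ V P
      (by linarith) hP0 (LSP.mono hls (by
        rw [hfloor]
        refine Nat.mul_le_mul_right _ (Nat.floor_le_floor (Real.exp_le_exp.mpr ?_))
        linarith)) t₁ 0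
    unfold JJ at h1
    simp only [sub_zero, zero_div, Complex.ofReal_one, one_mul, ← hσ, abs_zero, mul_zero, add_zero,
      one_pow, mul_one] at h1
    refine (cheb S (fun lam t => ENNReal.ofReal (‖Mf lam t‖ ^ 2 * ‖TK N (Pf lam t)‖ ^ 2))
      (fun lam _ => by
        have h2 := hPc lam
        have h3 := hMc lam
        have h4 := (hTKc N).comp h2
        exact (ENNReal.continuous_ofReal.comp ((h3.norm.pow 2).mul (h4.norm.pow 2))).measurable)
      (show (0 : ℝ) < U ^ 2 by positivity) h1).trans (ENNReal.ofReal_le_ofReal ?_)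
    rw [div_le_iff₀ (by positivity)]
    have hU2 : U ^ 2 = ℓ ^ (48 * d) * ℓ ^ 2 := by
      rw [hU, ← pow_mul, ← pow_add]
      congr 1
      ring
    have hC2' : a₂ * B ^ (48 * d) ≤ ε / 5 * ℓ ^ 2 := by
      refine le_trans ?_ hb2
      rw [hC₂]
      have : 0 ≤ a₁ * B ^ (48 * d) * 2 ^ E := by positivity
      linarith
    calc P * (a₂ * (1 + R * (1 / Y)) ^ (2 * (24 * (Module.finrank ℚ K : ℝ)))) ≤
        P * (a₂ * (B ^ (48 * d) * ℓ ^ (48 * d))) := by gcongr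
      _ = P * ℓ ^ (48 * d) * (a₂ * B ^ (48 * d)) := by ring
      _ ≤ P * ℓ ^ (48 * d) * (ε / 5 * ℓ ^ 2) := mul_le_mul_of_nonneg_left hC2' (by positivity)
      _ = _ := by rw [hU2]; ring
  -- fourth set
  have v4 : ∑ lam ∈ S, volume {t ∈ Icc t₁ (t₁ + V) | ENNReal.ofReal (1 / 4) ≤
      ENNReal.ofReal (‖F lam (pt σ t) * Mf lam t - 1‖ ^ 2)} ≤ ENNReal.ofReal (ε / 5 * P) := by
    have h1 := hlm R T V P S ψ₀ F hRRl hV hVT hP hls hFd hF t₁ ht₁ (κ' / R) (by positivity) (by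
      rw [div_le_iff₀ hR0]; linarith [hL.hκ'])
    have e1 : 1 / 2 + κl / R + κ' / R = σ := by rw [hσ, hκ]; ring
    rw [e1] at h1
    unfold QQ at h1
    refine (cheb S (fun lam t => ENNReal.ofReal (‖F lam (pt σ t) * Mf lam t - 1‖ ^ 2))
      (fun lam _ => by
        have h3 := hMc lam
        have h4 := hFc lam σ
        exact (ENNReal.continuous_ofReal.comp
          (((h4.mul h3).sub continuous_const).norm.pow 2)).measurable)
      (show (0 : ℝ) < 1 / 4 by norm_num) h1).trans (ENNReal.ofReal_le_ofReal ?_)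
    have e2 : 2 * (g / 2 * R * (κ' / R)) = g * κ' := by field_simp
    rw [e2, div_le_iff₀ (by norm_num)]
    calc Ql * P * Real.exp (-(g * κ')) = P * (Ql * Real.exp (-(g * κ'))) := by ring
      _ ≤ P * (ε / 20) := mul_le_mul_of_nonneg_left hQexp hP0
      _ = _ := by ring
  -- fifth set
  have v5 : ∑ lam ∈ S, volume {t ∈ Icc t₁ (t₁ + V) | ENNReal.ofReal W ≤
      ENNReal.ofReal |Real.log ‖F lam (pt (1 / 2) t)‖ - Real.log ‖F lam (pt σ t)‖|} ≤
      ENNReal.ofReal (ε / 5 * P) := by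
    have hδ4 : κ / R ≤ 1 / 4 := by rw [div_le_iff₀ hR0]; linarith [hL.hκ]
    have h1 : ∑ lam ∈ S, ∫⁻ t in Icc t₁ (t₁ + V), ENNReal.ofReal
        |Real.log ‖F lam (pt (1 / 2) t)‖ - Real.log ‖F lam (pt σ t)‖| ≤
        ENNReal.ofReal (Cz * κ * P) := by
      have h2 : ∀ lam ∈ S, ∫⁻ t in Icc t₁ (t₁ + V), ENNReal.ofReal
          |Real.log ‖F lam (pt (1 / 2) t)‖ - Real.log ‖F lam (pt σ t)‖| ≤
          ENNReal.ofReal (Cz * V * (R * (κ / R))) := by
        intro lam hl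
        rw [hσ]
        exact hzero K T R (pr ψ₀ lam) (F lam) (by linarith) (hF lam hl) t₁ V ht₁ hV hVT (κ / R)
          (by positivity) hδ4
      refine (Finset.sum_le_sum h2).trans ?_
      rw [Finset.sum_const, nsmul_eq_mul, ← ENNReal.ofReal_natCast,
        ← ENNReal.ofReal_mul (Nat.cast_nonneg _)]
      refine ENNReal.ofReal_le_ofReal ?_
      have e2 : R * (κ / R) = κ := by field_simp
      rw [e2]
      calc (S.card : ℝ) * (Cz * V * κ) = Cz * κ * (S.card * V) := by ring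
        _ ≤ _ := mul_le_mul_of_nonneg_left hP (by positivity)
    refine (cheb S (fun lam t => ENNReal.ofReal
      |Real.log ‖F lam (pt (1 / 2) t)‖ - Real.log ‖F lam (pt σ t)‖|)
      (fun lam _ => by
        have h3 := (hFc lam (1 / 2)).norm.measurable.log
        have h4 := (hFc lam σ).norm.measurable.log
        exact ENNReal.measurable_ofReal.comp (measurable_norm.comp (h3.sub h4)))
      hW0 h1).trans (ENNReal.ofReal_le_ofReal ?_)
    rw [div_le_iff₀ hW0, hW]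
    calc Cz * κ * P ≤ ε / 5 * (ω / 2 * √(ℓ / 2)) * P := mul_le_mul_of_nonneg_right hb3 hP0
      _ = _ := by ring
  -- the union
  have hsub : ∀ lam ∈ S, volume {t ∈ Icc t₁ (t₁ + V) | ω * √(ℓ / 2) <
      |Real.log ‖F lam (pt (1 / 2) t)‖ - (Pr 0 Y (pr ψ₀ lam) (pt σ t)).re|} ≤
      volume {t ∈ Icc t₁ (t₁ + V) | ENNReal.ofReal ((N / 10) ^ 2) ≤ ENNReal.ofReal (‖Pf lam t‖ ^ 2)} +
      (volume {t ∈ Icc t₁ (t₁ + V) | ENNReal.ofReal (U ^ 2) ≤
        ENNReal.ofReal (‖F lam (pt σ t)‖ ^ 2 * ‖TK N (-(Pf lam t))‖ ^ 2)} +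
      (volume {t ∈ Icc t₁ (t₁ + V) | ENNReal.ofReal (U ^ 2) ≤
        ENNReal.ofReal (‖Mf lam t‖ ^ 2 * ‖TK N (Pf lam t)‖ ^ 2)} +
      (volume {t ∈ Icc t₁ (t₁ + V) | ENNReal.ofReal (1 / 4) ≤
        ENNReal.ofReal (‖F lam (pt σ t) * Mf lam t - 1‖ ^ 2)} +
      volume {t ∈ Icc t₁ (t₁ + V) | ENNReal.ofReal W ≤
        ENNReal.ofReal |Real.log ‖F lam (pt (1 / 2) t)‖ - Real.log ‖F lam (pt σ t)‖|}))) := by
    intro lam _
    refine (measure_mono ?_).trans ((measure_union_le _ _).trans (add_le_add le_rfl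
      ((measure_union_le _ _).trans (add_le_add le_rfl ((measure_union_le _ _).trans
        (add_le_add le_rfl (measure_union_le _ _)))))))
    intro t ht
    obtain ⟨htI, htb⟩ := ht
    by_contra hcon
    simp only [mem_union, mem_sep_iff, htI, true_and, not_or, not_le] at hcon
    obtain ⟨q1, q2, q3, q4, q5⟩ := hcon
    have p1 : ‖Pf lam t‖ ≤ N / 10 := by
      have h1 := (ENNReal.ofReal_lt_ofReal_iff (by positivity)).mp q1
      exact (lt_of_pow_lt_pow_left₀ 2 (by positivity) h1).le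
    have p2 : ‖F lam (pt σ t)‖ * ‖TK N (-(Pf lam t))‖ ≤ U := by
      have h1 := (ENNReal.ofReal_lt_ofReal_iff (by positivity)).mp q2
      rw [← mul_pow] at h1
      exact (lt_of_pow_lt_pow_left₀ 2 hU0.le h1).le
    have p3 : ‖Mf lam t‖ * ‖TK N (Pf lam t)‖ ≤ U := by
      have h1 := (ENNReal.ofReal_lt_ofReal_iff (by positivity)).mp q3
      rw [← mul_pow] at h1
      exact (lt_of_pow_lt_pow_left₀ 2 hU0.le h1).le
    have p4 : ‖F lam (pt σ t) * Mf lam t - 1‖ ≤ 1 / 2 := by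
      have h1 := (ENNReal.ofReal_lt_ofReal_iff (by norm_num)).mp q4
      have h2 : (1 / 4 : ℝ) = (1 / 2) ^ 2 := by norm_num
      rw [h2] at h1
      exact (lt_of_pow_lt_pow_left₀ 2 (by norm_num) h1).le
    have p5 : |Real.log ‖F lam (pt (1 / 2) t)‖ - Real.log ‖F lam (pt σ t)‖| ≤ W :=
      ((ENNReal.ofReal_lt_ofReal_iff hW0).mp q5).le
    have h1 := good_point hN3 hU1 p1 p2 p3 p4 p5
    have h2 : Real.log U = (24 * d + 1) * Real.log ℓ := by
      rw [hU, Real.log_pow]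
      push_cast
      ring
    rw [h2, hW] at h1
    have h3 : (Pf lam t).re = (Pr 0 Y (pr ψ₀ lam) (pt σ t)).re := rfl
    rw [h3] at h1
    exact absurd htb (not_lt.mpr (h1.trans hb4))
  refine (Finset.sum_le_sum hsub).trans ?_
  rw [Finset.sum_add_distrib, Finset.sum_add_distrib, Finset.sum_add_distrib,
    Finset.sum_add_distrib]
  refine (add_le_add v1 (add_le_add v2 (add_le_add v3 (add_le_add v4 v5)))).trans (le_of_eq ?_)
  have hεP : 0 ≤ ε / 5 * P := by positivity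
  rw [← ENNReal.ofReal_add hεP hεP, ← ENNReal.ofReal_add hεP (by linarith),
    ← ENNReal.ofReal_add hεP (by linarith), ← ENNReal.ofReal_add hεP (by linarith)]
  congr 1
  ring

end Pool.Agent.N786.E
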