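import Pool.Agent.N786.E.Law
import Pool.Agent.N786.E.Near
import Pool.Agent.N786.D.Siz
import Pool.Agent.N786.D.Fin2

/-!
# The law of the sum over the primes, for the families (owner helper786)
-/

set_option autoImplicit false
set_option linter.unusedSectionVars false

open NumberField NumberField.Units MeasureTheory Complex Filter Topology Set

namespace Pool.Agent.N786.E

open Pool.Agent.N786
open Pool.Agent.N786.D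
open Pool.Agent.Y767
open Pool.Agent.R399.TW (pt pt_re pt_im pt_cont)

section

variable {K : Type} [Field K] [NumberField K] [IsTotallyReal K]

lemma resM_norm (U : UD K) {𝔪 𝔮 : Ideal (𝓞 K)} (h𝔪 : 𝔪 ≠ ⊤) (h𝔪0 : 𝔪 ≠ ⊥) (h : 𝔮 ∣ 𝔪)
    {ν : InfinitePlace K → ℝ} {lam : Ideal (𝓞 K) →*₀ ℂ} (hs : ∑ w, ν w = 0)
    (hl : IsHM K 𝔮 ν lam) (x : Mq 𝔪) : ‖((resM 𝔪 lam x : ℂˣ) : ℂ)‖ = 1 := by
  have hfc : Finite (Cls (pq 𝔪)) := finite_cls h𝔪 h𝔪0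
  obtain ⟨p, -, -, hp⟩ := exists_par' U (V := ‖ν‖) (norm_nonneg _)
    (fun w => norm_le_pi_norm ν w) hs hl
  exact (resM_par h𝔪 h hl hp).norm_one h𝔪 hl.ne_bot x

/-- the values at the primes -/
lemma XM_norm (U : UD K) {𝔣 𝔮 : Ideal (𝓞 K)} (htop : 𝔣 * 𝔮 ≠ ⊤) (hbot : 𝔣 * 𝔮 ≠ ⊥) {V : ℝ}
    {ν₀ : InfinitePlace K → ℝ} {ψ₀ lam : Ideal (𝓞 K) →*₀ ℂ} (hs : ∑ w, ν₀ w = 0)
    (h₀ : IsHM K 𝔣 ν₀ ψ₀) (hl : lam ∈ HFam K 𝔮 V) {M : ℕ} (t : ℝ) (i : PQm (𝔣 * 𝔮) M) :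
    ‖((XM htop ψ₀ lam t i : ℂˣ) : ℂ)‖ = 1 := by
  obtain ⟨ν, a1, a2, a3⟩ := hl
  unfold XM
  rw [MonoidHom.mul_apply, MonoidHom.mul_apply, Units.val_mul, Units.val_mul, norm_mul, norm_mul,
    resM_norm U htop hbot (Dvd.intro_left _ rfl) a2 a3.toIsHM,
    resM_norm U htop hbot (Dvd.intro _ rfl) hs h₀,
    phM_coe, norm_ph, one_mul, one_mul]

lemma XM_coe {𝔣 𝔮 : Ideal (𝓞 K)} (htop : 𝔣 * 𝔮 ≠ ⊤) {V : ℝ}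
    {ν₀ : InfinitePlace K → ℝ} {ψ₀ lam : Ideal (𝓞 K) →*₀ ℂ}
    (h₀ : IsHM K 𝔣 ν₀ ψ₀) (hl : lam ∈ HFam K 𝔮 V) {M : ℕ} (t : ℝ) (i : PQm (𝔣 * 𝔮) M) :
    ((XM htop ψ₀ lam t i : ℂˣ) : ℂ) = pr ψ₀ lam i.1 * ph i.1 t := by
  obtain ⟨ν, a1, a2, a3⟩ := hl
  unfold XM
  rw [MonoidHom.mul_apply, MonoidHom.mul_apply, Units.val_mul, Units.val_mul,
    resM_coe htop (Dvd.intro_left _ rfl) a3.toIsHM, resM_coe htop (Dvd.intro _ rfl) h₀,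
    phM_coe, pr_apply, tM_coe]
  ring

lemma XM_cont {𝔣 𝔮 : Ideal (𝓞 K)} (htop : 𝔣 * 𝔮 ≠ ⊤) (ψ₀ lam : Ideal (𝓞 K) →*₀ ℂ)
    {M : ℕ} (i : PQm (𝔣 * 𝔮) M) : Continuous fun t => ((XM htop ψ₀ lam t i : ℂˣ) : ℂ) := by
  unfold XM
  simp only [MonoidHom.mul_apply, Units.val_mul, phM_coe]
  exact continuous_const.mul (continuous_const.mul (ph_cont _))

/-- the sum over the primes -/
lemma Pr_XM {𝔣 𝔮 : Ideal (𝓞 K)} (htop : 𝔣 * 𝔮 ≠ ⊤) {V : ℝ}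
    {ν₀ : InfinitePlace K → ℝ} {ψ₀ lam : Ideal (𝓞 K) →*₀ ℂ}
    (h₀ : IsHM K 𝔣 ν₀ ψ₀) (hl : lam ∈ HFam K 𝔮 V) (Y σ t : ℝ) :
    Pr 0 Y (pr ψ₀ lam) (pt σ t) = ∑ i : PQm (𝔣 * 𝔮) ⌊Real.exp Y⌋₊,
      (Real.exp (-(σ * lN i.1)) : ℂ) * ((XM htop ψ₀ lam t i : ℂˣ) : ℂ) := by
  classical
  have e1 : ∀ i : PQm (𝔣 * 𝔮) ⌊Real.exp Y⌋₊,
      (Real.exp (-(σ * lN i.1)) : ℂ) * ((XM htop ψ₀ lam t i : ℂˣ) : ℂ) =
      (fun 𝔭 : Ideal (𝓞 K) => (Real.exp (-(σ * lN 𝔭)) : ℂ) * (pr ψ₀ lam 𝔭 * ph 𝔭 t)) i.1 := by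
    intro i
    rw [XM_coe htop h₀ hl]
  rw [Finset.sum_congr rfl fun i _ => e1 i,
    ← Finset.sum_subtype ((SI K ⌊Real.exp Y⌋₊).filter fun 𝔭 => Prime 𝔭 ∧ IsCoprime 𝔭 (𝔣 * 𝔮))
    (p := fun 𝔭 => 𝔭 ∈ SI K ⌊Real.exp Y⌋₊ ∧ Prime 𝔭 ∧ IsCoprime 𝔭 (𝔣 * 𝔮))
    (fun x => by rw [Finset.mem_filter])
    (fun 𝔭 : Ideal (𝓞 K) => (Real.exp (-(σ * lN 𝔭)) : ℂ) * (pr ψ₀ lam 𝔭 * ph 𝔭 t))]
  unfold Pr
  rw [← Finset.sum_subset (s₁ := (SI K ⌊Real.exp Y⌋₊).filter fun 𝔭 =>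
    Prime 𝔭 ∧ IsCoprime 𝔭 (𝔣 * 𝔮))]
  · refine Finset.sum_congr rfl fun 𝔭 _ => ?_
    rw [exp_pt]
    simp only [zero_mul, neg_zero, Real.exp_zero, Complex.ofReal_one, one_mul]
    ring
  · intro 𝔭 h
    rw [Finset.mem_filter] at h ⊢
    exact ⟨h.1, h.2.1⟩
  · intro 𝔭 h1 h2
    rw [Finset.mem_filter] at h1 h2
    have h3 : ¬ IsCoprime 𝔭 (𝔣 * 𝔮) := fun h => h2 ⟨h1.1, h1.2, h⟩
    have h4 : pr ψ₀ lam 𝔭 = 0 := by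
      rw [pr_apply]
      by_contra h5
      obtain ⟨h6, h7⟩ := mul_ne_zero_iff.mp h5
      obtain ⟨ν, a1, a2, a3⟩ := hl
      exact h3 (((h₀.supp 𝔭 h1.2.ne_zero).mp h6).mul_right ((a3.supp 𝔭 h1.2.ne_zero).mp h7))
    rw [h4]
    ring

end

/-- the ratio of the volumes -/
lemma ratio {η vol c : ℝ} (hη : 0 < η) (hη1 : η ≤ 1) (hvol : 0 < vol) (hc : 0 ≤ c) (r : ℕ) :
    ∃ V₀ : ℝ, 1 ≤ V₀ ∧ c ≤ V₀ ∧ ∀ V : ℝ, V₀ ≤ V →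
      V ^ r * (vol + vol * (η / 8)) ≤ (1 + η) * ((1 - 2 * (η / 16)) * ((V - c) ^ r * vol)) := by
  refine ⟨max 1 (r * c * (1 + η / 8) / (η / 8) + 2 * c), le_max_left _ _, ?_, fun V hV => ?_⟩
  · refine le_trans ?_ (le_max_right _ _)
    have : 0 ≤ r * c * (1 + η / 8) / (η / 8) := by positivity
    linarith
  have hV1 : 1 ≤ V := (le_max_left _ _).trans hV
  have hV0 : 0 < V := by linarith
  have hV2 : r * c * (1 + η / 8) / (η / 8) + 2 * c ≤ V := (le_max_right _ _).trans hV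
  have hV3 : r * c * (1 + η / 8) / (η / 8) ≤ V := by linarith
  have hV4 : 2 * c ≤ V := by
    have : 0 ≤ r * c * (1 + η / 8) / (η / 8) := by positivity
    linarith
  rw [div_le_iff₀ (by positivity)] at hV3
  have h1 : V ^ r ≤ (1 + η / 8) * (V - c) ^ r := by
    have h2 : (V - c) ^ r = V ^ r * (1 + -(c / V)) ^ r := by
      rw [← mul_pow]
      congr 1
      field_simp
      ring
    have hcV : c / V ≤ 1 := by rw [div_le_one hV0]; linarith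
    have h3 := one_add_mul_le_pow (a := -(c / V)) (by linarith) r
    have h4 : (1 : ℝ) ≤ (1 + η / 8) * (1 + r * -(c / V)) := by
      have h5 : r * c / V * (1 + η / 8) ≤ η / 8 := by
        rw [div_mul_eq_mul_div, div_le_iff₀ hV0]
        linarith
      have h6 : (r : ℝ) * -(c / V) = -(r * c / V) := by ring
      rw [h6]
      nlinarith
    rw [h2]
    have hVr : 0 < V ^ r := by positivity
    calc V ^ r = V ^ r * 1 := by ring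
      _ ≤ V ^ r * ((1 + η / 8) * (1 + r * -(c / V))) := mul_le_mul_of_nonneg_left h4 hVr.le
      _ ≤ V ^ r * ((1 + η / 8) * (1 + -(c / V)) ^ r) := by gcongr
      _ = _ := by ring
  have hVc : 0 ≤ (V - c) ^ r := pow_nonneg (by linarith) r
  have h2 : (1 + η / 8) * (1 + η / 8) ≤ (1 + η) * (1 - 2 * (η / 16)) := by nlinarith
  calc V ^ r * (vol + vol * (η / 8)) = V ^ r * ((1 + η / 8) * vol) := by ring
    _ ≤ ((1 + η / 8) * (V - c) ^ r) * ((1 + η / 8) * vol) :=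
        mul_le_mul_of_nonneg_right h1 (by positivity)
    _ = ((1 + η / 8) * (1 + η / 8)) * ((V - c) ^ r * vol) := by ring
    _ ≤ ((1 + η) * (1 - 2 * (η / 16))) * ((V - c) ^ r * vol) :=
        mul_le_mul_of_nonneg_right h2 (by positivity)
    _ = _ := by ring

open Classical in
/-- **the sharp large sieve, normalised by the size of the family** -/
theorem star_prob (K : Type) [Field K] [NumberField K] [IsTotallyReal K] (U : UD K) {η : ℝ}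
    (hη : 0 < η) : ∃ V₀ C δ₀ : ℝ, 1 ≤ V₀ ∧ 1 ≤ C ∧ 0 < δ₀ ∧ δ₀ ≤ 1 / 4 ∧
    ∀ (𝔣 𝔮 : Ideal (𝓞 K)), IsCoprime 𝔣 𝔮 → ∀ (htop : 𝔣 * 𝔮 ≠ ⊤), 𝔣 * 𝔮 ≠ ⊥ →
    ∑ᶠ 𝔭 ∈ PD 𝔮, (1 / (Ideal.absNorm 𝔭 : ℝ)) ≤ δ₀ →
    ∀ (V L : ℝ) (M J : ℕ), V₀ ≤ V → 2 * Real.pi ≤ L → 1 ≤ M →
      8 * (J * Real.log M) ≤ L → (C * (L / V)) ^ Module.finrank ℚ K * ((M : ℝ) ^ J) ^ 3 <
        Ideal.absNorm 𝔮 →
    ∀ (ν₀ : InfinitePlace K → ℝ) (ψ₀ : Ideal (𝓞 K) →*₀ ℂ), ∑ w, ν₀ w = 0 → IsHM K 𝔣 ν₀ ψ₀ →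
    ∀ S : Finset (Ideal (𝓞 K) →*₀ ℂ), (∀ lam, lam ∈ S ↔ lam ∈ HFam K 𝔮 V) →
    ∀ (s : Finset (PQm (𝔣 * 𝔮) M → ℤ)) (u : (PQm (𝔣 * 𝔮) M → ℤ) → ℂ),
      (∀ k ∈ s, ∑ i, (k i).natAbs ≤ J) → ∀ t₁ : ℝ,
      ∑ lam ∈ S, ∫ t in t₁..(t₁ + V), ‖∑ k ∈ s, u k * mn k (XM htop ψ₀ lam t)‖ ^ 2 ≤
        (S.card * V) * ((1 + η) * ∑ k ∈ s, ‖u k‖ ^ 2) := by
  obtain ⟨vol, hvol⟩ : ∃ vol : ℝ, vol = (volume {θ | U.p θ ≤ 1}).toReal := ⟨_, rfl⟩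
  have hvol0 : 0 < vol := by rw [hvol]; exact (normP_U' U).vol_pos
  obtain ⟨η', hη'⟩ : ∃ η' : ℝ, η' = min η 1 := ⟨_, rfl⟩
  have hη'0 : 0 < η' := by rw [hη']; exact lt_min hη one_pos
  have hη'1 : η' ≤ 1 := by rw [hη']; exact min_le_right _ _
  have hη'η : η' ≤ η := by rw [hη']; exact min_le_left _ _
  obtain ⟨V₁, C, hV₁, hC, hstar⟩ := star_ls U (vol * (η' / 8)) (by positivity)
  obtain ⟨c, hc, hcard⟩ := fam_card U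
  obtain ⟨V₂, hV₂, hcV₂, hratio⟩ := ratio hη'0 hη'1 hvol0 hc (rank K)
  refine ⟨max V₁ V₂, C, η' / 16, le_max_of_le_left hV₁, hC, by positivity, by linarith, ?_⟩
  intro 𝔣 𝔮 hcop htop hbot hδ V L M J hV hL hM hLM hCM ν₀ ψ₀ hs h₀ S hS s u hdeg t₁
  have hV1 : V₁ ≤ V := (le_max_left _ _).trans hV
  have hV2 : V₂ ≤ V := (le_max_right _ _).trans hV
  have hV0 : 0 < V := by linarith
  have h1 := hstar 𝔣 𝔮 hcop htop hbot V L M J hV1 hL hM hLM hCM ν₀ ψ₀ hs h₀ S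
    (fun lam hl => (hS lam).mp hl) s u hdeg t₁
  obtain ⟨hfin, h2⟩ := hcard 𝔣 𝔮 hcop htop hbot V (η' / 16) (by linarith) hV0.le hδ
  rw [← hvol] at h1 h2
  have hSeq : S = hfin.toFinset := by
    ext lam
    rw [hS, Set.Finite.mem_toFinset]
  have h3 : ((HFam K 𝔮 V).ncard : ℝ) = S.card := by
    rw [hSeq, Set.ncard_eq_toFinset_card _ hfin]
  rw [h3] at h2
  have h4 := hratio V hV2
  refine h1.trans ?_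
  have hsum0 : 0 ≤ ∑ k ∈ s, ‖u k‖ ^ 2 := Finset.sum_nonneg fun _ _ => sq_nonneg _
  obtain ⟨a, ha⟩ : ∃ a : ℝ, a = (Nat.card (Cls (pq (𝔣 * 𝔮))) : ℝ) := ⟨_, rfl⟩
  obtain ⟨b, hb⟩ : ∃ b : ℝ, b = (Nat.card (𝓞 K ⧸ 𝔮)ˣ : ℝ) := ⟨_, rfl⟩
  have ha0 : 0 ≤ a := by rw [ha]; positivity
  have hb0 : 0 ≤ b := by rw [hb]; positivity
  rw [← ha, ← hb] at h2 ⊢
  have hSc : (0 : ℝ) ≤ S.card := Nat.cast_nonneg _
  calc a * (b * (V ^ rank K * V * (vol + vol * (η' / 8))) * ∑ k ∈ s, ‖u k‖ ^ 2) =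
      a * b * (V ^ rank K * (vol + vol * (η' / 8))) * V * ∑ k ∈ s, ‖u k‖ ^ 2 := by ring
    _ ≤ a * b * ((1 + η') * ((1 - 2 * (η' / 16)) * ((V - c) ^ rank K * vol))) * V *
        ∑ k ∈ s, ‖u k‖ ^ 2 := by gcongr
    _ = (a * (b * (1 - 2 * (η' / 16)) * ((V - c) ^ rank K * vol))) * ((1 + η') * V *
        ∑ k ∈ s, ‖u k‖ ^ 2) := by ring
    _ ≤ S.card * ((1 + η') * V * ∑ k ∈ s, ‖u k‖ ^ 2) :=
        mul_le_mul_of_nonneg_right h2 (by positivity)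
    _ ≤ S.card * ((1 + η) * V * ∑ k ∈ s, ‖u k‖ ^ 2) := by gcongr
    _ = _ := by ring

end Pool.Agent.N786.E
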