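import Pool.Agent.N786.E.Law2

/-!
# The law of the sum over the primes, for the families, II (owner helper786)
-/

set_option autoImplicit false
set_option linter.unusedSectionVars false

open NumberField NumberField.Units MeasureTheory Complex Filter Topology Set

namespace Pool.Agent.N786.E

open Pool.Agent.N786
open Pool.Agent.N786.D
open Pool.Agent.Y767
open Pool.Agent.R399.TW (pt pt_re pt_im pt_cont)

/-- the inequalities which hold for large `R` -/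
lemma ev_law (d n J : ℕ) (g κ Cp B b C₃ C : ℝ) (hg : 0 < g) (hb : 0 < b) (hC : 0 < C) :
    ∃ R₀ : ℝ, ∀ R : ℝ, R₀ ≤ R → Lg d g 0 κ 0 1 1 0 0 0 R ∧ 2 * (J : ℝ) ≤ Real.log R ∧
      2 * ((Cp + 1) * Real.log (Real.log R) + (2 * Cp + B)) ≤ b * Real.log R ∧
      1 / b ≤ √(Real.log R / 2) ∧ 1 ≤ √(Real.log R / 2) ∧ C₃ / b ≤ √(Real.log R / 2) ∧
      (C * (4 * R + 2 * Real.pi)) ^ n < Real.exp (g * R) := by
  have hl := Real.tendsto_log_atTop
  obtain ⟨R₂, hR₂⟩ := thr_exists C g n hC hg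
  have e1 : ∀ᶠ y : ℝ in atTop, 2 * ((Cp + 1) * Real.log y + (2 * Cp + B)) ≤ b * y := by
    have h1 := Real.isLittleO_log_id_atTop.bound (c := b / (4 * (|Cp + 1| + 1))) (by positivity)
    filter_upwards [h1, eventually_ge_atTop 1, eventually_ge_atTop (4 * (2 * Cp + B) / b)]
      with y hy hy1 hy2
    rw [div_le_iff₀ hb] at hy2
    have hlog : 0 ≤ Real.log y := Real.log_nonneg hy1
    rw [Real.norm_of_nonneg hlog, id, Real.norm_of_nonneg (by linarith), div_mul_eq_mul_div,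
      le_div_iff₀ (by positivity)] at hy
    have h2 := le_abs_self (Cp + 1)
    have h3 := abs_nonneg (Cp + 1)
    nlinarith
  have h := (lg_ev d g 0 κ 0 1 1 0 0 0 one_pos one_pos).and
    ((hl.eventually_ge_atTop (2 * (J : ℝ))).and ((hl.eventually e1).and
    ((hl.eventually (sqrt_tendsto.eventually_ge_atTop (1 / b))).and
    ((hl.eventually (sqrt_tendsto.eventually_ge_atTop 1)).and
    ((hl.eventually (sqrt_tendsto.eventually_ge_atTop (C₃ / b))).and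
    (eventually_ge_atTop R₂))))))
  obtain ⟨R₀, hR₀⟩ := h.exists_forall_of_atTop
  refine ⟨R₀, fun R hR => ?_⟩
  obtain ⟨h1, h2, h3, h4, h5, h6, h7⟩ := hR₀ R hR
  exact ⟨h1, h2, h3, h4, h5, h6, hR₂ R h7⟩

open Classical in
/-- **the law of the sum over the primes** -/
theorem law_fam (K : Type) [Field K] [NumberField K] [IsTotallyReal K] {h : ℝ} (hh : 1 / 2 < h)
    (hh1 : h ≤ 1) {κ : ℝ} (hκ : 1 ≤ κ) (x ε : ℝ) (hε : 0 < ε) :
    ∃ V₀ δ₀ R₀ : ℝ, 1 ≤ V₀ ∧ 0 < δ₀ ∧ δ₀ ≤ 1 / 4 ∧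
    ∀ (𝔣 𝔮 : Ideal (𝓞 K)) (ν₀ : InfinitePlace K → ℝ) (ψ₀ : Ideal (𝓞 K) →*₀ ℂ) (V T : ℝ),
    IsHecke K 𝔣 ν₀ ψ₀ → ∑ w, ν₀ w = 0 → IsCoprime 𝔣 𝔮 → 𝔮 ≠ ⊥ → 𝔣 * 𝔮 ≠ ⊤ →
    ∑ᶠ 𝔭 ∈ PD 𝔮, (1 / (Ideal.absNorm 𝔭 : ℝ)) ≤ δ₀ → V₀ ≤ V → V ≤ T →
    ((Ideal.absNorm (𝔣 * 𝔮) : ℝ) * T ^ Module.finrank ℚ K) ^ h ≤
      (Ideal.absNorm 𝔮 : ℝ) * V ^ Module.finrank ℚ K →
    ∀ R : ℝ, R = Real.log ((Ideal.absNorm (𝔣 * 𝔮) : ℝ) * T ^ Module.finrank ℚ K) → R₀ ≤ R →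
    ∀ S : Finset (Ideal (𝓞 K) →*₀ ℂ), (∀ lam, lam ∈ S ↔ lam ∈ HFam K 𝔮 V) → ∀ t₁ : ℝ,
      |(S.card * V)⁻¹ * ∑ lam ∈ S, volume.real {t ∈ Icc t₁ (t₁ + V) |
        (Pr 0 (Yd (Module.finrank ℚ K) ((2 * h - 1) / 12) R) (pr ψ₀ lam)
          (pt (1 / 2 + κ / R) t)).re ≤ x * √(Real.log R / 2)} - Phi x| ≤ ε := by
  obtain ⟨d, hd⟩ : ∃ d : ℕ, d = Module.finrank ℚ K := ⟨_, rfl⟩
  have hd1 : 1 ≤ d := by rw [hd]; exact Module.finrank_pos
  have hd1' : (1 : ℝ) ≤ d := by exact_mod_cast hd1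
  obtain ⟨g, hg⟩ : ∃ g : ℝ, g = (2 * h - 1) / 12 := ⟨_, rfl⟩
  have hg0 : 0 < g := by rw [hg]; linarith
  have hg1 : g ≤ 1 / 12 := by rw [hg]; linarith
  obtain ⟨U⟩ := exists_UD (K := K) t_unitb
  obtain ⟨J, η, b, hη, hb, hlaw⟩ := law_close x ε hε
  obtain ⟨V₁, C, δ₁, hV₁, hC, hδ₁, hδ₁4, hstar⟩ := star_prob K U hη
  obtain ⟨c₂, V₂, hc₂, hV₂, hsize⟩ := fam_size K
  obtain ⟨Cp, hCp, hprm⟩ := prm_main K
  obtain ⟨C₃, hC₃, hthree⟩ := sum_three K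
  obtain ⟨B, hB⟩ : ∃ B : ℝ, B = |Real.log (80001 * d / (2 * g))| := ⟨_, rfl⟩
  have hB0 : 0 ≤ B := by rw [hB]; exact abs_nonneg _
  obtain ⟨R₀, hR₀⟩ := ev_law d d J g κ Cp B b C₃ C hg0 hb (by linarith)
  refine ⟨max V₁ V₂, δ₁, R₀, le_max_of_le_left hV₁, hδ₁, hδ₁4, ?_⟩
  intro 𝔣 𝔮 ν₀ ψ₀ V T hψ hs₀ hcop h𝔮 htop hδ𝔮 hV hVT hX R hR hRR S hS t₁
  rw [← hd] at hX hR ⊢
  rw [← hg]
  have hbot : 𝔣 * 𝔮 ≠ ⊥ := mul_ne_zero hψ.ne_bot h𝔮
  have hV1 : V₁ ≤ V := (le_max_left _ _).trans hV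
  have hV2 : V₂ ≤ V := (le_max_right _ _).trans hV
  have hVge : 1 ≤ V := hV₁.trans hV1
  have hV0 : 0 < V := by linarith
  have hT : 1 ≤ T := hVge.trans hVT
  have hT0 : 0 < T := by linarith
  obtain ⟨hL, hJℓ, hcond, hb1, hs1, hb3, hthr⟩ := hR₀ R hRR
  obtain ⟨hN1, hN2, hN3⟩ := Nd_bounds hd1 hL.R1
  have hNY := lsp_floor (g := g) hd1 hL.R1
  obtain ⟨N, hN⟩ : ∃ N : ℕ, N = Nd d R := ⟨_, rfl⟩
  obtain ⟨Y, hY⟩ : ∃ Y : ℝ, Y = Yd d g R := ⟨_, rfl⟩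
  rw [← hN] at hN1 hN2 hN3 hNY
  rw [← hY] at hNY ⊢
  obtain ⟨ℓ, hℓ⟩ : ∃ ℓ : ℝ, ℓ = Real.log R := ⟨_, rfl⟩
  have hR1 : Real.exp 1 ≤ R := hL.R1
  have he := Real.exp_one_gt_d9
  have hpi := Real.pi_pos
  have hR0 : 0 < R := by linarith
  have hℓ1 : 1 ≤ ℓ := by rw [hℓ, Real.le_log_iff_exp_le hR0]; exact hR1
  have hsq := hL.hsq
  have hκ2 := hL.hκ2
  rw [← hℓ] at hN1 hN2 hsq hκ2 hJℓ hcond hb1 hs1 hb3 ⊢
  have hℓ0 : 0 < ℓ := by linarith
  obtain ⟨q, hq⟩ : ∃ q : ℝ, q = √(ℓ / 2) := ⟨_, rfl⟩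
  rw [← hq] at hb1 hs1 hb3 ⊢
  have hq0 : 0 < q := by linarith
  have hq2 : q ^ 2 = ℓ / 2 := by rw [hq, Real.sq_sqrt (by positivity)]
  have hN0 : (0 : ℝ) < N := by
    have : 0 < N := hN3
    exact_mod_cast this
  have hYeq : Y = 2 * g * R / N := by rw [← hNY]; field_simp
  have hsq1 : 80001 * d * (2 / g) * ℓ ^ 2 ≤ R := by
    refine le_trans ?_ hsq
    refine mul_le_mul_of_nonneg_right ?_ (sq_nonneg _)
    refine mul_le_mul_of_nonneg_left ?_ (by positivity)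
    linarith
  have hY4 : 4 * ℓ ≤ Y := by
    rw [hYeq, le_div_iff₀ hN0]
    calc 4 * ℓ * N ≤ 4 * ℓ * (80001 * d * ℓ) := mul_le_mul_of_nonneg_left hN2 (by positivity)
      _ = 2 * g * (80001 * d * (2 / g) * ℓ ^ 2) := by field_simp; ring
      _ ≤ 2 * g * R := mul_le_mul_of_nonneg_left hsq1 (by positivity)
  have hY0 : 0 < Y := by linarith
  have hNℓ : ℓ ≤ N := by
    have h := mul_le_mul_of_nonneg_right hd1' hℓ0.le
    linarith
  have hJN : 2 * (J : ℝ) ≤ N := by linarith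
  have hJ0 : (0 : ℝ) ≤ J := Nat.cast_nonneg _
  have hJY : 3 * J * Y ≤ (h - g) * R := by
    rw [hYeq]
    have h1 : 3 * J * (2 * g * R / N) = (6 * g * J / N) * R := by ring
    rw [h1]
    refine mul_le_mul_of_nonneg_right ?_ hR0.le
    rw [div_le_iff₀ hN0]
    have h2 : (5 : ℝ) / 12 ≤ h - g := by linarith
    have h3 := mul_le_mul_of_nonneg_right hg1 hJ0
    have h4 := mul_le_mul_of_nonneg_right h2 hN0.le
    linarith
  have hYR : Y ≤ R := by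
    rw [hYeq, div_le_iff₀ hN0]
    have : (1 : ℝ) ≤ N := by linarith
    have h1 := mul_le_mul_of_nonneg_right hg1 hR0.le
    have h2 := mul_le_mul_of_nonneg_left this hR0.le
    linarith
  obtain ⟨M, hM⟩ : ∃ M : ℕ, M = ⌊Real.exp Y⌋₊ := ⟨_, rfl⟩
  have hM1 : 1 ≤ M := by
    rw [hM, Nat.one_le_floor_iff]
    exact Real.one_le_exp hY0.le
  have hMY : (M : ℝ) ≤ Real.exp Y := by rw [hM]; exact Nat.floor_le (Real.exp_pos _).le
  have hMpos : (0 : ℝ) < M := by exact_mod_cast hM1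
  have hlogM : Real.log M ≤ Y := by
    rw [Real.log_le_iff_le_exp hMpos]; exact hMY
  -- the conditions of the large sieve
  have hNn1 : (1 : ℝ) ≤ Ideal.absNorm (𝔣 * 𝔮) := one_le_norm hbot
  have hC0 : 0 < (Ideal.absNorm (𝔣 * 𝔮) : ℝ) * T ^ d := by positivity
  have hexpR : Real.exp R = (Ideal.absNorm (𝔣 * 𝔮) : ℝ) * T ^ d := by rw [hR, Real.exp_log hC0]
  have hlen : (C * ((4 * R + 2 * Real.pi) / V)) ^ Module.finrank ℚ K * ((M : ℝ) ^ J) ^ 3 <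
      Ideal.absNorm 𝔮 := by
    rw [← hd]
    have h0 : ((M : ℝ) ^ J) ^ 3 ≤ Real.exp ((h - g) * R) := by
      rw [← pow_mul]
      calc (M : ℝ) ^ (J * 3) ≤ (Real.exp Y) ^ (J * 3) := pow_le_pow_left₀ hMpos.le hMY _
        _ = Real.exp (3 * J * Y) := by
            rw [← Real.exp_nat_mul]
            congr 1
            push_cast
            ring
        _ ≤ _ := Real.exp_le_exp.mpr hJY
    have h1 : (C * (4 * R + 2 * Real.pi)) ^ d * ((M : ℝ) ^ J) ^ 3 <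
        (Ideal.absNorm 𝔮 : ℝ) * V ^ d := by
      have h2 : Real.exp (h * R) ≤ (Ideal.absNorm 𝔮 : ℝ) * V ^ d := by
        refine le_trans (le_of_eq ?_) hX
        rw [← hexpR, ← Real.exp_mul, mul_comm]
      refine lt_of_lt_of_le ?_ h2
      have h5 : 0 < Real.exp ((h - g) * R) := Real.exp_pos _
      calc (C * (4 * R + 2 * Real.pi)) ^ d * ((M : ℝ) ^ J) ^ 3 ≤
          (C * (4 * R + 2 * Real.pi)) ^ d * Real.exp ((h - g) * R) :=
            mul_le_mul_of_nonneg_left h0 (by positivity)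
        _ < Real.exp (g * R) * Real.exp ((h - g) * R) := mul_lt_mul_of_pos_right hthr h5
        _ = Real.exp (h * R) := by rw [← Real.exp_add]; congr 1; ring
    have h6 : (C * ((4 * R + 2 * Real.pi) / V)) ^ d * V ^ d =
        (C * (4 * R + 2 * Real.pi)) ^ d := by
      rw [← mul_pow]
      congr 1
      field_simp
    have h7 : 0 < V ^ d := by positivity
    have h8 : (C * ((4 * R + 2 * Real.pi) / V)) ^ d * ((M : ℝ) ^ J) ^ 3 * V ^ d <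
        (Ideal.absNorm 𝔮 : ℝ) * V ^ d := by
      calc _ = ((C * ((4 * R + 2 * Real.pi) / V)) ^ d * V ^ d) * ((M : ℝ) ^ J) ^ 3 := by ring
        _ < _ := by rw [h6]; exact h1
    exact lt_of_mul_lt_mul_right h8 h7.le
  have hJL : 8 * (J * Real.log M) ≤ 4 * R + 2 * Real.pi := by
    have h1 : J * Real.log M ≤ J * Y := mul_le_mul_of_nonneg_left hlogM hJ0
    have h2 : h - g ≤ 1 := by linarith
    have h3 := mul_le_mul_of_nonneg_right h2 hR0.le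
    linarith
  have hst := hstar 𝔣 𝔮 hcop htop hbot hδ𝔮 V (4 * R + 2 * Real.pi) M J hV1 (by linarith) hM1 hJL
    hlen ν₀ ψ₀ hs₀ hψ.toIsHM S hS
  -- the family is not empty
  have hcardpos : 0 < S.card := by
    obtain ⟨hfin, h1⟩ := hsize 𝔣 𝔮 hcop htop hbot V hV2 (hδ𝔮.trans hδ₁4)
    have hSeq : S = hfin.toFinset := by
      ext lam
      rw [hS, Set.Finite.mem_toFinset]
    have h3 : ((HFam K 𝔮 V).ncard : ℝ) = S.card := by
      rw [hSeq, Set.ncard_eq_toFinset_card _ hfin]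
    rw [h3] at h1
    have hNq1 : (1 : ℝ) ≤ (Ideal.absNorm 𝔮 : ℝ) := one_le_norm h𝔮
    have h4 : 0 < c₂ * ((Ideal.absNorm 𝔮 : ℝ) * V ^ Module.finrank ℚ K) := by positivity
    by_contra h5
    have h6 : S.card = 0 := by omega
    rw [h6] at h1
    push_cast at h1
    linarith
  have hne : Nonempty {lam // lam ∈ S} := by
    obtain ⟨lam, hl⟩ := Finset.card_pos.mp hcardpos
    exact ⟨⟨lam, hl⟩⟩
  letI : MeasurableSpace {lam // lam ∈ S} := ⊤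
  haveI : MeasurableSingletonClass {lam // lam ∈ S} := ⟨fun _ => trivial⟩
  -- the coefficients
  obtain ⟨σ, hσ⟩ : ∃ σ : ℝ, σ = 1 / 2 + κ / R := ⟨_, rfl⟩
  rw [← hσ]
  have hκR : 0 < κ / R := by positivity
  set c : PQm (𝔣 * 𝔮) M → ℝ := fun i => Real.exp (-(σ * lN i.1)) / q with hc
  have hmR : lN (𝔣 * 𝔮) ≤ R := by
    unfold lN
    rw [hR]
    refine Real.log_le_log (by linarith) ?_
    have h1 : (1 : ℝ) ≤ T ^ d := one_le_pow₀ hT
    exact le_mul_of_one_le_right (by linarith) h1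
  obtain ⟨p1, p2⟩ := hprm (𝔣 * 𝔮) R Y κ (by simpa using hbot) hmR hR1 (by linarith)
    (by rw [← hℓ]; exact hκ2) (by linarith [hL.hκ]) (by rw [← hℓ]; exact hY4) hYR
  rw [← hℓ, ← hM] at p1 p2
  obtain ⟨s2, hs2⟩ : ∃ s2 : ℝ, s2 = ∑ i : PQm (𝔣 * 𝔮) M,
    Real.exp (-((1 + 2 * κ / R) * lN i.1)) := ⟨_, rfl⟩
  rw [← hs2] at p1 p2
  have hc2 : ∑ i, c i ^ 2 = 2 * s2 / ℓ := by
    have e1 : ∀ i, c i ^ 2 = Real.exp (-((1 + 2 * κ / R) * lN i.1)) * (2 / ℓ) := by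
      intro i
      rw [hc]
      simp only
      rw [div_pow, hq2, ← Real.exp_nat_mul, hσ]
      have e2 : ((2 : ℕ) : ℝ) * -((1 / 2 + κ / R) * lN i.1) = -((1 + 2 * κ / R) * lN i.1) := by
        push_cast; ring
      rw [e2]
      field_simp
    rw [Finset.sum_congr rfl fun i _ => e1 i, ← Finset.sum_mul, ← hs2]
    ring
  have hlogRY : Real.log (R / Y) ≤ B + Real.log ℓ := by
    have h1 : R / Y = N / (2 * g) := by rw [hYeq]; field_simp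
    have h2 : (N : ℝ) / (2 * g) ≤ 80001 * d / (2 * g) * ℓ := by
      rw [div_mul_eq_mul_div]
      gcongr
    rw [h1]
    refine (Real.log_le_log (by positivity) h2).trans ?_
    rw [Real.log_mul (by positivity) hℓ0.ne', hB]
    have := le_abs_self (Real.log (80001 * d / (2 * g)))
    linarith
  have hlogℓ : 0 ≤ Real.log ℓ := Real.log_nonneg hℓ1
  have hcc : |∑ i, c i ^ 2 - 2| ≤ b := by
    rw [hc2]
    have e1 : 2 * s2 / ℓ - 2 = 2 * (s2 - ℓ) / ℓ := by field_simp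
    rw [e1, abs_le]
    constructor
    · rw [le_div_iff₀ hℓ0]
      linarith
    · rw [div_le_iff₀ hℓ0]
      have h5 := mul_nonneg (by linarith : (0 : ℝ) ≤ Cp + 1) hlogℓ
      linarith
  have hc0 : ∀ i, 0 ≤ c i := fun i => by rw [hc]; positivity
  have hexp1 : ∀ i : PQm (𝔣 * 𝔮) M, Real.exp (-(σ * lN i.1)) ≤ 1 := fun i => by
    have := lN_nonneg i.1
    have hσ0 : 0 < σ := by rw [hσ]; linarith
    have h6 := mul_nonneg hσ0.le this
    exact Real.exp_le_one_iff.mpr (by linarith)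
  have hc1 : ∀ i, |c i| ≤ b := by
    intro i
    rw [abs_of_nonneg (hc0 i), hc]
    simp only
    rw [div_le_iff₀ hb] at hb1
    rw [div_le_iff₀ hq0]
    linarith [hexp1 i]
  have hc3 : ∑ i, |c i| ^ 3 ≤ b := by
    have e1 : ∀ i, |c i| ^ 3 ≤ Real.exp (-((3 * σ) * lN i.1)) * (1 / q) := by
      intro i
      rw [abs_of_nonneg (hc0 i), hc]
      simp only
      rw [div_pow, ← Real.exp_nat_mul]
      have e2 : ((3 : ℕ) : ℝ) * -(σ * lN i.1) = -((3 * σ) * lN i.1) := by push_cast; ring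
      rw [e2, div_eq_mul_one_div]
      refine mul_le_mul_of_nonneg_left ?_ (Real.exp_pos _).le
      refine one_div_le_one_div_of_le hq0 ?_
      calc q = q ^ 1 := (pow_one q).symm
        _ ≤ q ^ 3 := pow_le_pow_right₀ hs1 (by norm_num)
    refine (Finset.sum_le_sum fun i _ => e1 i).trans ?_
    rw [← Finset.sum_mul]
    have h1 : ∑ i : PQm (𝔣 * 𝔮) M, Real.exp (-((3 * σ) * lN i.1)) ≤ C₃ := by
      rw [sum_PQm (fun 𝔭 => Real.exp (-((3 * σ) * lN 𝔭)))]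
      refine hthree _ (fun 𝔭 hp => ((Finset.mem_filter.mp hp).2).1.ne_zero) _ ?_
      rw [hσ]
      linarith
    rw [mul_one_div, div_le_iff₀ hq0]
    rw [div_le_iff₀ hb] at hb3
    linarith
  have hmain := hlaw (PQm (𝔣 * 𝔮) M) {lam // lam ∈ S} c hcc hc1 hc3 t₁ V hV0
    (fun a t => XM htop ψ₀ a.1 t)
    (fun a t i => XM_norm U htop hbot hs₀ hψ.toIsHM ((hS a.1).mp a.2) t i)
    (fun a i => XM_cont htop ψ₀ a.1 i) (fun s u hk => by
      have h1 := hst s u hk t₁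
      rw [Fintype.card_coe]
      refine le_trans (le_of_eq ?_) h1
      exact Finset.sum_coe_sort S (fun lam => ∫ t in t₁..(t₁ + V),
        ‖∑ k ∈ s, u k * mn k (XM htop ψ₀ lam t)‖ ^ 2))
  rw [Fintype.card_coe] at hmain
  have e1 : ∑ a : {lam // lam ∈ S}, volume.real {t ∈ Icc t₁ (t₁ + V) |
      ∑ i, c i * ((XM htop ψ₀ a.1 t i : ℂˣ) : ℂ).re ≤ x} =
      ∑ lam ∈ S, volume.real {t ∈ Icc t₁ (t₁ + V) |
        (Pr 0 Y (pr ψ₀ lam) (pt σ t)).re ≤ x * q} := by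
    rw [← Finset.sum_coe_sort S (fun lam => volume.real {t ∈ Icc t₁ (t₁ + V) |
        (Pr 0 Y (pr ψ₀ lam) (pt σ t)).re ≤ x * q})]
    refine Finset.sum_congr rfl fun a _ => ?_
    congr 1
    ext t
    simp only [mem_sep_iff]
    have e2 : (Pr 0 Y (pr ψ₀ a.1) (pt σ t)).re =
        q * ∑ i, c i * ((XM htop ψ₀ a.1 t i : ℂˣ) : ℂ).re := by
      have e3 := Pr_XM htop hψ.toIsHM ((hS a.1).mp a.2) Y σ t
      rw [← hM] at e3
      rw [e3, Complex.re_sum, Finset.mul_sum]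
      refine Finset.sum_congr rfl fun i _ => ?_
      rw [Complex.re_ofReal_mul, hc]
      simp only
      field_simp
    rw [e2, mul_comm x q]
    constructor
    · rintro ⟨h1, h2⟩
      exact ⟨h1, mul_le_mul_of_nonneg_left h2 hq0.le⟩
    · rintro ⟨h1, h2⟩
      exact ⟨h1, le_of_mul_le_mul_left h2 hq0⟩
  rw [e1] at hmain
  exact hmain

end Pool.Agent.N786.E
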