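import Pool.Agent.N786.E.Clt

/-!
# The typical size (owner helper786)
-/

set_option autoImplicit false
set_option linter.unusedSectionVars false

open NumberField NumberField.Units MeasureTheory ProbabilityTheory Complex Filter Topology Set

namespace Pool.Agent.N786.E

open Pool.Agent.N786
open Pool.Agent.N786.D
open Pool.Agent.Y773 (LI)
open Pool.Agent.Y767
open Pool.Agent.R399.TW (pt pt_re pt_im pt_cont)

/-- the zeros on a line form a null set -/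
lemma null_zeros {F : ℂ → ℂ} (hF : Differentiable ℂ F) {z₀ : ℂ} (hne : F z₀ ≠ 0) (x : ℝ) :
    volume {t : ℝ | F (pt x t) = 0} = 0 := by
  have hpa : ∀ t : ℝ, AnalyticAt ℝ (fun t : ℝ => pt x t) t := by
    intro t
    have h1 : AnalyticAt ℝ (fun t : ℝ => (t : ℂ)) t := Complex.ofRealCLM.analyticAt t
    have h2 : (fun t : ℝ => pt x t) = fun t : ℝ => (x : ℂ) + (t : ℂ) * I := by
      funext t
      apply Complex.ext <;> simp [pt]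
    rw [h2]
    exact analyticAt_const.add (h1.mul analyticAt_const)
  have hg : AnalyticOnNhd ℝ (fun t : ℝ => F (pt x t)) univ := by
    intro t _
    have h1 : AnalyticAt ℝ F (pt x t) := (hF.analyticAt _).restrictScalars
    exact h1.comp (hpa t)
  by_cases h : ∃ t : ℝ, F (pt x t) ≠ 0
  · obtain ⟨t, ht⟩ := h
    have h1 := AnalyticOnNhd.preimage_zero_mem_codiscrete hg ht
    have h2 := ae_restrict_le_codiscreteWithin (μ := volume) MeasurableSet.univ h1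
    rw [Measure.restrict_univ, mem_ae_iff] at h2
    refine measure_mono_null ?_ h2
    intro s hs
    simp only [mem_compl_iff, mem_preimage, mem_singleton_iff, not_not]
    exact hs
  · push Not at h
    exfalso
    apply hne
    have h1 : AnalyticOnNhd ℂ F univ := fun z _ => hF.analyticAt z
    have ht : Tendsto (fun t : ℝ => pt x t) (𝓝[≠] 0) (𝓝[≠] (pt x 0)) := by
      refine tendsto_nhdsWithin_iff.mpr ⟨(pt_cont x).continuousAt.tendsto.mono_left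
        nhdsWithin_le_nhds, ?_⟩
      filter_upwards [self_mem_nhdsWithin] with t ht he
      apply ht
      have h3 := congrArg Complex.im he
      rw [pt_im, pt_im] at h3
      exact h3
    have h2 : ∃ᶠ z in 𝓝[≠] (pt x 0), F z = 0 :=
      ht.frequently (Frequently.of_forall h)
    exact h1.eqOn_zero_of_preconnected_of_frequently_eq_zero isPreconnected_univ (mem_univ _) h2
      (mem_univ z₀)

lemma Phi_tails (ε : ℝ) (hε : 0 < ε) : ∃ X : ℝ, 0 < X ∧ 1 - ε ≤ Phi X ∧ Phi (-X) ≤ ε := by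
  have e : ∀ x : ℝ, cdf (gaussianReal 0 1) x = Phi x := fun x => by
    rw [cdf_eq_real, Phi_eq]
  have h1 : Tendsto (fun x : ℝ => Phi x) atTop (𝓝 1) :=
    (tendsto_cdf_atTop (gaussianReal 0 1)).congr e
  have h2 : Tendsto (fun x : ℝ => Phi x) atBot (𝓝 0) :=
    (tendsto_cdf_atBot (gaussianReal 0 1)).congr e
  have h3 := h1.eventually (Ioi_mem_nhds (show 1 - ε < 1 by linarith))
  have h4 := (h2.comp tendsto_neg_atTop_atBot).eventually (Iio_mem_nhds hε)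
  obtain ⟨X, hX1, hX2, hX3⟩ := (h3.and (h4.and (eventually_gt_atTop 0))).exists
  exact ⟨X, hX3, hX1.le, hX2.le⟩

/-- **The typical size** -/
theorem lin_fam (K : Type) [Field K] [NumberField K] [IsTotallyReal K] (h : ℝ) (hh : 1 / 2 < h)
    (hh1 : h ≤ 1) (ε : ℝ) (hε : 0 < ε) :
    ∃ V₀ δ₀ R₀ : ℝ, 1 ≤ V₀ ∧ 0 < δ₀ ∧
    ∀ (𝔣 𝔮 : Ideal (𝓞 K)) (ν₀ : InfinitePlace K → ℝ) (ψ₀ : Ideal (𝓞 K) →*₀ ℂ) (V T : ℝ),
    IsHecke K 𝔣 ν₀ ψ₀ → ∑ w, ν₀ w = 0 → IsCoprime 𝔣 𝔮 → 𝔮 ≠ ⊥ → 𝔣 * 𝔮 ≠ ⊤ →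
    ∑ᶠ 𝔭 ∈ PD 𝔮, (1 / (Ideal.absNorm 𝔭 : ℝ)) ≤ δ₀ → V₀ ≤ V → V ≤ T → (∀ w, |ν₀ w| ≤ T) →
    ((Ideal.absNorm (𝔣 * 𝔮) : ℝ) * T ^ Module.finrank ℚ K) ^ h ≤
      (Ideal.absNorm 𝔮 : ℝ) * V ^ Module.finrank ℚ K →
    R₀ ≤ Real.log ((Ideal.absNorm (𝔣 * 𝔮) : ℝ) * T ^ Module.finrank ℚ K) →
    ∀ (Lf : (Ideal (𝓞 K) →*₀ ℂ) → ℂ → ℂ),
      (∀ lam ∈ HFam K 𝔮 V, Differentiable ℂ (Lf lam) ∧
        ∀ s : ℂ, 1 < s.re → Lf lam s = LI (pr ψ₀ lam) s) → ∀ t₁ : ℝ, |t₁| ≤ T →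
      ∑ᶠ lam ∈ HFam K 𝔮 V, volume.real {t ∈ Icc t₁ (t₁ + V) |
        ¬ (Real.log ((Ideal.absNorm (𝔣 * 𝔮) : ℝ) * T ^ Module.finrank ℚ K) ^ (-ε) ≤
            ‖Lf lam (pt (1 / 2) t)‖ ∧ ‖Lf lam (pt (1 / 2) t)‖ ≤
          Real.log ((Ideal.absNorm (𝔣 * 𝔮) : ℝ) * T ^ Module.finrank ℚ K) ^ ε)} ≤
        ε * ((HFam K 𝔮 V).ncard * V) := by
  classical
  obtain ⟨X, hX0, hX1, hX2⟩ := Phi_tails (ε / 4) (by positivity)
  obtain ⟨A₁, hA₁, hD⟩ := Pool.Agent.Y772.DK.t_dirK K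
  obtain ⟨V₁, δ₁, R₁, hV₁, hδ₁, H₁⟩ := clt_fam K h hh hh1 X (ε / 4) (by positivity)
  obtain ⟨V₂, δ₂, R₂, hV₂, hδ₂, H₂⟩ := clt_fam K h hh hh1 (-X) (ε / 4) (by positivity)
  refine ⟨max V₁ V₂, min δ₁ δ₂, max (max R₁ R₂) (Real.exp (X ^ 2 / ε ^ 2 + 1)),
    le_max_of_le_left hV₁, lt_min hδ₁ hδ₂, ?_⟩
  intro 𝔣 𝔮 ν₀ ψ₀ V T hψ hs₀ hcop h𝔮 htop hδ𝔮 hV hVT hνT hX hRlog Lf hLf t₁ ht₁
  obtain ⟨R, hR⟩ : ∃ R : ℝ, R = Real.log ((Ideal.absNorm (𝔣 * 𝔮) : ℝ) * T ^ Module.finrank ℚ K) :=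
    ⟨_, rfl⟩
  obtain ⟨hfin, -, h1⟩ := H₁ 𝔣 𝔮 ν₀ ψ₀ V T hψ hs₀ hcop h𝔮 htop (hδ𝔮.trans (min_le_left _ _))
    ((le_max_left _ _).trans hV) hVT hνT hX
    ((le_max_left _ _).trans ((le_max_left _ _).trans hRlog)) Lf hLf
  obtain ⟨-, -, h2⟩ := H₂ 𝔣 𝔮 ν₀ ψ₀ V T hψ hs₀ hcop h𝔮 htop (hδ𝔮.trans (min_le_right _ _))
    ((le_max_right _ _).trans hV) hVT hνT hX
    ((le_max_right _ _).trans ((le_max_left _ _).trans hRlog)) Lf hLf
  have h1' := (abs_le.mp (h1 t₁ ht₁)).1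
  have h2' := (abs_le.mp (h2 t₁ ht₁)).2
  have hRe : Real.exp (X ^ 2 / ε ^ 2 + 1) ≤ R := by
    rw [hR]; exact (le_max_right _ _).trans hRlog
  rw [← hR] at h1' h2' ⊢
  have hR0 : 0 < R := lt_of_lt_of_le (Real.exp_pos _) hRe
  obtain ⟨ℓ, hℓ⟩ : ∃ ℓ : ℝ, ℓ = Real.log R := ⟨_, rfl⟩
  have hℓX : X ^ 2 / ε ^ 2 + 1 ≤ ℓ := by rw [hℓ, Real.le_log_iff_exp_le hR0]; exact hRe
  rw [← hℓ] at h1' h2'
  obtain ⟨q, hq⟩ : ∃ q : ℝ, q = √(ℓ / 2) := ⟨_, rfl⟩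
  rw [← hq] at h1' h2'
  have hℓ0 : 0 < ℓ := by
    have : 0 ≤ X ^ 2 / ε ^ 2 := by positivity
    linarith
  have hq0 : 0 ≤ q := by rw [hq]; positivity
  have hXq : X * q ≤ ε * ℓ := by
    refine le_of_sq_le_sq ?_ (by positivity)
    rw [mul_pow, hq, Real.sq_sqrt (by positivity)]
    have h3 : X ^ 2 / ε ^ 2 ≤ ℓ := by linarith
    rw [div_le_iff₀ (by positivity)] at h3
    nlinarith
  have hV1 : 1 ≤ V := hV₁.trans ((le_max_left _ _).trans hV)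
  rw [finsum_mem_eq_finite_toFinset_sum _ hfin] at h1' h2' ⊢
  have hcard : ((HFam K 𝔮 V).ncard : ℝ) = hfin.toFinset.card := by
    rw [Set.ncard_eq_toFinset_card _ hfin]
  rw [hcard] at h1' h2' ⊢
  obtain ⟨S, hS⟩ : ∃ S : Finset (Ideal (𝓞 K) →*₀ ℂ), S = hfin.toFinset := ⟨_, rfl⟩
  have hSmem : ∀ lam ∈ S, lam ∈ HFam K 𝔮 V := fun lam hl => by
    rwa [hS, Set.Finite.mem_toFinset] at hl
  rw [← hS] at h1' h2' ⊢
  have hSV0 : 0 ≤ (S.card : ℝ) * V := by positivity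
  have hbot : 𝔣 * 𝔮 ≠ ⊥ := mul_ne_zero hψ.ne_bot h𝔮
  have hlogs : ∀ y : ℝ, 0 < y → ∀ a : ℝ, (R ^ a ≤ y ↔ a * ℓ ≤ Real.log y) ∧
      (y ≤ R ^ a ↔ Real.log y ≤ a * ℓ) := by
    intro y hy a
    have e : Real.log (R ^ a) = a * ℓ := by rw [Real.log_rpow hR0, hℓ]
    rw [← e]
    exact ⟨(Real.log_le_log_iff (Real.rpow_pos_of_pos hR0 _) hy).symm,
      (Real.log_le_log_iff hy (Real.rpow_pos_of_pos hR0 _)).symm⟩
  have hvf : ∀ (p : ℝ → Prop), volume {t ∈ Icc t₁ (t₁ + V) | p t} ≠ ⊤ := fun p =>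
    ne_of_lt (lt_of_le_of_lt (measure_mono (sep_subset _ _)) measure_Icc_lt_top)
  have key : ∀ lam ∈ S, volume.real {t ∈ Icc t₁ (t₁ + V) |
      ¬ (R ^ (-ε) ≤ ‖Lf lam (pt (1 / 2) t)‖ ∧ ‖Lf lam (pt (1 / 2) t)‖ ≤ R ^ ε)} ≤
      volume.real {t ∈ Icc t₁ (t₁ + V) | Real.log ‖Lf lam (pt (1 / 2) t)‖ ≤ -X * q} +
      (V - volume.real {t ∈ Icc t₁ (t₁ + V) | Real.log ‖Lf lam (pt (1 / 2) t)‖ ≤ X * q}) := by
    intro lam hl
    obtain ⟨hd, hser⟩ := hLf lam (hSmem lam hl)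
    obtain ⟨ν, a1, a2, a3⟩ := hSmem lam hl
    have h3 := pr_isHecke hcop hψ a3
    have hsum : ∑ w, (ν₀ + ν) w = 0 := by
      simp only [Pi.add_apply]
      rw [Finset.sum_add_distrib, hs₀, a2, add_zero]
    obtain ⟨e₀, he₀, hM⟩ := h3.toIsHM.isModK hsum htop
    have hne : Lf lam 2 ≠ 0 := by
      rw [hser 2 (by norm_num)]
      exact (hD _ hM.norm_le_one).2.2.1 2 (by norm_num)
    have hnull := null_zeros hd hne (1 / 2)
    set B : Set ℝ := {t | Real.log ‖Lf lam (pt (1 / 2) t)‖ ≤ X * q} with hB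
    have hBm : MeasurableSet B := by
      have h4 : Continuous fun t : ℝ => Lf lam (pt (1 / 2) t) := hd.continuous.comp (pt_cont _)
      exact measurableSet_le h4.norm.measurable.log measurable_const
    have h5 : volume.real (Icc t₁ (t₁ + V) \ B) = V - volume.real {t ∈ Icc t₁ (t₁ + V) |
        Real.log ‖Lf lam (pt (1 / 2) t)‖ ≤ X * q} := by
      have h6 := measureReal_inter_add_diff (μ := volume) (s := Icc t₁ (t₁ + V)) hBm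
        measure_Icc_lt_top.ne
      have h7 : volume.real (Icc t₁ (t₁ + V)) = V := by
        rw [measureReal_def, Real.volume_Icc, ENNReal.toReal_ofReal (by linarith)]
        ring
      rw [h7] at h6
      have h8 : Icc t₁ (t₁ + V) ∩ B = {t ∈ Icc t₁ (t₁ + V) |
          Real.log ‖Lf lam (pt (1 / 2) t)‖ ≤ X * q} := rfl
      rw [h8] at h6
      linarith
    rw [← h5]
    have hnull2 : volume.real {t : ℝ | Lf lam (pt (1 / 2) t) = 0} = 0 := by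
      rw [measureReal_def, hnull, ENNReal.toReal_zero]
    have h9 : {t ∈ Icc t₁ (t₁ + V) |
        ¬ (R ^ (-ε) ≤ ‖Lf lam (pt (1 / 2) t)‖ ∧ ‖Lf lam (pt (1 / 2) t)‖ ≤ R ^ ε)} ⊆
        {t : ℝ | Lf lam (pt (1 / 2) t) = 0} ∪ ({t ∈ Icc t₁ (t₁ + V) |
          Real.log ‖Lf lam (pt (1 / 2) t)‖ ≤ -X * q} ∪ (Icc t₁ (t₁ + V) \ B)) := by
      rintro t ⟨ht, hn⟩
      by_cases h0 : Lf lam (pt (1 / 2) t) = 0
      · exact Or.inl h0
      right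
      have hpos : 0 < ‖Lf lam (pt (1 / 2) t)‖ := norm_pos_iff.mpr h0
      rw [(hlogs _ hpos (-ε)).1, (hlogs _ hpos ε).2, not_and_or, not_le, not_le] at hn
      rcases hn with hn | hn
      · refine Or.inl ⟨ht, ?_⟩
        nlinarith
      · refine Or.inr ⟨ht, ?_⟩
        intro hb
        have hb' : Real.log ‖Lf lam (pt (1 / 2) t)‖ ≤ X * q := hb
        linarith
    have hfin2 : volume ({t ∈ Icc t₁ (t₁ + V) |
          Real.log ‖Lf lam (pt (1 / 2) t)‖ ≤ -X * q} ∪ (Icc t₁ (t₁ + V) \ B)) ≠ ⊤ :=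
      (measure_union_lt_top (lt_top_iff_ne_top.mpr (hvf _))
        (lt_of_le_of_lt (measure_mono sdiff_subset) measure_Icc_lt_top)).ne
    calc _ ≤ volume.real ({t : ℝ | Lf lam (pt (1 / 2) t) = 0} ∪ ({t ∈ Icc t₁ (t₁ + V) |
          Real.log ‖Lf lam (pt (1 / 2) t)‖ ≤ -X * q} ∪ (Icc t₁ (t₁ + V) \ B))) :=
          measureReal_mono h9 (measure_union_lt_top (by rw [hnull]; exact ENNReal.zero_lt_top)
            (lt_top_iff_ne_top.mpr hfin2)).ne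
      _ ≤ volume.real {t : ℝ | Lf lam (pt (1 / 2) t) = 0} + volume.real ({t ∈ Icc t₁ (t₁ + V) |
          Real.log ‖Lf lam (pt (1 / 2) t)‖ ≤ -X * q} ∪ (Icc t₁ (t₁ + V) \ B)) :=
          measureReal_union_le _ _
      _ ≤ 0 + (volume.real {t ∈ Icc t₁ (t₁ + V) |
          Real.log ‖Lf lam (pt (1 / 2) t)‖ ≤ -X * q} + volume.real (Icc t₁ (t₁ + V) \ B)) :=
          add_le_add hnull2.le (measureReal_union_le _ _)
      _ = _ := zero_add _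
  refine (Finset.sum_le_sum key).trans ?_
  rw [Finset.sum_add_distrib, Finset.sum_sub_distrib, Finset.sum_const, nsmul_eq_mul]
  have k1 := mul_le_mul_of_nonneg_right hX1 hSV0
  have k2 := mul_le_mul_of_nonneg_right hX2 hSV0
  linarith

end Pool.Agent.N786.E
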