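import Pool.Agent.N786.E.Fou
import Pool.Agent.N786.D.Asm1

/-!
# The mean square of a Dirichlet polynomial and a truncated exponential (owner helper786)
-/

set_option autoImplicit false
set_option linter.unusedSectionVars false

open NumberField NumberField.Units MeasureTheory Complex Filter Topology Set

namespace Pool.Agent.N786.E

open Pool.Agent.N786
open Pool.Agent.N786.D
open Pool.Agent.Y767
open Pool.Agent.R399.TW (pt pt_re pt_im pt_cont)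

section

variable {K : Type} [Field K] [NumberField K]

open Classical in
/-- the sum over the primes of norm at most `exp Y` -/
noncomputable def Pr (η Y : ℝ) (χ : Ideal (𝓞 K) →*₀ ℂ) (s : ℂ) : ℂ :=
  ∑ 𝔭 ∈ (SI K ⌊Real.exp Y⌋₊).filter Prime, (Real.exp (-(η * lN 𝔭)) : ℂ) * χ 𝔭 *
    cexp (-(s * (lN 𝔭 : ℂ)))

lemma Pr_diff (η Y : ℝ) (χ : Ideal (𝓞 K) →*₀ ℂ) : Differentiable ℂ (Pr η Y χ) := by
  unfold Pr
  fun_prop

lemma TK_diff (N : ℕ) : Differentiable ℂ (TK N) := by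
  unfold TK
  fun_prop

lemma ph_mul {𝔞 𝔟 : Ideal (𝓞 K)} (ha : 𝔞 ≠ 0) (hb : 𝔟 ≠ 0) (t : ℝ) :
    ph (𝔞 * 𝔟) t = ph 𝔞 t * ph 𝔟 t := by
  have := (lN_norm K).mul 𝔞 𝔟 ha hb
  unfold lN at this
  unfold ph
  rw [this, ← Complex.exp_add]
  congr 1
  push_cast
  ring

lemma ph_one (t : ℝ) : ph (1 : Ideal (𝓞 K)) t = 1 := by
  unfold ph
  rw [map_one]
  simp

lemma ph_sub' (𝔞 : Ideal (𝓞 K)) (t v : ℝ) :
    ph 𝔞 (t - v) = cexp (((v * lN 𝔞 : ℝ) : ℂ) * I) * ph 𝔞 t := by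
  unfold ph lN
  rw [← Complex.exp_add]
  congr 1
  push_cast
  ring

lemma lN_le_iff {𝔞 : Ideal (𝓞 K)} (ha : 𝔞 ≠ 0) (Y : ℝ) :
    lN 𝔞 ≤ Y ↔ Ideal.absNorm 𝔞 ≤ ⌊Real.exp Y⌋₊ := by
  have hN : 0 < (Ideal.absNorm 𝔞 : ℝ) := by
    exact_mod_cast Pool.Agent.Y772.DK.absNorm_pos' ha
  unfold lN
  rw [Real.log_le_iff_le_exp hN, Nat.le_floor_iff (Real.exp_pos _).le]

/-- the primes among the ideals of norm at most `M` -/
abbrev PT (K : Type) [Field K] [NumberField K] (M : ℕ) : Type :=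
  {𝔭 : Ideal (𝓞 K) // 𝔭 ∈ SI K M ∧ Prime 𝔭}

noncomputable instance (M : ℕ) : Fintype (PT K M) := by
  classical
  exact Fintype.subtype ((SI K M).filter Prime) fun 𝔭 => by rw [Finset.mem_filter]

open Classical in
lemma sum_PT (M : ℕ) (f : Ideal (𝓞 K) → ℂ) :
    ∑ i : PT K M, f i.1 = ∑ 𝔭 ∈ (SI K M).filter Prime, f 𝔭 := by
  rw [← Finset.sum_subtype ((SI K M).filter Prime) (fun 𝔭 => by rw [Finset.mem_filter])
    (fun 𝔭 => f 𝔭)]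

lemma Sp_SI {M : ℕ} {𝔞 : Ideal (𝓞 K)} (h : 𝔞 ∈ SI K M) :
    Sp (fun i : PT K M => i.1) 𝔞 := by
  refine ⟨SI_ne h, fun q hq => ?_⟩
  have hqp := nf_prime hq
  refine ⟨⟨q, SI_of hqp.ne_zero ?_, hqp⟩, rfl⟩
  have h1 := nf_dvd hq
  have h2 : Ideal.absNorm q ∣ Ideal.absNorm 𝔞 := map_dvd _ h1
  exact (Nat.le_of_dvd (Pool.Agent.Y772.DK.absNorm_pos' (SI_ne h)) h2).trans (mem_SI.mp h).2

lemma Pr_eq {M : ℕ} {s η Y x v : ℝ} (hM : ⌊Real.exp Y⌋₊ ≤ M) (χ : Ideal (𝓞 K) →*₀ ℂ) (t : ℝ) :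
    (s : ℂ) * Pr η Y χ (pt x (t - v)) = ∑ i : PT K M,
      ((Real.exp (-(x * lN i.1)) : ℂ) * cf s η Y v (lN i.1)) * (χ i.1 * ph i.1 t) := by
  classical
  rw [sum_PT M (fun 𝔭 => ((Real.exp (-(x * lN 𝔭)) : ℂ) * cf s η Y v (lN 𝔭)) * (χ 𝔭 * ph 𝔭 t))]
  unfold Pr
  rw [Finset.mul_sum]
  have hsub : (SI K ⌊Real.exp Y⌋₊).filter Prime ⊆ (SI K M).filter Prime := by
    intro 𝔭 h
    rw [Finset.mem_filter] at h ⊢
    exact ⟨SI_of (SI_ne h.1) ((mem_SI.mp h.1).2.trans hM), h.2⟩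
  rw [← Finset.sum_subset hsub]
  · refine Finset.sum_congr rfl fun 𝔭 h => ?_
    rw [Finset.mem_filter] at h
    have h1 : lN 𝔭 ≤ Y := (lN_le_iff (SI_ne h.1) Y).mpr (mem_SI.mp h.1).2
    unfold cf
    rw [if_pos h1, exp_pt, ph_sub']
    ring
  · intro 𝔭 h h2
    rw [Finset.mem_filter] at h h2
    have h1 : ¬ lN 𝔭 ≤ Y := fun h3 =>
      h2 ⟨SI_of (SI_ne h.1) ((lN_le_iff (SI_ne h.1) Y).mp h3), h.2⟩
    unfold cf
    rw [if_neg h1]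
    ring

/-- the product, as a Dirichlet polynomial -/
lemma prod_dpo {M M₁ N : ℕ} {s η Y x v : ℝ} (hY : 0 < Y)
    (hM : M₁ * ⌊Real.exp (N * Y)⌋₊ ≤ M) (hM2 : ⌊Real.exp Y⌋₊ ≤ M)
    (χ : Ideal (𝓞 K) →*₀ ℂ) (G : Ideal (𝓞 K) → ℂ) (hG : ∀ b, b ≠ 0 → b ∉ SI K M₁ → G b = 0)
    (hM₁ : M₁ ≤ M) (t : ℝ) :
    (∑ 𝔞 ∈ SI K M₁, G 𝔞 * (χ 𝔞 * ph 𝔞 t)) * TK N ((s : ℂ) * Pr η Y χ (pt x (t - v))) =
      ∑ 𝔞 ∈ SI K M, uu N (fun i : PT K M => i.1)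
        (fun i => (Real.exp (-(x * lN i.1)) : ℂ) * cf s η Y v (lN i.1)) G 𝔞 * (χ 𝔞 * ph 𝔞 t) := by
  classical
  rw [Pr_eq hM2]
  have hp : ∀ i : PT K M, Prime i.1 := fun i => i.2.2
  have hinj : Function.Injective (fun i : PT K M => i.1) := Subtype.val_injective
  refine prod_TK hp hinj N _ G (fun 𝔞 => χ 𝔞 * ph 𝔞 t) ?_ ?_ (SI K M₁) (SI K M) ?_ ?_ ?_ ?_
  · rw [map_one, ph_one, one_mul]
  · intro a b ha hb
    rw [map_mul, ph_mul ha hb]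
    ring
  · intro b hb
    exact Sp_SI (SI_of (SI_ne hb) ((mem_SI.mp hb).2.trans hM₁))
  · intro b hb hb2
    exact hG b hb.1 hb2
  · intro b hb k hk hck
    have hpe : pe (fun i : PT K M => i.1) k ≠ 0 := pe_ne hp k
    refine SI_of (mul_ne_zero (SI_ne hb) hpe) ?_
    rw [map_mul]
    refine le_trans (Nat.mul_le_mul (mem_SI.mp hb).2 ?_) hM
    rw [← lN_le_iff hpe, L_pe (lN_norm K) hp]
    calc ∑ i, (k i : ℝ) * lN i.1 ≤ ∑ i, (k i : ℝ) * Y := by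
          refine Finset.sum_le_sum fun i _ => ?_
          rcases Nat.eq_zero_or_pos (k i) with h0 | h0
          · rw [h0]; simp
          · refine mul_le_mul_of_nonneg_left ?_ (Nat.cast_nonneg _)
            have h1 := hck i (by omega)
            by_contra h2
            apply h1
            unfold cf
            rw [if_neg h2, mul_zero]
      _ = ((∑ i, k i : ℕ) : ℝ) * Y := by
          rw [← Finset.sum_mul]
          push_cast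
          rfl
      _ ≤ N * Y := by
          have h1 := (mem_bx.mp hk).2
          exact mul_le_mul_of_nonneg_right (by exact_mod_cast h1) hY.le
  · intro a ha
    exact Sp_SI ha

/-! ### the coefficients -/

/-- the two cases: `g = 1`, `s = -1` and `g` the Moebius function, `s = 1` -/
structure GS (g : Ideal (𝓞 K) → ℂ) (γ : ℕ → ℂ) (s : ℝ) : Prop where
  hs : s = 1 ∨ s = -1
  g0 : γ 0 = 1
  gle : ∀ e, ‖γ e‖ ≤ 1
  g1 : γ 1 = -(s : ℂ)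
  gg : ∀ (M : ℕ) (b : Ideal (𝓞 K)), Sp (fun i : PT K M => i.1) b →
    g b = ∏ i : PT K M, γ (ex i.1 b)

lemma GS_one : GS (K := K) (fun _ => 1) (fun _ => 1) (-1) where
  hs := Or.inr rfl
  g0 := rfl
  gle _ := by simp
  g1 := by simp
  gg M b _ := by simp

open Classical in
lemma GS_mob : GS (K := K) mob (fun e => if e = 0 then 1 else if e = 1 then -1 else 0) 1 where
  hs := Or.inl rfl
  g0 := by simp
  gle e := by
    split_ifs <;> simp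
  g1 := by simp
  gg M b hb := by
    have hp : ∀ i : PT K M, Prime i.1 := fun i => i.2.2
    have hinj : Function.Injective (fun i : PT K M => i.1) := Subtype.val_injective
    have hbe := hb.eq_pe hp hinj
    by_cases h : ∀ i : PT K M, ex i.1 b ≤ 1
    · -- squarefree
      set T : Finset (Ideal (𝓞 K)) := (Finset.univ.filter fun i : PT K M => ex i.1 b = 1).image
        (fun i => i.1) with hT
      have hTp : ∀ p ∈ T, Prime p := by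
        intro p hp'
        rw [hT, Finset.mem_image] at hp'
        obtain ⟨i, -, rfl⟩ := hp'
        exact hp i
      have hbT : b = pd T := by
        refine hbe.symm.trans ?_
        unfold pd pe
        rw [hT, Finset.prod_image (fun i _ j _ hij => hinj hij), Finset.prod_filter]
        refine Finset.prod_congr rfl fun i _ => ?_
        have h1 := h i
        change i.1 ^ ex i.1 b = _
        by_cases h2 : ex i.1 b = 1
        · rw [if_pos h2, h2, pow_one]; rfl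
        · rw [if_neg h2]
          have h3 : ex i.1 b = 0 := by omega
          rw [h3, pow_zero]
      have h1 : mob b = (-1) ^ T.card := by
        rw [hbT]
        exact mob_pd hTp
      rw [h1, hT, Finset.card_image_of_injective _ hinj, ← Finset.prod_const, Finset.prod_filter]
      refine Finset.prod_congr rfl fun i _ => ?_
      have h1 := h i
      by_cases h2 : ex i.1 b = 1
      · rw [if_pos h2, h2]; simp
      · have h3 : ex i.1 b = 0 := by omega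
        rw [if_neg h2, h3]; simp
    · push Not at h
      obtain ⟨i, hi⟩ := h
      rw [Finset.prod_eq_zero (Finset.mem_univ i) (by
        rw [if_neg (by omega), if_neg (by omega)])]
      unfold mob
      rw [if_neg]
      intro hr
      -- `b` is not squarefree
      have h1 : ex i.1 b ≤ 1 := by
        rw [← hr]
        unfold ex
        have h2 : Squarefree (UniqueFactorizationMonoid.radical b) :=
          UniqueFactorizationMonoid.squarefree_radical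
        have h3 := (UniqueFactorizationMonoid.squarefree_iff_nodup_normalizedFactors
          UniqueFactorizationMonoid.radical_ne_zero).mp h2
        exact Multiset.nodup_iff_count_le_one.mp h3 _
      omega

/-- the Dirichlet polynomial with coefficients `g 𝔞 φ(log N𝔞 / R)` -/
noncomputable def Gd (g : Ideal (𝓞 K) → ℂ) (φ : ℝ → ℝ) (R : ℝ) (M₁ : ℕ)
    (ψ₀ lam : Ideal (𝓞 K) →*₀ ℂ) (s : ℂ) : ℂ :=
  dpo M₁ (fun 𝔞 => g 𝔞 * (φ (lN 𝔞 / R) : ℂ)) (pr ψ₀ lam) s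

lemma Gd_one (φ : ℝ → ℝ) (R : ℝ) (M₁ : ℕ) (ψ₀ lam : Ideal (𝓞 K) →*₀ ℂ) (s : ℂ) :
    Gd (fun _ => 1) φ R M₁ ψ₀ lam s = Dp φ R M₁ ψ₀ lam s := by
  unfold Gd Dp
  simp only [one_mul]

lemma Gd_mob (φ : ℝ → ℝ) (R : ℝ) (M₁ : ℕ) (ψ₀ lam : Ideal (𝓞 K) →*₀ ℂ) (s : ℂ) :
    Gd mob φ R M₁ ψ₀ lam s = Mp φ R M₁ ψ₀ lam s := rfl

lemma LSP.mono {E : Finset (Ideal (𝓞 K) →*₀ ℂ)} {ψ₀ : Ideal (𝓞 K) →*₀ ℂ} {H P : ℝ} {M M' : ℕ}
    (h : LSP E ψ₀ H P M) (hM : M' ≤ M) : LSP E ψ₀ H P M' := by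
  classical
  intro u t₁
  have h1 := h (fun 𝔞 => if 𝔞 ∈ SI K M' then u 𝔞 else 0) t₁
  have hsub : SI K M' ⊆ SI K M := fun 𝔞 h𝔞 => SI_of (SI_ne h𝔞) ((mem_SI.mp h𝔞).2.trans hM)
  have e1 : ∑ 𝔞 ∈ SI K M, ‖(if 𝔞 ∈ SI K M' then u 𝔞 else 0 : ℂ)‖ ^ 2 =
      ∑ 𝔞 ∈ SI K M', ‖u 𝔞‖ ^ 2 := by
    rw [← Finset.sum_subset hsub]
    · exact Finset.sum_congr rfl fun 𝔞 h𝔞 => by rw [if_pos h𝔞]
    · intro 𝔞 _ h𝔞
      rw [if_neg h𝔞]
      simp
  have e2 : ∀ (lam : Ideal (𝓞 K) →*₀ ℂ) (t : ℝ), ∑ 𝔞 ∈ SI K M,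
      (if 𝔞 ∈ SI K M' then u 𝔞 else 0 : ℂ) * pr ψ₀ lam 𝔞 * ph 𝔞 t =
      ∑ 𝔞 ∈ SI K M', u 𝔞 * pr ψ₀ lam 𝔞 * ph 𝔞 t := by
    intro lam t
    rw [← Finset.sum_subset hsub]
    · exact Finset.sum_congr rfl fun 𝔞 h𝔞 => by rw [if_pos h𝔞]
    · intro 𝔞 _ h𝔞
      rw [if_neg h𝔞]
      simp
  rw [e1] at h1
  simp only [e2] at h1
  exact h1

open Classical in
/-- **the mean square of a Dirichlet polynomial times the truncated exponential** -/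
theorem ls_TK (K : Type) [Field K] [NumberField K] {α₁ α₂ : ℝ} {φ : ℝ → ℝ}
    (hφ : Cutf α₁ α₂ φ) {k : ℕ} (hk : 32 * (24 * (Module.finrank ℚ K : ℝ)) ≤ k) (c : ℝ) :
    ∃ a : ℝ, 0 ≤ a ∧ ∀ (g : Ideal (𝓞 K) → ℂ) (γ : ℕ → ℂ) (s : ℝ), GS g γ s →
      ∀ (R δ Y w₁ : ℝ) (N : ℕ), 0 < R → 1 / 2 ≤ R * δ → δ ≤ 1 / 4 → 0 < Y → 1 / Y ≤ w₁ →
      w₁ ≤ 1 / 2 → 3200 * (24 * (Module.finrank ℚ K : ℝ)) * Real.log (1 + R) ≤ 2 * N → 1 ≤ N →
      ∀ (E : Finset (Ideal (𝓞 K) →*₀ ℂ)) (ψ₀ : Ideal (𝓞 K) →*₀ ℂ) (H P : ℝ), 0 ≤ H → 0 ≤ P →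
      LSP E ψ₀ H P (⌊Real.exp (α₂ * R)⌋₊ * ⌊Real.exp (N * Y)⌋₊) →
      ∀ t₀ v₁ : ℝ, JJ E (fun lam => Gd g φ R ⌊Real.exp (α₂ * R)⌋₊ ψ₀ lam)
        (fun lam z => TK N ((s : ℂ) * Pr 0 Y (pr ψ₀ lam) z)) (1 / 2 + δ - c / R) (1 / 2 + δ) H t₀ v₁ ≤
      ENNReal.ofReal (P * (a * (1 + R * w₁) ^ (2 * (24 * (Module.finrank ℚ K : ℝ)))) *
        (1 + R * |v₁|) ^ k) := by
  obtain ⟨g₁, h₁⟩ := hφ.fr c
  obtain ⟨C, hC0, hC⟩ := uu_sq (lN_norm K) h₁ hk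
  refine ⟨C, hC0, ?_⟩
  intro g γ s hg R δ Y w₁ N hR hRδ hδ hY hYw hw hN hN1 E ψ₀ H P hH hP hls t₀ v₁
  obtain ⟨M₁, hM₁⟩ : ∃ M₁ : ℕ, M₁ = ⌊Real.exp (α₂ * R)⌋₊ := ⟨_, rfl⟩
  obtain ⟨M₂, hM₂⟩ : ∃ M₂ : ℕ, M₂ = ⌊Real.exp (N * Y)⌋₊ := ⟨_, rfl⟩
  rw [← hM₁, ← hM₂] at hls
  rw [← hM₁]
  have hδ0 : 0 < δ := by
    by_contra h
    push Not at h
    nlinarith
  by_cases hM0 : M₁ = 0
  · -- no terms
    have e0 : SI K M₁ = ∅ := by
      rw [hM0, Finset.eq_empty_iff_forall_notMem]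
      intro 𝔞 h𝔞
      have := mem_SI.mp h𝔞
      omega
    have e1 : ∀ (lam : Ideal (𝓞 K) →*₀ ℂ) (z : ℂ), Gd g φ R M₁ ψ₀ lam z = 0 := by
      intro lam z
      unfold Gd dpo
      rw [e0, Finset.sum_empty]
    unfold JJ
    simp [e1]
  obtain ⟨M, hM⟩ : ∃ M : ℕ, M = M₁ * M₂ := ⟨_, rfl⟩
  rw [← hM] at hls
  have hM₂1 : ⌊Real.exp Y⌋₊ ≤ M₂ := by
    rw [hM₂]
    refine Nat.floor_le_floor (Real.exp_le_exp.mpr ?_)
    have : (1 : ℝ) ≤ N := by exact_mod_cast hN1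
    nlinarith
  have hM2 : ⌊Real.exp Y⌋₊ ≤ M := by
    rw [hM]
    exact hM₂1.trans (Nat.le_mul_of_pos_left _ (Nat.pos_of_ne_zero hM0))
  have hM₂0 : 1 ≤ M₂ := by
    rw [hM₂, Nat.one_le_floor_iff]
    exact Real.one_le_exp (by positivity)
  have hM₁M : M₁ ≤ M := by
    rw [hM]
    exact Nat.le_mul_of_pos_right _ hM₂0
  -- the weights
  set f₁ : ℝ → ℂ := fun y => ((φ y * Real.exp (c * y) : ℝ) : ℂ) with hf₁
  set x : ℝ := 1 / 2 + δ with hx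
  set G : Ideal (𝓞 K) → ℂ := fun 𝔟 => g 𝔟 * (f₁ (lN 𝔟 / R) * (Real.exp (-(x * lN 𝔟)) : ℂ)) with hG
  have hG0 : ∀ b, b ≠ 0 → b ∉ SI K M₁ → G b = 0 := by
    intro b hb hb2
    have h3 : α₂ * R ≤ lN b := by
      have h4 : ¬ lN b ≤ α₂ * R := by
        rw [lN_le_iff hb, ← hM₁]
        exact fun h => hb2 (SI_of hb h)
      linarith
    have h4 : φ (lN b / R) = 0 := by
      refine hφ.zero _ (le_trans ?_ (le_abs_self _))
      rw [le_div_iff₀ hR]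
      exact h3
    simp only [hG, hf₁, h4]
    simp
  set c' : PT K M → ℂ := fun i => (Real.exp (-(x * lN i.1)) : ℂ) * cf s 0 Y v₁ (lN i.1) with hc'
  have hprod : ∀ lam : Ideal (𝓞 K) →*₀ ℂ, ∀ t : ℝ, Gd g φ R M₁ ψ₀ lam (pt (x - c / R) t) *
      TK N ((s : ℂ) * Pr 0 Y (pr ψ₀ lam) (pt x (t - v₁))) =
      ∑ 𝔞 ∈ SI K M, uu N (fun i : PT K M => i.1) c' G 𝔞 * pr ψ₀ lam 𝔞 * ph 𝔞 t := by
    intro lam t
    have h1 := prod_dpo (K := K) (M := M) (M₁ := M₁) (N := N) (s := s) (η := 0) (Y := Y) (x := x)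
      (v := v₁) hY (by rw [← hM₂, hM]) hM2 (pr ψ₀ lam) G hG0 hM₁M t
    have h2 : Gd g φ R M₁ ψ₀ lam (pt (x - c / R) t) =
        ∑ 𝔞 ∈ SI K M₁, G 𝔞 * (pr ψ₀ lam 𝔞 * ph 𝔞 t) := by
      unfold Gd dpo
      refine Finset.sum_congr rfl fun 𝔞 _ => ?_
      rw [exp_pt]
      have e1 : ((φ (lN 𝔞 / R) : ℝ) : ℂ) * (Real.exp (-((x - c / R) * lN 𝔞)) : ℂ) =
          f₁ (lN 𝔞 / R) * (Real.exp (-(x * lN 𝔞)) : ℂ) := by
        simp only [hf₁]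
        rw [← Complex.ofReal_mul, ← Complex.ofReal_mul, mul_assoc, ← Real.exp_add]
        congr 3
        ring
      simp only [hG]
      rw [← e1]
      ring
    rw [h2, h1]
    refine Finset.sum_congr rfl fun 𝔞 _ => ?_
    ring
  have hsum : ∑ 𝔞 ∈ SI K M, ‖uu N (fun i : PT K M => i.1) c' G 𝔞‖ ^ 2 ≤
      C * ((1 + R * w₁) ^ (2 * (24 * (Module.finrank ℚ K : ℝ))) * (1 + R * |v₁|) ^ k) := by
    have hw0 : 0 ≤ w₁ := le_trans (by positivity) hYw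
    exact hC (PT K M) (fun i => i.1) (fun i => i.2.2) Subtype.val_injective γ s hg.hs hg.g0 hg.gle
      hg.g1 g (hg.gg M) N x R 0 Y w₁ v₁ (by rw [hx]; linarith) (by rw [hx]; linarith) hR
      (by
        rw [hx, div_le_iff₀ hR]
        nlinarith) le_rfl hY hw0 hYw hw hN (SI K M) fun 𝔞 h𝔞 => Sp_SI h𝔞
  have hJ : JJ E (fun lam => Gd g φ R M₁ ψ₀ lam) (fun lam z => TK N ((s : ℂ) * Pr 0 Y (pr ψ₀ lam) z))
      (x - c / R) x H t₀ v₁ = ENNReal.ofReal (∑ lam ∈ E, ∫ t in t₀..(t₀ + H),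
        ‖∑ 𝔞 ∈ SI K M, uu N (fun i : PT K M => i.1) c' G 𝔞 * pr ψ₀ lam 𝔞 * ph 𝔞 t‖ ^ 2) := by
    unfold JJ
    rw [ENNReal.ofReal_sum_of_nonneg]
    · refine Finset.sum_congr rfl fun lam _ => ?_
      rw [intervalIntegral.integral_of_le (by linarith), ← integral_Icc_eq_integral_Ioc,
        ofReal_integral_eq_lintegral_ofReal ?_ (Eventually.of_forall fun t => by positivity)]
      · refine lintegral_congr fun t => ?_
        rw [← hprod lam t, norm_mul, mul_pow]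
      · have hc : Continuous fun t : ℝ =>
            ‖∑ 𝔞 ∈ SI K M, uu N (fun i : PT K M => i.1) c' G 𝔞 * pr ψ₀ lam 𝔞 * ph 𝔞 t‖ ^ 2 := by
          unfold ph
          fun_prop
        exact hc.integrableOn_Icc
    · intro lam _
      exact intervalIntegral.integral_nonneg (by linarith) fun t _ => by positivity
  rw [hJ]
  refine ENNReal.ofReal_le_ofReal ?_
  refine (hls _ t₀).trans ?_
  calc P * ∑ 𝔞 ∈ SI K M, ‖uu N (fun i : PT K M => i.1) c' G 𝔞‖ ^ 2 ≤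
      P * (C * ((1 + R * w₁) ^ (2 * (24 * (Module.finrank ℚ K : ℝ))) * (1 + R * |v₁|) ^ k)) :=
        mul_le_mul_of_nonneg_left hsum hP
    _ = _ := by ring

end

end Pool.Agent.N786.E
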