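import Pool.Agent.N786.E.Cfs

/-!
# The mean square of the coefficients (owner helper786)
-/

set_option autoImplicit false
set_option linter.unusedSectionVars false

open UniqueFactorizationMonoid

namespace Pool.Agent.N786.E

open Pool.Agent.N786.D

section

variable {ι : Type} [Fintype ι]

variable {M : Type} [CommMonoidWithZero M] [NormalizationMonoid M] [UniqueFactorizationMonoid M]
  [Subsingleton Mˣ] [Nontrivial M]

lemma lp_pos {L : M → ℝ} {B₀ : ℝ} (hL : LNorm L B₀) {q : M} (hq : Prime q) : 0 < L q := by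
  have h4 := hL.prime q hq
  have hl2 : 0 < Real.log 2 := Real.log_pos (by norm_num)
  linarith

lemma hL_sum {L : M → ℝ} {B₀ : ℝ} (hL : LNorm L B₀) {p : ι → M} (hp : ∀ i, Prime (p i))
    (hinj : Function.Injective p) (σ : ℝ) (h1 : 1 < σ) (h2 : σ ≤ 2) :
    ∑ i, L (p i) * Real.exp (-(σ * L (p i))) ≤ B₀ / (σ - 1) := by
  classical
  have h := hL.sum (Finset.univ.image p) (fun q hq => by
    obtain ⟨i, -, rfl⟩ := Finset.mem_image.mp hq
    exact hp i) σ h1 h2
  rwa [Finset.sum_image fun i _ j _ hij => hinj hij] at h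

/-- sums over the primes -/
lemma psum_w {L : M → ℝ} {B₀ : ℝ} (hL : LNorm L B₀) {p : ι → M} (hp : ∀ i, Prime (p i))
    (hinj : Function.Injective p) {σ w : ℝ} (h1 : 1 < σ) (h2 : σ ≤ 3 / 2) (hw0 : 0 ≤ w)
    (hw : w ≤ 1 / 2) :
    ∑ i, (1 - Real.exp (-(w * L (p i)))) * Real.exp (-(σ * L (p i))) ≤
      B₀ * Real.log (1 + w / (σ - 1)) := by
  refine psum_int Finset.univ (fun i => L (p i)) (fun i _ => (lp_pos hL (hp i)).le) h1 hw0 ?_
  intro u hu0 hu1
  exact hL_sum hL hp hinj (σ + u) (by linarith) (by linarith)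

lemma psum_sq {L : M → ℝ} {B₀ : ℝ} (hL : LNorm L B₀) {p : ι → M} (hp : ∀ i, Prime (p i))
    (hinj : Function.Injective p) {σ : ℝ} (h1 : 1 ≤ σ) :
    ∑ i, Real.exp (-(σ * L (p i))) ^ 2 ≤ 2 * B₀ := by
  have hl2 : (1 / 2 : ℝ) ≤ Real.log 2 := by
    have := Real.log_two_gt_d9
    linarith
  calc ∑ i, Real.exp (-(σ * L (p i))) ^ 2 ≤ ∑ i, 2 * (L (p i) * Real.exp (-(2 * L (p i)))) := by
        refine Finset.sum_le_sum fun i _ => ?_
        have h3 := hL.prime (p i) (hp i)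
        have h4 := lp_pos hL (hp i)
        rw [← Real.exp_nat_mul]
        have h5 : Real.exp ((2 : ℕ) * -(σ * L (p i))) ≤ Real.exp (-(2 * L (p i))) := by
          refine Real.exp_le_exp.mpr ?_
          push_cast
          nlinarith
        refine h5.trans ?_
        have h6 := (Real.exp_pos (-(2 * L (p i)))).le
        nlinarith
    _ = 2 * ∑ i, L (p i) * Real.exp (-(2 * L (p i))) := by rw [Finset.mul_sum]
    _ ≤ 2 * (B₀ / (2 - 1)) :=
        mul_le_mul_of_nonneg_left (hL_sum hL hp hinj 2 (by norm_num) le_rfl) (by norm_num)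
    _ = _ := by norm_num

lemma psum_one {L : M → ℝ} {B₀ : ℝ} (hL : LNorm L B₀) {p : ι → M} (hp : ∀ i, Prime (p i))
    (hinj : Function.Injective p) {σ : ℝ} (h1 : 1 < σ) (h2 : σ ≤ 3 / 2) :
    ∑ i, Real.exp (-(σ * L (p i))) ≤ 4 * (B₀ * Real.log (1 + 1 / (σ - 1))) := by
  have hs : 0 < σ - 1 := by linarith
  have h3 : ∀ i, Real.exp (-(σ * L (p i))) ≤
      4 * ((1 - Real.exp (-(1 / 2 * L (p i)))) * Real.exp (-(σ * L (p i)))) := by
    intro i
    have h4 := hL.prime (p i) (hp i)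
    have h5 : Real.exp (-(1 / 2 * L (p i))) ≤ 3 / 4 := by
      have h3 : Real.exp (-(1 / 2 * L (p i))) ≤ Real.exp (-(1 / 2 * Real.log 2)) :=
        Real.exp_le_exp.mpr (by linarith)
      refine h3.trans ?_
      have h4 : Real.exp (-(1 / 2 * Real.log 2)) ^ 2 = 1 / 2 := by
        rw [← Real.exp_nat_mul]
        have : ((2 : ℕ) : ℝ) * -(1 / 2 * Real.log 2) = -Real.log 2 := by push_cast; ring
        rw [this, Real.exp_neg, Real.exp_log (by norm_num)]
        norm_num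
      nlinarith [Real.exp_pos (-(1 / 2 * Real.log 2))]
    have h6 := (Real.exp_pos (-(σ * L (p i)))).le
    nlinarith
  refine (Finset.sum_le_sum fun i _ => h3 i).trans ?_
  rw [← Finset.mul_sum]
  refine mul_le_mul_of_nonneg_left ?_ (by norm_num)
  refine (psum_w hL hp hinj h1 h2 (w := 1 / 2) (by norm_num) le_rfl).trans ?_
  refine mul_le_mul_of_nonneg_left (Real.log_le_log (by positivity) ?_) hL.B0
  gcongr
  norm_num

/-- the coefficient of a prime -/
noncomputable def cf (s : ℝ) (η Y v ℓ : ℝ) : ℂ :=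
  if ℓ ≤ Y then (s : ℂ) * ((Real.exp (-(η * ℓ)) : ℂ) *
    Complex.exp (((v * ℓ : ℝ) : ℂ) * Complex.I)) else 0

lemma cf_le {s η Y v ℓ : ℝ} (hs : s = 1 ∨ s = -1) (hη : 0 ≤ η) (hℓ : 0 ≤ ℓ) :
    ‖cf s η Y v ℓ‖ ≤ 1 := by
  unfold cf
  split_ifs
  · rw [norm_mul, norm_mul, Complex.norm_exp_ofReal_mul_I, mul_one]
    have h1 : ‖(s : ℂ)‖ = 1 := by
      rcases hs with rfl | rfl <;> simp
    rw [h1, one_mul, Complex.norm_real, Real.norm_of_nonneg (Real.exp_pos _).le,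
      Real.exp_le_one_iff]
    have := mul_nonneg hη hℓ
    linarith
  · rw [norm_zero]; exact zero_le_one

lemma loc1 {s η Y v ℓ θ w₁ : ℝ} (hs : s = 1 ∨ s = -1) (hη : 0 ≤ η) (hℓ : Real.log 2 ≤ ℓ)
    (hY : 0 < Y) (hw1 : η ≤ w₁) (hw2 : 1 / Y ≤ w₁) :
    ‖-(s : ℂ) * Complex.exp (((θ * ℓ : ℝ) : ℂ) * Complex.I) + cf s η Y v ℓ‖ ^ 2 ≤
      32 * (1 - Real.exp (-(min |θ - v| (1 / 2) * ℓ))) + 2 * (1 - Real.exp (-(w₁ * ℓ))) := by
  have hl2 : 0 < Real.log 2 := Real.log_pos (by norm_num)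
  have hℓ0 : 0 < ℓ := by linarith
  have h1s : ‖(s : ℂ)‖ = 1 := by
    rcases hs with rfl | rfl <;> simp
  have hw0 : 0 ≤ 1 - Real.exp (-(min |θ - v| (1 / 2) * ℓ)) := by
    rw [sub_nonneg, Real.exp_le_one_iff]
    have : 0 ≤ min |θ - v| (1 / 2) * ℓ := mul_nonneg (le_min (abs_nonneg _) (by norm_num)) hℓ0.le
    linarith
  unfold cf
  split_ifs with h
  · have e1 : -(s : ℂ) * Complex.exp (((θ * ℓ : ℝ) : ℂ) * Complex.I) +
        (s : ℂ) * ((Real.exp (-(η * ℓ)) : ℂ) * Complex.exp (((v * ℓ : ℝ) : ℂ) * Complex.I)) =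
        (s : ℂ) * Complex.exp (((v * ℓ : ℝ) : ℂ) * Complex.I) *
          ((1 - Complex.exp ((((θ - v) * ℓ : ℝ) : ℂ) * Complex.I)) -
            (1 - (Real.exp (-(η * ℓ)) : ℂ))) := by
      have e2 : Complex.exp (((θ * ℓ : ℝ) : ℂ) * Complex.I) =
          Complex.exp (((v * ℓ : ℝ) : ℂ) * Complex.I) *
          Complex.exp ((((θ - v) * ℓ : ℝ) : ℂ) * Complex.I) := by
        rw [← Complex.exp_add]
        congr 1
        push_cast
        ring
      rw [e2]
      ring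
    rw [e1, norm_mul, norm_mul, h1s, Complex.norm_exp_ofReal_mul_I, one_mul, one_mul]
    have h2 := norm_sub_le (1 - Complex.exp ((((θ - v) * ℓ : ℝ) : ℂ) * Complex.I))
      (1 - (Real.exp (-(η * ℓ)) : ℂ))
    have h3 := pow_le_pow_left₀ (norm_nonneg _) h2 2
    have h4 := local_bound (L := ℓ) (θ := θ - v) hℓ
    have h5 : ‖1 - (Real.exp (-(η * ℓ)) : ℂ)‖ ^ 2 ≤ 1 - Real.exp (-(w₁ * ℓ)) := by
      have e3 : (1 : ℂ) - (Real.exp (-(η * ℓ)) : ℂ) = ((1 - Real.exp (-(η * ℓ)) : ℝ) : ℂ) := by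
        push_cast; rfl
      have h6 : Real.exp (-(η * ℓ)) ≤ 1 := by
        rw [Real.exp_le_one_iff]
        have := mul_nonneg hη hℓ0.le
        linarith
      have h7 : Real.exp (-(w₁ * ℓ)) ≤ Real.exp (-(η * ℓ)) := by
        refine Real.exp_le_exp.mpr (neg_le_neg ?_)
        exact mul_le_mul_of_nonneg_right hw1 hℓ0.le
      have h8 := Real.exp_pos (-(η * ℓ))
      rw [e3, Complex.norm_real, Real.norm_of_nonneg (by linarith)]
      nlinarith
    nlinarith [sq_nonneg (‖1 - Complex.exp ((((θ - v) * ℓ : ℝ) : ℂ) * Complex.I)‖ -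
      ‖1 - (Real.exp (-(η * ℓ)) : ℂ)‖)]
  · rw [add_zero, norm_mul, norm_neg, h1s, Complex.norm_exp_ofReal_mul_I]
    push Not at h
    have h2 : Real.exp (-(w₁ * ℓ)) ≤ 1 / 2 := by
      have h3 : 1 ≤ w₁ * ℓ := by
        calc (1 : ℝ) = 1 / Y * Y := by field_simp
          _ ≤ w₁ * ℓ := mul_le_mul hw2 h.le hY.le (le_trans (by positivity) hw2)
      have h4 : Real.exp (-(w₁ * ℓ)) ≤ Real.exp (-1) := Real.exp_le_exp.mpr (by linarith)
      refine h4.trans ?_
      rw [Real.exp_neg, inv_le_comm₀ (Real.exp_pos _) (by norm_num)]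
      have := Real.add_one_le_exp (1 : ℝ)
      norm_num at this ⊢
      linarith
    nlinarith

/-- **the mean square of the coefficients** -/
theorem coef_final {L : M → ℝ} {B₀ : ℝ} (hL : LNorm L B₀) {p : ι → M} (hp : ∀ i, Prime (p i))
    (hinj : Function.Injective p) {γ : ℕ → ℂ} {s : ℝ} (hs : s = 1 ∨ s = -1) (hγ0 : γ 0 = 1)
    (hγ : ∀ e, ‖γ e‖ ≤ 1) (hγ1 : γ 1 = -(s : ℂ)) (K : ℕ) {σ R η Y w₁ : ℝ} (h1 : 1 < σ)
    (h2 : σ ≤ 3 / 2) (hR : 0 < R) (hR2 : 1 / R ≤ σ - 1) (hη : 0 ≤ η) (hY : 0 < Y)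
    (hw1 : η ≤ w₁) (hw2 : 1 / Y ≤ w₁) (hw3 : w₁ ≤ 1 / 2) (θ v : ℝ)
    (A : Finset M) (hA : ∀ a ∈ A, Sp p a) :
    ∑ a ∈ A, ‖UU K (fun i => cf s η Y v (L (p i))) γ
      (fun i => Complex.exp (((θ * L (p i) : ℝ) : ℂ) * Complex.I)) (fun i => ex (p i) a)‖ ^ 2 *
        Real.exp (-(σ * L a)) ≤
      2 * (Real.exp (36 * B₀) * (1 + R * w₁) ^ (2 * B₀) * (1 + R * |θ - v|) ^ (32 * B₀)) +
      2 * (Real.exp (-(2 * K)) * (1 + R) ^ (3200 * B₀)) := by
  have hB := hL.B0
  have hs1 : 0 < σ - 1 := by linarith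
  have hinv : 1 / (σ - 1) ≤ R := by
    rw [div_le_iff₀ hs1]
    rw [div_le_iff₀ hR] at hR2
    linarith
  have hdiv : ∀ w : ℝ, 0 ≤ w → w / (σ - 1) ≤ R * w := fun w hw => by
    rw [div_eq_mul_one_div, mul_comm]
    exact mul_le_mul_of_nonneg_right hinv hw
  have hw10 : 0 ≤ w₁ := hη.trans hw1
  have h3 := coef_sum hL hp hinj (γ := γ) hγ0 hγ
    (y := fun i => Complex.exp (((θ * L (p i) : ℝ) : ℂ) * Complex.I))
    (c := fun i => cf s η Y v (L (p i)))
    (fun i => Complex.norm_exp_ofReal_mul_I _)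
    (fun i => cf_le hs hη (lp_pos hL (hp i)).le) K h1.le A hA
  refine h3.trans ?_
  have hw : 0 ≤ min |θ - v| (1 / 2) := le_min (abs_nonneg _) (by norm_num)
  refine add_le_add (mul_le_mul_of_nonneg_left ?_ (by norm_num))
    (mul_le_mul_of_nonneg_left (mul_le_mul_of_nonneg_left ?_ (Real.exp_pos _).le) (by norm_num))
  · have h4 : ∑ i, (‖γ 1 * Complex.exp (((θ * L (p i) : ℝ) : ℂ) * Complex.I) +
        cf s η Y v (L (p i))‖ ^ 2 * Real.exp (-(σ * L (p i))) +
        18 * Real.exp (-(σ * L (p i))) ^ 2) ≤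
        32 * (B₀ * Real.log (1 + min |θ - v| (1 / 2) / (σ - 1))) +
        2 * (B₀ * Real.log (1 + w₁ / (σ - 1))) + 18 * (2 * B₀) := by
      have h5 := psum_w hL hp hinj h1 h2 hw (min_le_right _ _)
      have h6 := psum_w hL hp hinj h1 h2 hw10 hw3
      have h7 := psum_sq hL hp hinj h1.le
      calc _ ≤ ∑ i, (32 * ((1 - Real.exp (-(min |θ - v| (1 / 2) * L (p i)))) *
            Real.exp (-(σ * L (p i)))) + 2 * ((1 - Real.exp (-(w₁ * L (p i)))) *
            Real.exp (-(σ * L (p i)))) + 18 * Real.exp (-(σ * L (p i))) ^ 2) := by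
            refine Finset.sum_le_sum fun i _ => ?_
            rw [hγ1]
            have h8 := loc1 (θ := θ) (v := v) hs hη (hL.prime (p i) (hp i)) hY hw1 hw2
            have h9 := mul_le_mul_of_nonneg_right h8 (Real.exp_pos (-(σ * L (p i)))).le
            linarith
        _ = 32 * ∑ i, (1 - Real.exp (-(min |θ - v| (1 / 2) * L (p i)))) *
            Real.exp (-(σ * L (p i))) + 2 * ∑ i, (1 - Real.exp (-(w₁ * L (p i)))) *
            Real.exp (-(σ * L (p i))) + 18 * ∑ i, Real.exp (-(σ * L (p i))) ^ 2 := by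
            rw [Finset.sum_add_distrib, Finset.sum_add_distrib, Finset.mul_sum, Finset.mul_sum,
              Finset.mul_sum]
        _ ≤ _ := by linarith
    refine (Real.exp_le_exp.mpr h4).trans ?_
    have g1 : 0 < 1 + R * w₁ := by positivity
    have g2 : 0 < 1 + R * |θ - v| := by positivity
    rw [Real.rpow_def_of_pos g1, Real.rpow_def_of_pos g2, ← Real.exp_add, ← Real.exp_add]
    refine Real.exp_le_exp.mpr ?_
    have e1 : Real.log (1 + min |θ - v| (1 / 2) / (σ - 1)) ≤ Real.log (1 + R * |θ - v|) := by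
      refine Real.log_le_log (by positivity) ?_
      have := hdiv _ hw
      have h8 : R * min |θ - v| (1 / 2) ≤ R * |θ - v| :=
        mul_le_mul_of_nonneg_left (min_le_left _ _) hR.le
      linarith
    have e2 : Real.log (1 + w₁ / (σ - 1)) ≤ Real.log (1 + R * w₁) := by
      refine Real.log_le_log (by positivity) ?_
      have := hdiv _ hw10
      linarith
    have e3 := mul_le_mul_of_nonneg_left e1 hB
    have e4 := mul_le_mul_of_nonneg_left e2 hB
    nlinarith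
  · rw [← Finset.mul_sum]
    have h4 := psum_one hL hp hinj h1 h2
    have g1 : 0 < 1 + R := by positivity
    rw [Real.rpow_def_of_pos g1]
    refine Real.exp_le_exp.mpr ?_
    have e1 : Real.log (1 + 1 / (σ - 1)) ≤ Real.log (1 + R) := by
      refine Real.log_le_log (by positivity) ?_
      linarith
    have e3 := mul_le_mul_of_nonneg_left e1 hB
    nlinarith

end

end Pool.Agent.N786.E
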