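import Pool.Agent.N786.E.Star
import Pool.Agent.N786.E.Psum
import Pool.Agent.N786.D.Ser
import Pool.Agent.Y772.NZ.Zeta

/-!
# Sums over the prime ideals (owner helper786)
-/

set_option autoImplicit false
set_option linter.unusedSectionVars false

open NumberField Filter Topology Set UniqueFactorizationMonoid

namespace Pool.Agent.N786.E

open Pool.Agent.N786
open Pool.Agent.N786.D
open Pool.Agent.Y772.DK
open Pool.Agent.Y772.NZ
open Pool.Agent.Y773 (LI VM)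

section

variable (K : Type) [Field K] [NumberField K]

lemma LI_real {σ : ℝ} (h : 1 < σ) : LI (one K) (σ : ℂ) = ((∑' 𝔞, nr K σ 𝔞 : ℝ) : ℂ) := by
  unfold LI
  rw [Complex.ofReal_tsum]
  refine tsum_congr fun 𝔞 => ?_
  rcases eq_or_ne 𝔞 0 with rfl | h0
  · rw [map_zero, zero_mul]
    unfold nr
    rw [Ideal.zero_eq_bot, Ideal.absNorm_bot, Nat.cast_zero, Real.zero_rpow (by linarith)]
    simp
  · rw [one_ne K h0, one_mul]
    unfold nr
    rw [Complex.ofReal_cpow (Nat.cast_nonneg _)]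
    push_cast
    rfl

lemma zeta_ge_one {σ : ℝ} (h : 1 < σ) : 1 ≤ ∑' 𝔞, nr K σ 𝔞 := by
  have h1 := (nr_summable K h).sum_le_tsum {1} (fun 𝔞 _ => nr_nonneg K σ 𝔞)
  rw [Finset.sum_singleton] at h1
  have h2 : nr K σ 1 = 1 := by
    unfold nr
    rw [map_one]
    simp
  rwa [h2] at h1

lemma zeta_anti {σ σ' : ℝ} (h : 1 < σ) (h' : σ ≤ σ') :
    ∑' 𝔞, nr K σ' 𝔞 ≤ ∑' 𝔞, nr K σ 𝔞 := by
  refine (nr_summable K (lt_of_lt_of_le h h')).tsum_le_tsum (fun 𝔞 => ?_) (nr_summable K h)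
  rcases eq_or_ne 𝔞 0 with rfl | h0
  · unfold nr
    rw [Ideal.zero_eq_bot, Ideal.absNorm_bot, Nat.cast_zero, Real.zero_rpow (by linarith),
      Real.zero_rpow (by linarith)]
  · exact nr_anti h' h0

/-- the pole of the zeta function -/
lemma zeta_near : ∃ C : ℝ, 0 ≤ C ∧ ∀ η : ℝ, 0 < η → η ≤ 1 →
    |Real.log (∑' 𝔞, nr K (1 + η) 𝔞) - Real.log (1 / η)| ≤ C := by
  obtain ⟨g, hg, hg1, hgz⟩ := near_one K
  have hgn : 0 < ‖g 1‖ := norm_pos_iff.mpr hg1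
  have hgb : ∀ᶠ z in 𝓝 (1 : ℂ), ‖g z‖ < 2 * ‖g 1‖ :=
    hg.continuousAt.norm.eventually_lt_const (by linarith)
  have hgl : ∀ᶠ z in 𝓝 (1 : ℂ), ‖g 1‖ / 2 < ‖g z‖ :=
    hg.continuousAt.norm.eventually_const_lt (by linarith)
  have ht : Tendsto (fun σ : ℝ => ((1 + σ : ℝ) : ℂ)) (𝓝[>] 0) (𝓝 (1 : ℂ)) := by
    have : Continuous (fun σ : ℝ => ((1 + σ : ℝ) : ℂ)) := by fun_prop
    have h0 := this.tendsto 0
    simp only [add_zero, Complex.ofReal_one] at h0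
    exact h0.mono_left nhdsWithin_le_nhds
  have hev : ∀ᶠ η : ℝ in 𝓝[>] 0, ‖g 1‖ / 2 / η < ∑' 𝔞, nr K (1 + η) 𝔞 ∧
      ∑' 𝔞, nr K (1 + η) 𝔞 < 2 * ‖g 1‖ / η := by
    filter_upwards [ht.eventually hgb, ht.eventually hgl, ht.eventually hgz,
      self_mem_nhdsWithin] with η h1 h2 h3 hη
    have hη' : (0 : ℝ) < η := hη
    have h4 := h3 (by rw [Complex.ofReal_re]; linarith)
    rw [LI_real K (by linarith)] at h4
    have h5 := congrArg norm h4
    rw [Complex.norm_real, Real.norm_of_nonneg (tsum_nonneg fun 𝔞 => nr_nonneg K _ 𝔞),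
      norm_div] at h5
    have h6 : ‖((1 + η : ℝ) : ℂ) - 1‖ = η := by
      have : ((1 + η : ℝ) : ℂ) - 1 = (η : ℂ) := by push_cast; ring
      rw [this, Complex.norm_real, Real.norm_of_nonneg hη'.le]
    rw [h6] at h5
    rw [h5]
    exact ⟨by gcongr, by gcongr⟩
  obtain ⟨η₀, hη₀, hev2⟩ := (nhdsGT_basis (0 : ℝ)).eventually_iff.mp hev
  obtain ⟨η₁, hη₁⟩ : ∃ η₁ : ℝ, η₁ = min (η₀ / 2) 1 := ⟨_, rfl⟩
  have hη10 : 0 < η₁ := by rw [hη₁]; exact lt_min (by linarith) one_pos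
  have hη11 : η₁ ≤ 1 := by rw [hη₁]; exact min_le_right _ _
  have hη1h : η₁ < η₀ := by
    have : η₁ ≤ η₀ / 2 := by rw [hη₁]; exact min_le_left _ _
    linarith
  refine ⟨max (max |Real.log (‖g 1‖ / 2)| |Real.log (2 * ‖g 1‖)|)
    (Real.log (∑' 𝔞, nr K (1 + η₁) 𝔞) + Real.log (1 / η₁)), ?_, ?_⟩
  · exact le_max_of_le_left (le_max_of_le_left (abs_nonneg _))
  intro η h0 h1
  rcases lt_or_ge η η₁ with h | h
  · obtain ⟨a1, a2⟩ := hev2 ⟨h0, h.trans hη1h⟩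
    have hz0 : 0 < ∑' 𝔞, nr K (1 + η) 𝔞 := lt_of_lt_of_le one_pos (zeta_ge_one K (by linarith))
    have b1 := (Real.log_lt_log (by positivity) a1).le
    have b2 := (Real.log_lt_log hz0 a2).le
    rw [div_eq_mul_one_div (‖g 1‖ / 2) η, Real.log_mul (by positivity) (by positivity)] at b1
    rw [div_eq_mul_one_div (2 * ‖g 1‖) η, Real.log_mul (by positivity) (by positivity)] at b2
    refine le_max_of_le_left ?_
    rw [abs_le]
    constructor
    · have := neg_abs_le (Real.log (‖g 1‖ / 2))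
      have h3 := le_max_left |Real.log (‖g 1‖ / 2)| |Real.log (2 * ‖g 1‖)|
      linarith
    · have := le_abs_self (Real.log (2 * ‖g 1‖))
      have h3 := le_max_right |Real.log (‖g 1‖ / 2)| |Real.log (2 * ‖g 1‖)|
      linarith
  · refine le_max_of_le_right ?_
    have c1 : 0 ≤ Real.log (∑' 𝔞, nr K (1 + η) 𝔞) :=
      Real.log_nonneg (zeta_ge_one K (by linarith))
    have c2 : Real.log (∑' 𝔞, nr K (1 + η) 𝔞) ≤ Real.log (∑' 𝔞, nr K (1 + η₁) 𝔞) :=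
      Real.log_le_log (lt_of_lt_of_le one_pos (zeta_ge_one K (by linarith)))
        (zeta_anti K (by linarith) (by linarith))
    have c3 : 0 ≤ Real.log (1 / η) := Real.log_nonneg (by
      rw [le_div_iff₀ h0]; linarith)
    have c4 : Real.log (1 / η) ≤ Real.log (1 / η₁) :=
      Real.log_le_log (by positivity) (one_div_le_one_div_of_le hη10 h)
    rw [abs_le]
    constructor <;> linarith

lemma nr_prime {𝔭 : Ideal (𝓞 K)} (h : 𝔭 ≠ 0) (σ : ℝ) : nr K σ 𝔭 = Real.exp (-(σ * lN 𝔭)) := by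
  rw [lN_exp h]
  rfl

/-- sums over the primes: the upper bound -/
theorem psum_up : ∃ C : ℝ, 0 ≤ C ∧ ∀ η : ℝ, 0 < η → η ≤ 1 → ∀ S : Finset (Ideal (𝓞 K)),
    (∀ 𝔭 ∈ S, Prime 𝔭) → ∑ 𝔭 ∈ S, Real.exp (-((1 + η) * lN 𝔭)) ≤ Real.log (1 / η) + C := by
  obtain ⟨C, hC, H⟩ := zeta_near K
  refine ⟨C, hC, fun η h0 h1 S hS => ?_⟩
  have h2 := (abs_le.mp (H η h0 h1)).2
  have hσ : 1 < 1 + η := by linarith
  have hs : 1 < (((1 + η : ℝ)) : ℂ).re := by rw [Complex.ofReal_re]; exact hσ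
  have h3 := LI_eq_exp (one K) (one_norm K) hs
  rw [LI_real K hσ] at h3
  -- the logarithm
  set f : Ideal (𝓞 K) → ℝ := fun 𝔞 => VM 𝔞 / Real.log (Ideal.absNorm 𝔞) * nr K (1 + η) 𝔞 with hf
  have e1 : ∀ 𝔞, ee (one K) 𝔞 * ((Ideal.absNorm 𝔞 : ℕ) : ℂ) ^ (-((1 + η : ℝ) : ℂ)) = ((f 𝔞 : ℝ) : ℂ) := by
    intro 𝔞
    rcases eq_or_ne 𝔞 0 with rfl | h0'
    · rw [ee_zero, zero_mul, hf]
      simp only
      unfold nr
      rw [Ideal.zero_eq_bot, Ideal.absNorm_bot, Nat.cast_zero, Real.zero_rpow (by linarith)]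
      simp
    · unfold ee
      rw [one_ne K h0', mul_one, hf]
      simp only
      unfold nr
      rw [Complex.ofReal_mul, Complex.ofReal_cpow (Nat.cast_nonneg _)]
      push_cast
      rfl
  have hf0 : ∀ 𝔞, 0 ≤ f 𝔞 := fun 𝔞 =>
    mul_nonneg (div_nonneg (VM_nonneg _) (Real.log_natCast_nonneg _)) (nr_nonneg K _ _)
  have hfs : Summable f := by
    have := term_summable (ee_zero (one K)) (ee_le (one K) (one_norm K)) hs
    refine this.congr fun 𝔞 => ?_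
    rw [e1, Complex.norm_real, Real.norm_of_nonneg (hf0 𝔞)]
  have e2 : LA (ee (one K)) ((1 + η : ℝ) : ℂ) = ((∑' 𝔞, f 𝔞 : ℝ) : ℂ) := by
    unfold LA
    rw [Complex.ofReal_tsum]
    exact tsum_congr e1
  rw [e2, ← Complex.ofReal_exp] at h3
  have h4 : ∑' 𝔞, nr K (1 + η) 𝔞 = Real.exp (∑' 𝔞, f 𝔞) := by exact_mod_cast h3
  rw [h4, Real.log_exp] at h2
  have h5 := hfs.sum_le_tsum S (fun 𝔞 _ => hf0 𝔞)
  have h6 : ∑ 𝔭 ∈ S, Real.exp (-((1 + η) * lN 𝔭)) = ∑ 𝔭 ∈ S, f 𝔭 := by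
    refine Finset.sum_congr rfl fun 𝔭 hp => ?_
    have hp1 := hS 𝔭 hp
    rw [hf]
    simp only
    rw [nr_prime K hp1.ne_zero]
    have h7 := VM_pow hp1 one_ne_zero
    rw [pow_one] at h7
    have h8 : 0 < Real.log (Ideal.absNorm 𝔭 : ℝ) := lp_pos (lN_norm K) hp1
    rw [h7, div_self h8.ne', one_mul]
  rw [h6]
  linarith

/-- sums over the primes: the lower bound -/
theorem psum_lo : ∃ C : ℝ, 0 ≤ C ∧ ∀ η : ℝ, 0 < η → η ≤ 1 → ∃ S : Finset (Ideal (𝓞 K)),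
    (∀ 𝔭 ∈ S, Prime 𝔭) ∧ Real.log (1 / η) - C ≤ ∑ 𝔭 ∈ S, Real.exp (-((1 + η) * lN 𝔭)) := by
  classical
  obtain ⟨C, hC, H⟩ := zeta_near K
  refine ⟨C + 1 + 4 * (24 * Module.finrank ℚ K), by positivity, fun η h0 h1 => ?_⟩
  have h2 := (abs_le.mp (H η h0 h1)).1
  have hσ : 1 < 1 + η := by linarith
  have hz1 := zeta_ge_one K hσ
  obtain ⟨Z, hZ⟩ : ∃ Z : ℝ, Z = ∑' 𝔞, nr K (1 + η) 𝔞 := ⟨_, rfl⟩
  rw [← hZ] at h2 hz1
  obtain ⟨A, hA⟩ : ∃ A : Finset (Ideal (𝓞 K)), Z / 2 < ∑ 𝔞 ∈ A, nr K (1 + η) 𝔞 := by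
    have h3 := (nr_summable K hσ).hasSum
    rw [← hZ] at h3
    exact (h3.eventually (Ioi_mem_nhds (show Z / 2 < Z by linarith))).exists
  have hA' : Z / 2 < ∑ 𝔞 ∈ A.erase 0, Real.exp (-((1 + η) * lN 𝔞)) := by
    refine lt_of_lt_of_le hA (le_of_eq ?_)
    have h3 : ∑ 𝔞 ∈ A.erase 0, nr K (1 + η) 𝔞 = ∑ 𝔞 ∈ A, nr K (1 + η) 𝔞 := by
      refine Finset.sum_erase _ ?_
      unfold nr
      rw [Ideal.zero_eq_bot, Ideal.absNorm_bot, Nat.cast_zero, Real.zero_rpow (by linarith)]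
    rw [← h3]
    exact Finset.sum_congr rfl fun 𝔞 ha => nr_prime K (Finset.ne_of_mem_erase ha) _
  set S : Finset (Ideal (𝓞 K)) := (A.erase 0).biUnion primeFactors with hS
  have hSp : ∀ p ∈ S, Prime p := by
    intro p hp
    rw [hS, Finset.mem_biUnion] at hp
    obtain ⟨a, -, ha⟩ := hp
    exact nf_prime ha
  refine ⟨S, hSp, ?_⟩
  set x : Ideal (𝓞 K) → ℝ := fun a => if a = 0 then 0 else Real.exp (-((1 + η) * lN a)) with hx
  have hxp : ∀ p, p ≠ 0 → x p = Real.exp (-((1 + η) * lN p)) := fun p hp => by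
    rw [hx]; simp only; rw [if_neg hp]
  have hxp2 : ∀ p, Prime p → x p ≤ 1 / 2 := fun p hp => by
    rw [hxp p hp.ne_zero]
    have h3 := (lN_norm K).prime p hp
    have hl2 : 0 < Real.log 2 := Real.log_pos (by norm_num)
    have h4 : Real.exp (-((1 + η) * lN p)) ≤ Real.exp (-Real.log 2) :=
      Real.exp_le_exp.mpr (by nlinarith)
    rw [Real.exp_neg (Real.log 2), Real.exp_log (by norm_num)] at h4
    linarith
  have hx0 : ∀ a, 0 ≤ x a := fun a => by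
    rw [hx]; simp only; split_ifs
    · exact le_rfl
    · exact (Real.exp_pos _).le
  have hL := lN_norm K
  have key := euler_le x (fun _ => 1) (by rw [hx]; simp only; rw [if_neg one_ne_zero, hL.one]; simp)
    (fun a b => by
      rw [hx]
      simp only
      rcases eq_or_ne a 0 with rfl | ha
      · simp
      rcases eq_or_ne b 0 with rfl | hb
      · simp
      rw [if_neg (mul_ne_zero ha hb), if_neg ha, if_neg hb, hL.mul a b ha hb, ← Real.exp_add]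
      congr 1
      ring) hx0 (fun a => zero_le_one) S hSp (fun p hp => lt_of_le_of_lt (hxp2 p (hSp p hp))
      (by norm_num)) (A.erase 0) (fun a ha => ⟨Finset.ne_of_mem_erase ha,
        Finset.subset_biUnion_of_mem _ ha⟩)
  have e1 : ∑ a ∈ A.erase 0, (∏ p ∈ primeFactors a, (fun _ : Ideal (𝓞 K) => (1 : ℝ)) p) * x a =
      ∑ a ∈ A.erase 0, Real.exp (-((1 + η) * lN a)) := by
    refine Finset.sum_congr rfl fun a ha => ?_
    rw [hxp a (Finset.ne_of_mem_erase ha)]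
    simp
  rw [e1] at key
  have h3 : ∏ p ∈ S, (1 + 1 * (x p / (1 - x p))) ≤
      Real.exp (∑ p ∈ S, (x p + 2 * x p ^ 2)) := by
    rw [Real.exp_sum]
    refine Finset.prod_le_prod (fun p hp => ?_) fun p hp => ?_
    · have := hxp2 p (hSp p hp)
      have := hx0 p
      have h5 : 0 < 1 - x p := by linarith
      positivity
    · have h4 := hxp2 p (hSp p hp)
      have h5 := hx0 p
      have h7 : 0 < 1 - x p := by linarith
      have h8 : x p / (1 - x p) ≤ x p + 2 * x p ^ 2 := by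
        rw [div_le_iff₀ h7]
        nlinarith [mul_nonneg h5 (mul_nonneg h5 (by linarith : (0 : ℝ) ≤ 1 - 2 * x p))]
      have h11 := Real.add_one_le_exp (x p + 2 * x p ^ 2)
      linarith
  have h4 : ∑ p ∈ S, x p ^ 2 ≤ 2 * (24 * Module.finrank ℚ K) := by
    have h5 := psum_sq (lN_norm K) (p := fun i : {x // x ∈ S} => (i : Ideal (𝓞 K)))
      (fun i => hSp i.1 i.2) Subtype.val_injective (σ := 1 + η) (by linarith)
    refine le_trans (le_of_eq ?_) h5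
    rw [← Finset.sum_coe_sort S]
    refine Finset.sum_congr rfl fun i _ => ?_
    rw [hxp _ (hSp i.1 i.2).ne_zero]
  have h5 : Z / 2 ≤ Real.exp (∑ p ∈ S, (x p + 2 * x p ^ 2)) := by linarith
  have h6 : Real.log (Z / 2) ≤ ∑ p ∈ S, (x p + 2 * x p ^ 2) := by
    rw [Real.log_le_iff_le_exp (by linarith)]
    exact h5
  rw [Finset.sum_add_distrib, ← Finset.mul_sum, Real.log_div (by linarith) (by norm_num)] at h6
  have h7 : ∑ p ∈ S, x p = ∑ 𝔭 ∈ S, Real.exp (-((1 + η) * lN 𝔭)) :=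
    Finset.sum_congr rfl fun p hp => hxp p (hSp p hp).ne_zero
  rw [h7] at h6
  have h8 : Real.log 2 ≤ 1 := by linarith [Real.log_two_lt_d9]
  linarith

/-- the number of the primes dividing an ideal -/
lemma card_dvd {𝔪 : Ideal (𝓞 K)} (h𝔪 : 𝔪 ≠ 0) (D : Finset (Ideal (𝓞 K)))
    (hD : ∀ 𝔭 ∈ D, Prime 𝔭 ∧ 𝔭 ∣ 𝔪) : (D.card : ℝ) ≤ 2 * lN 𝔪 := by
  have h1 : ∏ p ∈ D, p ∣ 𝔪 := Finset.prod_primes_dvd 𝔪 (fun p hp => (hD p hp).1) fun p hp => (hD p hp).2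
  obtain ⟨c, hc⟩ := h1
  have hc0 : c ≠ 0 := by
    rintro rfl
    rw [mul_zero] at hc
    exact h𝔪 hc
  have hp0 : ∏ p ∈ D, p ≠ 0 := Finset.prod_ne_zero_iff.mpr fun p hp => (hD p hp).1.ne_zero
  have h2 : lN 𝔪 = lN (∏ p ∈ D, p) + lN c := by
    conv_lhs => rw [hc]
    exact (lN_norm K).mul _ _ hp0 hc0
  have h3 : ∀ D' : Finset (Ideal (𝓞 K)), (∀ p ∈ D', Prime p) →
      (D'.card : ℝ) * Real.log 2 ≤ lN (∏ p ∈ D', p) := by
    classical
    intro D'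
    induction D' using Finset.induction_on with
    | empty =>
      intro _
      rw [Finset.prod_empty, (lN_norm K).one]
      simp
    | insert a s ha ih =>
      intro h
      rw [Finset.prod_insert ha, Finset.card_insert_of_notMem ha, (lN_norm K).mul _ _
        (h a (Finset.mem_insert_self _ _)).ne_zero (Finset.prod_ne_zero_iff.mpr fun p hp =>
          (h p (Finset.mem_insert_of_mem hp)).ne_zero)]
      have h5 := ih fun p hp => h p (Finset.mem_insert_of_mem hp)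
      have h6 := (lN_norm K).prime a (h a (Finset.mem_insert_self _ _))
      push_cast
      linarith
  have h4 := h3 D fun p hp => (hD p hp).1
  have h5 := lN_nonneg c
  have hl2 : (1 / 2 : ℝ) ≤ Real.log 2 := by
    have := Real.log_two_gt_d9
    linarith
  have h6 : (0 : ℝ) ≤ D.card := Nat.cast_nonneg _
  nlinarith

lemma sum_three : ∃ C : ℝ, 0 ≤ C ∧ ∀ S : Finset (Ideal (𝓞 K)), (∀ 𝔭 ∈ S, 𝔭 ≠ 0) →
    ∀ σ : ℝ, 3 / 2 ≤ σ → ∑ 𝔭 ∈ S, Real.exp (-(σ * lN 𝔭)) ≤ C := by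
  refine ⟨∑' 𝔞, nr K (3 / 2) 𝔞, tsum_nonneg fun 𝔞 => nr_nonneg K _ 𝔞, fun S hS σ hσ => ?_⟩
  calc ∑ 𝔭 ∈ S, Real.exp (-(σ * lN 𝔭)) ≤ ∑ 𝔭 ∈ S, nr K (3 / 2) 𝔭 := by
        refine Finset.sum_le_sum fun 𝔭 hp => ?_
        rw [nr_prime K (hS 𝔭 hp)]
        have := lN_nonneg 𝔭
        exact Real.exp_le_exp.mpr (by nlinarith)
    _ ≤ _ := (nr_summable K (by norm_num)).sum_le_tsum S fun 𝔞 _ => nr_nonneg K _ 𝔞

end

end Pool.Agent.N786.E
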