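import Pool.Agent.N786.E.Prm
import Pool.Agent.N786.E.Lst

/-!
# Sums over the prime ideals, II (owner helper786)
-/

set_option autoImplicit false
set_option linter.unusedSectionVars false

open NumberField Filter Topology Set UniqueFactorizationMonoid

namespace Pool.Agent.N786.E

open Pool.Agent.N786
open Pool.Agent.N786.D
open Pool.Agent.Y772.DK

section

variable {K : Type} [Field K] [NumberField K]

open Classical in
lemma sum_PQm {𝔪 : Ideal (𝓞 K)} {M : ℕ} (f : Ideal (𝓞 K) → ℝ) :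
    ∑ i : PQm 𝔪 M, f i.1 = ∑ 𝔭 ∈ (SI K M).filter fun 𝔭 => Prime 𝔭 ∧ IsCoprime 𝔭 𝔪, f 𝔭 := by
  rw [Finset.sum_subtype ((SI K M).filter fun 𝔭 => Prime 𝔭 ∧ IsCoprime 𝔭 𝔪)
    (p := fun 𝔭 => 𝔭 ∈ SI K M ∧ Prime 𝔭 ∧ IsCoprime 𝔭 𝔪) (fun x => by rw [Finset.mem_filter]) f]

lemma prime_dvd_of_not_coprime {𝔪 𝔭 : Ideal (𝓞 K)} (hp : Prime 𝔭) (h : ¬ IsCoprime 𝔭 𝔪) :
    𝔭 ∣ 𝔪 := by
  have hp' : 𝔭.IsPrime := Ideal.isPrime_of_prime hp
  have hmax : 𝔭.IsMaximal := hp'.isMaximal hp.ne_zero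
  rw [Ideal.dvd_iff_le]
  by_contra h1
  apply h
  rw [Ideal.isCoprime_iff_sup_eq]
  refine hmax.1.2 _ (lt_of_le_of_ne le_sup_left ?_)
  intro h2
  apply h1
  rw [h2]
  exact le_sup_right

end

variable (K : Type) [Field K] [NumberField K]

/-- **The sum over the primes** -/
theorem prm_main : ∃ C : ℝ, 1 ≤ C ∧ ∀ (𝔪 : Ideal (𝓞 K)) (R Y κ : ℝ), 𝔪 ≠ 0 → lN 𝔪 ≤ R →
    Real.exp 1 ≤ R → 1 / 2 ≤ κ → κ ≤ 2 * Real.log R → 2 * κ ≤ R → 4 * Real.log R ≤ Y → Y ≤ R →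
    ∑ i : PQm 𝔪 ⌊Real.exp Y⌋₊, Real.exp (-((1 + 2 * κ / R) * lN i.1)) ≤ Real.log R + C ∧
    Real.log R - C * (1 + Real.log (Real.log R)) - Real.log (R / Y) ≤
      ∑ i : PQm 𝔪 ⌊Real.exp Y⌋₊, Real.exp (-((1 + 2 * κ / R) * lN i.1)) := by
  classical
  obtain ⟨C₁, hC₁, hup⟩ := psum_up K
  obtain ⟨C₂, hC₂, hlo⟩ := psum_lo K
  refine ⟨C₂ + 4 * C₁ + 10, by linarith, ?_⟩
  intro 𝔪 R Y κ h𝔪 hmR hR hκ1 hκ2 hκR hY hYR
  have he1 := Real.exp_one_gt_d9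
  have hR0 : 0 < R := by linarith
  have hℓ : 1 ≤ Real.log R := by
    rw [Real.le_log_iff_exp_le hR0]; exact hR
  obtain ⟨ℓ, hℓd⟩ : ∃ ℓ : ℝ, ℓ = Real.log R := ⟨_, rfl⟩
  rw [← hℓd] at hℓ hκ2 hY ⊢
  have hℓ0 : 0 < ℓ := by linarith
  have hexpℓ : Real.exp ℓ = R := by rw [hℓd, Real.exp_log hR0]
  have hY0 : 0 < Y := by linarith
  have hM : ∀ 𝔭 : Ideal (𝓞 K), 𝔭 ≠ 0 → (𝔭 ∈ SI K ⌊Real.exp Y⌋₊ ↔ lN 𝔭 ≤ Y) := by
    intro 𝔭 h0
    rw [lN_le_iff h0]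
    exact ⟨fun h => (mem_SI.mp h).2, fun h => SI_of h0 h⟩
  rw [sum_PQm (fun 𝔭 => Real.exp (-((1 + 2 * κ / R) * lN 𝔭)))]
  constructor
  · have h1 : 0 < 2 * κ / R := by positivity
    have h2 : 2 * κ / R ≤ 1 := by rw [div_le_one hR0]; exact hκR
    refine (hup (2 * κ / R) h1 h2 _ fun 𝔭 hp => ((Finset.mem_filter.mp hp).2).1).trans ?_
    have h3 : Real.log (1 / (2 * κ / R)) ≤ ℓ := by
      rw [hℓd]
      refine Real.log_le_log (by positivity) ?_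
      rw [one_div_div, div_le_iff₀ (by linarith)]
      nlinarith
    linarith
  · obtain ⟨η, hη⟩ : ∃ η : ℝ, η = 4 * ℓ / Y := ⟨_, rfl⟩
    have hη0 : 0 < η := by rw [hη]; positivity
    have hη1 : η ≤ 1 := by rw [hη, div_le_one hY0]; exact hY
    obtain ⟨S, hS, hSlo⟩ := hlo η hη0 hη1
    have hlog : Real.log (1 / η) = ℓ - Real.log (R / Y) - Real.log 4 - Real.log ℓ := by
      rw [hη, one_div_div, Real.log_div hY0.ne' (by positivity), Real.log_mul (by norm_num) hℓ0.ne',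
        Real.log_div hR0.ne' hY0.ne', ← hℓd]
      ring
    have hlogℓ : 0 ≤ Real.log ℓ := Real.log_nonneg hℓ
    -- the three parts
    set S₁ := S.filter fun 𝔭 => Y < lN 𝔭 with hS₁
    set S₂ := (S.filter fun 𝔭 => lN 𝔭 ≤ Y).filter fun 𝔭 => 𝔭 ∣ 𝔪 with hS₂
    set S₃ := (S.filter fun 𝔭 => lN 𝔭 ≤ Y).filter fun 𝔭 => ¬ 𝔭 ∣ 𝔪 with hS₃
    have hsplit : ∑ 𝔭 ∈ S, Real.exp (-((1 + η) * lN 𝔭)) =
        ∑ 𝔭 ∈ S₁, Real.exp (-((1 + η) * lN 𝔭)) + (∑ 𝔭 ∈ S₂, Real.exp (-((1 + η) * lN 𝔭)) +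
          ∑ 𝔭 ∈ S₃, Real.exp (-((1 + η) * lN 𝔭))) := by
      rw [hS₂, hS₃, Finset.sum_filter_add_sum_filter_not, hS₁]
      have e : (S.filter fun 𝔭 => lN 𝔭 ≤ Y) = S.filter fun 𝔭 => ¬ Y < lN 𝔭 := by
        ext 𝔭
        simp only [Finset.mem_filter, not_lt]
      rw [e, Finset.sum_filter_add_sum_filter_not]
    have hb1 : ∑ 𝔭 ∈ S₁, Real.exp (-((1 + η) * lN 𝔭)) ≤ 1 + C₁ := by
      have h1 : ∀ 𝔭 ∈ S₁, Real.exp (-((1 + η) * lN 𝔭)) ≤
          Real.exp (-(2 * ℓ)) * Real.exp (-((1 + η / 2) * lN 𝔭)) := by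
        intro 𝔭 hp
        rw [hS₁, Finset.mem_filter] at hp
        rw [← Real.exp_add]
        refine Real.exp_le_exp.mpr ?_
        have h2 : 2 * ℓ = η / 2 * Y := by rw [hη]; field_simp; norm_num
        rw [h2]
        nlinarith [hp.2]
      refine (Finset.sum_le_sum h1).trans ?_
      rw [← Finset.mul_sum]
      have h2 := hup (η / 2) (by linarith) (by linarith) S₁ fun 𝔭 hp => hS 𝔭 (Finset.mem_filter.mp hp).1
      have h3 : Real.log (1 / (η / 2)) ≤ ℓ := by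
        rw [hℓd]
        refine Real.log_le_log (by positivity) ?_
        rw [hη, one_div_div, div_div_eq_mul_div, div_le_iff₀ (by positivity)]
        nlinarith
      have h4 : Real.exp (-(2 * ℓ)) * ℓ ≤ 1 := by
        have h5 := Real.add_one_le_exp (2 * ℓ)
        rw [Real.exp_neg, inv_mul_le_iff₀ (Real.exp_pos _)]
        linarith
      have h6 : Real.exp (-(2 * ℓ)) ≤ 1 := Real.exp_le_one_iff.mpr (by linarith)
      have h7 := Real.exp_pos (-(2 * ℓ))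
      calc Real.exp (-(2 * ℓ)) * ∑ 𝔭 ∈ S₁, Real.exp (-((1 + η / 2) * lN 𝔭)) ≤
          Real.exp (-(2 * ℓ)) * (ℓ + C₁) := mul_le_mul_of_nonneg_left (by linarith) h7.le
        _ ≤ 1 + C₁ := by nlinarith
    have hb2 : ∑ 𝔭 ∈ S₂, Real.exp (-((1 + η) * lN 𝔭)) ≤ 3 * (Real.log ℓ + C₁) + 2 := by
      have h1 : ∀ 𝔭 ∈ S₂, Real.exp (-((1 + η) * lN 𝔭)) ≤
          3 * Real.exp (-((1 + 1 / ℓ) * lN 𝔭)) + 1 / R := by
        intro 𝔭 _
        have h0 := lN_nonneg 𝔭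
        have h2 : Real.exp (-((1 + η) * lN 𝔭)) ≤ Real.exp (-(lN 𝔭)) :=
          Real.exp_le_exp.mpr (by nlinarith)
        refine h2.trans ?_
        rcases le_or_gt (lN 𝔭) ℓ with h | h
        · have h3 : Real.exp (-(lN 𝔭)) = Real.exp (lN 𝔭 / ℓ) * Real.exp (-((1 + 1 / ℓ) * lN 𝔭)) := by
            rw [← Real.exp_add]
            congr 1
            field_simp
            ring
          have h4 : Real.exp (lN 𝔭 / ℓ) ≤ 3 := by
            have h5 : lN 𝔭 / ℓ ≤ 1 := by rw [div_le_one hℓ0]; exact h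
            refine (Real.exp_le_exp.mpr h5).trans ?_
            linarith [Real.exp_one_lt_d9]
          rw [h3]
          have h6 := Real.exp_pos (-((1 + 1 / ℓ) * lN 𝔭))
          have h7 : 0 < 1 / R := by positivity
          nlinarith
        · have h3 : Real.exp (-(lN 𝔭)) ≤ 1 / R := by
            have h4 : Real.exp (-(lN 𝔭)) ≤ Real.exp (-ℓ) := Real.exp_le_exp.mpr (by linarith)
            rwa [Real.exp_neg ℓ, hexpℓ, inv_eq_one_div] at h4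
          have h6 := Real.exp_pos (-((1 + 1 / ℓ) * lN 𝔭))
          linarith
      refine (Finset.sum_le_sum h1).trans ?_
      rw [Finset.sum_add_distrib, ← Finset.mul_sum, Finset.sum_const, nsmul_eq_mul]
      have hS2p : ∀ 𝔭 ∈ S₂, Prime 𝔭 ∧ 𝔭 ∣ 𝔪 := by
        intro 𝔭 hp
        rw [hS₂, Finset.mem_filter, Finset.mem_filter] at hp
        exact ⟨hS 𝔭 hp.1.1, hp.2⟩
      have h2 := hup (1 / ℓ) (by positivity) (by rw [div_le_one hℓ0]; exact hℓ) S₂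
        fun 𝔭 hp => (hS2p 𝔭 hp).1
      rw [one_div_one_div] at h2
      have h3 := card_dvd K h𝔪 S₂ hS2p
      have h4 : (S₂.card : ℝ) * (1 / R) ≤ 2 := by
        rw [mul_one_div, div_le_iff₀ hR0]
        linarith
      linarith
    have hb3 : ∑ 𝔭 ∈ S₃, Real.exp (-((1 + η) * lN 𝔭)) ≤
        ∑ 𝔭 ∈ (SI K ⌊Real.exp Y⌋₊).filter fun 𝔭 => Prime 𝔭 ∧ IsCoprime 𝔭 𝔪,
          Real.exp (-((1 + 2 * κ / R) * lN 𝔭)) := by
      calc ∑ 𝔭 ∈ S₃, Real.exp (-((1 + η) * lN 𝔭)) ≤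
          ∑ 𝔭 ∈ S₃, Real.exp (-((1 + 2 * κ / R) * lN 𝔭)) := by
            refine Finset.sum_le_sum fun 𝔭 _ => Real.exp_le_exp.mpr ?_
            have h1 : 2 * κ / R ≤ η := by
              rw [hη, div_le_div_iff₀ hR0 hY0]
              nlinarith
            have h0 := lN_nonneg 𝔭
            nlinarith
        _ ≤ _ := by
            refine Finset.sum_le_sum_of_subset_of_nonneg ?_ fun _ _ _ => (Real.exp_pos _).le
            intro 𝔭 hp
            rw [hS₃, Finset.mem_filter, Finset.mem_filter] at hp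
            have hp1 := hS 𝔭 hp.1.1
            rw [Finset.mem_filter]
            refine ⟨(hM 𝔭 hp1.ne_zero).mpr hp.1.2, hp1, ?_⟩
            by_contra h
            exact hp.2 (prime_dvd_of_not_coprime hp1 h)
    have hlog4 : Real.log 4 ≤ 2 := by
      have : (4 : ℝ) = 2 ^ 2 := by norm_num
      rw [this, Real.log_pow]
      push_cast
      linarith [Real.log_two_lt_d9]
    rw [hsplit, hlog] at hSlo
    nlinarith [mul_nonneg hC₂ hlogℓ, mul_nonneg hC₁ hlogℓ]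

end Pool.Agent.N786.E
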