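import Pool.Agent.N786.Hls

/-!
# The large sieve for quotients of ideals (owner helper786)
-/

set_option autoImplicit false
set_option linter.unusedSectionVars false

open NumberField NumberField.Units MeasureTheory Complex Filter Topology Set

namespace Pool.Agent.N786.E

open Pool.Agent.N786
open Pool.Agent.Y773 (TPos rl)
open Pool.Agent.Y767

section mon

variable {T M : Type} [CommMonoid T] [CommMonoid M]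

/-- the value at a quotient -/
def qv (F : M →* ℂˣ) (A B : M) : ℂˣ := F A * (F B)⁻¹

/-- **Sum over the extensions of a character** -/
theorem bes_cls2 (hB : StBes) [IsCancelMul M] (π : T →* M) [Fintype (Cls π)] [DecidableEq (Cls π)]
    (F₀ : M →* ℂˣ) (Y : Finset (M →* ℂˣ)) (hY : ∀ F ∈ Y, ∀ a, F (π a) = F₀ (π a))
    {ι : Type} (S : Finset ι) (A B : ι → M) (a : ι → ℂ) :
    ∑ F ∈ Y, ‖∑ x ∈ S, a x * ((qv F (A x) (B x) : ℂˣ) : ℂ)‖ ^ 2 ≤ Fintype.card (Cls π) *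
      ∑ c : Cls π, ‖∑ x ∈ S.filter (fun x => cls π (A x) / cls π (B x) = c),
        a x * ((qv F₀ (A x) (B x) : ℂˣ) : ℂ)‖ ^ 2 := by
  classical
  choose! lam hlam using fun F (hF : F ∈ Y) => exists_lam π F F₀ (hY F hF)
  have hinj : Set.InjOn lam Y := by
    intro F hF F' hF' h
    ext x
    rw [hlam F hF, hlam F' hF', h]
  have h := bes_fin hB (Cls π) (Y.image lam)
    (fun c => ∑ x ∈ S.filter (fun x => cls π (A x) / cls π (B x) = c),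
      a x * ((qv F₀ (A x) (B x) : ℂˣ) : ℂ))
  rw [Finset.sum_image hinj] at h
  refine le_trans (le_of_eq ?_) h
  refine Finset.sum_congr rfl fun F hF => ?_
  congr 2
  rw [← Finset.sum_fiberwise S (fun x => cls π (A x) / cls π (B x))]
  refine Finset.sum_congr rfl fun c _ => ?_
  rw [Finset.sum_mul]
  refine Finset.sum_congr rfl fun x hx => ?_
  have e1 : qv F (A x) (B x) = qv F₀ (A x) (B x) * lam F c := by
    unfold qv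
    rw [hlam F hF (A x), hlam F hF (B x), ← (Finset.mem_filter.mp hx).2, map_div, mul_inv,
      div_eq_mul_inv]
    exact mul_mul_mul_comm _ _ _ _
  rw [e1]
  push_cast
  ring

end mon

section

variable {K : Type} [Field K] [NumberField K] [IsTotallyReal K]

open Classical in
/-- **Bessel's inequality** -/
theorem besM2 (U : UD K) {𝔪 𝔮 : Ideal (𝓞 K)} (h𝔪 : 𝔪 ≠ ⊤) (h𝔮 : 𝔮 ≠ ⊥) (h : 𝔮 ∣ 𝔪)
    [Fintype (Cls (pq 𝔪))] [Fintype (𝓞 K ⧸ 𝔮)ˣ] (ρ : ℝ)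
    (g : (Fin (rank K + 1) → ℝ) → ℂ) (hg : Continuous g) (hg0 : ∀ z, (∃ i, ρ < |z i|) → g z = 0)
    {ι : Type} (S : Finset ι) (A' B' : ι → Mq 𝔪) (yl : ι → ℝ)
    (hsep : ∀ i₀ i₁ i₂ : ι, i₀ ∈ S → i₁ ∈ S → i₂ ∈ S → ∀ (a₁ b₁ a₂ b₂ : Tq 𝔪)
      (m : Fin (rank K) → ℤ) (l : ℤ),
      pq 𝔪 a₁ * (A' i₁ * B' i₀) = pq 𝔪 b₁ * (A' i₀ * B' i₁) →
      pq 𝔪 a₂ * (A' i₂ * B' i₀) = pq 𝔪 b₂ * (A' i₀ * B' i₂) →
      gm h b₁ * (gm h a₁)⁻¹ * ∏ i, U.eG 𝔮 i ^ m i = gm h b₂ * (gm h a₂)⁻¹ →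
      (∀ i, |(U.yc (b₁ : 𝓞 K) i - U.yc (a₁ : 𝓞 K) i) + m i -
        (U.yc (b₂ : 𝓞 K) i - U.yc (a₂ : 𝓞 K) i)| ≤ 2 * ρ) →
      |yl i₁ + l - yl i₂| ≤ 2 * ρ → i₁ = i₂ ∧ l = 0 ∧ (a₁ = a₂ → b₁ = b₂ → m = 0))
    (Y : Finset (Mq 𝔪 →* ℂˣ))
    (par : (Mq 𝔪 →* ℂˣ) → ((𝓞 K ⧸ 𝔮)ˣ →* ℂˣ) × (Fin (rank K) → ℝ))
    (hpar : ∀ F ∈ Y, HasPar U h F (par F))
    (hpar2 : ∀ F ∈ Y, ∀ i, (((par F).1 (U.eG 𝔮 i) : ℂˣ) : ℂ) *
      cexp (2 * Real.pi * I * ((par F).2 i : ℂ)) = 1)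
    (Ks : Finset ℤ) (u : ι → ℂ) :
    ∑ F ∈ Y, ∑ k ∈ Ks, ‖FTg g k (par F).2‖ ^ 2 *
      ‖∑ x ∈ S, u x * cexp (2 * Real.pi * I * ((k * yl x : ℝ) : ℂ)) *
        ((qv F (A' x) (B' x) : ℂˣ) : ℂ)‖ ^ 2 ≤
    (Fintype.card (Cls (pq 𝔪)) : ℝ) * (Fintype.card (𝓞 K ⧸ 𝔮)ˣ * (∫ z, ‖g z‖ ^ 2) *
      ∑ x ∈ S, ‖u x‖ ^ 2) := by
  have hcan := Mq_cancel h𝔪
  have hB := Pool.Agent.Y287.HC.t_bes
  set P₀ := Y.image par with hP₀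
  -- one character for every parameter
  have hsel : ∀ p ∈ P₀, ∃ F ∈ Y, par F = p := fun p hp => Finset.mem_image.mp hp
  choose! Fp hFpY hFpp using hsel
  have h1 : ∑ F ∈ Y, ∑ k ∈ Ks, ‖FTg g k (par F).2‖ ^ 2 *
      ‖∑ x ∈ S, u x * cexp (2 * Real.pi * I * ((k * yl x : ℝ) : ℂ)) *
        ((qv F (A' x) (B' x) : ℂˣ) : ℂ)‖ ^ 2 =
      ∑ p ∈ P₀, ∑ k ∈ Ks, ‖FTg g k p.2‖ ^ 2 * ∑ F ∈ Y with par F = p,
      ‖∑ x ∈ S, u x * cexp (2 * Real.pi * I * ((k * yl x : ℝ) : ℂ)) *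
        ((qv F (A' x) (B' x) : ℂˣ) : ℂ)‖ ^ 2 := by
    rw [← Finset.sum_fiberwise_of_maps_to (s := Y) (t := P₀) (g := par)
      (fun F hF => Finset.mem_image_of_mem _ hF)]
    refine Finset.sum_congr rfl fun p _ => ?_
    rw [Finset.sum_comm]
    refine Finset.sum_congr rfl fun k _ => ?_
    rw [Finset.mul_sum]
    refine Finset.sum_congr rfl fun F hF => ?_
    rw [(Finset.mem_filter.mp hF).2]
  rw [h1]
  have h2 : ∀ p ∈ P₀, ∀ k ∈ Ks, ∑ F ∈ Y with par F = p,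
      ‖∑ x ∈ S, u x * cexp (2 * Real.pi * I * ((k * yl x : ℝ) : ℂ)) *
        ((qv F (A' x) (B' x) : ℂˣ) : ℂ)‖ ^ 2 ≤ (Fintype.card (Cls (pq 𝔪)) : ℝ) *
      ∑ c : Cls (pq 𝔪), ‖∑ x ∈ S.filter (fun x => cls (pq 𝔪) (A' x) / cls (pq 𝔪) (B' x) = c),
        u x * cexp (2 * Real.pi * I * ((k * yl x : ℝ) : ℂ)) *
          ((qv (Fp p) (A' x) (B' x) : ℂˣ) : ℂ)‖ ^ 2 := by
    intro p hp k _
    refine bes_cls2 hB (pq 𝔪) (Fp p) _ ?_ S A' B' _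
    intro F hF x
    obtain ⟨hFY, hFp⟩ := Finset.mem_filter.mp hF
    ext
    rw [hpar F hFY x, hpar _ (hFpY p hp) x, hFp, hFpp p hp]
  have h3 : ∀ c : Cls (pq 𝔪), ∑ p ∈ P₀, ∑ k ∈ Ks, ‖FTg g k p.2‖ ^ 2 *
      ‖∑ x ∈ S.filter (fun x => cls (pq 𝔪) (A' x) / cls (pq 𝔪) (B' x) = c),
        u x * cexp (2 * Real.pi * I * ((k * yl x : ℝ) : ℂ)) *
          ((qv (Fp p) (A' x) (B' x) : ℂˣ) : ℂ)‖ ^ 2 ≤
      Fintype.card (𝓞 K ⧸ 𝔮)ˣ * (∫ z, ‖g z‖ ^ 2) *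
        ∑ x ∈ S.filter (fun x => cls (pq 𝔪) (A' x) / cls (pq 𝔪) (B' x) = c), ‖u x‖ ^ 2 := by
    intro c
    rcases (S.filter (fun x => cls (pq 𝔪) (A' x) / cls (pq 𝔪) (B' x) = c)).eq_empty_or_nonempty
      with h0 | ⟨i₀, h0⟩
    · rw [h0]
      simp
    obtain ⟨hi₀S, hc0⟩ := Finset.mem_filter.mp h0
    have hex : ∀ x : ι, ∃ a b : Tq 𝔪, cls (pq 𝔪) (A' x) / cls (pq 𝔪) (B' x) = c →
        pq 𝔪 a * (A' x * B' i₀) = pq 𝔪 b * (A' i₀ * B' x) := by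
      intro x
      by_cases hc : cls (pq 𝔪) (A' x) / cls (pq 𝔪) (B' x) = c
      · have h5 : cls (pq 𝔪) (A' x * B' i₀) = cls (pq 𝔪) (A' i₀ * B' x) := by
          rw [map_mul, map_mul]
          exact div_eq_div_iff_mul_eq_mul.mp (hc.trans hc0.symm)
        obtain ⟨a, b, hab⟩ := cls_eq h5
        exact ⟨a, b, fun _ => hab⟩
      · exact ⟨1, 1, fun h => absurd h hc⟩
    choose A B hAB using hex
    -- the points and the characters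
    obtain ⟨f, hf⟩ : ∃ f : (((𝓞 K ⧸ 𝔮)ˣ →* ℂˣ) × (Fin (rank K) → ℝ)) × ℤ →
        ((𝓞 K ⧸ 𝔮)ˣ →* ℂˣ) × (Fin (rank K + 1) → ℝ),
      f = fun q => (q.1.1, (Fin.cons (q.2 : ℝ) q.1.2 : Fin (rank K + 1) → ℝ)) := ⟨_, rfl⟩
    have hfinj : Function.Injective f := by
      intro q q' hq
      rw [hf] at hq
      simp only [Prod.mk.injEq] at hq
      obtain ⟨q1, q2⟩ := hq
      rw [Fin.cons_inj] at q2
      obtain ⟨q3, q4⟩ := q2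
      have q5 : q.2 = q'.2 := by exact_mod_cast q3
      exact Prod.ext (Prod.ext q1 q4) q5
    have hbes := hB (rank K + 1) (𝓞 K ⧸ 𝔮)ˣ (Fin.cons 1 (U.eG 𝔮) : Fin (rank K + 1) → (𝓞 K ⧸ 𝔮)ˣ)
      ρ g hg hg0 ι (S.filter (fun x => cls (pq 𝔪) (A' x) / cls (pq 𝔪) (B' x) = c))
      (fun 𝔞 => gm h (B 𝔞) * (gm h (A 𝔞))⁻¹)
      (fun 𝔞 => (Fin.cons (yl 𝔞) (fun i => U.yc (B 𝔞 : 𝓞 K) i - U.yc (A 𝔞 : 𝓞 K) i) :
        Fin (rank K + 1) → ℝ))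
      (by
        intro x hx x' hx' m hm1 hm2
        obtain ⟨hxS, hxc⟩ := Finset.mem_filter.mp hx
        obtain ⟨hxS', hxc'⟩ := Finset.mem_filter.mp hx'
        rw [Fin.prod_univ_succ] at hm1
        simp only [Fin.cons_zero, one_zpow, one_mul, Fin.cons_succ] at hm1
        have hm3 := hm2 0
        simp only [Fin.cons_zero] at hm3
        have hm4 : ∀ i : Fin (rank K), |(U.yc (B x : 𝓞 K) i - U.yc (A x : 𝓞 K) i) +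
            m i.succ - (U.yc (B x' : 𝓞 K) i - U.yc (A x' : 𝓞 K) i)| ≤ 2 * ρ := by
          intro i
          have := hm2 i.succ
          simpa only [Fin.cons_succ] using this
        obtain ⟨k1, k2, k3⟩ := hsep i₀ x x' hi₀S hxS hxS' (A x) (B x) (A x') (B x')
          (fun i => m i.succ) (m 0) (hAB x hxc) (hAB x' hxc') hm1 hm4 hm3
        refine ⟨k1, ?_⟩
        have k4 := k3 (by rw [k1]) (by rw [k1])
        funext i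
        refine Fin.cases ?_ (fun j => ?_) i
        · exact k2
        · exact congrFun k4 j)
      ((P₀ ×ˢ Ks).map ⟨f, hfinj⟩) (by
        intro q hq i
        rw [Finset.mem_map] at hq
        obtain ⟨⟨p, k⟩, hpk, rfl⟩ := hq
        rw [Finset.mem_product] at hpk
        simp only [Function.Embedding.coeFn_mk, hf]
        refine Fin.cases ?_ (fun j => ?_) i
        · simp only [Fin.cons_zero, map_one, Units.val_one, one_mul]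
          rw [Complex.exp_eq_one_iff]
          exact ⟨k, by push_cast; ring⟩
        · simp only [Fin.cons_succ]
          have := hpar2 _ (hFpY p hpk.1) j
          rwa [hFpp p hpk.1] at this) u
    rw [Finset.sum_map, Finset.sum_product] at hbes
    refine le_trans (le_of_eq ?_) hbes
    refine Finset.sum_congr rfl fun p hp => Finset.sum_congr rfl fun k hk => ?_
    have e1 : ‖FTg g k p.2‖ = ‖∫ z : Fin (rank K + 1) → ℝ, g z *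
        cexp (-(2 * Real.pi * I * ((∑ i, (f (p, k)).2 i * z i : ℝ) : ℂ)))‖ := by
      rw [hf]
      rfl
    have hFp : HasPar U h (Fp p) p := by
      have := hpar _ (hFpY p hp)
      rwa [hFpp p hp] at this
    have e2 : ‖∑ x ∈ S.filter (fun x => cls (pq 𝔪) (A' x) / cls (pq 𝔪) (B' x) = c),
        u x * cexp (2 * Real.pi * I * ((k * yl x : ℝ) : ℂ)) *
          ((qv (Fp p) (A' x) (B' x) : ℂˣ) : ℂ)‖ =
      ‖∑ x ∈ S.filter (fun x => cls (pq 𝔪) (A' x) / cls (pq 𝔪) (B' x) = c), u x *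
        ((((f (p, k)).1 (gm h (B x) * (gm h (A x))⁻¹) : ℂˣ)) : ℂ) *
        cexp (2 * Real.pi * I * ((∑ i, (f (p, k)).2 i * (Fin.cons (yl x)
          (fun i => U.yc (B x : 𝓞 K) i - U.yc (A x : 𝓞 K) i) :
        Fin (rank K + 1) → ℝ) i : ℝ) : ℂ))‖ := by
      have e3 : ∀ x ∈ S.filter (fun x => cls (pq 𝔪) (A' x) / cls (pq 𝔪) (B' x) = c),
          u x * cexp (2 * Real.pi * I * ((k * yl x : ℝ) : ℂ)) *
            ((qv (Fp p) (A' x) (B' x) : ℂˣ) : ℂ) =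
          ((qv (Fp p) (A' i₀) (B' i₀) : ℂˣ) : ℂ) * (u x *
        ((((f (p, k)).1 (gm h (B x) * (gm h (A x))⁻¹) : ℂˣ)) : ℂ) *
        cexp (2 * Real.pi * I * ((∑ i, (f (p, k)).2 i * (Fin.cons (yl x)
          (fun i => U.yc (B x : 𝓞 K) i - U.yc (A x : 𝓞 K) i) :
        Fin (rank K + 1) → ℝ) i : ℝ) : ℂ))) := by
        intro x hx
        have hv := hFp.val (hAB x (Finset.mem_filter.mp hx).2)
        rw [map_mul, map_mul, Units.val_mul, Units.val_mul] at hv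
        have e5 : ((qv (Fp p) (A' x) (B' x) : ℂˣ) : ℂ) = ((qv (Fp p) (A' i₀) (B' i₀) : ℂˣ) : ℂ) *
            (((p.1 (gm h (B x) * (gm h (A x))⁻¹) : ℂˣ) : ℂ) * cexp (2 * Real.pi * I *
              ((∑ i, p.2 i * (U.yc (B x : 𝓞 K) i - U.yc (A x : 𝓞 K) i) : ℝ) : ℂ))) := by
          unfold qv
          rw [Units.val_mul, Units.val_mul, Units.val_inv_eq_inv_val, Units.val_inv_eq_inv_val]
          have n1 : ((Fp p (B' x) : ℂˣ) : ℂ) ≠ 0 := Units.ne_zero _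
          have n2 : ((Fp p (B' i₀) : ℂˣ) : ℂ) ≠ 0 := Units.ne_zero _
          field_simp
          linear_combination hv
        rw [e5, Fin.sum_univ_succ, hf]
        simp only [Fin.cons_zero, Fin.cons_succ]
        have e4 : cexp (2 * Real.pi * I * (((k : ℝ) * yl x +
            ∑ i, p.2 i * (U.yc (B x : 𝓞 K) i - U.yc (A x : 𝓞 K) i) : ℝ) : ℂ)) =
            cexp (2 * Real.pi * I * (((k : ℝ) * yl x : ℝ) : ℂ)) *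
            cexp (2 * Real.pi * I * ((∑ i, p.2 i * (U.yc (B x : 𝓞 K) i -
              U.yc (A x : 𝓞 K) i) : ℝ) : ℂ)) := by
          rw [← Complex.exp_add]
          congr 1
          push_cast
          ring
        rw [e4]
        ring
      have e6 : ‖((qv (Fp p) (A' i₀) (B' i₀) : ℂˣ) : ℂ)‖ = 1 := by
        unfold qv
        rw [Units.val_mul, Units.val_inv_eq_inv_val, norm_mul, norm_inv, hFp.norm_one h𝔪 h𝔮,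
          hFp.norm_one h𝔪 h𝔮, inv_one, mul_one]
      rw [Finset.sum_congr rfl e3, ← Finset.mul_sum, norm_mul, e6, one_mul]
    rw [e1, e2]
    rfl
  calc _ ≤ ∑ p ∈ P₀, ∑ k ∈ Ks, ‖FTg g k p.2‖ ^ 2 * ((Fintype.card (Cls (pq 𝔪)) : ℝ) *
      ∑ c : Cls (pq 𝔪), ‖∑ x ∈ S.filter (fun x => cls (pq 𝔪) (A' x) / cls (pq 𝔪) (B' x) = c),
        u x * cexp (2 * Real.pi * I * ((k * yl x : ℝ) : ℂ)) *
          ((qv (Fp p) (A' x) (B' x) : ℂˣ) : ℂ)‖ ^ 2) := by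
        refine Finset.sum_le_sum fun p hp => Finset.sum_le_sum fun k hk => ?_
        exact mul_le_mul_of_nonneg_left (h2 p hp k hk) (sq_nonneg _)
    _ = (Fintype.card (Cls (pq 𝔪)) : ℝ) * ∑ c : Cls (pq 𝔪), ∑ p ∈ P₀, ∑ k ∈ Ks,
        ‖FTg g k p.2‖ ^ 2 * ‖∑ x ∈ S.filter (fun x => cls (pq 𝔪) (A' x) / cls (pq 𝔪) (B' x) = c),
        u x * cexp (2 * Real.pi * I * ((k * yl x : ℝ) : ℂ)) *
          ((qv (Fp p) (A' x) (B' x) : ℂˣ) : ℂ)‖ ^ 2 := by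
        exact swap3 _ _ _ _ _ _
    _ ≤ (Fintype.card (Cls (pq 𝔪)) : ℝ) * ∑ c : Cls (pq 𝔪),
        Fintype.card (𝓞 K ⧸ 𝔮)ˣ * (∫ z, ‖g z‖ ^ 2) *
        ∑ x ∈ S.filter (fun x => cls (pq 𝔪) (A' x) / cls (pq 𝔪) (B' x) = c), ‖u x‖ ^ 2 := by
        refine mul_le_mul_of_nonneg_left (Finset.sum_le_sum fun c _ => h3 c) (Nat.cast_nonneg _)
    _ = _ := by
        rw [← Finset.mul_sum, Finset.sum_fiberwise]

/-- `(N(𝔞) / N(𝔟))^(-it)` -/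
noncomputable def ph2 (𝔞 𝔟 : Ideal (𝓞 K)) (t : ℝ) : ℂ := ph 𝔞 t * ph 𝔟 (-t)

lemma ph2_cont (𝔞 𝔟 : Ideal (𝓞 K)) : Continuous (ph2 𝔞 𝔟) := by
  unfold ph2
  exact (ph_cont 𝔞).mul ((ph_cont 𝔟).comp continuous_neg)

lemma norm_ph2 (𝔞 𝔟 : Ideal (𝓞 K)) (t : ℝ) : ‖ph2 𝔞 𝔟 t‖ = 1 := by
  unfold ph2
  rw [norm_mul, norm_ph, norm_ph, mul_one]

lemma ph2_add (𝔞 𝔟 : Ideal (𝓞 K)) (t t' : ℝ) : ph2 𝔞 𝔟 (t + t') = ph2 𝔞 𝔟 t * ph2 𝔞 𝔟 t' := by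
  unfold ph2
  rw [neg_add, ph_add, ph_add]
  ring

/-- the hybrid large sieve, for the quotients of the ideals prime to `𝔪` -/
theorem hls2 (U : UD K) (τ δ : ℝ) (hτ : 0 < τ) (hδ : 0 < δ) :
    ∃ V₀ C : ℝ, 1 ≤ V₀ ∧ 1 ≤ C ∧
    ∀ (𝔪 𝔮 : Ideal (𝓞 K)) (_ : 𝔪 ≠ ⊤) (_ : 𝔮 ≠ ⊥) (h : 𝔮 ∣ 𝔪)
      [Fintype (Cls (pq 𝔪))] [Fintype (𝓞 K ⧸ 𝔮)ˣ] (V L M : ℝ), V₀ ≤ V → 2 * Real.pi ≤ L →
      8 * Real.log M ≤ L → (C * (L / V)) ^ Module.finrank ℚ K * M ^ 3 < Ideal.absNorm 𝔮 →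
      ∀ {ι : Type} (S : Finset ι) (A B : ι → Mq 𝔪),
      (∀ i ∈ S, (Ideal.absNorm (A i : Ideal (𝓞 K)) : ℝ) ≤ M) →
      (∀ i ∈ S, (Ideal.absNorm (B i : Ideal (𝓞 K)) : ℝ) ≤ M) →
      (∀ i ∈ S, ∀ j ∈ S, A i * B j = A j * B i → i = j) →
      ∀ (Y : Finset (Mq 𝔪 →* ℂˣ))
        (par : (Mq 𝔪 →* ℂˣ) → ((𝓞 K ⧸ 𝔮)ˣ →* ℂˣ) × (Fin (rank K) → ℝ)),
      (∀ F ∈ Y, HasPar U h F (par F) ∧ par F ∈ U.PQ 𝔮 V) →
      ∀ (u : ι → ℂ) (t₁ : ℝ),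
      ∑ F ∈ Y, ∫ t in t₁..(t₁ + τ * V),
        ‖∑ i ∈ S, u i * ph2 (A i : Ideal (𝓞 K)) (B i : Ideal (𝓞 K)) t *
          ((qv F (A i) (B i) : ℂˣ) : ℂ)‖ ^ 2 ≤
      (Fintype.card (Cls (pq 𝔪)) : ℝ) * (Fintype.card (𝓞 K ⧸ 𝔮)ˣ *
        (V ^ rank K * V * (τ * (volume {θ | U.p θ ≤ 1}).toReal + δ)) * ∑ i ∈ S, ‖u i‖ ^ 2) := by
  classical
  have hp := normP_U U
  obtain ⟨ρ, hρ, Hb⟩ := bump_scaled hp hτ.le hδ
  obtain ⟨C, hC, Hs⟩ := sep_cls U 1 zero_le_one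
  refine ⟨8 * ρ, C * (2 * ρ), by linarith, by nlinarith, ?_⟩
  intro 𝔪 𝔮 h𝔪 h𝔮 h _ _ V L M hV hL hLM hCM ι S A B hSA hSB hinj Y par hpar u t₁
  have hpi := Real.pi_pos
  have hcan := Mq_cancel h𝔪
  have hρ0 : 0 < ρ := by linarith
  have hV0 : 0 < V := by linarith
  have hL0 : 0 < L := by linarith
  have hL1 : 1 ≤ L := by linarith [Real.pi_gt_three]
  obtain ⟨g, hg, hg0, hgF, hgI⟩ := Hb V L hV0 hL
  have h2ρ : 2 * (ρ / V) ≤ 1 / 4 := by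
    rw [mul_div_assoc', div_le_iff₀ hV0]
    linarith
  set κ : ℝ := 2 * (ρ / V) * L with hκ
  have hκ0 : 0 ≤ κ := by positivity
  have hκρ : 2 * (ρ / V) ≤ κ := by
    rw [hκ]
    exact le_mul_of_one_le_right (by positivity) hL1
  have hκC : (C * κ) ^ Module.finrank ℚ K * M ^ 3 < Ideal.absNorm 𝔮 := by
    have : C * κ = C * (2 * ρ) * (L / V) := by rw [hκ]; ring
    rwa [this]
  set δ₁ : ℝ := 2 * Real.pi / L with hδ₁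
  have hδ₁0 : 0 < δ₁ := by positivity
  set yl : ι → ℝ := fun i => -((Real.log (Ideal.absNorm (A i : Ideal (𝓞 K))) -
    Real.log (Ideal.absNorm (B i : Ideal (𝓞 K)))) / L) with hyl
  -- the norms
  have hN1 : ∀ 𝔞 : Mq 𝔪, (1 : ℝ) ≤ Ideal.absNorm (𝔞 : Ideal (𝓞 K)) := fun 𝔞 => by
    have : Ideal.absNorm (𝔞 : Ideal (𝓞 K)) ≠ 0 := by
      rw [Ne, Ideal.absNorm_eq_zero_iff]; exact Mq_ne_bot h𝔪 _
    exact_mod_cast Nat.one_le_iff_ne_zero.mpr this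
  have hlogN : ∀ 𝔞 : Mq 𝔪, (Ideal.absNorm (𝔞 : Ideal (𝓞 K)) : ℝ) ≤ M →
      0 ≤ Real.log (Ideal.absNorm (𝔞 : Ideal (𝓞 K))) ∧
      Real.log (Ideal.absNorm (𝔞 : Ideal (𝓞 K))) ≤ L / 8 := fun 𝔞 h𝔞 => by
    refine ⟨Real.log_nonneg (hN1 𝔞), ?_⟩
    have := Real.log_le_log (by linarith [hN1 𝔞]) h𝔞
    linarith
  have hlogM : ∀ 𝔞 𝔟 : Mq 𝔪, Real.log (Ideal.absNorm ((𝔞 * 𝔟 : Mq 𝔪) : Ideal (𝓞 K))) =
      Real.log (Ideal.absNorm (𝔞 : Ideal (𝓞 K))) + Real.log (Ideal.absNorm (𝔟 : Ideal (𝓞 K))) := by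
    intro 𝔞 𝔟
    have e : ((𝔞 * 𝔟 : Mq 𝔪) : Ideal (𝓞 K)) = (𝔞 : Ideal (𝓞 K)) * (𝔟 : Ideal (𝓞 K)) := rfl
    rw [e, map_mul, Nat.cast_mul, Real.log_mul (by linarith [hN1 𝔞]) (by linarith [hN1 𝔟])]
  have hM0 : ∀ 𝔞 : Mq 𝔪, (0 : ℝ) ≤ Ideal.absNorm (𝔞 : Ideal (𝓞 K)) := fun 𝔞 => Nat.cast_nonneg _
  have hM3 : ∀ 𝔞 𝔟 𝔠 : Mq 𝔪, (Ideal.absNorm (𝔞 : Ideal (𝓞 K)) : ℝ) ≤ M →
      (Ideal.absNorm (𝔟 : Ideal (𝓞 K)) : ℝ) ≤ M → (Ideal.absNorm (𝔠 : Ideal (𝓞 K)) : ℝ) ≤ M →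
      (Ideal.absNorm ((𝔞 * (𝔟 * 𝔠) : Mq 𝔪) : Ideal (𝓞 K)) : ℝ) ≤ M ^ 3 := by
    intro 𝔞 𝔟 𝔠 h1 h2 h3
    have e : ((𝔞 * (𝔟 * 𝔠) : Mq 𝔪) : Ideal (𝓞 K)) =
      (𝔞 : Ideal (𝓞 K)) * ((𝔟 : Ideal (𝓞 K)) * (𝔠 : Ideal (𝓞 K))) := rfl
    rw [e, map_mul, map_mul, Nat.cast_mul, Nat.cast_mul]
    have hMM : 0 ≤ M := (hM0 𝔞).trans h1
    calc (Ideal.absNorm (𝔞 : Ideal (𝓞 K)) : ℝ) * (Ideal.absNorm (𝔟 : Ideal (𝓞 K)) *
        Ideal.absNorm (𝔠 : Ideal (𝓞 K))) ≤ M * (M * M) := by gcongr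
      _ = M ^ 3 := by ring
  have hsep : ∀ i₀ i₁ i₂ : ι, i₀ ∈ S → i₁ ∈ S → i₂ ∈ S → ∀ (a₁ b₁ a₂ b₂ : Tq 𝔪)
      (m : Fin (rank K) → ℤ) (l : ℤ),
      pq 𝔪 a₁ * (A i₁ * B i₀) = pq 𝔪 b₁ * (A i₀ * B i₁) →
      pq 𝔪 a₂ * (A i₂ * B i₀) = pq 𝔪 b₂ * (A i₀ * B i₂) →
      gm h b₁ * (gm h a₁)⁻¹ * ∏ i, U.eG 𝔮 i ^ m i = gm h b₂ * (gm h a₂)⁻¹ →
      (∀ i, |(U.yc (b₁ : 𝓞 K) i - U.yc (a₁ : 𝓞 K) i) + m i -
        (U.yc (b₂ : 𝓞 K) i - U.yc (a₂ : 𝓞 K) i)| ≤ 2 * (ρ / V)) →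
      |yl i₁ + l - yl i₂| ≤ 2 * (ρ / V) → i₁ = i₂ ∧ l = 0 ∧ (a₁ = a₂ → b₁ = b₂ → m = 0) := by
    intro i₀ i₁ i₂ hS0 hS1 hS2 a₁ b₁ a₂ b₂ m l e1 e2 hg1 hy hl
    obtain ⟨n1, n2⟩ := hlogN _ (hSA i₁ hS1)
    obtain ⟨n3, n4⟩ := hlogN _ (hSA i₂ hS2)
    obtain ⟨n5, n6⟩ := hlogN _ (hSB i₁ hS1)
    obtain ⟨n7, n8⟩ := hlogN _ (hSB i₂ hS2)
    have hyl1 : yl i₁ - yl i₂ = -((Real.log (Ideal.absNorm (A i₁ : Ideal (𝓞 K))) -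
        Real.log (Ideal.absNorm (B i₁ : Ideal (𝓞 K))) -
        (Real.log (Ideal.absNorm (A i₂ : Ideal (𝓞 K))) -
        Real.log (Ideal.absNorm (B i₂ : Ideal (𝓞 K))))) / L) := by
      rw [hyl]; ring
    have hyl2 : |yl i₁ - yl i₂| ≤ 1 / 4 := by
      rw [hyl1, abs_neg, abs_div, abs_of_pos hL0, div_le_iff₀ hL0, abs_le]
      constructor <;> linarith
    have hl0 : l = 0 := by
      have h1 : |(l : ℝ)| < 1 := by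
        have h2 : (l : ℝ) = (yl i₁ + l - yl i₂) - (yl i₁ - yl i₂) := by ring
        rw [h2]
        refine (abs_sub _ _).trans_lt ?_
        linarith
      have h3 : |l| < 1 := by exact_mod_cast h1
      exact Int.abs_lt_one_iff.mp h3
    have hlogd : |Real.log (Ideal.absNorm ((A i₁ * (B i₂ * B i₀) : Mq 𝔪) : Ideal (𝓞 K))) -
        Real.log (Ideal.absNorm ((A i₂ * (B i₁ * B i₀) : Mq 𝔪) : Ideal (𝓞 K)))| ≤ κ := by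
      rw [hl0, Int.cast_zero, add_zero, hyl1, abs_neg, abs_div, abs_of_pos hL0,
        div_le_iff₀ hL0] at hl
      rw [hlogM, hlogM, hlogM, hlogM]
      refine le_trans (le_of_eq ?_) hl
      congr 1
      ring
    have e1' : pq 𝔪 a₁ * (A i₁ * (B i₂ * B i₀)) = pq 𝔪 b₁ * (A i₀ * (B i₁ * B i₂)) := by
      calc pq 𝔪 a₁ * (A i₁ * (B i₂ * B i₀)) = pq 𝔪 a₁ * (A i₁ * B i₀) * B i₂ := by
            rw [mul_assoc, mul_assoc, mul_comm (B i₂) (B i₀)]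
        _ = pq 𝔪 b₁ * (A i₀ * B i₁) * B i₂ := by rw [e1]
        _ = _ := by rw [mul_assoc, mul_assoc]
    have e2' : pq 𝔪 a₂ * (A i₂ * (B i₁ * B i₀)) = pq 𝔪 b₂ * (A i₀ * (B i₁ * B i₂)) := by
      calc pq 𝔪 a₂ * (A i₂ * (B i₁ * B i₀)) = pq 𝔪 a₂ * (A i₂ * B i₀) * B i₁ := by
            rw [mul_assoc, mul_assoc, mul_comm (B i₁) (B i₀)]
        _ = pq 𝔪 b₂ * (A i₀ * B i₂) * B i₁ := by rw [e2]
        _ = _ := by rw [mul_assoc, mul_assoc, mul_comm (B i₂) (B i₁)]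
    obtain ⟨x₁, x₂, k1, k2, k3, k4, x₀, k5, k6, k7⟩ := Hs 𝔪 𝔮 h𝔪 h (M ^ 3) κ (2 * (ρ / V)) hκ0 hκρ
      (by linarith) hκC (A i₀ * (B i₁ * B i₂)) (A i₁ * (B i₂ * B i₀)) (A i₂ * (B i₁ * B i₀))
      a₁ b₁ a₂ b₂ m e1' e2' (hM3 _ _ _ (hSA i₁ hS1) (hSB i₂ hS2) (hSB i₀ hS0))
      (hM3 _ _ _ (hSA i₂ hS2) (hSB i₁ hS1) (hSB i₀ hS0)) hg1 hy hlogd
    have hi : i₁ = i₂ := by
      refine hinj i₁ hS1 i₂ hS2 ?_
      have h5 : A i₁ * B i₂ * B i₀ = A i₂ * B i₁ * B i₀ := by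
        rw [mul_assoc, mul_assoc]; exact k4
      exact mul_right_cancel h5
    refine ⟨hi, hl0, fun ha hb => ?_⟩
    rw [← ha, ← hb, ← k6] at k7
    have hx12 : x₂ = x₁ := mul_left_cancel₀ (Tq_ne_zero h𝔪 a₁) k7
    rw [hx12] at k1
    have hx0 := tpos_ne k2
    have hv : ((∏ i, U.ε i ^ m i : (𝓞 K)ˣ) : 𝓞 K) = 1 :=
      mul_left_cancel₀ hx0 (k1.trans (mul_one x₁).symm)
    exact U.ind m (Units.ext (by rw [hv, Units.val_one]))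
  -- the sums over the translates
  set N := ⌊τ * V / δ₁⌋₊ + 1 with hN
  have hkey : ∀ s : ℝ, ∑ F ∈ Y, ∑ k ∈ Finset.range N,
      ‖∑ i ∈ S, u i * ph2 (A i : Ideal (𝓞 K)) (B i : Ideal (𝓞 K)) (t₁ + s + k * δ₁) *
        ((qv F (A i) (B i) : ℂˣ) : ℂ)‖ ^ 2 ≤
      (Fintype.card (Cls (pq 𝔪)) : ℝ) * (Fintype.card (𝓞 K ⧸ 𝔮)ˣ * (∫ z, ‖g z‖ ^ 2) *
      ∑ i ∈ S, ‖u i‖ ^ 2) := by
    intro s
    have hb := besM2 U h𝔪 h𝔮 h (ρ / V) g hg hg0 S A B yl hsep Y par (fun F hF => (hpar F hF).1)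
      (fun F hF => (hpar F hF).2.1) ((Finset.range N).map ⟨fun k : ℕ => (k : ℤ),
        Nat.cast_injective⟩)
      (fun i => u i * ph2 (A i : Ideal (𝓞 K)) (B i : Ideal (𝓞 K)) (t₁ + s))
    have e1 : ∑ i ∈ S, ‖u i * ph2 (A i : Ideal (𝓞 K)) (B i : Ideal (𝓞 K)) (t₁ + s)‖ ^ 2 =
        ∑ i ∈ S, ‖u i‖ ^ 2 := by
      refine Finset.sum_congr rfl fun i _ => ?_
      rw [norm_mul, norm_ph2, mul_one]
    rw [e1] at hb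
    refine le_trans ?_ hb
    refine Finset.sum_le_sum fun F hF => ?_
    rw [Finset.sum_map]
    refine Finset.sum_le_sum fun k hk => ?_
    simp only [Function.Embedding.coeFn_mk, Int.cast_natCast]
    have hkN : (k : ℝ) * δ₁ ≤ τ * V := by
      have h1 : k ≤ ⌊τ * V / δ₁⌋₊ := by
        have := Finset.mem_range.mp hk
        omega
      have h2 : (k : ℝ) ≤ τ * V / δ₁ := (Nat.cast_le.mpr h1).trans (Nat.floor_le (by positivity))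
      rwa [le_div_iff₀ hδ₁0] at h2
    have h1 := hgF k (par F).2 (Nat.cast_nonneg k) hkN (hpar F hF).2.2
    have e2 : ∀ i ∈ S, u i * ph2 (A i : Ideal (𝓞 K)) (B i : Ideal (𝓞 K)) (t₁ + s) *
        cexp (2 * Real.pi * I * (((k : ℝ) * yl i : ℝ) : ℂ)) * ((qv F (A i) (B i) : ℂˣ) : ℂ) =
        u i * ph2 (A i : Ideal (𝓞 K)) (B i : Ideal (𝓞 K)) (t₁ + s + k * δ₁) *
          ((qv F (A i) (B i) : ℂˣ) : ℂ) := by
      intro i _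
      rw [ph2_add _ _ (t₁ + s) (k * δ₁)]
      have e3 : cexp (2 * Real.pi * I * (((k : ℝ) * yl i : ℝ) : ℂ)) =
          ph2 (A i : Ideal (𝓞 K)) (B i : Ideal (𝓞 K)) (k * δ₁) := by
        unfold ph2 ph
        rw [← Complex.exp_add]
        congr 1
        rw [hyl, hδ₁]
        have hLc : (L : ℂ) ≠ 0 := by exact_mod_cast hL0.ne'
        push_cast
        field_simp
        ring
      rw [e3]
      ring
    rw [Finset.sum_congr rfl e2]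
    exact le_mul_of_one_le_left (sq_nonneg _) h1
  -- integration
  have hcontF : ∀ F : Mq 𝔪 →* ℂˣ, Continuous fun t : ℝ =>
      ‖∑ i ∈ S, u i * ph2 (A i : Ideal (𝓞 K)) (B i : Ideal (𝓞 K)) t *
        ((qv F (A i) (B i) : ℂˣ) : ℂ)‖ ^ 2 := by
    intro F
    refine (Continuous.norm ?_).pow 2
    refine continuous_finsetSum _ fun i _ => ?_
    exact (continuous_const.mul (ph2_cont _ _)).mul continuous_const
  have h1 : ∑ F ∈ Y, ∫ t in t₁..(t₁ + τ * V),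
        ‖∑ i ∈ S, u i * ph2 (A i : Ideal (𝓞 K)) (B i : Ideal (𝓞 K)) t *
          ((qv F (A i) (B i) : ℂˣ) : ℂ)‖ ^ 2 ≤
      ∑ F ∈ Y, ∫ s in (0 : ℝ)..δ₁, ∑ k ∈ Finset.range N,
        ‖∑ i ∈ S, u i * ph2 (A i : Ideal (𝓞 K)) (B i : Ideal (𝓞 K)) (t₁ + s + k * δ₁) *
          ((qv F (A i) (B i) : ℂˣ) : ℂ)‖ ^ 2 :=
    Finset.sum_le_sum fun F _ => int_split _ (hcontF F) (fun t => sq_nonneg _) t₁ (τ * V) δ₁
      (by positivity) hδ₁0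
  refine h1.trans ?_
  have hcont2 : ∀ F ∈ Y, IntervalIntegrable (fun s : ℝ => ∑ k ∈ Finset.range N,
      ‖∑ i ∈ S, u i * ph2 (A i : Ideal (𝓞 K)) (B i : Ideal (𝓞 K)) (t₁ + s + k * δ₁) *
        ((qv F (A i) (B i) : ℂˣ) : ℂ)‖ ^ 2)
      volume 0 δ₁ := by
    intro F _
    refine Continuous.intervalIntegrable ?_ _ _
    refine continuous_finsetSum _ fun k _ => ?_
    exact (hcontF F).comp (by fun_prop : Continuous fun s : ℝ => t₁ + s + k * δ₁)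
  rw [← intervalIntegral.integral_finsetSum hcont2]
  have h2 : ∫ s in (0 : ℝ)..δ₁, ∑ F ∈ Y, ∑ k ∈ Finset.range N,
      ‖∑ i ∈ S, u i * ph2 (A i : Ideal (𝓞 K)) (B i : Ideal (𝓞 K)) (t₁ + s + k * δ₁) *
        ((qv F (A i) (B i) : ℂˣ) : ℂ)‖ ^ 2 ≤
      ∫ _s in (0 : ℝ)..δ₁, (Fintype.card (Cls (pq 𝔪)) : ℝ) *
        (Fintype.card (𝓞 K ⧸ 𝔮)ˣ * (∫ z, ‖g z‖ ^ 2) * ∑ i ∈ S, ‖u i‖ ^ 2) := by
    refine intervalIntegral.integral_mono_on hδ₁0.le ?_ ?_ fun s _ => hkey s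
    · refine Continuous.intervalIntegrable ?_ _ _
      refine continuous_finsetSum _ fun F _ => continuous_finsetSum _ fun k _ => ?_
      exact (hcontF F).comp (by fun_prop : Continuous fun s : ℝ => t₁ + s + k * δ₁)
    · exact continuous_const.intervalIntegrable _ _
  refine h2.trans ?_
  rw [intervalIntegral.integral_const, sub_zero, smul_eq_mul]
  have hS0 : 0 ≤ ∑ i ∈ S, ‖u i‖ ^ 2 := Finset.sum_nonneg fun _ _ => sq_nonneg _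
  have h3 : δ₁ * (∫ z, ‖g z‖ ^ 2) ≤
      V ^ rank K * V * (τ * (volume {θ | U.p θ ≤ 1}).toReal + δ) := by
    calc δ₁ * (∫ z, ‖g z‖ ^ 2) ≤ δ₁ * (V ^ rank K * (V * L / (2 * Real.pi)) *
          (τ * (volume {θ | U.p θ ≤ 1}).toReal + δ)) := mul_le_mul_of_nonneg_left hgI hδ₁0.le
      _ = _ := by
          rw [hδ₁]
          field_simp
  calc δ₁ * ((Fintype.card (Cls (pq 𝔪)) : ℝ) *
        (Fintype.card (𝓞 K ⧸ 𝔮)ˣ * (∫ z, ‖g z‖ ^ 2) * ∑ i ∈ S, ‖u i‖ ^ 2)) =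
      (Fintype.card (Cls (pq 𝔪)) : ℝ) *
        (Fintype.card (𝓞 K ⧸ 𝔮)ˣ * (δ₁ * (∫ z, ‖g z‖ ^ 2)) * ∑ i ∈ S, ‖u i‖ ^ 2) := by ring
    _ ≤ _ := by gcongr

end

end Pool.Agent.N786.E
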