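import Mathlib

/-!
# Laurent polynomials on the torus (owner helper786)
-/

set_option autoImplicit false
set_option linter.unusedSectionVars false

open MeasureTheory Complex Filter Topology Set

namespace Pool.Agent.N786.E

section laurent

variable {ι : Type} [Fintype ι]

/-- monomials -/
def mn (k : ι → ℤ) (x : ι → ℂˣ) : ℂ := ((∏ i, x i ^ k i : ℂˣ) : ℂ)

lemma mn_add (k l : ι → ℤ) (x : ι → ℂˣ) : mn (k + l) x = mn k x * mn l x := by
  unfold mn
  rw [← Units.val_mul, ← Finset.prod_mul_distrib]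
  congr 2
  funext i
  rw [Pi.add_apply, zpow_add]

lemma mn_zero (x : ι → ℂˣ) : mn 0 x = 1 := by
  unfold mn
  simp

/-- Laurent polynomials of degree at most `J` -/
def IsL (J : ℕ) (f : (ι → ℂˣ) → ℂ) : Prop :=
  ∃ (s : Finset (ι → ℤ)) (u : (ι → ℤ) → ℂ), (∀ k ∈ s, ∑ i, (k i).natAbs ≤ J) ∧
    ∀ x, f x = ∑ k ∈ s, u k * mn k x

lemma IsL.mono {J J' : ℕ} {f : (ι → ℂˣ) → ℂ} (h : IsL J f) (hJ : J ≤ J') : IsL J' f := by
  obtain ⟨s, u, h1, h2⟩ := h
  exact ⟨s, u, fun k hk => (h1 k hk).trans hJ, h2⟩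

lemma IsL.const (c : ℂ) : IsL (ι := ι) 0 fun _ => c :=
  ⟨{0}, fun _ => c, by simp, fun x => by simp [mn_zero]⟩

lemma IsL.mono1 (k : ι → ℤ) {J : ℕ} (hJ : ∑ i, (k i).natAbs ≤ J) : IsL J fun x => mn k x :=
  ⟨{k}, fun _ => 1, by simpa using hJ, fun x => by simp⟩

lemma IsL.add {J : ℕ} {f g : (ι → ℂˣ) → ℂ} (hf : IsL J f) (hg : IsL J g) :
    IsL J fun x => f x + g x := by
  classical
  obtain ⟨s, u, h1, h2⟩ := hf
  obtain ⟨s', u', h1', h2'⟩ := hg
  refine ⟨s ∪ s', fun k => (if k ∈ s then u k else 0) + (if k ∈ s' then u' k else 0), ?_, ?_⟩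
  · intro k hk
    rcases Finset.mem_union.mp hk with hk | hk
    · exact h1 k hk
    · exact h1' k hk
  · intro x
    change f x + g x = _
    rw [h2 x, h2' x]
    simp only [add_mul, Finset.sum_add_distrib]
    congr 1
    · rw [← Finset.sum_subset Finset.subset_union_left]
      · exact Finset.sum_congr rfl fun k hk => by rw [if_pos hk]
      · intro k _ hk
        rw [if_neg hk, zero_mul]
    · rw [← Finset.sum_subset Finset.subset_union_right]
      · exact Finset.sum_congr rfl fun k hk => by rw [if_pos hk]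
      · intro k _ hk
        rw [if_neg hk, zero_mul]

lemma IsL.mul {J J' : ℕ} {f g : (ι → ℂˣ) → ℂ} (hf : IsL J f) (hg : IsL J' g) :
    IsL (J + J') fun x => f x * g x := by
  classical
  obtain ⟨s, u, h1, h2⟩ := hf
  obtain ⟨s', u', h1', h2'⟩ := hg
  refine ⟨(s ×ˢ s').image fun q => q.1 + q.2,
    fun m => ∑ q ∈ (s ×ˢ s').filter (fun q => q.1 + q.2 = m), u q.1 * u' q.2, ?_, ?_⟩
  · intro m hm
    rw [Finset.mem_image] at hm
    obtain ⟨⟨k, l⟩, hq, rfl⟩ := hm
    rw [Finset.mem_product] at hq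
    refine le_trans ?_ (Nat.add_le_add (h1 k hq.1) (h1' l hq.2))
    rw [← Finset.sum_add_distrib]
    exact Finset.sum_le_sum fun i _ => Int.natAbs_add_le _ _
  · intro x
    change f x * g x = _
    rw [h2 x, h2' x, Finset.sum_mul_sum, ← Finset.sum_product',
      ← Finset.sum_fiberwise_of_maps_to (s := s ×ˢ s') (t := (s ×ˢ s').image fun q => q.1 + q.2)
      (g := fun q => q.1 + q.2) (fun q hq => Finset.mem_image_of_mem _ hq)]
    refine Finset.sum_congr rfl fun m _ => ?_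
    rw [Finset.sum_mul]
    refine Finset.sum_congr rfl fun q hq => ?_
    rw [← (Finset.mem_filter.mp hq).2, mn_add]
    ring

lemma IsL.cmul {J : ℕ} {f : (ι → ℂˣ) → ℂ} (c : ℂ) (hf : IsL J f) : IsL J fun x => c * f x := by
  have := (IsL.const (ι := ι) c).mul hf
  rwa [zero_add] at this

lemma IsL.pow {f : (ι → ℂˣ) → ℂ} (hf : IsL 1 f) (n : ℕ) : IsL n fun x => f x ^ n := by
  induction n with
  | zero => simpa using IsL.const (ι := ι) 1
  | succ n ih =>
    have := ih.mul hf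
    simpa only [pow_succ] using this

lemma IsL.sum {J : ℕ} {κ : Type} (S : Finset κ) {f : κ → (ι → ℂˣ) → ℂ} (hf : ∀ i ∈ S, IsL J (f i)) :
    IsL J fun x => ∑ i ∈ S, f i x := by
  classical
  induction S using Finset.induction_on with
  | empty => simpa using (IsL.const (ι := ι) 0).mono (Nat.zero_le J)
  | insert a S ha ih =>
    simp only [Finset.sum_insert ha]
    exact (hf a (Finset.mem_insert_self _ _)).add (ih fun i hi => hf i (Finset.mem_insert_of_mem hi))

/-- the real part of `∑ c_i x_i` -/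
noncomputable def tt (c : ι → ℝ) (x : ι → ℂˣ) : ℂ :=
  ∑ i, (c i / 2 : ℂ) * ((x i : ℂ) + ((x i)⁻¹ : ℂˣ))

lemma tt_isL (c : ι → ℝ) : IsL 1 (tt c) := by
  classical
  have h : tt c = fun x => ∑ i, (c i / 2 : ℂ) * (mn (Pi.single i 1) x + mn (Pi.single i (-1)) x) := by
    funext x
    unfold tt
    refine Finset.sum_congr rfl fun i _ => ?_
    have h1 : ∀ e : ℤ, mn (Pi.single i e) x = ((x i ^ e : ℂˣ) : ℂ) := by
      intro e
      unfold mn
      rw [Finset.prod_eq_single i]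
      · rw [Pi.single_eq_same]
      · intro j _ hj
        rw [Pi.single_eq_of_ne hj, zpow_zero]
      · intro h
        exact absurd (Finset.mem_univ i) h
    rw [h1, h1, zpow_one, zpow_neg_one]
  rw [h]
  refine IsL.sum _ fun i _ => IsL.cmul _ (IsL.add (IsL.mono1 _ ?_) (IsL.mono1 _ ?_))
  · rw [Finset.sum_eq_single i]
    · simp
    · intro j _ hj
      rw [Pi.single_eq_of_ne hj]; rfl
    · intro h
      exact absurd (Finset.mem_univ i) h
  · rw [Finset.sum_eq_single i]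
    · simp
    · intro j _ hj
      rw [Pi.single_eq_of_ne hj]; rfl
    · intro h
      exact absurd (Finset.mem_univ i) h

lemma tt_real {c : ι → ℝ} {x : ι → ℂˣ} (hx : ∀ i, ‖(x i : ℂ)‖ = 1) :
    tt c x = ((∑ i, c i * (x i : ℂ).re : ℝ) : ℂ) := by
  unfold tt
  rw [Complex.ofReal_sum]
  refine Finset.sum_congr rfl fun i _ => ?_
  have h1 : (((x i)⁻¹ : ℂˣ) : ℂ) = (starRingEnd ℂ) (x i : ℂ) := by
    rw [Units.val_inv_eq_inv_val, Complex.inv_def, Complex.normSq_eq_norm_sq, hx i]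
    simp
  rw [h1, Complex.add_conj]
  push_cast
  ring

/-! ### the torus -/

/-- the unit cube -/
noncomputable def cub (ι : Type) [Fintype ι] : Measure (ι → ℝ) :=
  Measure.pi fun _ => (volume : Measure ℝ).restrict (Ioc 0 1)

instance : IsProbabilityMeasure ((volume : Measure ℝ).restrict (Ioc 0 1)) := ⟨by simp⟩

instance : IsProbabilityMeasure (cub ι) := by unfold cub; infer_instance

/-- the point of the torus -/
noncomputable def et (θ : ι → ℝ) (i : ι) : ℂˣ :=
  Units.mk0 (cexp (2 * Real.pi * I * (θ i : ℂ))) (Complex.exp_ne_zero _)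

lemma et_coe (θ : ι → ℝ) (i : ι) : ((et θ i : ℂˣ) : ℂ) = cexp (2 * Real.pi * I * (θ i : ℂ)) := rfl

lemma norm_et (θ : ι → ℝ) (i : ι) : ‖((et θ i : ℂˣ) : ℂ)‖ = 1 := by
  rw [et_coe]
  have : 2 * Real.pi * I * (θ i : ℂ) = ((2 * Real.pi * θ i : ℝ) : ℂ) * I := by
    push_cast; ring
  rw [this, Complex.norm_exp_ofReal_mul_I]

lemma mn_et (k : ι → ℤ) (θ : ι → ℝ) :
    mn k (et θ) = ∏ i, cexp (2 * Real.pi * I * ((k i : ℂ) * (θ i : ℂ))) := by
  unfold mn
  rw [Units.coe_prod]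
  refine Finset.prod_congr rfl fun i _ => ?_
  rw [Units.val_zpow_eq_zpow_val, et_coe, ← Complex.exp_int_mul]
  congr 1
  ring

lemma mn_et_cont (k : ι → ℤ) : Continuous fun θ : ι → ℝ => mn k (et θ) := by
  simp only [mn_et]
  fun_prop

lemma int_e (k : ℤ) : ∫ θ in Ioc (0 : ℝ) 1, cexp (2 * Real.pi * I * ((k : ℂ) * (θ : ℂ))) =
    if k = 0 then 1 else 0 := by
  by_cases hk : k = 0
  · rw [if_pos hk, hk]
    simp
  · rw [if_neg hk, ← intervalIntegral.integral_of_le zero_le_one]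
    have hc : (2 * Real.pi * I * (k : ℂ)) ≠ 0 := by
      have h1 : (Real.pi : ℂ) ≠ 0 := by exact_mod_cast Real.pi_ne_zero
      have h2 : (k : ℂ) ≠ 0 := by exact_mod_cast hk
      simp [h1, h2]
    have h1 : ∀ θ : ℝ, cexp (2 * Real.pi * I * ((k : ℂ) * (θ : ℂ))) =
        cexp ((2 * Real.pi * I * (k : ℂ)) * (θ : ℂ)) := fun θ => by
      congr 1; ring
    simp_rw [h1]
    rw [integral_exp_mul_complex hc]
    have h2 : (2 * Real.pi * I * (k : ℂ)) * ((1 : ℝ) : ℂ) = k * (2 * Real.pi * I) := by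
      push_cast; ring
    rw [h2, Complex.exp_int_mul_two_pi_mul_I]
    simp

lemma int_mn (k : ι → ℤ) : ∫ θ, mn k (et θ) ∂(cub ι) = if k = 0 then 1 else 0 := by
  classical
  simp only [mn_et]
  unfold cub
  rw [integral_fintype_prod_eq_prod (𝕜 := ℂ) (E := fun _ : ι => ℝ)
    (fun i (y : ℝ) => cexp (2 * Real.pi * I * ((k i : ℂ) * (y : ℂ))))]
  simp only [int_e]
  by_cases hk : k = 0
  · rw [if_pos hk, hk]
    simp
  · rw [if_neg hk]
    obtain ⟨i, hi⟩ : ∃ i, k i ≠ 0 := by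
      by_contra h
      push Not at h
      exact hk (funext h)
    exact Finset.prod_eq_zero (Finset.mem_univ i) (if_neg hi)

lemma conj_mn {x : ι → ℂˣ} (hx : ∀ i, ‖(x i : ℂ)‖ = 1) (k : ι → ℤ) :
    (starRingEnd ℂ) (mn k x) = mn (-k) x := by
  unfold mn
  rw [Units.coe_prod, Units.coe_prod, map_prod]
  refine Finset.prod_congr rfl fun i _ => ?_
  rw [Units.val_zpow_eq_zpow_val, Units.val_zpow_eq_zpow_val, map_zpow₀, Pi.neg_apply, zpow_neg,
    ← inv_zpow]
  congr 1
  rw [Complex.inv_def, Complex.normSq_eq_norm_sq, hx i]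
  simp

/-- **Parseval** -/
theorem parseval (s : Finset (ι → ℤ)) (u : (ι → ℤ) → ℂ) :
    ∫ θ, ‖∑ k ∈ s, u k * mn k (et θ)‖ ^ 2 ∂(cub ι) = ∑ k ∈ s, ‖u k‖ ^ 2 := by
  classical
  have h1 : ∀ θ : ι → ℝ, ((‖∑ k ∈ s, u k * mn k (et θ)‖ ^ 2 : ℝ) : ℂ) =
      ∑ k ∈ s, ∑ l ∈ s, (u k * (starRingEnd ℂ) (u l)) * mn (k - l) (et θ) := by
    intro θ
    rw [Complex.ofReal_pow, ← Complex.mul_conj', map_sum, Finset.sum_mul_sum]
    refine Finset.sum_congr rfl fun k _ => Finset.sum_congr rfl fun l _ => ?_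
    rw [map_mul, conj_mn (norm_et θ), sub_eq_add_neg, mn_add]
    ring
  have h2 : ((∫ θ, ‖∑ k ∈ s, u k * mn k (et θ)‖ ^ 2 ∂(cub ι) : ℝ) : ℂ) =
      ((∑ k ∈ s, ‖u k‖ ^ 2 : ℝ) : ℂ) := by
    rw [← integral_complex_ofReal]
    simp_rw [h1]
    have hint : ∀ (c : ℂ) (k : ι → ℤ), Integrable (fun θ => c * mn k (et θ)) (cub ι) := by
      intro c k
      refine Integrable.const_mul ?_ c
      refine Integrable.of_bound (C := 1) (mn_et_cont k).aestronglyMeasurable
        (Eventually.of_forall fun θ => ?_)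
      unfold mn
      rw [Units.coe_prod, norm_prod]
      refine Finset.prod_le_one (fun i _ => norm_nonneg _) fun i _ => ?_
      rw [Units.val_zpow_eq_zpow_val, norm_zpow, norm_et, one_zpow]
    rw [integral_finsetSum _ fun k _ => integrable_finsetSum _ fun l _ => hint _ _]
    rw [Complex.ofReal_sum]
    refine Finset.sum_congr rfl fun k hk => ?_
    rw [integral_finsetSum _ fun l _ => hint _ _, Finset.sum_eq_single k]
    · rw [integral_const_mul, int_mn, sub_self, if_pos rfl, mul_one, Complex.mul_conj']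
      push_cast
      rfl
    · intro l _ hl
      rw [integral_const_mul, int_mn, if_neg (sub_ne_zero.mpr (Ne.symm hl)), mul_zero]
    · intro h
      exact absurd hk h
  exact_mod_cast h2

end laurent

end Pool.Agent.N786.E
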