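import Pool.Agent.N786.E.Qls
import Pool.Agent.N786.E.Eul
import Pool.Agent.N786.E.Tor
import Pool.Agent.N786.Lsi
import Pool.Agent.N786.D.Pol

/-!
# The large sieve for Laurent polynomials in the values at primes (owner helper786)
-/

set_option autoImplicit false
set_option linter.unusedSectionVars false

open NumberField NumberField.Units MeasureTheory Complex Filter Topology Set

namespace Pool.Agent.N786.E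

open Pool.Agent.N786
open Pool.Agent.N786.D
open Pool.Agent.Y773 (TPos rl)
open Pool.Agent.Y767

section

variable {K : Type} [Field K] [NumberField K]

/-- the primes prime to `𝔪` of norm at most `M` -/
abbrev PQm (𝔪 : Ideal (𝓞 K)) (M : ℕ) : Type :=
  {𝔭 : Ideal (𝓞 K) // 𝔭 ∈ SI K M ∧ Prime 𝔭 ∧ IsCoprime 𝔭 𝔪}

noncomputable instance (𝔪 : Ideal (𝓞 K)) (M : ℕ) : Fintype (PQm 𝔪 M) := by
  classical
  exact Fintype.subtype ((SI K M).filter fun 𝔭 => Prime 𝔭 ∧ IsCoprime 𝔭 𝔪) fun 𝔭 => by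
    rw [Finset.mem_filter]

variable {𝔪 : Ideal (𝓞 K)} {M : ℕ}

/-- the prime, as an element of the monoid -/
def tM (i : PQm 𝔪 M) : Mq 𝔪 := ⟨i.1, i.2.2.2⟩

lemma tM_coe (i : PQm 𝔪 M) : ((tM i : Mq 𝔪) : Ideal (𝓞 K)) = i.1 := rfl

/-- the numerator -/
noncomputable def upM (k : PQm 𝔪 M → ℤ) : Mq 𝔪 := ∏ i, tM i ^ (k i).toNat

/-- the denominator -/
noncomputable def dnM (k : PQm 𝔪 M → ℤ) : Mq 𝔪 := ∏ i, tM i ^ (-(k i)).toNat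

lemma prodM_coe (a : PQm 𝔪 M → ℕ) : ((∏ i, tM i ^ a i : Mq 𝔪) : Ideal (𝓞 K)) =
    pe (fun i : PQm 𝔪 M => i.1) a := by
  unfold pe
  rw [Submonoid.coe_finsetProd]
  rfl

lemma pe_mul (a b : PQm 𝔪 M → ℕ) : pe (fun i : PQm 𝔪 M => i.1) a *
    pe (fun i : PQm 𝔪 M => i.1) b = pe (fun i : PQm 𝔪 M => i.1) (a + b) := by
  unfold pe
  rw [← Finset.prod_mul_distrib]
  exact Finset.prod_congr rfl fun i _ => (pow_add _ _ _).symm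

lemma upM_inj {k l : PQm 𝔪 M → ℤ} (h : upM k * dnM l = upM l * dnM k) : k = l := by
  have h1 := congrArg (Subtype.val) h
  have e1 : ((upM k * dnM l : Mq 𝔪) : Ideal (𝓞 K)) =
      pe (fun i : PQm 𝔪 M => i.1) ((fun i => (k i).toNat) + fun i => (-(l i)).toNat) := by
    rw [← pe_mul, ← prodM_coe, ← prodM_coe]
    rfl
  have e2 : ((upM l * dnM k : Mq 𝔪) : Ideal (𝓞 K)) =
      pe (fun i : PQm 𝔪 M => i.1) ((fun i => (l i).toNat) + fun i => (-(k i)).toNat) := by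
    rw [← pe_mul, ← prodM_coe, ← prodM_coe]
    rfl
  have h2 : pe (fun i : PQm 𝔪 M => i.1) ((fun i => (k i).toNat) + fun i => (-(l i)).toNat) =
      pe (fun i : PQm 𝔪 M => i.1) ((fun i => (l i).toNat) + fun i => (-(k i)).toNat) := by
    rw [← e1, ← e2]
    exact h1
  have hp : ∀ i : PQm 𝔪 M, Prime i.1 := fun i => i.2.2.1
  funext i
  have h3 := congrArg (ex i.1) h2
  rw [ex_pe hp Subtype.val_injective, ex_pe hp Subtype.val_injective] at h3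
  simp only [Pi.add_apply] at h3
  omega

lemma norm_prodM (a : PQm 𝔪 M → ℕ) {J : ℕ} (hJ : ∑ i, a i ≤ J) (hM : 1 ≤ M) :
    Ideal.absNorm ((∏ i, tM i ^ a i : Mq 𝔪) : Ideal (𝓞 K)) ≤ M ^ J := by
  rw [prodM_coe]
  unfold pe
  rw [map_prod]
  calc ∏ i : PQm 𝔪 M, Ideal.absNorm ((i.1 : Ideal (𝓞 K)) ^ a i) ≤ ∏ i : PQm 𝔪 M, M ^ a i := by
        refine Finset.prod_le_prod' fun i _ => ?_
        rw [map_pow]
        exact Nat.pow_le_pow_left (mem_SI.mp i.2.1).2 _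
    _ = M ^ ∑ i, a i := Finset.prod_pow_eq_pow_sum _ _ _
    _ ≤ M ^ J := Nat.pow_le_pow_right hM hJ

lemma mn_qv (G : Mq 𝔪 →* ℂˣ) (k : PQm 𝔪 M → ℤ) :
    mn k (fun i => G (tM i)) = ((qv G (upM k) (dnM k) : ℂˣ) : ℂ) := by
  unfold mn qv upM dnM
  rw [map_prod, map_prod, ← Finset.prod_inv_distrib, ← Finset.prod_mul_distrib]
  congr 1
  refine Finset.prod_congr rfl fun i _ => ?_
  rw [map_pow, map_pow]
  have h1 : k i = ((k i).toNat : ℤ) - ((-(k i)).toNat : ℤ) := by omega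
  conv_lhs => rw [h1]
  rw [zpow_sub, zpow_natCast, zpow_natCast]

lemma qv_mul {M' : Type} [CommMonoid M'] (F G : M' →* ℂˣ) (A B : M') :
    qv (F * G) A B = qv F A B * qv G A B := by
  unfold qv
  rw [MonoidHom.mul_apply, MonoidHom.mul_apply, mul_inv]
  exact mul_mul_mul_comm _ _ _ _

lemma ph_ne (𝔞 : Ideal (𝓞 K)) (t : ℝ) : ph 𝔞 t ≠ 0 := by
  unfold ph
  exact Complex.exp_ne_zero _

/-- the values `N(𝔞)^(-it)`, as a homomorphism -/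
noncomputable def phM (h𝔪 : 𝔪 ≠ ⊤) (t : ℝ) : Mq 𝔪 →* ℂˣ where
  toFun 𝔞 := Units.mk0 (ph (𝔞 : Ideal (𝓞 K)) t) (ph_ne _ _)
  map_one' := by
    ext
    rw [Units.val_mk0, Units.val_one]
    have : ((1 : Mq 𝔪) : Ideal (𝓞 K)) = 1 := rfl
    rw [this]
    unfold ph
    rw [map_one]
    simp
  map_mul' 𝔞 𝔟 := by
    ext
    rw [Units.val_mk0, Units.val_mul, Units.val_mk0, Units.val_mk0]
    have e : ((𝔞 * 𝔟 : Mq 𝔪) : Ideal (𝓞 K)) = (𝔞 : Ideal (𝓞 K)) * (𝔟 : Ideal (𝓞 K)) := rfl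
    have := (lN_norm K).mul _ _ (Mq_ne_bot h𝔪 𝔞) (Mq_ne_bot h𝔪 𝔟)
    unfold lN at this
    rw [e]
    unfold ph
    rw [this, ← Complex.exp_add]
    congr 1
    push_cast
    ring

lemma phM_coe (h𝔪 : 𝔪 ≠ ⊤) (t : ℝ) (𝔞 : Mq 𝔪) :
    ((phM h𝔪 t 𝔞 : ℂˣ) : ℂ) = ph (𝔞 : Ideal (𝓞 K)) t := rfl

lemma qv_phM (h𝔪 : 𝔪 ≠ ⊤) (t : ℝ) (𝔞 𝔟 : Mq 𝔪) :
    ((qv (phM h𝔪 t) 𝔞 𝔟 : ℂˣ) : ℂ) = ph2 (𝔞 : Ideal (𝓞 K)) (𝔟 : Ideal (𝓞 K)) t := by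
  unfold qv ph2
  rw [Units.val_mul, Units.val_inv_eq_inv_val, phM_coe, phM_coe]
  congr 1
  unfold ph
  rw [← Complex.exp_neg]
  congr 1
  push_cast
  ring

/-- the value of the character at the primes -/
noncomputable def XM (h𝔪 : 𝔪 ≠ ⊤) (ψ₀ lam : Ideal (𝓞 K) →*₀ ℂ) (t : ℝ) (i : PQm 𝔪 M) : ℂˣ :=
  (resM 𝔪 lam * (resM 𝔪 ψ₀ * phM h𝔪 t)) (tM i)

lemma mn_XM (h𝔪 : 𝔪 ≠ ⊤) (ψ₀ lam : Ideal (𝓞 K) →*₀ ℂ) (t : ℝ) (k : PQm 𝔪 M → ℤ) :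
    mn k (XM h𝔪 ψ₀ lam t) = ((qv (resM 𝔪 ψ₀) (upM k) (dnM k) : ℂˣ) : ℂ) *
      ph2 (upM k : Ideal (𝓞 K)) (dnM k : Ideal (𝓞 K)) t *
      ((qv (resM 𝔪 lam) (upM k) (dnM k) : ℂˣ) : ℂ) := by
  have h1 := mn_qv (resM 𝔪 lam * (resM 𝔪 ψ₀ * phM h𝔪 t)) k
  have h2 : mn k (XM h𝔪 ψ₀ lam t) =
      mn k (fun i => (resM 𝔪 lam * (resM 𝔪 ψ₀ * phM h𝔪 t)) (tM i)) := rfl
  rw [h2, h1, qv_mul, qv_mul, Units.val_mul, Units.val_mul, qv_phM]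
  ring

end

section

variable {K : Type} [Field K] [NumberField K] [IsTotallyReal K]

open Classical in
/-- **The large sieve for Laurent polynomials** -/
theorem star_ls (U : UD K) (δ : ℝ) (hδ : 0 < δ) :
    ∃ V₀ C : ℝ, 1 ≤ V₀ ∧ 1 ≤ C ∧
    ∀ (𝔣 𝔮 : Ideal (𝓞 K)), IsCoprime 𝔣 𝔮 → ∀ (htop : 𝔣 * 𝔮 ≠ ⊤), 𝔣 * 𝔮 ≠ ⊥ →
    ∀ (V L : ℝ) (M J : ℕ), V₀ ≤ V → 2 * Real.pi ≤ L → 1 ≤ M →
      8 * (J * Real.log M) ≤ L → (C * (L / V)) ^ Module.finrank ℚ K * ((M : ℝ) ^ J) ^ 3 <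
        Ideal.absNorm 𝔮 →
    ∀ (ν₀ : InfinitePlace K → ℝ) (ψ₀ : Ideal (𝓞 K) →*₀ ℂ), ∑ w, ν₀ w = 0 → IsHM K 𝔣 ν₀ ψ₀ →
    ∀ S : Finset (Ideal (𝓞 K) →*₀ ℂ), (∀ lam ∈ S, lam ∈ HFam K 𝔮 V) →
    ∀ (s : Finset (PQm (𝔣 * 𝔮) M → ℤ)) (u : (PQm (𝔣 * 𝔮) M → ℤ) → ℂ),
      (∀ k ∈ s, ∑ i, (k i).natAbs ≤ J) → ∀ t₁ : ℝ,
      ∑ lam ∈ S, ∫ t in t₁..(t₁ + V), ‖∑ k ∈ s, u k * mn k (XM htop ψ₀ lam t)‖ ^ 2 ≤
        (Nat.card (Cls (pq (𝔣 * 𝔮))) : ℝ) * (Nat.card (𝓞 K ⧸ 𝔮)ˣ *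
        (V ^ rank K * V * ((volume {θ | U.p θ ≤ 1}).toReal + δ)) * ∑ k ∈ s, ‖u k‖ ^ 2) := by
  obtain ⟨V₀, C, hV₀, hC, hls⟩ := hls2 U 1 δ one_pos hδ
  refine ⟨V₀, C, hV₀, hC, ?_⟩
  intro 𝔣 𝔮 hcop htop hbot V L M J hV hL hM hLM hCM ν₀ ψ₀ hs h₀ S hSf s u hdeg t₁
  have hV0 : 0 < V := by linarith
  have h𝔮0 : 𝔮 ≠ ⊥ := by
    rintro rfl
    exact hbot (Ideal.mul_bot _)
  have hfq := finite_quot h𝔮0
  have hfc : Finite (Cls (pq (𝔣 * 𝔮))) := finite_cls htop hbot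
  have hdvd : 𝔮 ∣ 𝔣 * 𝔮 := Dvd.intro_left _ rfl
  have hsurj : Function.Surjective (gm hdvd) := fun g => by
    obtain ⟨x, -, hx⟩ := gm_surj hcop hbot hdvd g
    exact ⟨x, hx⟩
  have : Fintype (Cls (pq (𝔣 * 𝔮))) := Fintype.ofFinite _
  have : Fintype (𝓞 K ⧸ 𝔮)ˣ := Fintype.ofFinite _
  have hinj : Set.InjOn (resM (𝔣 * 𝔮)) (S : Set (Ideal (𝓞 K) →*₀ ℂ)) := by
    intro lam hl lam' hl' he
    exact resM_inj (U := U) htop hbot hdvd hsurj hV0.le (hSf _ hl) (hSf _ hl') he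
  have hpar' : ∀ F ∈ S.image (resM (𝔣 * 𝔮)), ∃ p, HasPar U hdvd F p ∧
      p ∈ U.PQ 𝔮 V := by
    intro F hF
    rw [Finset.mem_image] at hF
    obtain ⟨lam, hl, rfl⟩ := hF
    obtain ⟨ν, a1, a2, a3⟩ := hSf _ hl
    obtain ⟨p, hp1, -, hp3⟩ := exists_par' U hV0.le a1 a2 a3.toIsHM
    exact ⟨p, resM_par htop hdvd a3.toIsHM hp3, hp1⟩
  choose! par hpar2 using hpar'
  have hMJ : (((M ^ J : ℕ) : ℕ) : ℝ) = (M : ℝ) ^ J := by push_cast; rfl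
  have hmain := hls (𝔣 * 𝔮) 𝔮 htop h𝔮0 hdvd V L ((M : ℝ) ^ J) hV hL (by
      rw [Real.log_pow]; exact hLM) hCM s upM dnM (fun k hk => by
      rw [← hMJ]
      refine Nat.cast_le.mpr (norm_prodM _ ?_ hM)
      refine le_trans (Finset.sum_le_sum fun i _ => ?_) (hdeg k hk)
      omega) (fun k hk => by
      rw [← hMJ]
      refine Nat.cast_le.mpr (norm_prodM _ ?_ hM)
      refine le_trans (Finset.sum_le_sum fun i _ => ?_) (hdeg k hk)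
      omega) (fun k _ l _ hkl => upM_inj hkl) (S.image (resM (𝔣 * 𝔮))) par hpar2
    (fun k => u k * ((qv (resM (𝔣 * 𝔮) ψ₀) (upM k) (dnM k) : ℂˣ) : ℂ)) t₁
  rw [Finset.sum_image hinj, one_mul, one_mul] at hmain
  have e1 : ∀ lam ∈ S, ∫ t in t₁..(t₁ + V), ‖∑ k ∈ s, u k * mn k (XM htop ψ₀ lam t)‖ ^ 2 =
      ∫ t in t₁..(t₁ + V), ‖∑ k ∈ s, (u k * ((qv (resM (𝔣 * 𝔮) ψ₀) (upM k) (dnM k) : ℂˣ) : ℂ)) *
        ph2 (upM k : Ideal (𝓞 K)) (dnM k : Ideal (𝓞 K)) t *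
        ((qv (resM (𝔣 * 𝔮) lam) (upM k) (dnM k) : ℂˣ) : ℂ)‖ ^ 2 := by
    intro lam hl
    refine intervalIntegral.integral_congr fun t _ => ?_
    congr 2
    refine Finset.sum_congr rfl fun k _ => ?_
    rw [mn_XM]
    ring
  rw [Finset.sum_congr rfl e1, Nat.card_eq_fintype_card, Nat.card_eq_fintype_card]
  refine hmain.trans (le_of_eq ?_)
  have hn1 := norm_le_one_hm U htop hbot (Dvd.intro _ rfl) hs h₀
  have hone : ∀ x : Mq (𝔣 * 𝔮), ‖((resM (𝔣 * 𝔮) ψ₀ x : ℂˣ) : ℂ)‖ = 1 := by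
    intro x
    have hp : HasPar U (Dvd.intro _ rfl : 𝔣 ∣ 𝔣 * 𝔮) (resM (𝔣 * 𝔮) ψ₀) (Classical.choose
        (exists_par' U (V := ‖ν₀‖) (norm_nonneg _) (fun w => norm_le_pi_norm ν₀ w) hs h₀)) := by
      obtain ⟨q1, -, q3⟩ := Classical.choose_spec
        (exists_par' U (V := ‖ν₀‖) (norm_nonneg _) (fun w => norm_le_pi_norm ν₀ w) hs h₀)
      exact resM_par htop (Dvd.intro _ rfl) h₀ q3
    exact hp.norm_one htop h₀.ne_bot x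
  have e2 : ∀ k, ‖u k * ((qv (resM (𝔣 * 𝔮) ψ₀) (upM k) (dnM k) : ℂˣ) : ℂ)‖ ^ 2 = ‖u k‖ ^ 2 := by
    intro k
    unfold qv
    rw [Units.val_mul, Units.val_inv_eq_inv_val, norm_mul, norm_mul, norm_inv, hone, hone,
      inv_one, mul_one, mul_one]
  rw [Finset.sum_congr rfl fun k _ => e2 k]

end

end Pool.Agent.N786.E
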