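import Pool.Agent.N786.E.Psum

/-!
# The product with a truncated exponential (owner helper786)
-/

set_option autoImplicit false
set_option linter.unusedSectionVars false

open UniqueFactorizationMonoid

namespace Pool.Agent.N786.E

open Pool.Agent.N786.D

/-- the truncated exponential -/
noncomputable def TK (K : ℕ) (w : ℂ) : ℂ := ∑ n ∈ Finset.range (K + 1), w ^ n / (n.factorial : ℂ)

section

variable {ι : Type} [Fintype ι]

lemma mem_bx {K : ℕ} {e k : ι → ℕ} : k ∈ bx K e ↔ (∀ i, k i ≤ e i) ∧ ∑ i, k i ≤ K := by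
  classical
  unfold bx
  rw [Finset.mem_filter, Fintype.mem_piFinset]
  simp only [Finset.mem_range, Nat.lt_succ_iff]

open Classical in
lemma TK_sum (K : ℕ) (w : ι → ℂ) :
    TK K (∑ i, w i) = ∑ k ∈ bx K (fun _ : ι => K), ∏ i, (w i ^ k i / ((k i).factorial : ℂ)) := by
  have hfib := Finset.sum_fiberwise_of_maps_to (s := bx K (fun _ : ι => K))
    (t := Finset.range (K + 1)) (g := fun k => ∑ i, k i) (fun k hk => by
      rw [Finset.mem_range]
      have := (mem_bx.mp hk).2
      omega) (fun k => ∏ i, (w i ^ k i / ((k i).factorial : ℂ)))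
  rw [← hfib]
  unfold TK
  refine Finset.sum_congr rfl fun n hn => ?_
  have hset : (bx K (fun _ : ι => K)).filter (fun k => ∑ i, k i = n) =
      Finset.piAntidiag (Finset.univ : Finset ι) n := by
    ext k
    rw [Finset.mem_filter, mem_bx, Finset.mem_piAntidiag]
    have hnK : n ≤ K := Nat.lt_succ_iff.mp (Finset.mem_range.mp hn)
    constructor
    · rintro ⟨-, h⟩
      exact ⟨h, fun i _ => Finset.mem_univ i⟩
    · rintro ⟨h, -⟩
      refine ⟨⟨fun i => ?_, by rw [h]; exact hnK⟩, h⟩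
      have h5 : k i ≤ ∑ i, k i :=
        Finset.single_le_sum (f := k) (fun i _ => Nat.zero_le _) (Finset.mem_univ i)
      exact h5.trans (h.le.trans hnK)
  rw [hset, Finset.sum_pow_eq_sum_piAntidiag, Finset.sum_div]
  refine Finset.sum_congr rfl fun k hk => ?_
  have hk1 : ∑ i, k i = n := (Finset.mem_piAntidiag.mp hk).1
  have hsp := Nat.multinomial_spec Finset.univ k
  rw [hk1] at hsp
  have h1 : ((n.factorial : ℕ) : ℂ) = (∏ i, ((k i).factorial : ℂ)) *
      (Nat.multinomial Finset.univ k : ℂ) := by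
    rw [← hsp]
    push_cast
    rfl
  have h2 : (n.factorial : ℂ) ≠ 0 := by exact_mod_cast Nat.factorial_ne_zero n
  have h3 : (∏ i, ((k i).factorial : ℂ)) ≠ 0 :=
    Finset.prod_ne_zero_iff.mpr fun i _ => by exact_mod_cast Nat.factorial_ne_zero _
  rw [Finset.prod_div_distrib, div_eq_div_iff h2 h3, h1]
  ring

variable {M : Type} [CommMonoidWithZero M] [NormalizationMonoid M] [UniqueFactorizationMonoid M]
  [Subsingleton Mˣ] [Nontrivial M]

lemma Z_pe {p : ι → M} (hp : ∀ i, Prime (p i)) {Z : M → ℂ} (hZ1 : Z 1 = 1)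
    (hZ : ∀ a b, a ≠ 0 → b ≠ 0 → Z (a * b) = Z a * Z b) (k : ι → ℕ) :
    Z (pe p k) = ∏ i, Z (p i) ^ k i := by
  classical
  have hpow : ∀ (i : ι) (n : ℕ), Z (p i ^ n) = Z (p i) ^ n := by
    intro i n
    induction n with
    | zero => rw [pow_zero, pow_zero, hZ1]
    | succ n ih => rw [pow_succ, hZ _ _ (pow_ne_zero _ (hp i).ne_zero) (hp i).ne_zero, ih, pow_succ]
  have h1 : ∀ s : Finset ι, Z (∏ i ∈ s, p i ^ k i) = ∏ i ∈ s, Z (p i) ^ k i := by
    intro s
    induction s using Finset.induction_on with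
    | empty => simp [hZ1]
    | insert i s hi ih =>
      rw [Finset.prod_insert hi, hZ _ _ (pow_ne_zero _ (hp i).ne_zero)
        (Finset.prod_ne_zero_iff.mpr fun i _ => pow_ne_zero _ (hp i).ne_zero), ih,
        Finset.prod_insert hi, hpow]
  exact h1 Finset.univ

lemma Sp_pe {p : ι → M} (hp : ∀ i, Prime (p i)) (k : ι → ℕ) : Sp p (pe p k) := by
  refine ⟨pe_ne hp k, fun q hq => ?_⟩
  by_contra h
  push Not at h
  have h1 := ex_pe_out hp k h
  have h2 := ex_pos.mpr hq
  omega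

lemma Sp_mul {p : ι → M} {a b : M} (ha : Sp p a) (hb : Sp p b) : Sp p (a * b) := by
  refine ⟨mul_ne_zero ha.1 hb.1, fun q hq => ?_⟩
  have h1 := ex_pos.mpr hq
  rw [ex_mul ha.1 hb.1] at h1
  rcases Nat.eq_zero_or_pos (ex q a) with h | h
  · exact hb.2 q (ex_pos.mp (by omega))
  · exact ha.2 q (ex_pos.mp h)

/-- the coefficients of the product -/
noncomputable def uu (K : ℕ) (p : ι → M) (c : ι → ℂ) (G : M → ℂ) (a : M) : ℂ :=
  ∑ k ∈ bx K (fun i => ex (p i) a), (∏ i, (c i ^ k i / ((k i).factorial : ℂ))) *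
    G (pe p (fun i => ex (p i) a - k i))

open Classical in
/-- **the product with a truncated exponential** -/
theorem prod_TK {p : ι → M} (hp : ∀ i, Prime (p i)) (hinj : Function.Injective p) (K : ℕ)
    (c : ι → ℂ) (G Z : M → ℂ) (hZ1 : Z 1 = 1)
    (hZ : ∀ a b, a ≠ 0 → b ≠ 0 → Z (a * b) = Z a * Z b) (S₁ S₃ : Finset M)
    (h1 : ∀ b ∈ S₁, Sp p b) (h2 : ∀ b, Sp p b → b ∉ S₁ → G b = 0)
    (h3 : ∀ b ∈ S₁, ∀ k ∈ bx K (fun _ : ι => K), (∀ i, k i ≠ 0 → c i ≠ 0) → b * pe p k ∈ S₃)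
    (h4 : ∀ a ∈ S₃, Sp p a) :
    (∑ b ∈ S₁, G b * Z b) * TK K (∑ i, c i * Z (p i)) = ∑ a ∈ S₃, uu K p c G a * Z a := by
  rw [TK_sum, Finset.sum_mul_sum, ← Finset.sum_product']
  have hr : ∑ a ∈ S₃, uu K p c G a * Z a = ∑ q ∈ S₃.sigma (fun a => bx K (fun i => ex (p i) a)),
      (∏ i, (c i ^ q.2 i / ((q.2 i).factorial : ℂ))) *
        G (pe p (fun i => ex (p i) q.1 - q.2 i)) * Z q.1 := by
    rw [Finset.sum_sigma]
    refine Finset.sum_congr rfl fun a _ => ?_
    unfold uu
    rw [Finset.sum_mul]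
  rw [hr]
  have hexm : ∀ b : M, Sp p b → ∀ k : ι → ℕ, ∀ i, ex (p i) (b * pe p k) = ex (p i) b + k i := by
    intro b hb k i
    rw [ex_mul hb.1 (pe_ne hp k), ex_pe hp hinj]
  refine Finset.sum_bij_ne_zero (fun q _ _ => ⟨q.1 * pe p q.2, q.2⟩) ?_ ?_ ?_ ?_
  · intro q hq hne
    rw [Finset.mem_product] at hq
    rw [Finset.mem_sigma]
    refine ⟨h3 q.1 hq.1 q.2 hq.2 fun i hi hci => ?_, ?_⟩
    · apply hne
      have : ∏ i, (((c i * Z (p i)) ^ q.2 i) / ((q.2 i).factorial : ℂ)) = 0 := by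
        refine Finset.prod_eq_zero (Finset.mem_univ i) ?_
        rw [hci, zero_mul, zero_pow hi, zero_div]
      rw [this, mul_zero]
    · rw [mem_bx]
      refine ⟨fun i => ?_, (mem_bx.mp hq.2).2⟩
      simp only
      rw [hexm q.1 (h1 q.1 hq.1)]
      omega
  · intro q hq _ q' hq' _ he
    rw [Finset.mem_product] at hq hq'
    simp only [Sigma.mk.injEq, heq_eq_eq] at he
    obtain ⟨e1, e2⟩ := he
    rw [e2] at e1
    exact Prod.ext (mul_right_cancel₀ (pe_ne hp _) e1) e2
  · rintro ⟨a, k⟩ hq hne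
    rw [Finset.mem_sigma] at hq
    obtain ⟨ha, hk⟩ := hq
    simp only at ha hk hne
    have hSa := h4 a ha
    rw [mem_bx] at hk
    have hmul : pe p (fun i => ex (p i) a - k i) * pe p k = a := by
      conv_rhs => rw [← hSa.eq_pe hp hinj]
      unfold pe
      rw [← Finset.prod_mul_distrib]
      refine Finset.prod_congr rfl fun i _ => ?_
      rw [← pow_add]
      congr 1
      exact Nat.sub_add_cancel (hk.1 i)
    refine ⟨(pe p (fun i => ex (p i) a - k i), k), ?_, ?_, ?_⟩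
    · rw [Finset.mem_product]
      refine ⟨?_, ?_⟩
      · by_contra h
        apply hne
        rw [h2 _ (Sp_pe hp _) h]
        simp
      · rw [mem_bx]
        refine ⟨fun i => ?_, hk.2⟩
        have h5 : k i ≤ ∑ i, k i :=
          Finset.single_le_sum (f := k) (fun i _ => Nat.zero_le _) (Finset.mem_univ i)
        exact h5.trans hk.2
    · intro h0
      apply hne
      simp only at h0
      have e3 : Z a = Z (pe p (fun i => ex (p i) a - k i)) * Z (pe p k) := by
        rw [← hZ _ _ (pe_ne hp _) (pe_ne hp _), hmul]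
      rw [e3, Z_pe hp hZ1 hZ k]
      have e4 : ∏ i, ((c i * Z (p i)) ^ k i / ((k i).factorial : ℂ)) =
          (∏ i, (c i ^ k i / ((k i).factorial : ℂ))) * ∏ i, Z (p i) ^ k i := by
        rw [← Finset.prod_mul_distrib]
        refine Finset.prod_congr rfl fun i _ => ?_
        rw [mul_pow]
        ring
      rw [e4] at h0
      rw [← h0]
      ring
    · simp only
      rw [hmul]
  · intro q hq hne
    rw [Finset.mem_product] at hq
    simp only
    have e4 : ∏ i, ((c i * Z (p i)) ^ q.2 i / ((q.2 i).factorial : ℂ)) =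
        (∏ i, (c i ^ q.2 i / ((q.2 i).factorial : ℂ))) * ∏ i, Z (p i) ^ q.2 i := by
      rw [← Finset.prod_mul_distrib]
      refine Finset.prod_congr rfl fun i _ => ?_
      rw [mul_pow]
      ring
    have e5 : pe p (fun i => ex (p i) (q.1 * pe p q.2) - q.2 i) = q.1 := by
      have : (fun i => ex (p i) (q.1 * pe p q.2) - q.2 i) = fun i => ex (p i) q.1 := by
        funext i
        rw [hexm q.1 (h1 q.1 hq.1)]
        omega
      rw [this]
      exact (h1 q.1 hq.1).eq_pe hp hinj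
    rw [e4, e5, hZ _ _ (h1 q.1 hq.1).1 (pe_ne hp _), Z_pe hp hZ1 hZ]
    ring

end

end Pool.Agent.N786.E
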