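import Pool.Agent.N786.E.Lin

/-!
# The central limit theorem, uniformly in the argument (owner helper786)
-/

set_option autoImplicit false
set_option linter.unusedSectionVars false

open NumberField NumberField.Units MeasureTheory ProbabilityTheory Complex Filter Topology Set

namespace Pool.Agent.N786.E

open Pool.Agent.N786
open Pool.Agent.N786.D
open Pool.Agent.Y773 (LI)
open Pool.Agent.Y767
open Pool.Agent.R399.TW (pt pt_re pt_im pt_cont)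

section

variable (K : Type) [Field K] [NumberField K]

/-- the analytic conductor -/
noncomputable def CC (𝔣 𝔮 : Ideal (𝓞 K)) (T : ℝ) : ℝ :=
  (Ideal.absNorm (𝔣 * 𝔮) : ℝ) * T ^ Module.finrank ℚ K

/-- the hypotheses on the family -/
structure Hyp (h V₀ δ₀ : ℝ) (𝔣 𝔮 : Ideal (𝓞 K)) (ν₀ : InfinitePlace K → ℝ)
    (ψ₀ : Ideal (𝓞 K) →*₀ ℂ) (V T : ℝ) (Lf : (Ideal (𝓞 K) →*₀ ℂ) → ℂ → ℂ) : Prop where
  hk : IsHecke K 𝔣 ν₀ ψ₀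
  hs : ∑ w, ν₀ w = 0
  cop : IsCoprime 𝔣 𝔮
  nb : 𝔮 ≠ ⊥
  nt : 𝔣 * 𝔮 ≠ ⊤
  few : ∑ᶠ 𝔭 ∈ PD 𝔮, (1 / (Ideal.absNorm 𝔭 : ℝ)) ≤ δ₀
  hV : V₀ ≤ V
  hVT : V ≤ T
  hν : ∀ w, |ν₀ w| ≤ T
  hsz : CC K 𝔣 𝔮 T ^ h ≤ (Ideal.absNorm 𝔮 : ℝ) * V ^ Module.finrank ℚ K
  hL : ∀ lam ∈ HFam K 𝔮 V, Differentiable ℂ (Lf lam) ∧
        ∀ s : ℂ, 1 < s.re → Lf lam s = LI (pr ψ₀ lam) s

variable {K}

/-- the part of the pairs for which the L-function is at most `y` -/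
noncomputable def DF (𝔮 : Ideal (𝓞 K)) (V : ℝ) (Lf : (Ideal (𝓞 K) →*₀ ℂ) → ℂ → ℂ) (t₁ y : ℝ) : ℝ :=
  (∑ᶠ lam ∈ HFam K 𝔮 V, volume.real {t ∈ Icc t₁ (t₁ + V) | ‖Lf lam (pt (1 / 2) t)‖ ≤ y}) /
    ((HFam K 𝔮 V).ncard * V)

lemma Hyp.mono {h V₀ δ₀ V₀' δ₀' : ℝ} {𝔣 𝔮 : Ideal (𝓞 K)} {ν₀ : InfinitePlace K → ℝ}
    {ψ₀ : Ideal (𝓞 K) →*₀ ℂ} {V T : ℝ} {Lf : (Ideal (𝓞 K) →*₀ ℂ) → ℂ → ℂ}
    (H : Hyp K h V₀' δ₀' 𝔣 𝔮 ν₀ ψ₀ V T Lf) (hV : V₀ ≤ V₀') (hδ : δ₀' ≤ δ₀) :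
    Hyp K h V₀ δ₀ 𝔣 𝔮 ν₀ ψ₀ V T Lf :=
  ⟨H.hk, H.hs, H.cop, H.nb, H.nt, H.few.trans hδ, hV.trans H.hV, H.hVT, H.hν, H.hsz, H.hL⟩

lemma Hyp.T_le [IsTotallyReal K] {h V₀ δ₀ : ℝ} {𝔣 𝔮 : Ideal (𝓞 K)} {ν₀ : InfinitePlace K → ℝ}
    {ψ₀ : Ideal (𝓞 K) →*₀ ℂ} {V T : ℝ} {Lf : (Ideal (𝓞 K) →*₀ ℂ) → ℂ → ℂ}
    (H : Hyp K h V₀ δ₀ 𝔣 𝔮 ν₀ ψ₀ V T Lf) (hV : 1 ≤ V₀) : V₀ ≤ CC K 𝔣 𝔮 T := by
  have hT : 1 ≤ T := hV.trans (H.hV.trans H.hVT)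
  have hbot : 𝔣 * 𝔮 ≠ ⊥ := mul_ne_zero H.hk.ne_bot H.nb
  have h1 : (1 : ℝ) ≤ Ideal.absNorm (𝔣 * 𝔮) := one_le_norm hbot
  have h2 : T ≤ T ^ Module.finrank ℚ K := by
    calc T = T ^ 1 := (pow_one T).symm
      _ ≤ _ := pow_le_pow_right₀ hT Module.finrank_pos
  unfold CC
  have h3 : T ^ Module.finrank ℚ K ≤ (Ideal.absNorm (𝔣 * 𝔮) : ℝ) * T ^ Module.finrank ℚ K :=
    le_mul_of_one_le_left (by positivity) h1
  exact (H.hV.trans H.hVT).trans (h2.trans h3)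

end

/-- the central limit theorem at one point -/
theorem clt_one (K : Type) [Field K] [NumberField K] [IsTotallyReal K] (h : ℝ) (hh : 1 / 2 < h)
    (hh1 : h ≤ 1) (x ε : ℝ) (hε : 0 < ε) :
    ∃ V₀ δ₀ : ℝ, 1 ≤ V₀ ∧ 0 < δ₀ ∧ ∀ (𝔣 𝔮 : Ideal (𝓞 K)) (ν₀ : InfinitePlace K → ℝ)
      (ψ₀ : Ideal (𝓞 K) →*₀ ℂ) (V T : ℝ) (Lf : (Ideal (𝓞 K) →*₀ ℂ) → ℂ → ℂ),
      Hyp K h V₀ δ₀ 𝔣 𝔮 ν₀ ψ₀ V T Lf → (HFam K 𝔮 V).Finite ∧ 0 < (HFam K 𝔮 V).ncard ∧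
      ∀ t₁ : ℝ, |t₁| ≤ T → |DF 𝔮 V Lf t₁
        (Real.exp (x * √(Real.log (Real.log (CC K 𝔣 𝔮 T)) / 2))) - Phi x| ≤ ε := by
  obtain ⟨V₁, δ₁, R₁, hV₁, hδ₁, H₁⟩ := clt_fam K h hh hh1 x ε hε
  obtain ⟨A₁, hA₁, hD⟩ := Pool.Agent.Y772.DK.t_dirK K
  refine ⟨max V₁ (Real.exp R₁), δ₁, le_max_of_le_left hV₁, hδ₁, ?_⟩
  intro 𝔣 𝔮 ν₀ ψ₀ V T Lf H
  have hV0 : V₁ ≤ V := (le_max_left _ _).trans H.hV
  have hVpos : 0 < V := by linarith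
  have hC := H.T_le (le_max_of_le_left hV₁)
  have hRR : R₁ ≤ Real.log (CC K 𝔣 𝔮 T) := by
    have h1 : Real.exp R₁ ≤ CC K 𝔣 𝔮 T := (le_max_right _ _).trans hC
    rwa [Real.le_log_iff_exp_le (lt_of_lt_of_le (Real.exp_pos _) h1)]
  obtain ⟨hfin, hcard, h1⟩ := H₁ 𝔣 𝔮 ν₀ ψ₀ V T H.hk H.hs H.cop H.nb H.nt H.few hV0 H.hVT H.hν H.hsz hRR
    Lf H.hL
  refine ⟨hfin, hcard, fun t₁ ht₁ => ?_⟩
  have h2 := h1 t₁ ht₁
  have hW : 0 < ((HFam K 𝔮 V).ncard : ℝ) * V := by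
    have : (0 : ℝ) < ((HFam K 𝔮 V).ncard : ℝ) := by exact_mod_cast hcard
    positivity
  have e1 : ∑ᶠ lam ∈ HFam K 𝔮 V, volume.real {t ∈ Icc t₁ (t₁ + V) | ‖Lf lam (pt (1 / 2) t)‖ ≤
      Real.exp (x * √(Real.log (Real.log (CC K 𝔣 𝔮 T)) / 2))} =
      ∑ᶠ lam ∈ HFam K 𝔮 V, volume.real {t ∈ Icc t₁ (t₁ + V) | Real.log ‖Lf lam (pt (1 / 2) t)‖ ≤
        x * √(Real.log (Real.log ((Ideal.absNorm (𝔣 * 𝔮) : ℝ) * T ^ Module.finrank ℚ K)) / 2)} := by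
    refine finsum_mem_congr rfl fun lam hl => ?_
    obtain ⟨hd, hser⟩ := H.hL lam hl
    obtain ⟨ν, a1, a2, a3⟩ := hl
    have h3 := pr_isHecke H.cop H.hk a3
    have hsum : ∑ w, (ν₀ + ν) w = 0 := by
      simp only [Pi.add_apply]
      rw [Finset.sum_add_distrib, H.hs, a2, add_zero]
    obtain ⟨e₀, he₀, hM⟩ := h3.toIsHM.isModK hsum H.nt
    have hne : Lf lam 2 ≠ 0 := by
      rw [hser 2 (by norm_num)]
      exact (hD _ hM.norm_le_one).2.2.1 2 (by norm_num)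
    have hnull := null_zeros hd hne (1 / 2)
    refine measureReal_congr ?_
    have hae : ∀ᵐ t : ℝ, Lf lam (pt (1 / 2) t) ≠ 0 := by
      rw [ae_iff]
      simpa using hnull
    filter_upwards [hae] with t ht
    have hpos : 0 < ‖Lf lam (pt (1 / 2) t)‖ := norm_pos_iff.mpr ht
    refine propext ?_
    change (t ∈ Icc t₁ (t₁ + V) ∧ _) ↔ (t ∈ Icc t₁ (t₁ + V) ∧ _)
    rw [Real.log_le_iff_le_exp hpos]
    rfl
  unfold DF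
  rw [e1, div_sub' hW.ne', abs_div, abs_of_pos hW, div_le_iff₀ hW, mul_comm _ (Phi x)]
  exact h2

/-- **The central limit theorem, uniformly in the argument** -/
theorem clt_unif (K : Type) [Field K] [NumberField K] [IsTotallyReal K] (h : ℝ) (hh : 1 / 2 < h)
    (hh1 : h ≤ 1) (ε : ℝ) (hε : 0 < ε) :
    ∃ V₀ δ₀ : ℝ, 1 ≤ V₀ ∧ 0 < δ₀ ∧ ∀ (𝔣 𝔮 : Ideal (𝓞 K)) (ν₀ : InfinitePlace K → ℝ)
      (ψ₀ : Ideal (𝓞 K) →*₀ ℂ) (V T : ℝ) (Lf : (Ideal (𝓞 K) →*₀ ℂ) → ℂ → ℂ),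
      Hyp K h V₀ δ₀ 𝔣 𝔮 ν₀ ψ₀ V T Lf → (HFam K 𝔮 V).Finite ∧ 0 < (HFam K 𝔮 V).ncard ∧
      ∀ t₁ : ℝ, |t₁| ≤ T → ∀ x : ℝ, |DF 𝔮 V Lf t₁
        (Real.exp (x * √(Real.log (Real.log (CC K 𝔣 𝔮 T)) / 2))) - Phi x| ≤ ε := by
  obtain ⟨X, hX0, hX1, hX2⟩ := Phi_tails (ε / 4) (by positivity)
  -- the grid
  obtain ⟨m, hm⟩ : ∃ m : ℕ, 2 * X ≤ m * (ε / 2) := by
    obtain ⟨m, hm⟩ := exists_nat_ge (2 * X / (ε / 2))
    rw [div_le_iff₀ (by positivity)] at hm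
    exact ⟨m, hm⟩
  obtain ⟨y, hy⟩ : ∃ y : ℕ → ℝ, y = fun j : ℕ => -X + (j : ℝ) * (ε / 2) := ⟨_, rfl⟩
  have hgrid : ∀ M : ℕ, ∃ V₀ δ₀ : ℝ, 1 ≤ V₀ ∧ 0 < δ₀ ∧ ∀ j < M, ∀ (𝔣 𝔮 : Ideal (𝓞 K))
      (ν₀ : InfinitePlace K → ℝ) (ψ₀ : Ideal (𝓞 K) →*₀ ℂ) (V T : ℝ)
      (Lf : (Ideal (𝓞 K) →*₀ ℂ) → ℂ → ℂ),
      Hyp K h V₀ δ₀ 𝔣 𝔮 ν₀ ψ₀ V T Lf → (HFam K 𝔮 V).Finite ∧ 0 < (HFam K 𝔮 V).ncard ∧
      ∀ t₁ : ℝ, |t₁| ≤ T → |DF 𝔮 V Lf t₁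
        (Real.exp (y j * √(Real.log (Real.log (CC K 𝔣 𝔮 T)) / 2))) - Phi (y j)| ≤ ε / 4 := by
    intro M
    induction M with
    | zero => exact ⟨1, 1, le_rfl, one_pos, fun j hj => by omega⟩
    | succ M ih =>
      obtain ⟨V₁, δ₁, hV₁, hδ₁, H₁⟩ := ih
      obtain ⟨V₂, δ₂, hV₂, hδ₂, H₂⟩ := clt_one K h hh hh1 (y M) (ε / 4) (by positivity)
      refine ⟨max V₁ V₂, min δ₁ δ₂, le_max_of_le_left hV₁, lt_min hδ₁ hδ₂, fun j hj => ?_⟩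
      intro 𝔣 𝔮 ν₀ ψ₀ V T Lf H
      rcases Nat.lt_succ_iff_lt_or_eq.mp hj with h1 | h1
      · exact H₁ j h1 𝔣 𝔮 ν₀ ψ₀ V T Lf (H.mono (le_max_left _ _) (min_le_left _ _))
      · rw [h1]
        exact H₂ 𝔣 𝔮 ν₀ ψ₀ V T Lf (H.mono (le_max_right _ _) (min_le_right _ _))
  obtain ⟨V₀, δ₀, hV₀, hδ₀, HG⟩ := hgrid (m + 1)
  refine ⟨V₀, δ₀, hV₀, hδ₀, ?_⟩
  intro 𝔣 𝔮 ν₀ ψ₀ V T Lf H
  obtain ⟨hfin, hcard, -⟩ := HG 0 (by omega) 𝔣 𝔮 ν₀ ψ₀ V T Lf H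
  refine ⟨hfin, hcard, fun t₁ ht₁ x => ?_⟩
  have hVpos : 0 < V := by linarith [H.hV]
  have hW : 0 < ((HFam K 𝔮 V).ncard : ℝ) * V := by
    have : (0 : ℝ) < ((HFam K 𝔮 V).ncard : ℝ) := by exact_mod_cast hcard
    positivity
  obtain ⟨q, hq⟩ : ∃ q : ℝ, q = √(Real.log (Real.log (CC K 𝔣 𝔮 T)) / 2) := ⟨_, rfl⟩
  have hq0 : 0 ≤ q := by rw [hq]; positivity
  obtain ⟨D, hDd⟩ : ∃ D : ℝ → ℝ, D = fun x => DF 𝔮 V Lf t₁ (Real.exp (x * q)) := ⟨_, rfl⟩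
  have hGr : ∀ j < m + 1, |D (y j) - Phi (y j)| ≤ ε / 4 := by
    intro j hj
    have h1 := (HG j hj 𝔣 𝔮 ν₀ ψ₀ V T Lf H).2.2 t₁ ht₁
    rw [← hq] at h1
    rw [hDd]
    exact h1
  have hvf : ∀ (p : ℝ → Prop), volume {t ∈ Icc t₁ (t₁ + V) | p t} ≠ ⊤ := fun p =>
    ne_of_lt (lt_of_le_of_lt (measure_mono (sep_subset _ _)) measure_Icc_lt_top)
  have hDmono : ∀ a b : ℝ, a ≤ b → D a ≤ D b := by
    intro a b hab
    rw [hDd]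
    simp only
    unfold DF
    rw [finsum_mem_eq_finite_toFinset_sum _ hfin, finsum_mem_eq_finite_toFinset_sum _ hfin]
    refine div_le_div_of_nonneg_right (Finset.sum_le_sum fun lam _ => ?_) hW.le
    refine measureReal_mono ?_ (hvf _)
    rintro t ⟨ht1, ht2⟩
    exact ⟨ht1, ht2.trans (Real.exp_le_exp.mpr (mul_le_mul_of_nonneg_right hab hq0))⟩
  have hD0 : ∀ a : ℝ, 0 ≤ D a := by
    intro a
    rw [hDd]
    simp only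
    unfold DF
    rw [finsum_mem_eq_finite_toFinset_sum _ hfin]
    exact div_nonneg (Finset.sum_nonneg fun _ _ => measureReal_nonneg) hW.le
  have hD1 : ∀ a : ℝ, D a ≤ 1 := by
    intro a
    rw [hDd]
    simp only
    unfold DF
    rw [finsum_mem_eq_finite_toFinset_sum _ hfin, div_le_one hW, Set.ncard_eq_toFinset_card _ hfin,
      ← nsmul_eq_mul, ← Finset.sum_const]
    refine Finset.sum_le_sum fun lam _ => ?_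
    refine (measureReal_mono (sep_subset _ _) measure_Icc_lt_top.ne).trans (le_of_eq ?_)
    rw [measureReal_def, Real.volume_Icc, ENNReal.toReal_ofReal (by linarith)]
    ring
  have hPm : ∀ a b : ℝ, a ≤ b → Phi a ≤ Phi b := fun a b hab => (Phi_lip hab).1
  have hP0 : ∀ a : ℝ, 0 ≤ Phi a := fun a => by rw [Phi_eq]; exact measureReal_nonneg
  have hP1 : ∀ a : ℝ, Phi a ≤ 1 := fun a => by rw [Phi_eq]; exact measureReal_le_one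
  have hgoal : |D x - Phi x| ≤ ε := by
    have hy0 : y 0 = -X := by rw [hy]; simp
    have hym : X ≤ y m := by rw [hy]; simp only; linarith
    have g0 := abs_le.mp (hGr 0 (by omega))
    have gm := abs_le.mp (hGr m (by omega))
    rw [hy0] at g0
    rw [abs_le]
    rcases le_total x (-X) with hx | hx
    · have h1 := hDmono x (-X) hx
      have h2 := hPm x (-X) hx
      have h3 := hD0 x
      have h4 := hP0 x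
      constructor <;> linarith [g0.1, g0.2]
    rcases le_total (y m) x with hx2 | hx2
    · have h1 := hDmono (y m) x hx2
      have h2 := hPm X (y m) hym
      have h3 := hPm X x (hym.trans hx2)
      have h4 := hD1 x
      have h5 := hP1 x
      constructor <;> linarith [gm.1, gm.2]
    -- inside of the grid
    obtain ⟨j, hj⟩ : ∃ j : ℕ, j = ⌊(x + X) / (ε / 2)⌋₊ := ⟨_, rfl⟩
    have hxX : 0 ≤ (x + X) / (ε / 2) := div_nonneg (by linarith) (by positivity)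
    have hj1 : (j : ℝ) ≤ (x + X) / (ε / 2) := by rw [hj]; exact Nat.floor_le hxX
    have hj2 : (x + X) / (ε / 2) < j + 1 := by rw [hj]; exact Nat.lt_floor_add_one _
    rw [le_div_iff₀ (by positivity)] at hj1
    rw [div_lt_iff₀ (by positivity)] at hj2
    have hyj : y j ≤ x := by rw [hy]; simp only; linarith
    have hyj1 : x ≤ y (j + 1) := by rw [hy]; simp only; push_cast; linarith
    have hjm : j ≤ m := by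
      by_contra hcon
      have h1 : (m : ℝ) + 1 ≤ j := by exact_mod_cast Nat.lt_of_not_le hcon
      have h2 : x ≤ -X + m * (ε / 2) := by
        have := hx2
        rw [hy] at this
        exact this
      nlinarith
    have gj := abs_le.mp (hGr j (by omega))
    have h1 := hDmono _ _ hyj
    have h2 := hPm _ _ hyj
    have h3 := (Phi_lip hyj).2
    have hstep : x - y j ≤ ε / 2 := by
      rw [hy]; simp only; nlinarith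
    rcases Nat.lt_or_ge j m with hjm' | hjm'
    · have gj1 := abs_le.mp (hGr (j + 1) (by omega))
      have h4 := hDmono _ _ hyj1
      have h5 := (Phi_lip hyj1).2
      have hstep2 : y (j + 1) - x ≤ ε / 2 := by
        rw [hy]; simp only; push_cast; nlinarith
      constructor <;> linarith [gj.1, gj.2, gj1.1, gj1.2]
    · have hjeq : j = m := le_antisymm hjm hjm'
      have hxe : x = y m := le_antisymm hx2 (by rw [← hjeq]; exact hyj)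
      rw [hxe]
      constructor <;> linarith [gm.1, gm.2]
  rw [hDd, hq] at hgoal
  exact hgoal

end Pool.Agent.N786.E
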