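import Pool.Agent.N786.E.Bad

/-!
# The step from the critical line, for long windows (owner helper786)
-/

set_option autoImplicit false
set_option linter.unusedSectionVars false

open NumberField NumberField.Units MeasureTheory Complex Filter Topology Set

namespace Pool.Agent.N786.E

open Pool.Agent.N786
open Pool.Agent.N786.D
open Pool.Agent.R399.TW (pt pt_re pt_im pt_cont)

lemma cover {t₁ V : ℝ} (hV : 0 < V) (J : ℕ) (hJ : 2 * V ≤ J) :
    Icc t₁ (t₁ + V) ⊆ ⋃ j : Fin J, Icc ((t₁ + 1 / 4 + j / 2) - 1 / 4) ((t₁ + 1 / 4 + j / 2) + 1 / 4) := by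
  intro t ht
  rw [mem_iUnion]
  obtain ⟨j, hj⟩ : ∃ j : ℕ, j = ⌊2 * (t - t₁)⌋₊ := ⟨_, rfl⟩
  have h0 : 0 ≤ 2 * (t - t₁) := by linarith [ht.1]
  have h1 : (j : ℝ) ≤ 2 * (t - t₁) := by rw [hj]; exact Nat.floor_le h0
  have h2 : 2 * (t - t₁) < j + 1 := by rw [hj]; exact Nat.lt_floor_add_one _
  by_cases hjJ : j < J
  · refine ⟨⟨j, hjJ⟩, ?_⟩
    rw [mem_Icc]
    constructor
    · simp only
      linarith
    · simp only
      linarith
  · have hJj : (J : ℝ) ≤ j := by exact_mod_cast Nat.le_of_not_lt hjJ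
    have h3 : t ≤ t₁ + V := ht.2
    have h4 : (j : ℝ) = 2 * V := by linarith
    have hJpos : 0 < J := by
      by_contra h
      have h5 : J = 0 := by omega
      rw [h5] at hJ
      push_cast at hJ
      linarith
    have h5 : (J : ℝ) = 2 * V := le_antisymm (by linarith) hJ
    refine ⟨⟨J - 1, by omega⟩, ?_⟩
    have h6 : (((J - 1 : ℕ) : ℕ) : ℝ) = 2 * V - 1 := by
      rw [Nat.cast_sub (by omega), h5]
      norm_num
    rw [mem_Icc]
    simp only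
    rw [h6]
    constructor
    · linarith
    · linarith

theorem zero_win (A : ℝ) (n : ℕ) (hA : 1 ≤ A) : ∃ C : ℝ, 0 ≤ C ∧
    ∀ (K : Type) [Field K] [NumberField K] (T R : ℝ) (χ : Ideal (𝓞 K) →*₀ ℂ) (F : ℂ → ℂ),
    1 ≤ R → GLf A T R n χ F → ∀ t₁ V : ℝ, |t₁| ≤ T → 1 ≤ V → V ≤ T →
    ∀ d : ℝ, 0 ≤ d → d ≤ 1 / 4 → ∫⁻ t in Icc t₁ (t₁ + V),
      ENNReal.ofReal |Real.log ‖F (pt (1 / 2) t)‖ - Real.log ‖F (pt (1 / 2 + d) t)‖| ≤
      ENNReal.ofReal (C * V * (R * d)) := by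
  obtain ⟨C, hC, H⟩ := zero_step A n hA
  refine ⟨3 * C, by positivity, ?_⟩
  intro K _ _ T R χ F hR hF t₁ V ht₁ hV hVT d hd hd1
  have hT : 1 ≤ T := hV.trans hVT
  obtain ⟨J, hJ⟩ : ∃ J : ℕ, J = ⌈2 * V⌉₊ := ⟨_, rfl⟩
  have hJ1 : 2 * V ≤ J := by rw [hJ]; exact Nat.le_ceil _
  have hJ2 : (J : ℝ) < 2 * V + 1 := by rw [hJ]; exact Nat.ceil_lt_add_one (by linarith)
  set f : ℝ → ENNReal := fun t =>
    ENNReal.ofReal |Real.log ‖F (pt (1 / 2) t)‖ - Real.log ‖F (pt (1 / 2 + d) t)‖| with hf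
  have h1 : ∫⁻ t in Icc t₁ (t₁ + V), f t ≤ ∑ j : Fin J,
      ∫⁻ t in Icc ((t₁ + 1 / 4 + j / 2) - 1 / 4) ((t₁ + 1 / 4 + j / 2) + 1 / 4), f t := by
    refine (lintegral_mono_set (cover (by linarith) J hJ1)).trans ?_
    refine (lintegral_iUnion_le _ _).trans (le_of_eq ?_)
    rw [tsum_fintype]
  have h2 : ∀ j : Fin J, ∫⁻ t in Icc ((t₁ + 1 / 4 + j / 2) - 1 / 4) ((t₁ + 1 / 4 + j / 2) + 1 / 4), f t ≤
      ENNReal.ofReal (C * (R * d)) := by
    intro j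
    refine H K T R χ F hT hR hF _ ?_ d hd hd1
    have hj : ((j : ℕ) : ℝ) + 1 ≤ J := by exact_mod_cast j.2
    have hj0 : (0 : ℝ) ≤ ((j : ℕ) : ℝ) := Nat.cast_nonneg _
    have ht := abs_le.mp ht₁
    rw [abs_le]
    constructor
    · linarith [ht.1]
    · linarith [ht.2]
  refine h1.trans ((Finset.sum_le_sum fun j _ => h2 j).trans ?_)
  rw [Finset.sum_const, Finset.card_univ, Fintype.card_fin, nsmul_eq_mul,
    ← ENNReal.ofReal_natCast, ← ENNReal.ofReal_mul (Nat.cast_nonneg _)]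
  refine ENNReal.ofReal_le_ofReal ?_
  have h3 : (J : ℝ) ≤ 3 * V := by linarith
  have h4 : 0 ≤ C * (R * d) := by positivity
  calc (J : ℝ) * (C * (R * d)) ≤ 3 * V * (C * (R * d)) := mul_le_mul_of_nonneg_right h3 h4
    _ = _ := by ring

end Pool.Agent.N786.E
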